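import Pool.Agent.D0H1.SF.Form
import Pool.Agent.R390.SF.BN2
import Pool.Agent.Y800.Lin

/-!
# Modules with the same traces: isotropic submodules
-/

set_option autoImplicit false
set_option linter.unusedSectionVars false

namespace Pool.Agent.D0H1.SF

open Module Polynomial Pool.Agent.R390.SF

universe u

section dens

variable (k : Type*) {A : Type*} [Field k] [Ring A] [Algebra k A]
  {M N : Type u} [AddCommGroup M] [Module k M] [Module A M] [IsScalarTower k A M]
  [AddCommGroup N] [Module k N] [Module A N] [IsScalarTower k A N]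
  [FiniteDimensional k M] [FiniteDimensional k N] [IsSemisimpleModule A M]
  [IsSemisimpleModule A N]

include k in
/-- modules without homomorphisms are separated by an element of the algebra -/
theorem density (hcon : ∀ f : M →ₗ[A] N, f = 0) :
    ∃ a : A, (∀ x : M, a • x = x) ∧ ∀ y : N, a • y = 0 := by
  classical
  have hcon' : ∀ g : N →ₗ[A] M, g = 0 := fun g => hom_symm hcon g
  have hf : ∀ (f : Module.End A (M × N)) (x : M) (y : N), (f (x, y)).1 = (f (x, 0)).1 ∧
      (f (x, 0)).2 = 0 := by
    intro f x y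
    constructor
    · have h1 : f (x, y) = f (x, 0) + f (0, y) := by
        rw [← map_add]
        simp
      have h2 := LinearMap.congr_fun (hcon' ((LinearMap.fst A M N).comp (f.comp
        (LinearMap.inr A M N)))) y
      have h3 : (f (0, y)).1 = 0 := h2
      rw [h1, Prod.fst_add, h3, add_zero]
    · exact LinearMap.congr_fun (hcon ((LinearMap.snd A M N).comp (f.comp
        (LinearMap.inl A M N)))) x
  let e : Module.End (Module.End A (M × N)) (M × N) :=
    { toFun := fun p => (p.1, 0)
      map_add' := fun p q => by simp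
      map_smul' := fun f p => by
        obtain ⟨x, y⟩ := p
        show ((f (x, y)).1, (0 : N)) = f (x, 0)
        rw [(hf f x y).1]
        exact Prod.ext rfl (hf f x y).2.symm }
  have hss : IsSemisimpleModule A (M × N) := by
    have h1 : IsSemisimpleModule A (LinearMap.range (LinearMap.inl A M N)) :=
      IsSemisimpleModule.congr (LinearEquiv.ofInjective (LinearMap.inl A M N)
        LinearMap.inl_injective).symm
    have h2 : IsSemisimpleModule A (LinearMap.range (LinearMap.inr A M N)) :=
      IsSemisimpleModule.congr (LinearEquiv.ofInjective (LinearMap.inr A M N)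
        LinearMap.inr_injective).symm
    have h3 := IsSemisimpleModule.sup h1 h2
    rw [LinearMap.sup_range_inl_inr] at h3
    exact IsSemisimpleModule.congr Submodule.topEquiv.symm
  let b := Module.finBasis k (M × N)
  obtain ⟨a, ha⟩ := jacobson_density (R := A) e (Finset.univ.image b)
  have ha' : ∀ p : M × N, a • p = (p.1, 0) := by
    intro p
    have h1 : Algebra.lsmul k k (M × N) a = (LinearMap.inl k M N).comp (LinearMap.fst k M N) := by
      refine b.ext fun i => ?_
      have h2 := ha (b i) (Finset.mem_image_of_mem _ (Finset.mem_univ _))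
      exact h2.symm
    exact LinearMap.congr_fun h1 p
  exact ⟨a, fun x => congrArg Prod.fst (ha' (x, 0)), fun y => congrArg Prod.snd (ha' (0, y))⟩

end dens

section nil

variable {k : Type*} [Field k] {M : Type*} [AddCommGroup M] [Module k M] [FiniteDimensional k M]

theorem nilpotent_of_trc {y : End k M}
    (hn : ∀ m : ℕ, 1 ≤ m → m ≤ finrank k M → (m : k) ≠ 0)
    (ht : ∀ f : k[X], LinearMap.trace k M (aeval y f * y) = 0) : IsNilpotent y := by
  let b := Module.finBasis k M
  let e := LinearMap.toMatrixAlgEquiv b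
  have h1 : IsNilpotent (e y) := by
    apply Pool.Agent.Y800.nilpotent_of_trace hn
    intro f
    have h2 : aeval (e y) f * e y = e (aeval y f * y) := by
      rw [map_mul, ← Polynomial.aeval_algHom_apply]
    rw [h2]
    have h3 := ht f
    rw [LinearMap.trace_eq_matrix_trace k b] at h3
    exact h3
  obtain ⟨m, hm⟩ := h1
  refine ⟨m, ?_⟩
  rw [← map_pow] at hm
  exact (map_eq_zero_iff e e.injective).1 hm

end nil

section poly

variable {k : Type*} [Field k]

/-- a polynomial which lifts idempotents -/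
theorem exists_lift (m : ℕ) : ∃ P : k[X], (∃ Q : k[X], P - 1 = (X - 1) * Q) ∧
    (∃ Q : k[X], P = X * Q) ∧ ∃ Q : k[X], P * P - P = (X ^ 2 - X) ^ (m + 1) * Q := by
  set t : k[X] := X ^ (m + 1) with ht
  have h1 : (1 - X : k[X]) ∣ 1 - t := by
    have := sub_dvd_pow_sub_pow (1 : k[X]) X (m + 1)
    rwa [one_pow] at this
  have h2 : t ∣ 1 - (1 - t) ^ (m + 1) := by
    have := sub_dvd_pow_sub_pow (1 : k[X]) (1 - t) (m + 1)
    rwa [one_pow, sub_sub_cancel] at this
  have h3 : (1 - X : k[X]) ^ (m + 1) ∣ (1 - t) ^ (m + 1) := pow_dvd_pow_of_dvd h1 _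
  obtain ⟨a, ha⟩ := h1
  obtain ⟨b, hb⟩ := h2
  obtain ⟨c, hc⟩ := h3
  refine ⟨1 - (1 - t) ^ (m + 1), ⟨a * (1 - t) ^ m, ?_⟩, ⟨X ^ m * b, ?_⟩,
    ⟨- (-1) ^ (m + 1) * b * c, ?_⟩⟩
  · rw [pow_succ, ha]
    ring
  · rw [hb, ht, pow_succ]
    ring
  · have e1 : (1 - (1 - t) ^ (m + 1)) * (1 - (1 - t) ^ (m + 1)) - (1 - (1 - t) ^ (m + 1)) =
        - ((1 - (1 - t) ^ (m + 1)) * (1 - t) ^ (m + 1)) := by ring
    rw [e1, hb, hc, ht]
    have e2 : (X ^ 2 - X : k[X]) = (-1) * (X * (1 - X)) := by ring
    rw [e2, mul_pow (-1 : k[X]), mul_pow X]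
    have e3 : ((-1 : k[X]) ^ (m + 1)) * ((-1 : k[X]) ^ (m + 1)) = 1 := by
      rw [← mul_pow]
      simp
    linear_combination (-(X ^ (m + 1) * (1 - X) ^ (m + 1) * b * c)) * (1 - e3)

end poly

section main

variable {k : Type*} {A : Type*} [Field k] [Ring A] [Algebra k A]
  {M₀ M : Type u} [AddCommGroup M] [Module k M] [Module A M] [IsScalarTower k A M]
  [AddCommGroup M₀] [Module k M₀] [Module A M₀] [IsScalarTower k A M₀]
  [FiniteDimensional k M] [FiniteDimensional k M₀]

/-- the action of an element -/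
noncomputable def act (k : Type*) [Field k] {A : Type*} [Ring A] [Algebra k A] (M : Type u)
    [AddCommGroup M] [Module k M] [Module A M] [IsScalarTower k A M] : A →ₐ[k] End k M :=
  Algebra.lsmul k k M

theorem act_apply (a : A) (x : M) : act k M a x = a • x := rfl

/-- multiplicity one -/
theorem mult_one {ν : A} (hν : IsNilpotent (act k M₀ ν)) (hD : Dist (act k M₀ ν))
    {W W' : Submodule A M₀} (hW : IsCompl W W') [IsSimpleModule A W] [IsSemisimpleModule A W']
    (f : W →ₗ[A] W') : f = 0 := by
  by_contra hf0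
  have hf : Function.Injective f := by
    rcases LinearMap.injective_or_eq_zero f with h | h
    · exact h
    · exact absurd h hf0
  obtain ⟨s, hs⟩ := IsSemisimpleModule.extension_property f hf (LinearMap.id : W →ₗ[A] W)
  have hs' : ∀ x, s (f x) = x := fun x => LinearMap.congr_fun hs x
  -- the projections
  let π : M₀ →ₗ[A] W := W.projectionOnto W' hW
  let π' : M₀ →ₗ[A] W' := W'.projectionOnto W hW.symm
  have hπ : ∀ x : W, π x = x := fun x => Submodule.projectionOnto_apply_left hW x
  have hπ0 : ∀ x : W', π x = 0 := fun x => Submodule.projectionOnto_apply_right hW x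
  have hπ' : ∀ x : W', π' x = x := fun x => Submodule.projectionOnto_apply_left hW.symm x
  have hact : ∀ (j : ℕ) (x : M₀), ((act k M₀ ν) ^ j) x = (ν ^ j) • x := by
    intro j x
    rw [← map_pow]
    rfl
  obtain ⟨m, hm⟩ := hν
  have hm' : ∀ x : M₀, (ν ^ m) • x = 0 := by
    intro x
    rw [← hact, hm]
    rfl
  -- a vector in the kernel
  have hker : ∃ y : W, y ≠ 0 ∧ ν • y = 0 := by
    by_contra hcon
    push Not at hcon
    have h1 : ∀ (j : ℕ) (y : W), y ≠ 0 → (ν ^ j) • y ≠ 0 := by
      intro j
      induction j with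
      | zero => intro y hy; rw [pow_zero, one_smul]; exact hy
      | succ j ih =>
        intro y hy
        rw [pow_succ', mul_smul]
        exact hcon _ (ih y hy)
    have : Nontrivial W := IsSimpleModule.nontrivial A W
    obtain ⟨y, hy⟩ := exists_ne (0 : W)
    refine h1 m y hy (Subtype.ext ?_)
    exact hm' y
  obtain ⟨y, hy, hνy⟩ := hker
  -- its depth
  have hdepth : ∃ b : ℕ, (y : M₀) ∈ LinearMap.range ((act k M₀ ν) ^ b) ∧
      (y : M₀) ∉ LinearMap.range ((act k M₀ ν) ^ (b + 1)) := by
    by_contra hcon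
    push Not at hcon
    have h1 : ∀ b : ℕ, (y : M₀) ∈ LinearMap.range ((act k M₀ ν) ^ b) := by
      intro b
      induction b with
      | zero => exact ⟨y, by simp⟩
      | succ b ih => exact hcon b ih
    obtain ⟨z, hz⟩ := h1 m
    rw [hm] at hz
    exact hy (Subtype.ext hz.symm)
  obtain ⟨b, ⟨v, hv⟩, hb⟩ := hdepth
  rw [hact] at hv
  have e1 : f y = (ν ^ b) • f (π v) := by
    rw [← map_smul, ← map_smul, hv, hπ]
  obtain ⟨a, z, hz⟩ := hD b (f y : M₀) (y : M₀) (by
      have h1 : ν • f y = 0 := by rw [← map_smul, hνy, map_zero]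
      exact congrArg Subtype.val h1) ⟨(f (π v) : M₀), by
        rw [hact]
        exact (congrArg Subtype.val e1).symm⟩ (by exact congrArg Subtype.val hνy)
    ⟨v, by rw [hact]; exact hv⟩ hb
  rw [hact] at hz
  have hsm : ∀ (a : k) (x : M₀), π (a • x) = (algebraMap k A a) • π x := by
    intro a x
    rw [← map_smul, algebraMap_smul]
  have ha : a = 0 := by
    by_contra ha0
    have h1 := congrArg π hz
    rw [map_smul, map_sub, hπ0, hsm, hπ, zero_sub] at h1
    apply hb
    refine ⟨(- a⁻¹) • (π z : M₀), ?_⟩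
    rw [map_smul, hact]
    have h2 : (ν ^ (b + 1)) • (π z : M₀) = -((algebraMap k A a) • (y : M₀)) :=
      congrArg Subtype.val h1
    rw [h2, algebraMap_smul, smul_neg, neg_smul, neg_neg, smul_smul, inv_mul_cancel₀ ha0, one_smul]
  rw [ha, zero_smul, sub_zero] at hz
  apply hb
  refine ⟨(s (π' z) : M₀), ?_⟩
  rw [hact]
  have h1 : (ν ^ (b + 1)) • s (π' z) = y := by
    rw [← map_smul, ← map_smul, hz, hπ', hs']
  exact congrArg Subtype.val h1

/-- **Transfer of the absence of isotropic submodules.** -/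
theorem noiso_abs [IsSemisimpleModule A M₀] (hdim : finrank k M = finrank k M₀)
    (hn : ∀ m : ℕ, 1 ≤ m → m ≤ finrank k M → (m : k) ≠ 0)
    (htr : ∀ a : A, LinearMap.trace k M (act k M a) = LinearMap.trace k M₀ (act k M₀ a))
    {B₀ : M₀ →ₗ[k] M₀ →ₗ[k] k} {B : M →ₗ[k] M →ₗ[k] k}
    (hl₀ : ∀ x, (∀ y, B₀ x y = 0) → x = 0) (hl : ∀ x, (∀ y, B x y = 0) → x = 0)
    (hst : ∀ a : A, ∃ a' : A, (∀ x y, B x (a • y) = B (a' • x) y) ∧
      ∀ x y, B₀ x (a • y) = B₀ (a' • x) y)
    (hcompl : ∀ W : Submodule A M₀, ∃ W' : Submodule A M₀, IsCompl W W' ∧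
      ∀ x ∈ W, ∀ y ∈ W', B₀ x y = 0)
    {ν : A} (hν : IsNilpotent (act k M₀ ν)) (hD : Dist (act k M₀ ν))
    (U : Submodule A M) (hU : ∀ x ∈ U, ∀ y ∈ U, B x y = 0) : U = ⊥ := by
  classical
  -- reduction to simple submodules
  wlog hsimp : IsSimpleModule A U generalizing U
  · by_contra hU0
    have hart : IsArtinian A M := by
      have : IsArtinian k M := inferInstance
      exact isArtinian_of_tower k this
    have hat : IsAtomic (Submodule A M) :=
      isAtomic_of_orderBot_wellFounded_lt (IsWellFounded.wf (r := (· < ·)))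
    rcases eq_bot_or_exists_atom_le U with h | ⟨U', hU', hle⟩
    · exact hU0 h
    · have h1 := this U' (fun x hx y hy => hU x (hle hx) y (hle hy)) (isSimpleModule_iff_isAtom.2 hU')
      exact hU'.1 h1
  exfalso
  have hfdU : FiniteDimensional k U :=
    FiniteDimensional.of_injective (U.subtype.restrictScalars k) U.subtype_injective
  have hnt : Nontrivial U := IsSimpleModule.nontrivial A U
  obtain ⟨u₀, hu₀⟩ := exists_ne (0 : U)
  -- nilpotency
  have hnil : ∀ a : A, act k M₀ a = 0 → IsNilpotent (act k M a) := by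
    intro a ha
    apply nilpotent_of_trc hn
    intro f
    have h1 : aeval (act k M a) f * act k M a = act k M (aeval a f * a) := by
      rw [map_mul, Polynomial.aeval_algHom_apply]
    rw [h1, htr, map_mul, ha, mul_zero, map_zero]
  -- the embedding
  have hex : ∃ f : U →ₗ[A] M₀, f ≠ 0 := by
    by_contra hcon
    push Not at hcon
    obtain ⟨a, ha1, ha2⟩ := density k hcon
    obtain ⟨m, hm⟩ := hnil a (LinearMap.ext fun x => ha2 x)
    have h1 : ∀ j : ℕ, ((act k M a) ^ j) (u₀ : M) = u₀ := by
      intro j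
      induction j with
      | zero => simp
      | succ j ih =>
        rw [pow_succ, Module.End.mul_apply, act_apply]
        have h2 : a • (u₀ : M) = u₀ := congrArg Subtype.val (ha1 u₀)
        rw [h2, ih]
    have h2 := h1 m
    rw [hm] at h2
    exact hu₀ (Subtype.ext h2.symm)
  obtain ⟨f, hf0⟩ := hex
  have hf : Function.Injective f := by
    rcases LinearMap.injective_or_eq_zero f with h | h
    · exact h
    · exact absurd h hf0
  obtain ⟨W, hW⟩ : ∃ W : Submodule A M₀, W = LinearMap.range f := ⟨_, rfl⟩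
  have eW : U ≃ₗ[A] W := by
    rw [hW]
    exact LinearEquiv.ofInjective f hf
  have hWs : IsSimpleModule A W := IsSimpleModule.congr eW.symm
  have hfdW : ∀ W : Submodule A M₀, FiniteDimensional k W := fun W =>
    FiniteDimensional.of_injective (W.subtype.restrictScalars k) W.subtype_injective
  obtain ⟨W', hWW', hort⟩ := hcompl W
  have := hfdW W
  have := hfdW W'
  obtain ⟨a, ha1, ha2⟩ := density k (fun g : W →ₗ[A] W' => mult_one hν hD hWW' g)
  have haU : ∀ u : U, a • u = u := by
    intro u
    apply hf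
    rw [map_smul]
    have h1 : f u ∈ W := by rw [hW]; exact ⟨u, rfl⟩
    exact congrArg Subtype.val (ha1 ⟨f u, h1⟩)
  -- the adjoint
  obtain ⟨a', ha'1, ha'2⟩ := hst a
  have hdec : ∀ x : M₀, ∃ w ∈ W, ∃ w' ∈ W', w + w' = x := by
    intro x
    have h1 : x ∈ W ⊔ W' := by
      rw [hWW'.sup_eq_top]
      exact Submodule.mem_top
    exact Submodule.mem_sup.1 h1
  have ha'W : ∀ x ∈ W, a' • x = x := by
    intro x hx
    rw [← sub_eq_zero]
    apply hl₀
    intro y
    obtain ⟨w, hw, w', hw', rfl⟩ := hdec y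
    have h1 : a • (w + w') = w := by
      rw [smul_add]
      have h2 : a • w = w := congrArg Subtype.val (ha1 ⟨w, hw⟩)
      have h3 : a • w' = 0 := congrArg Subtype.val (ha2 ⟨w', hw'⟩)
      rw [h2, h3, add_zero]
    rw [map_sub, LinearMap.sub_apply, ← ha'2, h1, map_add, hort x hx w' hw', add_zero, sub_self]
  have ha'U : ∀ u : U, a' • u = u := by
    intro u
    apply hf
    rw [map_smul]
    exact ha'W _ (by rw [hW]; exact ⟨u, rfl⟩)
  have horth : ∀ (u : U) (x : M), B (u : M) (a • x - x) = 0 := by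
    intro u x
    have h1 : a' • (u : M) = u := congrArg Subtype.val (ha'U u)
    rw [map_sub, ha'1, h1, sub_self]
  -- nilpotency of `a ^ 2 - a`
  have hzero : act k M₀ (a ^ 2 - a) = 0 := by
    refine LinearMap.ext fun x => ?_
    obtain ⟨w, hw, w', hw', rfl⟩ := hdec x
    have h1 : ∀ z : M₀, z ∈ W → a • z = z := fun z hz => congrArg Subtype.val (ha1 ⟨z, hz⟩)
    have h2 : ∀ z : M₀, z ∈ W' → a • z = 0 := fun z hz => congrArg Subtype.val (ha2 ⟨z, hz⟩)
    rw [act_apply, sub_smul, pow_two, mul_smul, smul_add, h1 w hw, h2 w' hw', add_zero, h1 w hw,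
      sub_self]
    rfl
  obtain ⟨m, hm⟩ := hnil _ hzero
  obtain ⟨P, ⟨Q1, hQ1⟩, ⟨Q2, hQ2⟩, Q3, hQ3⟩ := exists_lift (k := k) m
  set b : A := aeval a P with hb
  have hb1 : b - 1 = (a - 1) * aeval a Q1 := by
    have h1 := congrArg (aeval a) hQ1
    rw [map_sub, map_one, map_mul, map_sub, map_one, aeval_X] at h1
    exact h1
  have hb1' : b - 1 = aeval a Q1 * (a - 1) := by
    have h1 := congrArg (aeval a) hQ1
    rw [mul_comm, map_sub, map_one, map_mul, map_sub, map_one, aeval_X] at h1
    exact h1
  have hb2 : b = aeval a Q2 * a := by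
    have h1 := congrArg (aeval a) hQ2
    rw [mul_comm, map_mul, aeval_X] at h1
    exact h1
  have hb3 : IsIdempotentElem (act k M b) := by
    have h1 := congrArg (aeval a) hQ3
    rw [map_sub, map_mul, map_mul, map_pow, map_sub, map_pow, aeval_X] at h1
    have h2 := congrArg (act k M) h1
    rw [map_mul, map_pow, pow_succ, hm, zero_mul, zero_mul, map_sub, map_mul] at h2
    exact sub_eq_zero.1 h2
  have hbfix : ∀ {X : Type u} [AddCommGroup X] [Module A X] (x : X), a • x = x → b • x = x := by
    intro X _ _ x hx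
    have h1 : (b - 1) • x = 0 := by
      rw [hb1', mul_smul, sub_smul, one_smul, hx, sub_self, smul_zero]
    rw [sub_smul, one_smul] at h1
    exact sub_eq_zero.1 h1
  have hbW : ∀ x ∈ W, b • x = x := fun x hx => hbfix x (congrArg Subtype.val (ha1 ⟨x, hx⟩))
  have hbW' : ∀ x ∈ W', b • x = 0 := by
    intro x hx
    have h3 : a • x = 0 := congrArg Subtype.val (ha2 ⟨x, hx⟩)
    rw [hb2, mul_smul, h3, smul_zero]
  have hbU : ∀ x ∈ U, b • x = x := fun x hx => hbfix x (congrArg Subtype.val (haU ⟨x, hx⟩))
  -- the traces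
  have ht1 : LinearMap.trace k M (act k M b) =
      (finrank k (LinearMap.range (act k M b)) : k) :=
    (LinearMap.IsIdempotentElem.isProj_range _ hb3).trace
  have ht2 : LinearMap.trace k M₀ (act k M₀ b) = (finrank k (W.restrictScalars k) : k) := by
    refine LinearMap.IsProj.trace (p := W.restrictScalars k) ⟨?_, fun x hx => hbW x hx⟩
    intro x
    obtain ⟨w, hw, w', hw', rfl⟩ := hdec x
    rw [act_apply, smul_add, hbW w hw, hbW' w' hw', add_zero]
    exact hw
  have hUW : finrank k (W.restrictScalars k) = finrank k (U.restrictScalars k) :=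
    ((eW.restrictScalars k).finrank_eq).symm
  rw [htr, ht2, hUW] at ht1
  have hleU : U.restrictScalars k ≤ LinearMap.range (act k M b) := fun x hx => ⟨x, hbU x hx⟩
  have hfr : finrank k (LinearMap.range (act k M b)) = finrank k (U.restrictScalars k) := by
    have h1 := Submodule.finrank_mono hleU
    have h2 : finrank k (LinearMap.range (act k M b)) ≤ finrank k M := Submodule.finrank_le _
    by_contra hne
    have h3 := hn (finrank k (LinearMap.range (act k M b)) - finrank k (U.restrictScalars k))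
      (by omega) (by omega)
    rw [Nat.cast_sub h1, ht1, sub_self] at h3
    exact h3 rfl
  have heq : U.restrictScalars k = LinearMap.range (act k M b) :=
    Submodule.eq_of_le_of_finrank_le hleU hfr.le
  -- the conclusion
  apply hu₀
  apply Subtype.ext
  apply hl
  intro x
  have h1 : b • x ∈ U := by
    have h2 : act k M b x ∈ U.restrictScalars k := by
      rw [heq]
      exact ⟨x, rfl⟩
    exact h2
  have h2 : B (u₀ : M) (b • x - x) = 0 := by
    have h3 : b • x - x = a • (aeval a Q1 • x) - aeval a Q1 • x := by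
      have h4 : b • x - x = (b - 1) • x := by rw [sub_smul, one_smul]
      rw [h4, hb1, mul_smul, sub_smul, one_smul]
    rw [h3]
    exact horth u₀ _
  rw [map_sub, hU u₀ u₀.2 _ h1, zero_sub, neg_eq_zero] at h2
  exact h2

end main

end Pool.Agent.D0H1.SF
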