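import Pool.Agent.R390.SF.Rel

/-!
# Isotropic relations between roots of several polynomials, modulo almost all primes
-/

set_option autoImplicit false

namespace Pool.Agent.D0H1.SF

open Polynomial NumberField Pool.Agent.Y800 Pool.Agent.Y126.SH

/-- For almost all characteristics the isotropic relations come from complex relations. -/
theorem bal_gen {J Q : Type*} [Fintype J] [Fintype Q] (π : Q → J) (P : J → ℤ[X])
    (hP : ∀ j, (P j).Monic) (p : ℕ) (c : J → ℕ) (hc : ∀ j, c j ≠ 0) (e : Q → ℕ) (b : ℕ) :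
    ∃ M : ℤ, M ≠ 0 ∧ ∀ (Ω : Type) [Field Ω] [IsAlgClosed Ω], (M : Ω) ≠ 0 →
      ∀ A : J → Multiset Ω, (∀ j, (A j).prod ≠ 0) →
        (∀ j, A j + (A j).map (fun z => (c j : Ω) / z) ≤ ((P j).map (Int.castRingHom Ω)).roots) →
        ∏ q, (A (π q)).prod ^ e q = (p : Ω) ^ b →
        ∃ A' : J → Multiset ℂ, (∀ j, Multiset.card (A' j) = Multiset.card (A j)) ∧
          (∀ j, A' j + (A' j).map (fun z => (c j : ℂ) / z) ≤ (P j).aroots ℂ) ∧
          ∏ q, (A' (π q)).prod ^ e q = (p : ℂ) ^ b := by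
  classical
  have hR0 : ∀ j, ∃ R : Multiset ZBar,
    (P j).map (algebraMap ℤ ZBar) = (R.map fun r => X - C r).prod := fun j => exists_roots (hP j)
  choose R hR using hR0
  let E : Finset ZBar :=
    (Finset.univ.biUnion fun j : J =>
      ((R j ×ˢ R j).map fun x : ZBar × ZBar => x.1 * x.2 - ((c j : ℕ) : ZBar)).toFinset) ∪
    ((Fintype.piFinset fun j => (R j).powerset.toFinset).image
      fun x : (J → Multiset ZBar) => (∏ q, (x (π q)).prod ^ e q) - (p : ZBar) ^ b)
  have hm : ∀ e : ZBar, ∃ m : ℤ, e ≠ 0 → (m ≠ 0 ∧ ∃ r, e * r = m) := by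
    intro e
    by_cases he : e = 0
    · exact ⟨0, fun h => absurd he h⟩
    · obtain ⟨m, r, h1, h2⟩ := exists_int_mul he
      exact ⟨m, fun _ => ⟨h1, r, h2⟩⟩
  choose m hm using hm
  refine ⟨∏ e ∈ E.filter (fun e => e ≠ 0), m e, ?_, ?_⟩
  · rw [Finset.prod_ne_zero_iff]
    intro e he
    exact (hm e (Finset.mem_filter.1 he).2).1
  intro Ω _ _ hM A hA0 hA hprod
  obtain ⟨ψ, hψ⟩ := extend_gen (R := ℤ) (S := ZBar) (k := Ω) (Int.castRingHom Ω)
  have hψi : ∀ i : ℤ, ψ (i : ZBar) = (i : Ω) := fun i => map_intCast ψ i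
  have hgood : ∀ e ∈ E, ψ e = 0 → e = 0 := by
    intro e he h0
    by_contra hne
    apply hM
    rw [Int.cast_prod]
    apply Finset.prod_eq_zero (Finset.mem_filter.2 ⟨he, hne⟩)
    obtain ⟨_, r, hr⟩ := hm e hne
    rw [← hψi, ← hr, map_mul, h0, zero_mul]
  have hex : ∀ j, ∃ T T' : Multiset ZBar, T + T' ≤ R j ∧ T.map ψ = A j ∧
      T'.map ψ = (A j).map (fun z => (c j : Ω) / z) := by
    intro j
    have h1 := hA j
    rw [roots_map (hR j) ψ] at h1
    exact exists_add_le_map ψ h1
  choose T T' hTT hT hT' using hex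
  have hTR : ∀ j, T j ≤ R j := fun j => (Multiset.le_add_right _ _).trans (hTT j)
  have hTR' : ∀ j, T' j ≤ R j := fun j => (Multiset.le_add_left _ _).trans (hTT j)
  have hne : ∀ j, ∀ t ∈ T j, ψ t ≠ 0 := by
    intro j t ht h0
    apply hA0 j
    apply Multiset.prod_eq_zero
    rw [← h0, ← hT j]
    exact Multiset.mem_map_of_mem ψ ht
  have hrel : ∀ j, Multiset.Rel (fun t t' => t * t' = ((c j : ℕ) : ZBar)) (T j) (T' j) := by
    intro j
    have h1 : Multiset.Rel (fun x y => x = y) ((A j).map (fun z => (c j : Ω) / z)) ((T' j).map ψ) :=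
      Multiset.rel_eq.2 (hT' j).symm
    rw [← hT j, Multiset.map_map, Multiset.rel_map] at h1
    refine h1.mono ?_
    intro t ht t' ht' h2
    rw [Function.comp_apply, div_eq_iff (hne j t ht)] at h2
    rw [← sub_eq_zero]
    apply hgood
    · apply Finset.mem_union_left
      rw [Finset.mem_biUnion]
      refine ⟨j, Finset.mem_univ j, ?_⟩
      rw [Multiset.mem_toFinset]
      exact Multiset.mem_map.2 ⟨(t, t'), Multiset.mem_product.2
        ⟨Multiset.mem_of_le (hTR j) ht, Multiset.mem_of_le (hTR' j) ht'⟩, rfl⟩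
    · rw [map_sub, map_mul, map_natCast, h2]
      ring
  have hTp : ∏ q, (T (π q)).prod ^ e q = (p : ZBar) ^ b := by
    rw [← sub_eq_zero]
    apply hgood
    · apply Finset.mem_union_right
      refine Finset.mem_image.2 ⟨T, ?_, rfl⟩
      rw [Fintype.mem_piFinset]
      intro j
      rw [Multiset.mem_toFinset]
      exact Multiset.mem_powerset.2 (hTR j)
    · rw [map_sub, map_pow, map_natCast, ← hprod, map_prod, sub_eq_zero]
      refine Finset.prod_congr rfl fun q _ => ?_
      rw [map_pow, map_multiset_prod, hT]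
  -- complex numbers
  obtain ⟨i, _⟩ := extend_gen (R := ℤ) (S := ZBar) (k := ℂ) (Int.castRingHom ℂ)
  have hroots : ∀ j, (P j).aroots ℂ = (R j).map i := fun j => roots_map (hR j) i
  have hdual : ∀ j, ((T j).map i).map (fun z => (c j : ℂ) / z) = (T' j).map i := by
    intro j
    apply Multiset.rel_eq.1
    rw [Multiset.map_map, Multiset.rel_map]
    refine (hrel j).mono ?_
    intro t _ t' _ h2
    have hs : (c j : ℂ) ≠ 0 := by exact_mod_cast hc j
    have h3 : i t * i t' = (c j : ℂ) := by rw [← map_mul, h2, map_natCast]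
    rw [Function.comp_apply, div_eq_iff (left_ne_zero_of_mul (h3 ▸ hs)), ← h3, mul_comm]
  refine ⟨fun j => (T j).map i, fun j => ?_, fun j => ?_, ?_⟩
  · rw [Multiset.card_map, ← hT j, Multiset.card_map]
  · show (T j).map i + ((T j).map i).map (fun z => (c j : ℂ) / z) ≤ (P j).aroots ℂ
    rw [hdual, ← Multiset.map_add, hroots]
    exact Multiset.map_le_map (hTT j)
  · rw [← map_natCast i p, ← map_pow, ← hTp, map_prod]
    refine Finset.prod_congr rfl fun q _ => ?_
    rw [map_pow, map_multiset_prod]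

end Pool.Agent.D0H1.SF
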