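import Pool.Agent.D0H1.SF.Form

/-!
# The determinant of a stable subspace
-/

set_option autoImplicit false
set_option linter.unusedSectionVars false

namespace Pool.Agent.D0H1.SF

open Module Finset

variable {K : Type*} [Field K] {V : Type*} [AddCommGroup V] [Module K V] [FiniteDimensional K V]

/-- the subspace `U` meets the jump at `b` -/
def Jmp (N : End K V) (U : Submodule K V) (b : ℕ) : Prop :=
  ∃ y ∈ U, N y = 0 ∧ y ∈ LinearMap.range (N ^ b) ∧ y ∉ LinearMap.range (N ^ (b + 1))

/-- the pieces of the kernel -/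
def Wb (N : End K V) (U : Submodule K V) (b : ℕ) : Submodule K V :=
  (U ⊓ LinearMap.ker N) ⊓ LinearMap.range (N ^ b)

open Classical in
/-- the indicator of a jump -/
noncomputable def dl (N : End K V) (U : Submodule K V) (b : ℕ) : ℕ := if Jmp N U b then 1 else 0

section

variable {N Φ : End K V} {q : ℕ} {c : K} {U : Submodule K V}

theorem ker_stable (hrel : (1 + N) * Φ = Φ * (1 + N) ^ q) {y : V} (hy : N y = 0) :
    N (Φ y) = 0 := by
  have h1 := LinearMap.congr_fun (rel_one hrel) y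
  rw [Module.End.mul_apply, Module.End.mul_apply, (gs_comm N q).eq, Module.End.mul_apply, hy,
    map_zero, map_zero] at h1
  exact h1

theorem range_stable (hN : IsNilpotent N) (hq : (q : K) ≠ 0)
    (hrel : (1 + N) * Φ = Φ * (1 + N) ^ q) {b : ℕ} {y : V}
    (hy : y ∈ LinearMap.range (N ^ b)) : Φ y ∈ LinearMap.range (N ^ b) := by
  obtain ⟨v, rfl⟩ := hy
  obtain ⟨v', -, rfl⟩ := gs_pow_surj (q := q) hN hq (U := ⊤) (fun _ _ => Submodule.mem_top) b
    (x := v) Submodule.mem_top
  refine ⟨Φ v', ?_⟩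
  exact LinearMap.congr_fun (rel_pow hrel b) v'

theorem map_stable (hN : IsNilpotent N) (hq : (q : K) ≠ 0)
    (hrel : (1 + N) * Φ = Φ * (1 + N) ^ q) (hUN : ∀ x ∈ U, N x ∈ U) (hUΦ : ∀ x ∈ U, Φ x ∈ U) :
    ∀ x ∈ U.map N, Φ x ∈ U.map N := by
  rintro _ ⟨u, hu, rfl⟩
  obtain ⟨u', hu', rfl⟩ := gs_surj (q := q) hN hq hUN hu
  refine ⟨Φ u', hUΦ _ hu', ?_⟩
  exact LinearMap.congr_fun (rel_one hrel) u'

theorem wb_stable (hN : IsNilpotent N) (hq : (q : K) ≠ 0)
    (hrel : (1 + N) * Φ = Φ * (1 + N) ^ q) (hUΦ : ∀ x ∈ U, Φ x ∈ U) (b : ℕ) :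
    ∀ x ∈ Wb N U b, Φ x ∈ Wb N U b := by
  rintro x ⟨⟨h1, h2⟩, h3⟩
  exact ⟨⟨hUΦ x h1, ker_stable hrel h2⟩, range_stable hN hq hrel h3⟩

theorem det_cast {e : End K V} {W W' : Submodule K V} (h : W = W') (hW : ∀ x ∈ W, e x ∈ W)
    (hW' : ∀ x ∈ W', e x ∈ W') :
    LinearMap.det (e.restrict hW) = LinearMap.det (e.restrict hW') := by
  subst h
  rfl

variable {B : V →ₗ[K] V →ₗ[K] K}

/-- the determinant on the kernel -/
theorem det_soc (hN : IsNilpotent N) (hBN : ∀ x y, B ((1 + N) x) ((1 + N) y) = B x y)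
    (hl : ∀ x, (∀ y, B x y = 0) → x = 0) (hD : Dist N) (hq : (q : K) ≠ 0)
    (hrel : (1 + N) * Φ = Φ * (1 + N) ^ q) (hBΦ : ∀ x y, B (Φ x) (Φ y) = c * B x y)
    (hUΦ : ∀ x ∈ U, Φ x ∈ U) {D : ℕ} (hND : N ^ D = 0) : ∀ j m : ℕ, m + j = D →
    finrank K (Wb N U m) = ∑ b ∈ Ico m D, dl N U b ∧
    LinearMap.det (Φ.restrict (wb_stable hN hq hrel hUΦ m)) ^ 2 *
      (q : K) ^ (∑ b ∈ Ico m D, dl N U b * b) = c ^ (∑ b ∈ Ico m D, dl N U b) := by
  intro j
  induction j with
  | zero =>
    intro m hm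
    rw [add_zero] at hm
    subst hm
    have h0 : Wb N U m = ⊥ := by
      rw [Wb, hND, LinearMap.range_zero, inf_bot_eq]
    have h1 : finrank K (Wb N U m) = 0 := by rw [h0, finrank_bot]
    constructor
    · rw [h1, Ico_self, sum_empty]
    · have hsub : Subsingleton (Wb N U m) := Module.finrank_zero_iff.1 h1
      rw [LinearMap.det_eq_one_of_subsingleton, Ico_self, sum_empty, sum_empty]
      simp
  | succ j ih =>
    intro b hb
    obtain ⟨ih1, ih2'⟩ := ih (b + 1) (by omega)
    have hbD : b < D := by omega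
    rw [Finset.sum_eq_sum_Ico_succ_bot hbD, Finset.sum_eq_sum_Ico_succ_bot hbD]
    by_cases hjmp : Jmp N U b
    · have hdl : dl N U b = 1 := if_pos hjmp
      obtain ⟨y, hyU, hy, hyb, hyb'⟩ := hjmp
      obtain ⟨μ, hμ, hμ2⟩ := key2 hN hBN hl hD hq hrel hBΦ hy hyb hyb'
      have hle : Wb N U (b + 1) ≤ Wb N U b := by
        rintro x ⟨h1, h2⟩
        refine ⟨h1, ?_⟩
        obtain ⟨z, rfl⟩ := h2
        exact ⟨N z, by rw [pow_succ, Module.End.mul_apply]⟩
      obtain ⟨h1, h2⟩ := det_adjoin (e := Φ) (wb_stable hN hq hrel hUΦ b)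
        (wb_stable hN hq hrel hUΦ (b + 1)) hle (y := y) ⟨⟨hyU, hy⟩, hyb⟩ (fun h => hyb' h.2)
        (by
          rintro x ⟨⟨h1, h2⟩, h3⟩
          obtain ⟨a, ha⟩ := hD b x y h2 h3 hy hyb hyb'
          refine ⟨a, ⟨⟨U.sub_mem h1 (U.smul_mem _ hyU), ?_⟩, ha⟩⟩
          exact Submodule.sub_mem _ h2 (Submodule.smul_mem _ _ hy))
        (μ := μ) ⟨⟨U.sub_mem (hUΦ _ hyU) (U.smul_mem _ hyU),
          Submodule.sub_mem _ (ker_stable hrel hy) (Submodule.smul_mem _ _ hy)⟩, hμ⟩
      constructor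
      · rw [h2, ih1, hdl, add_comm]
      · rw [h1, hdl, one_mul, mul_pow, pow_add, pow_add, ← ih2', ← hμ2]
        ring
    · have hdl : dl N U b = 0 := if_neg hjmp
      have heq : Wb N U b = Wb N U (b + 1) := by
        apply le_antisymm
        · rintro x ⟨⟨h1, h2⟩, h3⟩
          refine ⟨⟨h1, h2⟩, ?_⟩
          by_contra h4
          exact hjmp ⟨x, h1, h2, h3, h4⟩
        · rintro x ⟨h1, h2⟩
          refine ⟨h1, ?_⟩
          obtain ⟨z, rfl⟩ := h2
          exact ⟨N z, by rw [pow_succ, Module.End.mul_apply]⟩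
      constructor
      · rw [heq, ih1, hdl, zero_add]
      · rw [det_cast heq (wb_stable hN hq hrel hUΦ b) (wb_stable hN hq hrel hUΦ (b + 1)), hdl,
          zero_mul, zero_add, zero_add]
        exact ih2'

/-- **The determinant of a stable subspace.** -/
theorem det_main (hN : IsNilpotent N) (hBN : ∀ x y, B ((1 + N) x) ((1 + N) y) = B x y)
    (hl : ∀ x, (∀ y, B x y = 0) → x = 0) (hD : Dist N) (hq : (q : K) ≠ 0)
    (hrel : (1 + N) * Φ = Φ * (1 + N) ^ q) (hBΦ : ∀ x y, B (Φ x) (Φ y) = c * B x y)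
    {D : ℕ} (hND : N ^ D = 0) : ∀ (d : ℕ) (U : Submodule K V) (_ : ∀ x ∈ U, N x ∈ U)
      (hUΦ : ∀ x ∈ U, Φ x ∈ U), finrank K U = d →
      ∃ cc : ℕ → ℕ, finrank K U = ∑ b ∈ range D, cc b ∧
        (∀ b < D, cc b ≤ b + 1 ∧ (0 < cc b → Jmp N U b) ∧
          ∀ j < cc b, ∃ u ∈ U, N ((N ^ j) u) = 0 ∧ (N ^ j) u ∈ LinearMap.range (N ^ b) ∧
            (N ^ j) u ∉ LinearMap.range (N ^ (b + 1))) ∧
        LinearMap.det (Φ.restrict hUΦ) ^ 2 * (q : K) ^ (∑ b ∈ range D, cc b * (b + 1 - cc b)) =
          c ^ finrank K U := by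
  intro d
  induction d using Nat.strong_induction_on with
  | _ d ih =>
    intro U hUN hUΦ hd
    rcases Nat.eq_zero_or_pos d with h0 | hpos
    · refine ⟨fun _ => 0, ?_, ?_, ?_⟩
      · rw [hd, h0, sum_const_zero]
      · intro b _
        exact ⟨Nat.zero_le _, fun h => absurd h (lt_irrefl _), fun j hj => absurd hj (Nat.not_lt_zero _)⟩
      · have hsub : Subsingleton U := Module.finrank_zero_iff.1 (hd.trans h0)
        rw [LinearMap.det_eq_one_of_subsingleton, hd, h0]
        simp
    · -- the step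
      have hUN' : ∀ x ∈ U.map N, N x ∈ U.map N := by
        rintro _ ⟨u, hu, rfl⟩
        exact ⟨N u, hUN u hu, rfl⟩
      have hUΦ' := map_stable hN hq hrel hUN hUΦ
      have hUQ' : ∀ x ∈ U.map N, gs N q x ∈ U.map N := gs_mem hUN'
      have hUΦQ' : ∀ x ∈ U.map N, (Φ * gs N q) x ∈ U.map N := fun x hx => hUΦ' _ (hUQ' x hx)
      have hS : ∀ x ∈ U ⊓ LinearMap.ker N, Φ x ∈ U ⊓ LinearMap.ker N := by
        rintro x ⟨h1, h2⟩
        exact ⟨hUΦ x h1, ker_stable hrel h2⟩
      obtain ⟨h1, h2⟩ := det_step (e := Φ) (e' := Φ * gs N q) (N := N) hUΦ (by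
        intro x _
        have h3 := LinearMap.congr_fun (rel_one hrel) x
        rw [(gs_comm N q).eq] at h3
        exact h3) hUΦQ' hS
      have h3 : LinearMap.det ((Φ * gs N q).restrict hUΦQ') =
          LinearMap.det (Φ.restrict hUΦ') * (q : K) ^ finrank K (U.map N) := by
        rw [← det_gs hN hq hUN' hUQ', ← LinearMap.det_comp]
        rfl
      -- the kernel
      have h4 := det_soc (U := U) hN hBN hl hD hq hrel hBΦ hUΦ hND D 0 (zero_add D)
      have hW0 : Wb N U 0 = U ⊓ LinearMap.ker N := by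
        rw [Wb, pow_zero]
        have h5 : LinearMap.range (1 : End K V) = ⊤ := LinearMap.range_id
        rw [h5, inf_top_eq]
      rw [det_cast hW0 (wb_stable hN hq hrel hUΦ 0) hS] at h4
      rw [hW0] at h4
      have hIco : Ico 0 D = range D := by rw [← Finset.range_eq_Ico]
      rw [hIco] at h4
      obtain ⟨h5, h6⟩ := h4
      -- the kernel is not zero
      have hsoc : 0 < finrank K (U ⊓ LinearMap.ker N : Submodule K V) := by
        by_contra hcon
        have h7 : finrank K (U ⊓ LinearMap.ker N : Submodule K V) = 0 := by omega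
        have h8 : U ⊓ LinearMap.ker N = ⊥ := Submodule.finrank_eq_zero.1 h7
        have h9 : ∀ (m : ℕ) (x : V), x ∈ U → (N ^ m) x = 0 → x = 0 := by
          intro m
          induction m with
          | zero => intro x _ hx; simpa using hx
          | succ m ihm =>
            intro x hx hxm
            apply ihm x hx
            have h10 : (N ^ m) x ∈ U ⊓ LinearMap.ker N := by
              refine ⟨pow_mem hUN m x hx, ?_⟩
              show N ((N ^ m) x) = 0
              rw [← Module.End.mul_apply, ← pow_succ']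
              exact hxm
            rw [h8] at h10
            exact (Submodule.mem_bot _).1 h10
        have h10 : U = ⊥ := by
          rw [Submodule.eq_bot_iff]
          intro x hx
          exact h9 D x hx (by rw [hND]; rfl)
        rw [h10, finrank_bot] at hd
        omega
      obtain ⟨cc', ih1, ih2, ih3⟩ := ih (finrank K (U.map N)) (by omega) (U.map N) hUN' hUΦ' rfl
      have hle : ∀ b, Jmp N (U.map N) b → Jmp N U b := by
        rintro b ⟨_, ⟨u, hu, rfl⟩, h7⟩
        exact ⟨N u, hUN u hu, h7⟩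
      have hwit : ∀ b < D, ∀ j < cc' b + dl N U b, ∃ u ∈ U, N ((N ^ j) u) = 0 ∧
          (N ^ j) u ∈ LinearMap.range (N ^ b) ∧ (N ^ j) u ∉ LinearMap.range (N ^ (b + 1)) := by
        intro b hb j hj
        rcases Nat.eq_zero_or_pos j with hj0 | hj0
        · subst hj0
          have h7 : Jmp N U b := by
            by_contra h8
            have h9 : dl N U b = 0 := if_neg h8
            rw [h9, add_zero] at hj
            exact h8 (hle b ((ih2 b hb).2.1 hj))
          obtain ⟨y, hy⟩ := h7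
          exact ⟨y, by simpa using hy⟩
        · obtain ⟨i, rfl⟩ : ∃ i, j = i + 1 := ⟨j - 1, by omega⟩
          have h7 : dl N U b ≤ 1 := by
            unfold dl
            split_ifs <;> omega
          obtain ⟨_, ⟨u, hu, rfl⟩, h8⟩ := (ih2 b hb).2.2 i (by omega)
          refine ⟨u, hu, ?_⟩
          rw [pow_succ N i, Module.End.mul_apply]
          exact h8
      refine ⟨fun b => cc' b + dl N U b, ?_, ?_, ?_⟩
      · rw [h2, h5, ih1, Finset.sum_add_distrib, add_comm]
      · intro b hb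
        refine ⟨?_, ?_, hwit b hb⟩
        · show cc' b + dl N U b ≤ b + 1
          by_contra hcon
          obtain ⟨u, -, -, -, hu⟩ := hwit b hb (b + 1) (by omega)
          exact hu ⟨u, rfl⟩
        · intro h7
          by_contra h8
          have h9 : dl N U b = 0 := if_neg h8
          have h10 : 0 < cc' b := by
            have : 0 < cc' b + dl N U b := h7
            omega
          exact h8 (hle b ((ih2 b hb).2.1 h10))
      · have h7 : (∑ b ∈ range D, (cc' b + dl N U b) * (b + 1 - (cc' b + dl N U b))) +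
            2 * finrank K (U.map N) = (∑ b ∈ range D, dl N U b * b) +
              ∑ b ∈ range D, cc' b * (b + 1 - cc' b) := by
          rw [ih1, Finset.mul_sum, ← Finset.sum_add_distrib, ← Finset.sum_add_distrib]
          refine Finset.sum_congr rfl fun b hb => ?_
          have hb' := Finset.mem_range.1 hb
          by_cases h8 : Jmp N U b
          · have h9 : dl N U b = 1 := if_pos h8
            have h10 : cc' b + 1 ≤ b + 1 := by
              by_contra hcon
              obtain ⟨u, -, -, -, hu⟩ := hwit b hb' (b + 1) (by omega)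
              exact hu ⟨u, rfl⟩
            obtain ⟨r, hr⟩ : ∃ r, b = cc' b + r := ⟨b - cc' b, by omega⟩
            rw [h9]
            have e1 : b + 1 - (cc' b + 1) = r := by omega
            have e2 : b + 1 - cc' b = r + 1 := by omega
            rw [e1, e2]
            have e3 : 1 * b = cc' b + r := by omega
            rw [e3]
            ring
          · have h9 : dl N U b = 0 := if_neg h8
            have h10 : cc' b = 0 := by
              by_contra hcon
              exact h8 (hle b ((ih2 b hb').2.1 (by omega)))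
            rw [h9, h10]
            simp
        have hq2 : (q : K) ^ (2 * finrank K (U.map N)) ≠ 0 := pow_ne_zero _ hq
        apply mul_right_cancel₀ hq2
        rw [mul_assoc, ← pow_add, h7, h1, h3, h2, pow_add, pow_add, ← ih3, h5, ← h6]
        ring

/-- **The determinant of a stable subspace, final form.** -/
theorem det_final (hN : IsNilpotent N) (hBN : ∀ x y, B ((1 + N) x) ((1 + N) y) = B x y)
    (hl : ∀ x, (∀ y, B x y = 0) → x = 0) (hD : Dist N) (hq : (q : K) ≠ 0)
    (hrel : (1 + N) * Φ = Φ * (1 + N) ^ q) (hBΦ : ∀ x y, B (Φ x) (Φ y) = c * B x y)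
    (hUN : ∀ x ∈ U, N x ∈ U) (hUΦ : ∀ x ∈ U, Φ x ∈ U) (hiso : ∀ x ∈ U, ∀ y ∈ U, B x y = 0)
    (hU : U ≠ ⊥) :
    ∃ t : ℕ, 0 < t ∧ t ≤ finrank K V ^ 2 ∧
      LinearMap.det (Φ.restrict hUΦ) ^ 2 * (q : K) ^ t = c ^ finrank K U := by
  have hND : N ^ finrank K V = 0 := by
    have h1 := LinearMap.aeval_self_charpoly N
    rw [hN.charpoly_eq_X_pow_finrank, map_pow, Polynomial.aeval_X] at h1
    exact h1
  obtain ⟨cc, h1, h2, h3⟩ := det_main hN hBN hl hD hq hrel hBΦ hND _ U hUN hUΦ rfl
  refine ⟨_, ?_, ?_, h3⟩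
  · rw [Finset.sum_pos_iff]
    have h4 : 0 < ∑ b ∈ range (finrank K V), cc b := by
      rw [← h1, Nat.pos_iff_ne_zero]
      intro h5
      exact hU (Submodule.finrank_eq_zero.1 h5)
    rw [Finset.sum_pos_iff] at h4
    obtain ⟨b, hb, hcb⟩ := h4
    refine ⟨b, hb, Nat.mul_pos hcb ?_⟩
    have hb' := Finset.mem_range.1 hb
    obtain ⟨h5, h6, h7⟩ := h2 b hb'
    have h8 : cc b ≠ b + 1 := by
      intro h9
      obtain ⟨u, hu, hu1, hu2, hu3⟩ := h7 b (by omega)
      have h10 : (N ^ (b + 1)) u = 0 := by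
        rw [pow_succ', Module.End.mul_apply]
        exact hu1
      exact key1 hN hBN hl hD h10 hu3 (hiso u hu _ (pow_mem hUN b u hu))
    omega
  · calc ∑ b ∈ range (finrank K V), cc b * (b + 1 - cc b)
        ≤ ∑ b ∈ range (finrank K V), cc b * finrank K V := by
          refine Finset.sum_le_sum fun b hb => ?_
          have hb' := Finset.mem_range.1 hb
          exact Nat.mul_le_mul_left _ (by omega)
      _ = finrank K U * finrank K V := by rw [← Finset.sum_mul, h1]
      _ ≤ finrank K V ^ 2 := by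
          rw [pow_two]
          exact Nat.mul_le_mul_right _ (Submodule.finrank_le U)

end

end Pool.Agent.D0H1.SF
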