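import Pool.Agent.D0H1.SF.Lin

/-!
# Endomorphisms which normalise a unipotent element, with an invariant form
-/

set_option autoImplicit false
set_option linter.unusedSectionVars false

namespace Pool.Agent.D0H1.SF

open Module Finset

variable {K : Type*} [Field K] {V : Type*} [AddCommGroup V] [Module K V]

/-- the geometric sum -/
noncomputable def gs (N : End K V) (q : ℕ) : End K V := ∑ j ∈ range q, (1 + N) ^ j

theorem gs_comm (N : End K V) (q : ℕ) : Commute N (gs N q) := by
  apply Commute.sum_right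
  intro j _
  exact ((Commute.one_right N).add_right (Commute.refl N)).pow_right j

theorem mul_gs (N : End K V) (q : ℕ) : N * gs N q = (1 + N) ^ q - 1 := by
  have h1 := mul_geom_sum (1 + N) q
  rw [add_sub_cancel_left] at h1
  rw [← h1]
  rfl

/-- the geometric sum modulo `N` -/
theorem gs_eq (N : End K V) (q : ℕ) : ∃ R : End K V, Commute N R ∧
    gs N q = (q : K) • (1 : End K V) + N * R := by
  refine ⟨∑ j ∈ range q, gs N j, Commute.sum_right _ _ _ fun j _ => gs_comm N j, ?_⟩
  rw [Finset.mul_sum, Finset.sum_congr rfl fun j _ => mul_gs N j, Finset.sum_sub_distrib,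
    Finset.sum_const, card_range, Nat.cast_smul_eq_nsmul]
  rw [gs]
  abel

variable {N Φ : End K V} {q : ℕ}

theorem rel_one (hrel : (1 + N) * Φ = Φ * (1 + N) ^ q) : N * Φ = Φ * (N * gs N q) := by
  rw [mul_gs, mul_sub, mul_one, ← hrel, add_mul, one_mul, add_sub_cancel_left]

theorem rel_pow (hrel : (1 + N) * Φ = Φ * (1 + N) ^ q) (j : ℕ) :
    N ^ j * Φ = Φ * (N ^ j * gs N q ^ j) := by
  have hcomm := gs_comm N q
  induction j with
  | zero => simp
  | succ j ih =>
    rw [pow_succ' N j, mul_assoc, ih, ← mul_assoc, rel_one hrel]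
    rw [mul_assoc, mul_assoc]
    congr 1
    rw [pow_succ' (gs N q) j, ← mul_assoc (gs N q), ← (hcomm.pow_left j).eq]
    simp only [mul_assoc]

theorem gs_ker {x : V} (hx : N x = 0) : gs N q x = (q : K) • x := by
  obtain ⟨R, hR, h⟩ := gs_eq N q
  rw [h, hR.eq]
  simp [hx]

theorem gs_pow_ker {x : V} (hx : N x = 0) (j : ℕ) : (gs N q ^ j) x = ((q : K) ^ j) • x := by
  induction j with
  | zero => simp
  | succ j ih =>
    rw [pow_succ, Module.End.mul_apply, gs_ker hx, map_smul, ih, smul_smul, pow_succ, mul_comm]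

theorem gs_inj (hN : IsNilpotent N) (hq : (q : K) ≠ 0) {x : V} (hx : gs N q x = 0) : x = 0 := by
  obtain ⟨m, hm⟩ := hN
  have key : ∀ m : ℕ, (N ^ m) x = 0 → x = 0 := by
    intro m
    induction m with
    | zero => intro h; simpa using h
    | succ m ih =>
      intro h
      apply ih
      have h1 : N ((N ^ m) x) = 0 := by
        rw [← Module.End.mul_apply, ← pow_succ']
        exact h
      have h2 : gs N q ((N ^ m) x) = 0 := by
        rw [← Module.End.mul_apply, ← ((gs_comm N q).pow_left m).eq, Module.End.mul_apply, hx,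
          map_zero]
      rw [gs_ker h1] at h2
      exact (smul_eq_zero.1 h2).resolve_left hq
  exact key m (by rw [hm]; rfl)

theorem pow_mem {U : Submodule K V} (hU : ∀ x ∈ U, N x ∈ U) (j : ℕ) : ∀ x ∈ U, (N ^ j) x ∈ U := by
  induction j with
  | zero => intro x hx; simpa using hx
  | succ j ih =>
    intro x hx
    rw [pow_succ', Module.End.mul_apply]
    exact hU _ (ih x hx)

theorem gs_mem {U : Submodule K V} (hU : ∀ x ∈ U, N x ∈ U) : ∀ x ∈ U, gs N q x ∈ U := by
  intro x hx
  rw [gs, LinearMap.sum_apply]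
  refine U.sum_mem fun j _ => ?_
  refine pow_mem (N := 1 + N) (fun y hy => ?_) j x hx
  exact U.add_mem hy (hU y hy)

variable [FiniteDimensional K V]

theorem gs_surj (hN : IsNilpotent N) (hq : (q : K) ≠ 0) {U : Submodule K V}
    (hU : ∀ x ∈ U, N x ∈ U) {x : V} (hx : x ∈ U) : ∃ y ∈ U, gs N q y = x := by
  have h1 : Function.Injective ((gs N q).restrict (gs_mem (q := q) hU)) := by
    rw [← LinearMap.ker_eq_bot, LinearMap.ker_eq_bot']
    intro y hy
    exact Subtype.ext (gs_inj hN hq (congrArg Subtype.val hy))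
  obtain ⟨y, hy⟩ := LinearMap.injective_iff_surjective.1 h1 ⟨x, hx⟩
  exact ⟨y, y.2, congrArg Subtype.val hy⟩

theorem gs_pow_surj (hN : IsNilpotent N) (hq : (q : K) ≠ 0) {U : Submodule K V}
    (hU : ∀ x ∈ U, N x ∈ U) (j : ℕ) : ∀ {x : V}, x ∈ U → ∃ y ∈ U, (gs N q ^ j) y = x := by
  induction j with
  | zero => intro x hx; exact ⟨x, hx, by simp⟩
  | succ j ih =>
    intro x hx
    obtain ⟨y, hy, rfl⟩ := ih hx
    obtain ⟨z, hz, rfl⟩ := gs_surj (q := q) hN hq hU hy
    exact ⟨z, hz, by rw [pow_succ, Module.End.mul_apply]⟩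

theorem det_unip {W : Type*} [AddCommGroup W] [Module K W]
    [FiniteDimensional K W] {f : End K W} (h : IsNilpotent (f - 1)) : LinearMap.det f = 1 := by
  have h1 := h.charpoly_eq_X_pow_finrank
  have h2 := congrArg (Polynomial.eval (-1)) h1
  rw [LinearMap.eval_charpoly, Polynomial.eval_pow, Polynomial.eval_X] at h2
  have h3 : algebraMap K (End K W) (-1) - (f - 1) = -f := by
    rw [map_neg, map_one]; abel
  have h4 : (-f : End K W) = (-1 : K) • f := by simp
  rw [h3, h4, LinearMap.det_smul] at h2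
  have h5 : ((-1 : K)) ^ finrank K W ≠ 0 := pow_ne_zero _ (by simp)
  exact mul_left_cancel₀ h5 (by rw [h2, mul_one])

theorem restrict_pow_apply {e : End K V} {U : Submodule K V} (hU : ∀ x ∈ U, e x ∈ U) (j : ℕ)
    (x : U) : (((e.restrict hU) ^ j) x : V) = (e ^ j) x := by
  induction j generalizing x with
  | zero => simp
  | succ j ih => rw [pow_succ, Module.End.mul_apply, ih, pow_succ, Module.End.mul_apply]; rfl

/-- the determinant of the geometric sum -/
theorem det_gs (hN : IsNilpotent N) (hq : (q : K) ≠ 0) {U : Submodule K V}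
    (hU : ∀ x ∈ U, N x ∈ U) (hU' : ∀ x ∈ U, gs N q x ∈ U) :
    LinearMap.det ((gs N q).restrict hU') = (q : K) ^ finrank K U := by
  obtain ⟨R, hR, h⟩ := gs_eq N q
  obtain ⟨m, hm⟩ := hN
  have h1 : (gs N q).restrict hU' = (q : K) • ((q : K)⁻¹ • (gs N q).restrict hU') := by
    rw [smul_smul, mul_inv_cancel₀ hq, one_smul]
  rw [h1, LinearMap.det_smul, det_unip, mul_one]
  refine ⟨m, ?_⟩
  have h2 : ∀ x ∈ U, ((q : K)⁻¹ • (N * R)) x ∈ U := by
    intro x hx
    have h3 : (N * R) x = gs N q x - (q : K) • x := by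
      rw [h]
      simp
    rw [LinearMap.smul_apply, h3]
    exact U.smul_mem _ (U.sub_mem (hU' x hx) (U.smul_mem _ hx))
  have h3 : (q : K)⁻¹ • (gs N q).restrict hU' - 1 = ((q : K)⁻¹ • (N * R)).restrict h2 := by
    refine LinearMap.ext fun x => Subtype.ext ?_
    show (q : K)⁻¹ • gs N q x - (x : V) = (q : K)⁻¹ • (N * R) x
    rw [h]
    simp only [LinearMap.add_apply, LinearMap.smul_apply, Module.End.one_apply, smul_add, smul_smul,
      inv_mul_cancel₀ hq, one_smul]
    abel
  rw [h3]
  refine LinearMap.ext fun x => Subtype.ext ?_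
  rw [restrict_pow_apply, smul_pow, hR.mul_pow, hm, zero_mul, smul_zero]
  rfl

end Pool.Agent.D0H1.SF
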