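import Pool.Agent.R390.SF.PolDef

/-!
# Polarized systems with Jordan blocks of different sizes
-/

set_option autoImplicit false

namespace Pool.Agent.D0H1.SF

open Polynomial NumberField Pool.Agent.Y800 Pool.Agent.R390.SF

variable (F : SubFld ℚ) {k : Type} [Field k] {n : ℕ}

/-- The monodromy of the representation `ρ` at the place of `F` below `P` is multiplicity free: for a
geometric Frobenius element `σ` and an element `g` of the inertia group (a generator of the tame
inertia group) with `ρ(g) ρ(σ) = ρ(σ) ρ(g) ^ q`, where `q` is the number of the elements of the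
residue field, `ρ(g)` is unipotent and its Jordan blocks have pairwise different sizes: with
`u = ρ(g) - 1`, the number `rank (u ^ j) - 2 rank (u ^ (j + 1)) + rank (u ^ (j + 2))` of the blocks of
size `j + 1` is at most one. -/
def DistinctBlocksAt (ρ : F.fixingSubgroup →* GL (Fin n) k) (P : Ideal ZBar) : Prop :=
  ∃ σ g : F.fixingSubgroup, IsGeomFrob (resCard F P) P σ ∧ InInertia P g ∧
    ρ g * ρ σ = ρ σ * ρ g ^ resCard F P ∧
    IsNilpotent ((ρ g : Matrix (Fin n) (Fin n) k) - 1) ∧
    ∀ j : ℕ, (((ρ g : Matrix (Fin n) (Fin n) k) - 1) ^ j).rank +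
        (((ρ g : Matrix (Fin n) (Fin n) k) - 1) ^ (j + 2)).rank ≤
      2 * (((ρ g : Matrix (Fin n) (Fin n) k) - 1) ^ (j + 1)).rank + 1

variable {F}

/-- The properties of the realisations of a polarized pure motive of weight `w` over `F` with a
lattice, with good reduction outside the finite set `S` of primes and semistable reduction in `S`, with
multiplicity free monodromy for the primes `ℓ` in `Λ`: for each `ℓ` in `Λ` the monodromy of `V_ℓ`, and
for almost all `ℓ` in `Λ` also the one of `T_ℓ / ℓ`, is multiplicity free at all the places above a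
prime `p ≠ ℓ` in `S` (which may depend on `ℓ`). The polarization of `T_ℓ` is perfect for the `ℓ` in `Λ`
outside the finite set `S'`. No condition on the Hodge numbers. -/
structure DistinctSystem (S S' : Finset ℕ) (w : ℕ) (Λ : Set ℕ) (T : IntegralSystem F n) : Prop
    extends T.PureSystem S w where
  /-- a polarization of `T_ℓ`, perfect for `ℓ` outside `S'` -/
  polarization : ∀ (ℓ : ℕ) [Fact ℓ.Prime], ℓ ∈ Λ → ∃ J : Matrix (Fin n) (Fin n) ℤ_[ℓ],
    T.IsPolarization w ℓ J ∧ (ℓ ∉ S' → IsUnit J.det)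
  /-- multiplicity free monodromy of `V_ℓ` -/
  rational : ∀ (ℓ : ℕ) [Fact ℓ.Prime], ℓ ∈ Λ → ∃ p ∈ S, p.Prime ∧ ℓ ≠ p ∧
    ∀ P : Ideal ZBar, P.IsMaximal → (p : ZBar) ∈ P → DistinctBlocksAt F (T.rat ℓ) P
  /-- multiplicity free monodromy of `T_ℓ / ℓ`, for almost all `ℓ` -/
  residual : ∃ N : ℕ, ∀ (ℓ : ℕ) [Fact ℓ.Prime], ℓ ∈ Λ → N < ℓ → ∃ p ∈ S, p.Prime ∧ ℓ ≠ p ∧
    ∀ P : Ideal ZBar, P.IsMaximal → (p : ZBar) ∈ P → DistinctBlocksAt F (T.res ℓ) P

end Pool.Agent.D0H1.SF
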