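import Pool.Agent.D0H1.SF.Core

/-!
# The invariant form on the kernel of a nilpotent endomorphism with Jordan blocks of different sizes
-/

set_option autoImplicit false
set_option linter.unusedSectionVars false

namespace Pool.Agent.D0H1.SF

open Module Finset

variable {K : Type*} [Field K] {V : Type*} [AddCommGroup V] [Module K V]

theorem exists_inv {N : End K V} (hN : IsNilpotent N) :
    ∃ S : End K V, (1 + N) * S = 1 ∧ S * (1 + N) = 1 ∧ Commute N S := by
  obtain ⟨u, hu⟩ := hN.isUnit_one_add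
  refine ⟨(u⁻¹ : (End K V)ˣ), ?_, ?_, ?_⟩
  · rw [← hu, Units.mul_inv]
  · rw [← hu, Units.inv_mul]
  · apply Commute.units_inv_right
    rw [hu]
    exact (Commute.one_right N).add_right (Commute.refl N)

/-- the Jordan blocks of `N` have different sizes -/
def Dist (N : End K V) : Prop :=
  ∀ (b : ℕ) (x y : V), N x = 0 → x ∈ LinearMap.range (N ^ b) → N y = 0 →
    y ∈ LinearMap.range (N ^ b) → y ∉ LinearMap.range (N ^ (b + 1)) →
      ∃ a : K, x - a • y ∈ LinearMap.range (N ^ (b + 1))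

section form

variable {N S : End K V} {B : V →ₗ[K] V →ₗ[K] K}

theorem adj (hBN : ∀ x y, B ((1 + N) x) ((1 + N) y) = B x y) (h1 : (1 + N) * S = 1)
    (hc : Commute N S) (x y : V) :
    B x (N y) = - B (N (S x)) y := by
  have e0 : (1 + N) (S x) = x := by
    rw [← Module.End.mul_apply, h1, Module.End.one_apply]
  have e1 : B x ((1 + N) y) = B (S x) y := by
    conv_lhs => rw [← e0]
    rw [hBN]
  have e2 : (1 + N) y = y + N y := rfl
  rw [e2, map_add] at e1
  have e3 : S x + N (S x) = x := e0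
  have e4 : B x y = B (S x) y + B (N (S x)) y := by
    conv_lhs => rw [← e3]
    rw [map_add, LinearMap.add_apply]
  rw [e4] at e1
  linear_combination e1

theorem adj_pow (hBN : ∀ x y, B ((1 + N) x) ((1 + N) y) = B x y) (h1 : (1 + N) * S = 1)
    (hc : Commute N S) (b : ℕ) (x y : V) :
    B x ((N ^ b) y) = (-1) ^ b * B ((N ^ b) ((S ^ b) x)) y := by
  induction b generalizing y with
  | zero => simp
  | succ b ih =>
    have e1 : (N ^ (b + 1)) y = (N ^ b) (N y) := by rw [pow_succ, Module.End.mul_apply]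
    have e2 : N (S ((N ^ b) ((S ^ b) x))) = (N ^ (b + 1)) ((S ^ (b + 1)) x) := by
      have e3 : N * (S * (N ^ b * S ^ b)) = N ^ (b + 1) * S ^ (b + 1) := by
        rw [← mul_assoc S, ← (hc.pow_left b).eq, pow_succ' N b, pow_succ' S b]
        simp only [mul_assoc]
      exact LinearMap.congr_fun e3 x
    rw [e1, ih, adj hBN h1 hc, e2, pow_succ]
    ring

theorem inv_ker (h2 : S * (1 + N) = 1) {z : V} (hz : N z = 0) (b : ℕ) : (S ^ b) z = z := by
  have h3 : S z = z := by
    have h4 := LinearMap.congr_fun h2 z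
    have h5 : (1 + N) z = z + N z := rfl
    rw [Module.End.mul_apply, h5, hz, add_zero] at h4
    exact h4
  induction b with
  | zero => simp
  | succ b ih => rw [pow_succ, Module.End.mul_apply, h3, ih]

theorem pow_pow_ker (h2 : S * (1 + N) = 1) (hc : Commute N S) {b : ℕ} {x : V}
    (hx : (N ^ (b + 1)) x = 0) (j : ℕ) : (N ^ b) ((S ^ j) x) = (N ^ b) x := by
  rw [← Module.End.mul_apply, (hc.pow_pow b j).eq, Module.End.mul_apply]
  apply inv_ker h2
  rw [← Module.End.mul_apply, ← pow_succ']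
  exact hx

theorem pow_zero_ker (hc : Commute N S) {b : ℕ} {x : V}
    (hx : (N ^ b) x = 0) (j : ℕ) : (N ^ b) ((S ^ j) x) = 0 := by
  rw [← Module.End.mul_apply, (hc.pow_pow b j).eq, Module.End.mul_apply, hx, map_zero]

variable (hN : IsNilpotent N) (hBN : ∀ x y, B ((1 + N) x) ((1 + N) y) = B x y)
include hN hBN

theorem swap {b : ℕ} {x : V} (hx : (N ^ (b + 1)) x = 0) (y : V) :
    B x ((N ^ b) y) = (-1) ^ b * B ((N ^ b) x) y := by
  obtain ⟨S, h1, h2, hc⟩ := exists_inv hN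
  rw [adj_pow hBN h1 hc, pow_pow_ker h2 hc hx]

theorem ortho1 {b : ℕ} {x : V} (hx : (N ^ b) x = 0) {y : V}
    (hy : y ∈ LinearMap.range (N ^ b)) : B x y = 0 := by
  obtain ⟨S, h1, h2, hc⟩ := exists_inv hN
  obtain ⟨z, rfl⟩ := hy
  rw [adj_pow hBN h1 hc, pow_zero_ker hc hx, map_zero, LinearMap.zero_apply, mul_zero]

theorem ortho2 {b : ℕ} {x : V} (hx : (N ^ b) x = 0) {y : V}
    (hy : y ∈ LinearMap.range (N ^ b)) : B y x = 0 := by
  obtain ⟨S, h1, h2, hc⟩ := exists_inv hN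
  obtain ⟨z, rfl⟩ := hy
  have h3 := adj_pow hBN h1 hc b (((1 + N) ^ b) z) x
  have h4 : (S ^ b) (((1 + N) ^ b) z) = z := by
    rw [← Module.End.mul_apply, ← Commute.mul_pow, h2, one_pow, Module.End.one_apply]
    show S * (1 + N) = (1 + N) * S
    rw [h1, h2]
  rw [hx, map_zero, h4] at h3
  rcases mul_eq_zero.1 h3.symm with h5 | h5
  · exact absurd h5 (pow_ne_zero _ (by simp))
  · exact h5

variable [FiniteDimensional K V] (hl : ∀ x, (∀ y, B x y = 0) → x = 0)
include hl

theorem mem_range {b : ℕ} {y : V} (hy : ∀ x, (N ^ b) x = 0 → B x y = 0) :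
    y ∈ LinearMap.range (N ^ b) := by
  obtain ⟨S, h1, h2, hc⟩ := exists_inv hN
  by_contra hcon
  obtain ⟨φ, hφy, hφ⟩ := Submodule.exists_dual_map_eq_bot_of_notMem hcon inferInstance
  have hinj : Function.Injective B := by
    rw [← LinearMap.ker_eq_bot, LinearMap.ker_eq_bot']
    intro x hx
    exact hl x fun y => by rw [hx, LinearMap.zero_apply]
  have hfin : finrank K V = finrank K (V →ₗ[K] K) := (Subspace.dual_finrank_eq (K := K) (V := V)).symm
  obtain ⟨x, hx⟩ := (LinearMap.injective_iff_surjective_of_finrank_eq_finrank hfin).1 hinj φ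
  have h3 : (N ^ b) ((S ^ b) x) = 0 := by
    apply hl
    intro z
    have h4 : B x ((N ^ b) z) = 0 := by
      rw [hx]
      have h5 : φ ((N ^ b) z) ∈ (LinearMap.range (N ^ b)).map φ :=
        Submodule.mem_map_of_mem ⟨z, rfl⟩
      rw [hφ] at h5
      exact (Submodule.mem_bot _).1 h5
    rw [adj_pow hBN h1 hc] at h4
    rcases mul_eq_zero.1 h4 with h5 | h5
    · exact absurd h5 (pow_ne_zero _ (by simp))
    · exact h5
  have h4 : (N ^ b) x = 0 := by
    have h5 : ((1 + N) ^ b) ((N ^ b) ((S ^ b) x)) = (N ^ b) x := by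
      have h6 : (1 + N) ^ b * (N ^ b * S ^ b) = N ^ b := by
        rw [(hc.pow_pow b b).eq, ← mul_assoc, ← Commute.mul_pow, h1, one_pow, one_mul]
        show (1 + N) * S = S * (1 + N)
        rw [h1, h2]
      exact LinearMap.congr_fun h6 x
    rw [← h5, h3, map_zero]
  exact hφy (by rw [← hx]; exact hy x h4)

variable (hD : Dist N)
include hD

/-- the form does not vanish on the Jordan blocks -/
theorem key1 {b : ℕ} {u : V} (hu : (N ^ (b + 1)) u = 0)
    (hu' : (N ^ b) u ∉ LinearMap.range (N ^ (b + 1))) : B u ((N ^ b) u) ≠ 0 := by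
  intro h0
  apply hu'
  refine mem_range hN hBN hl fun x hx => ?_
  have hNx : N ((N ^ b) x) = 0 := by
    rw [← Module.End.mul_apply, ← pow_succ']
    exact hx
  have hNu : N ((N ^ b) u) = 0 := by
    rw [← Module.End.mul_apply, ← pow_succ']
    exact hu
  obtain ⟨a, ha⟩ := hD b ((N ^ b) x) ((N ^ b) u) hNx ⟨x, rfl⟩ hNu ⟨u, rfl⟩ hu'
  have h1 := ortho2 hN hBN hu ha
  rw [map_sub, map_smul, LinearMap.sub_apply, LinearMap.smul_apply, smul_eq_mul] at h1
  rw [swap hN hBN hu] at h0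
  have h2 : B ((N ^ b) u) u = 0 := by
    rcases mul_eq_zero.1 h0 with h5 | h5
    · exact absurd h5 (pow_ne_zero _ (by simp))
    · exact h5
  rw [h2, mul_zero, sub_zero] at h1
  rw [swap hN hBN hx, h1, mul_zero]

/-- the eigenvalues on the kernel -/
theorem key2 {Φ : End K V} {q : ℕ} (hq : (q : K) ≠ 0) (hrel : (1 + N) * Φ = Φ * (1 + N) ^ q)
    {c : K} (hBΦ : ∀ x y, B (Φ x) (Φ y) = c * B x y) {b : ℕ} {y : V} (hy : N y = 0)
    (hyb : y ∈ LinearMap.range (N ^ b)) (hyb' : y ∉ LinearMap.range (N ^ (b + 1))) :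
    ∃ μ : K, Φ y - μ • y ∈ LinearMap.range (N ^ (b + 1)) ∧ μ ^ 2 * (q : K) ^ b = c := by
  obtain ⟨u, rfl⟩ := hyb
  have hu : (N ^ (b + 1)) u = 0 := by
    rw [pow_succ', Module.End.mul_apply]
    exact hy
  have hNΦ : N (Φ ((N ^ b) u)) = 0 := by
    have h1 := LinearMap.congr_fun (rel_one hrel) ((N ^ b) u)
    rw [Module.End.mul_apply, Module.End.mul_apply, (gs_comm N q).eq, Module.End.mul_apply, hy,
      map_zero, map_zero] at h1
    exact h1
  -- `N ^ b Φ u = q ^ b Φ N ^ b u`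
  have h2 : (N ^ b) (Φ u) = ((q : K) ^ b) • Φ ((N ^ b) u) := by
    have h1 := LinearMap.congr_fun (rel_pow hrel b) u
    rw [Module.End.mul_apply, Module.End.mul_apply, ((gs_comm N q).pow_pow b b).eq,
      Module.End.mul_apply, gs_pow_ker hy, map_smul] at h1
    exact h1
  have h3 : (N ^ (b + 1)) (Φ u) = 0 := by
    rw [pow_succ', Module.End.mul_apply, h2, map_smul, hNΦ, smul_zero]
  have h4 : Φ ((N ^ b) u) ∈ LinearMap.range (N ^ b) := by
    refine ⟨((q : K) ^ b)⁻¹ • Φ u, ?_⟩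
    rw [map_smul, h2, smul_smul, inv_mul_cancel₀ (pow_ne_zero _ hq), one_smul]
  obtain ⟨μ, hμ⟩ := hD b _ ((N ^ b) u) hNΦ h4 hy ⟨u, rfl⟩ hyb'
  refine ⟨μ, hμ, ?_⟩
  have h5 := hBΦ u ((N ^ b) u)
  -- the left side
  have h6 : B (Φ u) (Φ ((N ^ b) u)) = μ * B (Φ u) ((N ^ b) u) := by
    have h7 := ortho1 hN hBN h3 hμ
    rw [map_sub, map_smul, smul_eq_mul] at h7
    exact sub_eq_zero.1 h7
  have h7 : B (Φ ((N ^ b) u)) u = μ * B ((N ^ b) u) u := by
    have h8 := ortho2 hN hBN hu hμ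
    rw [map_sub, map_smul, LinearMap.sub_apply, LinearMap.smul_apply, smul_eq_mul] at h8
    exact sub_eq_zero.1 h8
  rw [h6, swap hN hBN h3, h2, map_smul, LinearMap.smul_apply, smul_eq_mul, h7,
    swap hN hBN hu] at h5
  have h9 : (-1 : K) ^ b * B ((N ^ b) u) u ≠ 0 := by
    rw [← swap hN hBN hu]
    exact key1 hN hBN hl hD hu hyb'
  apply mul_right_cancel₀ h9
  rw [← h5]
  ring

end form

end Pool.Agent.D0H1.SF
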