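import Pool.Agent.R390.SF.Wt
import Pool.Agent.W401.Cheb.Frob

/-!
# Frobenius elements of the places of a number field
-/

set_option autoImplicit false
set_option linter.unusedSectionVars false

namespace Pool.Agent.D0H1.SF

open NumberField Pool.Agent.Y800 Pool.Agent.R390.SF

variable {F : SubFld ℚ} [hF : FiniteDimensional ℚ F]

theorem smulCommF : SMulCommClass F.fixingSubgroup (𝓞 F) ZBar := by
  refine ⟨fun g a b => ?_⟩
  rw [Algebra.smul_def, Algebra.smul_def]
  show (g : GQ) • (algebraMap (𝓞 F) ZBar a * b) = algebraMap (𝓞 F) ZBar a * (g : GQ) • b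
  rw [smul_mul', smul_F g.2]

theorem isInvF : Algebra.IsInvariant (𝓞 F) ZBar F.fixingSubgroup := by
  refine ⟨fun b hb => ?_⟩
  have h1 : (b : AlgebraicClosure ℚ) ∈ F := by
    have h2 : (b : AlgebraicClosure ℚ) ∈ IntermediateField.fixedField F.fixingSubgroup := by
      rw [IntermediateField.mem_fixedField_iff]
      intro g hg
      have := congrArg (fun z : ZBar => (z : AlgebraicClosure ℚ)) (hb ⟨g, hg⟩)
      exact this
    rwa [InfiniteGalois.fixedField_fixingSubgroup] at h2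
  have h2 : IsIntegral ℤ (⟨(b : AlgebraicClosure ℚ), h1⟩ : F) := by
    have h3 : IsIntegral ℤ (algebraMap F (AlgebraicClosure ℚ) ⟨(b : AlgebraicClosure ℚ), h1⟩) := b.2
    exact (isIntegral_algebraMap_iff (algebraMap F (AlgebraicClosure ℚ)).injective).1 h3
  exact ⟨⟨_, h2⟩, RingOfIntegers.ext rfl⟩

theorem profF : CompactSpace F.fixingSubgroup := by
  have h1 : IsClosed (F.fixingSubgroup : Set GQ) := InfiniteGalois.fixingSubgroup_isClosed F
  exact isCompact_iff_compactSpace.1 h1.isCompact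

theorem contF : @ContinuousSMul F.fixingSubgroup ZBar _ _ ⊥ := by
  let _ : TopologicalSpace ZBar := ⊥
  have : DiscreteTopology ZBar := ⟨rfl⟩
  rw [continuousSMul_iff_stabilizer_isOpen]
  intro x
  have h0 : Algebra.IsAlgebraic ℚ (AlgebraicClosure ℚ) := AlgebraicClosure.isAlgebraic ℚ
  have : Algebra.IsIntegral ℚ (AlgebraicClosure ℚ) := Algebra.IsAlgebraic.isIntegral
  have h1 := stabilizer_isOpen_of_isIntegral (K := ℚ) (x : AlgebraicClosure ℚ)
  have h2 : IsOpen ((MulAction.stabilizer GQ (x : AlgebraicClosure ℚ) : Set GQ)) := h1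
  have h3 := h2.preimage (continuous_subtype_val (p := fun g => g ∈ F.fixingSubgroup))
  convert h3 using 1
  ext g
  rw [SetLike.mem_coe, MulAction.mem_stabilizer_iff, Set.mem_preimage, SetLike.mem_coe,
    MulAction.mem_stabilizer_iff]
  constructor
  · intro h
    exact congrArg (fun z : ZBar => (z : AlgebraicClosure ℚ)) h
  · intro h
    exact RingOfIntegers.ext h

/-- the maximal ideals above the same place of `F` are conjugate -/
theorem exists_cjF {P Q : Ideal ZBar} (hP : P.IsMaximal) (hQ : Q.IsMaximal)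
    (h : P.under (𝓞 F) = Q.under (𝓞 F)) : ∃ g : F.fixingSubgroup, Q = cj g P := by
  have : SMulCommClass F.fixingSubgroup (𝓞 F) ZBar := smulCommF
  have : Algebra.IsInvariant (𝓞 F) ZBar F.fixingSubgroup := isInvF
  let _ : TopologicalSpace ZBar := ⊥
  have : DiscreteTopology ZBar := ⟨rfl⟩
  have : CompactSpace F.fixingSubgroup := profF
  have : ContinuousSMul F.fixingSubgroup ZBar := contF
  have : P.IsPrime := hP.isPrime
  have : Q.IsPrime := hQ.isPrime
  obtain ⟨g, hg⟩ := Algebra.IsInvariant.exists_smul_of_under_eq_of_profinite (A := 𝓞 F)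
    (G := F.fixingSubgroup) P Q h
  refine ⟨g⁻¹, ?_⟩
  rw [hg]
  ext z
  rw [mem_cj]
  have h1 : ((g⁻¹ : F.fixingSubgroup) : GQ) • z ∈ P ↔ g⁻¹ • z ∈ P := Iff.rfl
  rw [h1]
  exact Ideal.mem_pointwise_smul_iff_inv_smul_mem

/-- geometric Frobenius elements of the places of `F` exist, at all primes of the ring of all
algebraic integers -/
theorem exists_geomF {p : ℕ} (hp : p.Prime) {Q : Ideal ZBar} (hQ : Q.IsMaximal)
    (hpQ : (p : ZBar) ∈ Q) : ∃ s : F.fixingSubgroup, IsGeomFrob (resCard F Q) Q s := by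
  classical
  have : SMulCommClass F.fixingSubgroup (𝓞 F) ZBar := smulCommF
  have : Algebra.IsInvariant (𝓞 F) ZBar F.fixingSubgroup := isInvF
  let _ : TopologicalSpace ZBar := ⊥
  have : DiscreteTopology ZBar := ⟨rfl⟩
  have : CompactSpace F.fixingSubgroup := profF
  have : ContinuousSMul F.fixingSubgroup ZBar := contF
  have hm : (Q.under (𝓞 F)).IsMaximal := under_max hQ
  have hpm : (p : 𝓞 F) ∈ Q.under (𝓞 F) := by
    rw [mem_under, map_natCast]
    exact hpQ
  have hne : Q.under (𝓞 F) ≠ ⊥ := by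
    intro h0
    rw [h0, Ideal.mem_bot] at hpm
    exact hp.ne_zero (by exact_mod_cast hpm)
  have : Q.LiesOver (Q.under (𝓞 F)) := ⟨rfl⟩
  let _ : Field (𝓞 F ⧸ Q.under (𝓞 F)) := Ideal.Quotient.field _
  let _ : Field (ZBar ⧸ Q) := Ideal.Quotient.field Q
  have : Finite (𝓞 F ⧸ Q.under (𝓞 F)) := Ideal.finiteQuotientOfFreeOfNeBot _ hne
  let _ : Fintype (𝓞 F ⧸ Q.under (𝓞 F)) := Fintype.ofFinite _
  have hint : Algebra.IsIntegral (𝓞 F) ZBar :=
    Algebra.IsInvariant.isIntegral_of_profinite (G := F.fixingSubgroup)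
  have : Algebra.IsAlgebraic (𝓞 F ⧸ Q.under (𝓞 F)) (ZBar ⧸ Q) := by
    have : Algebra.IsIntegral (𝓞 F ⧸ Q.under (𝓞 F)) (ZBar ⧸ Q) := inferInstance
    exact Algebra.IsIntegral.isAlgebraic
  obtain ⟨g, hg⟩ := Ideal.Quotient.stabilizerHom_surjective_of_profinite (G := F.fixingSubgroup)
    (Q.under (𝓞 F)) Q
    (FiniteField.frobeniusAlgEquivOfAlgebraic (𝓞 F ⧸ Q.under (𝓞 F)) (ZBar ⧸ Q))
  have h4 : ∀ x : ZBar, (g.1 : GQ) • x - x ^ resCard F Q ∈ Q := by
    intro x
    have h1 := DFunLike.congr_fun hg (Ideal.Quotient.mk Q x)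
    rw [Ideal.Quotient.stabilizerHom_apply] at h1
    rw [← Ideal.Quotient.mk_eq_mk_iff_sub_mem, map_pow]
    have h2 : resCard F Q = Fintype.card (𝓞 F ⧸ Q.under (𝓞 F)) := by
      rw [resCard, Nat.card_eq_fintype_card]
    rw [h2]
    exact h1
  exact ⟨g.1⁻¹, geom_of_arith h4⟩

end Pool.Agent.D0H1.SF
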