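import Pool.Agent.R390.SF.PolDef
import Pool.Agent.R390.SF.Tra

/-!
# Polarized systems with generic Frobenius eigenvalues
-/

set_option autoImplicit false

namespace Pool.Agent.D0H1.SF

open Polynomial NumberField Pool.Agent.Y800 Pool.Agent.R390.SF
open Pool.Agent.Y126.SH (chi)

/-- The ideals of the ring of integers of the number field `F`. -/
abbrev Idl (F : SubFld ℚ) : Type := Ideal (𝓞 F)

variable {F : SubFld ℚ} {n : ℕ}

/-- `𝔭` is a place of `F` above the prime number `p`. -/
def Above (p : ℕ) (𝔭 : Idl F) : Prop := 𝔭.IsMaximal ∧ (p : 𝓞 F) ∈ 𝔭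

/-- The number `N𝔭` of the elements of the residue field. -/
noncomputable def nrm (𝔭 : Idl F) : ℕ := Nat.card (𝓞 F ⧸ 𝔭)

/-- The degree over `ℚ` of the normal closure of `F`. -/
noncomputable def galDeg (F : SubFld ℚ) : ℕ := expo F.fixingSubgroup

/-- The members `z` of the family `A` and the numbers `c / z` together are among the complex roots of
the polynomial `P`, with multiplicities. -/
def Paired (P : ℤ[X]) (c : ℕ) (A : Multiset ℂ) : Prop :=
  A + A.map (fun z => (c : ℂ) / z) ≤ P.aroots ℂ

/-- The product of the numbers `(∏ A_𝔭) ^ m_𝔭` over the restrictions `𝔭` to `F` of the conjugates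
`x⁻¹ P₀` of the maximal ideal `P₀` of the ring of all algebraic integers, for `x` in the absolute Galois
group of `ℚ` modulo the one of `F`: a place `𝔭` of residue degree `f` and ramification index `e` is
counted `e f` times. -/
noncomputable def conjProd (P₀ : Ideal ZBar) (A : Idl F → Multiset ℂ) (m : Idl F → ℕ) : ℂ :=
  ∏ᶠ q : GQ ⧸ F.fixingSubgroup,
    (A ((cj q.out P₀).under (𝓞 F))).prod ^ m ((cj q.out P₀).under (𝓞 F))

/-- The Frobenius eigenvalues at the places of `F` above `p` allow an isotropic subsystem of dimension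
`d`: for each place `𝔭` above `p` there is a family `A_𝔭` of `d` roots of the Frobenius polynomial at
`𝔭` such that `A_𝔭` and the numbers `N𝔭 ^ w / z`, `z` in `A_𝔭`, together are among the roots (with
multiplicities), and up to roots of unity the product of all the `A_𝔭` is the power of `p` of absolute
value `p ^ (w [F : ℚ] d / 2)`. In this product a place of residue degree `f` and ramification index `e`
is counted `e f` times, and it is raised to the power `m 𝔭 = N / f`, where `N` is the degree of the
normal closure of `F`. -/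
def Balanced (T : IntegralSystem F n) (w p d : ℕ) : Prop :=
  ∃ P₀ : Ideal ZBar, P₀.IsMaximal ∧ (p : ZBar) ∈ P₀ ∧
    ∃ (A : Idl F → Multiset ℂ) (m : Idl F → ℕ) (a : ℕ),
      (∀ 𝔭 : Idl F, Above p 𝔭 → Multiset.card (A 𝔭) = d ∧
        Paired (T.poly 𝔭) (nrm 𝔭 ^ w) (A 𝔭) ∧ nrm 𝔭 ^ m 𝔭 = p ^ galDeg F) ∧
      a * 2 = w * (Module.finrank ℚ F * d) ∧ conjProd P₀ A m = (p : ℂ) ^ (galDeg F * a)

/-- The properties of the realisations of a polarized pure motive of weight `w` over `F` with a
lattice, with good reduction outside the finite set `S` of primes and semistable reduction in `S`, with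
generic Frobenius eigenvalues: for each `ℓ` in `Λ` and each `d > 0` there is a prime number `p ≠ ℓ` of
good reduction at which the Frobenius eigenvalues do not allow an isotropic subsystem of dimension
`d`. For the `ℓ` in `Λ` outside the finite set `S'` (which contains `S` and the small primes, for
which the theory of Fontaine and Laffaille does not apply to `T_ℓ / ℓ`) the polarization of `T_ℓ` is
perfect and the weights of `T_ℓ / ℓ` are natural numbers. -/
structure GenericSystem (S S' : Finset ℕ) (w : ℕ) (Λ : Set ℕ) (T : IntegralSystem F n) : Prop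
    extends T.PureSystem S w where
  /-- a polarization of `T_ℓ`, perfect for `ℓ` outside `S'` -/
  polarization : ∀ (ℓ : ℕ) [Fact ℓ.Prime], ℓ ∈ Λ → ∃ J : Matrix (Fin n) (Fin n) ℤ_[ℓ],
    T.IsPolarization w ℓ J ∧ (ℓ ∉ S' → IsUnit J.det)
  /-- Fontaine-Laffaille weights of `T_ℓ / ℓ` at the places above `ℓ`, for `ℓ` outside `S'` -/
  uniformWeights : ∀ (ℓ : ℕ) [Fact ℓ.Prime], ℓ ∈ Λ → ℓ ∉ S' →
    WeightsAt F (T.res ℓ) (fun g => PadicInt.toZMod (chi ℓ g : ℤ_[ℓ])) ℓ (w * n)
  /-- generic Frobenius eigenvalues -/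
  generic : ∀ ℓ : ℕ, ℓ.Prime → ℓ ∈ Λ → ∀ d : ℕ, 0 < d →
    ∃ p : ℕ, p.Prime ∧ p ∉ S ∧ p ≠ ℓ ∧ ¬ Balanced T w p d

end Pool.Agent.D0H1.SF
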