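import Pool.Agent.D0H1.SF.Cnt
import Pool.Agent.D0H1.SF.Def
import Pool.Agent.R390.SF.PolMain
import Pool.Agent.R390.SF.DegI

/-!
# Distinct Jordan blocks: there are no isotropic stable subspaces
-/

set_option autoImplicit false
set_option linter.unusedSectionVars false

namespace Pool.Agent.D0H1.SF

open Module Polynomial NumberField Pool.Agent.Y800 Pool.Agent.R390.SF
open Pool.Agent.Y126.SH (chi)

attribute [local instance] Subgroup.fintypeQuotientOfFiniteIndex

section rank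

variable {K : Type*} [Field K] {V : Type*} [AddCommGroup V] [Module K V] [FiniteDimensional K V]

theorem finrank_range_pow (N : End K V) (b : ℕ) :
    finrank K (LinearMap.range (N ^ b)) =
      finrank K (LinearMap.range (N ^ b) ⊓ LinearMap.ker N : Submodule K V) +
        finrank K (LinearMap.range (N ^ (b + 1))) := by
  have h1 := (det_step (e := 0) (e' := 0) (N := N) (U := LinearMap.range (N ^ b))
    (fun x _ => Submodule.zero_mem _) (fun x _ => by simp) (fun x _ => Submodule.zero_mem _)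
    (fun x _ => Submodule.zero_mem _)).2
  have h2 : (LinearMap.range (N ^ b)).map N = LinearMap.range (N ^ (b + 1)) := by
    rw [pow_succ', Module.End.mul_eq_comp, LinearMap.range_comp]
  rw [h2] at h1
  exact h1

theorem dist_of_rank {N : End K V} (h : ∀ b, finrank K (LinearMap.range (N ^ b)) +
    finrank K (LinearMap.range (N ^ (b + 2))) ≤ 2 * finrank K (LinearMap.range (N ^ (b + 1))) + 1) :
    Dist N := by
  intro b x y hx hxb hy hyb hyb'
  have h1 := finrank_range_pow N b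
  have h2 := finrank_range_pow N (b + 1)
  have h3 := h b
  have h4 : finrank K (LinearMap.range (N ^ b) ⊓ LinearMap.ker N : Submodule K V) ≤
      finrank K (LinearMap.range (N ^ (b + 1)) ⊓ LinearMap.ker N : Submodule K V) + 1 := by
    have h5 : b + 1 + 1 = b + 2 := rfl
    rw [h5] at h2
    omega
  set A := (LinearMap.range (N ^ b) ⊓ LinearMap.ker N : Submodule K V) with hA
  set A' := (LinearMap.range (N ^ (b + 1)) ⊓ LinearMap.ker N : Submodule K V) with hA'
  have hle : A' ≤ A := by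
    rintro z ⟨⟨v, rfl⟩, hz⟩
    exact ⟨⟨N v, by rw [pow_succ, Module.End.mul_apply]⟩, hz⟩
  have hW : A' ⊔ Submodule.span K {y} ≤ A := by
    refine sup_le hle ?_
    rw [Submodule.span_singleton_le_iff_mem]
    exact ⟨hyb, hy⟩
  have hlt : A' < A' ⊔ Submodule.span K {y} := by
    refine lt_of_le_of_ne le_sup_left fun h5 => ?_
    have h6 : y ∈ A' := by
      rw [h5]
      exact Submodule.mem_sup_right (Submodule.mem_span_singleton_self y)
    exact hyb' h6.1
  have h5 := Submodule.finrank_lt_finrank_of_lt hlt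
  have h6 : A' ⊔ Submodule.span K {y} = A := Submodule.eq_of_le_of_finrank_le hW (by omega)
  have h7 : x ∈ A' ⊔ Submodule.span K {y} := by
    rw [h6]
    exact ⟨hxb, hx⟩
  obtain ⟨z, hz, z', hz', rfl⟩ := Submodule.mem_sup.1 h7
  obtain ⟨a, rfl⟩ := Submodule.mem_span_singleton.1 hz'
  refine ⟨a, ?_⟩
  rw [add_sub_cancel_right]
  exact hz.1

end rank

section bil

variable {k : Type*} [Field k] {n : ℕ}

/-- the bilinear form of a matrix -/
noncomputable def bf (J : Matrix (Fin n) (Fin n) k) : (Fin n → k) →ₗ[k] (Fin n → k) →ₗ[k] k :=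
  Matrix.toBilin' J

theorem bf_apply (J : Matrix (Fin n) (Fin n) k) (x y : Fin n → k) :
    bf J x y = dotProduct x (J.mulVec y) := by
  unfold bf
  rw [Matrix.toBilin'_apply']

end bil

section core

variable {F : SubFld ℚ} [hF : FiniteDimensional ℚ F] {n : ℕ} {S : Finset ℕ} {w : ℕ}
  {T : IntegralSystem F n} {ℓ : ℕ} [hℓ : Fact ℓ.Prime]
  {k : Type} [Field k] [TopologicalSpace k] [IsTopologicalRing k] (ψ : ℤ_[ℓ] →+* k)

/-- the cyclotomic character of a Frobenius element of a place of `F` -/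
theorem chik_pow {p : ℕ} (hp : p.Prime) (hpℓ : ℓ ≠ p) {P : Ideal ZBar} (hP : P.IsMaximal)
    (hpP : (p : ZBar) ∈ P) {f : ℕ} {s : GQ} (hs : IsGeomFrob (p ^ f) P s) :
    (chik ψ s : k) * (p : k) ^ f = 1 := by
  obtain ⟨σ, hσ⟩ : ∃ σ : GQ, IsGeomFrob p P σ := by
    obtain ⟨P₁, σ₁, hP₁, hpP₁, hσ₁⟩ := exists_geom hp
    obtain ⟨x, hx⟩ := exists_cj hp hP₁ hpP₁ hP hpP
    exact ⟨x⁻¹ * σ₁ * x, by rw [hx]; exact cj_frob hσ₁⟩
  have h1 := chik_frob ψ hp hpℓ hP hpP hσ
  have h2 : InInertia P (s⁻¹ * σ ^ f) := geom_unique hP (pow_ne_zero _ hp.ne_zero) hs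
    (geom_pow hσ f) (fun x y h => frob_inj hp hP hpP _ x y h)
  have h3 := chik_inertia ψ hp hpℓ hP hpP h2
  have h4 : chik ψ s = chik ψ σ ^ f := by
    rw [map_mul, map_pow, map_inv, inv_mul_eq_one] at h3
    exact h3
  rw [h4, Units.val_pow_eq_pow_val, ← mul_pow, h1, one_pow]

/-- **No isotropic stable subspaces.** -/
theorem noiso_blocks (hT : T.PureSystem S w) {p : ℕ} (hp : p.Prime) (hpℓ : ℓ ≠ p)
    (hdeg : ∀ P : Ideal ZBar, P.IsMaximal → (p : ZBar) ∈ P → DistinctBlocksAt F (rep ψ T) P)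
    (hpk : ∀ e : ℕ, 0 < e → e ≤ expo F.fixingSubgroup * finrank ℚ F * n ^ 2 → (p : k) ^ e ≠ 1)
    (hwt : ∀ (U : Submodule k (Fin n → k)) (hU : IsStable (rep ψ T) U),
      Wt ψ w (finrank k U) (detChar (rep ψ T) U hU))
    {J : Matrix (Fin n) (Fin n) k} (hJ : ∀ g : F.fixingSubgroup, (chik ψ g : k) ^ w •
      ((rep ψ T g : Matrix (Fin n) (Fin n) k).transpose * J * rep ψ T g) = J)
    (hJd : J.det ≠ 0) : NoIso (rep ψ T) J := by
  classical
  intro U hU hiso
  by_contra hU0
  obtain ⟨P, σ, hP, hpP, hσ⟩ := exists_geom hp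
  have hN : 0 < expo F.fixingSubgroup := expo_pos
  have hchip : (chik ψ σ : k) * (p : k) = 1 := chik_frob ψ hp hpℓ hP hpP hσ
  have hpk0 : (p : k) ≠ 0 := right_ne_zero_of_mul_eq_one hchip
  have hdim : finrank k (Fin n → k) = n := finrank_fin_fun k
  have hform : ∀ (g : F.fixingSubgroup) (x y : Fin n → k), (chik ψ g : k) ^ w *
      bf J (Matrix.toLin' (rep ψ T g : Matrix (Fin n) (Fin n) k) x)
        (Matrix.toLin' (rep ψ T g : Matrix (Fin n) (Fin n) k) y) = bf J x y := by
    intro g x y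
    rw [bf_apply, bf_apply]
    conv_rhs => rw [← hJ g]
    rw [Matrix.smul_mulVec, dotProduct_smul, smul_eq_mul, ← Matrix.mulVec_mulVec,
      ← Matrix.mulVec_mulVec, Matrix.dotProduct_mulVec x, Matrix.vecMul_transpose]
    rfl
  have hl : ∀ x, (∀ y, bf J x y = 0) → x = 0 := by
    intro x hx
    have h1 : Matrix.vecMul x J = 0 := by
      funext i
      have h2 := hx (Pi.single i 1)
      rw [bf_apply, Matrix.dotProduct_mulVec, dotProduct_single, mul_one] at h2
      exact h2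
    by_contra hx0
    exact hJd (Matrix.exists_vecMul_eq_zero_iff.1 ⟨x, hx0, h1⟩)
  have key : ∀ q : GQ ⧸ F.fixingSubgroup, ∃ t : ℕ, 0 < t ∧ t ≤ n ^ 2 ∧
      (detChar (rep ψ T) U hU (zz σ q) : k) ^ 2 * (p : k) ^ (expo F.fixingSubgroup * t) =
        (p : k) ^ (expo F.fixingSubgroup * (w * finrank k U)) := by
    intro q
    obtain ⟨s, g, hs, hg, hrel, hnil, hrk⟩ := hdeg (cj q.out P) (cj_max hP) (cj_nat.2 hpP)
    obtain ⟨f, m, hf, hfm, τ, hτ, hz⟩ := zz_eq hp hP hpP hσ q hs
    let Φ : End k (Fin n → k) := Matrix.toLin' (rep ψ T s : Matrix (Fin n) (Fin n) k)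
    let N : End k (Fin n → k) := Matrix.toLin' ((rep ψ T g : Matrix (Fin n) (Fin n) k) - 1)
    have hN1 : 1 + N = Matrix.toLin' (rep ψ T g : Matrix (Fin n) (Fin n) k) := by
      show 1 + Matrix.toLin' ((rep ψ T g : Matrix (Fin n) (Fin n) k) - 1) = _
      rw [map_sub, Matrix.toLin'_one]
      exact add_sub_cancel (1 : End k (Fin n → k)) _
    have hNpow : ∀ j : ℕ, N ^ j =
        Matrix.toLin' (((rep ψ T g : Matrix (Fin n) (Fin n) k) - 1) ^ j) := by
      intro j
      rw [Matrix.toLin'_pow]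
    have hN : IsNilpotent N := by
      obtain ⟨m, hm⟩ := hnil
      exact ⟨m, by rw [hNpow, hm, map_zero]⟩
    have hrel' : (1 + N) * Φ = Φ * (1 + N) ^ (p ^ f) := by
      rw [hN1]
      show Matrix.toLin' _ ∘ₗ Matrix.toLin' _ = Matrix.toLin' _ ∘ₗ (Matrix.toLin' _) ^ (p ^ f)
      rw [← Matrix.toLin'_pow, ← Matrix.toLin'_mul, ← Matrix.toLin'_mul, ← Units.val_mul, hrel,
        Units.val_mul, Units.val_pow_eq_pow_val, hf]
    have hD : Dist N := by
      apply dist_of_rank
      intro b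
      have h1 := hrk b
      rw [hNpow, hNpow, hNpow]
      exact h1
    have hBN : ∀ x y, bf J ((1 + N) x) ((1 + N) y) = bf J x y := by
      intro x y
      have h1 := chik_inertia ψ hp hpℓ (cj_max (x := q.out) hP) (cj_nat.2 hpP) hg
      have h2 := hform g x y
      rw [h1, Units.val_one, one_pow, one_mul] at h2
      rw [hN1]
      exact h2
    have hqk : ((p ^ f : ℕ) : k) ≠ 0 := by
      rw [Nat.cast_pow]
      exact pow_ne_zero _ hpk0
    have hBΦ : ∀ x y, bf J (Φ x) (Φ y) = (((p ^ f : ℕ) : k)) ^ w * bf J x y := by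
      intro x y
      have h1 : (chik ψ (s : GQ) : k) * (p : k) ^ f = 1 :=
        chik_pow ψ hp hpℓ (cj_max (x := q.out) hP) (cj_nat.2 hpP) (by rw [← hf]; exact hs)
      have h2 := hform s x y
      rw [← h2, ← mul_assoc, Nat.cast_pow, ← mul_pow, mul_comm ((p : k) ^ f), h1, one_pow, one_mul]
    have hUN : ∀ x ∈ U, N x ∈ U := by
      intro x hx
      have h1 : N x = (Matrix.toLin' (rep ψ T g : Matrix (Fin n) (Fin n) k)) x - x := by
        show (Matrix.toLin' ((rep ψ T g : Matrix (Fin n) (Fin n) k) - 1)) x = _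
        rw [map_sub, Matrix.toLin'_one]
        rfl
      rw [h1]
      exact U.sub_mem (hU g x hx) hx
    obtain ⟨t, ht0, ht, hdet⟩ := det_final (B := bf J) hN hBN hl hD hqk hrel' hBΦ hUN (hU s)
      (fun x hx y hy => by rw [bf_apply]; exact hiso x hx y hy) hU0
    rw [hdim] at ht
    refine ⟨t, ht0, ht, ?_⟩
    have h3 : (detChar (rep ψ T) U hU (zz σ q) : k) = (detChar (rep ψ T) U hU s : k) ^ m := by
      rw [hz, map_mul, det_inertia ψ hT hU hp hpℓ (cj_max hP) (cj_nat.2 hpP) hτ, mul_one, map_pow,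
        Units.val_pow_eq_pow_val]
    have h4 : (detChar (rep ψ T) U hU s : k) ^ 2 * ((p ^ f : ℕ) : k) ^ t =
      (((p ^ f : ℕ) : k) ^ w) ^ finrank k U := hdet
    have h5 := congrArg (· ^ m) h4
    simp only [mul_pow, Nat.cast_pow] at h5
    rw [h3, ← hfm]
    have e1 : (p : k) ^ (f * m * t) = (((p : k) ^ f) ^ t) ^ m := by
      rw [← pow_mul, ← pow_mul]
      congr 1
      ring
    have e2 : (p : k) ^ (f * m * (w * finrank k U)) = ((((p : k) ^ f) ^ w) ^ finrank k U) ^ m := by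
      rw [← pow_mul, ← pow_mul, ← pow_mul]
      congr 1
      ring
    have e3 : ((detChar (rep ψ T) U hU s : k) ^ m) ^ 2 =
        ((detChar (rep ψ T) U hU s : k) ^ 2) ^ m := by
      rw [← pow_mul, mul_comm m 2, pow_mul]
    rw [e1, e2, ← h5, e3]
  choose t ht0 ht hkey using key
  obtain ⟨A, hA, hA'⟩ := hwt U hU
  have h1 : (∏ q : GQ ⧸ F.fixingSubgroup, (detChar (rep ψ T) U hU (zz σ q) : k)) ^ 2 =
      ((p : k) ^ (expo F.fixingSubgroup * A)) ^ 2 := by rw [hA' p hp hpℓ P hP hpP σ hσ]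
  have h2 := Finset.prod_congr (s₁ := Finset.univ) rfl
    fun (q : GQ ⧸ F.fixingSubgroup) (_ : q ∈ Finset.univ) => hkey q
  rw [Finset.prod_mul_distrib, Finset.prod_pow, h1, Finset.prod_const, Finset.card_univ, card_quot,
    Finset.prod_pow_eq_pow_sum, ← pow_mul, ← pow_mul, ← Finset.mul_sum] at h2
  have h3 : expo F.fixingSubgroup * A * 2 =
      expo F.fixingSubgroup * (w * finrank k U) * finrank ℚ F := by
    rw [mul_assoc, hA]
    ring
  rw [h3] at h2
  have h4 : (p : k) ^ (expo F.fixingSubgroup * ∑ q, t q) = 1 := by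
    have h5 : (p : k) ^ (expo F.fixingSubgroup * (w * finrank k U) * finrank ℚ F) ≠ 0 :=
      pow_ne_zero _ hpk0
    apply mul_left_cancel₀ h5
    rw [mul_one]
    exact h2
  refine hpk _ ?_ ?_ h4
  · refine Nat.mul_pos hN ?_
    rw [Finset.sum_pos_iff]
    exact ⟨(1 : GQ), Finset.mem_univ _, ht0 _⟩
  · rw [mul_assoc]
    apply Nat.mul_le_mul_left
    calc ∑ q, t q ≤ ∑ _q : GQ ⧸ F.fixingSubgroup, n ^ 2 := Finset.sum_le_sum fun q _ => ht q
      _ = finrank ℚ F * n ^ 2 := by
          rw [Finset.sum_const, Finset.card_univ, card_quot, smul_eq_mul]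

end core

end Pool.Agent.D0H1.SF
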