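import Pool.Agent.D0H1.SF.Frb
import Pool.Agent.D0H1.SF.Bal
import Pool.Agent.D0H1.SF.GDef
import Pool.Agent.D0H1.SF.Gal

/-!
# Isotropic stable subspaces and the relations between Frobenius eigenvalues
-/

set_option autoImplicit false
set_option linter.unusedSectionVars false

namespace Pool.Agent.D0H1.SF

open Module Polynomial NumberField Pool.Agent.Y800 Pool.Agent.R390.SF
open Pool.Agent.Y126.SH (chi roots_isotropic)

attribute [local instance] Subgroup.fintypeQuotientOfFiniteIndex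

section places

variable {F : SubFld ℚ} [hF : FiniteDimensional ℚ F]

theorem exists_over {𝔭 : Ideal (𝓞 F)} (h𝔭 : 𝔭.IsMaximal) :
    ∃ P : Ideal ZBar, P.IsMaximal ∧ P.under (𝓞 F) = 𝔭 := by
  have : SMulCommClass F.fixingSubgroup (𝓞 F) ZBar := smulCommF
  have : Algebra.IsInvariant (𝓞 F) ZBar F.fixingSubgroup := isInvF
  let _ : TopologicalSpace ZBar := ⊥
  have : DiscreteTopology ZBar := ⟨rfl⟩
  have : CompactSpace F.fixingSubgroup := profF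
  have : ContinuousSMul F.fixingSubgroup ZBar := contF
  have hint : Algebra.IsIntegral (𝓞 F) ZBar :=
    Algebra.IsInvariant.isIntegral_of_profinite (G := F.fixingSubgroup)
  obtain ⟨P, h1, h2⟩ := Ideal.exists_ideal_over_maximal_of_isIntegral (S := ZBar) 𝔭 (by
    intro x hx
    rw [RingHom.mem_ker] at hx
    have h3 : x = 0 := by
      have h4 := congrArg (fun z : ZBar => (z : AlgebraicClosure ℚ)) hx
      have h5 : algebraMap F (AlgebraicClosure ℚ) (x : F) = 0 := h4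
      rw [map_eq_zero] at h5
      exact RingOfIntegers.ext h5
    rw [h3]
    exact 𝔭.zero_mem)
  exact ⟨P, h1, h2⟩

/-- the places above `p` -/
theorem exists_q {p : ℕ} (hp : p.Prime) {P₀ : Ideal ZBar} (hP₀ : P₀.IsMaximal)
    (hpP₀ : (p : ZBar) ∈ P₀) {𝔭 : Ideal (𝓞 F)} (h𝔭 : 𝔭.IsMaximal) (hp𝔭 : (p : 𝓞 F) ∈ 𝔭) :
    ∃ q : GQ ⧸ F.fixingSubgroup, (cj q.out P₀).under (𝓞 F) = 𝔭 := by
  obtain ⟨P, hP, rfl⟩ := exists_over h𝔭
  rw [mem_under, map_natCast] at hp𝔭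
  obtain ⟨x, rfl⟩ := exists_cj hp hP₀ hpP₀ hP hp𝔭
  exact ⟨(x : GQ ⧸ F.fixingSubgroup), under_out⟩

theorem mem_place {p : ℕ} {P₀ : Ideal ZBar} (hpP₀ : (p : ZBar) ∈ P₀) (x : GQ) :
    (p : 𝓞 F) ∈ (cj x P₀).under (𝓞 F) := by
  rw [mem_under, map_natCast]
  exact cj_nat.2 hpP₀

theorem card_pos {p : ℕ} (hp : p.Prime) {𝔭 : Ideal (𝓞 F)} (h𝔭 : 𝔭.IsMaximal)
    (hp𝔭 : (p : 𝓞 F) ∈ 𝔭) : ∃ f : ℕ, 0 < f ∧ Nat.card (𝓞 F ⧸ 𝔭) = p ^ f := by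
  obtain ⟨P, hP, rfl⟩ := exists_over h𝔭
  rw [mem_under, map_natCast] at hp𝔭
  exact resCard_pow (F := F) hp hP hp𝔭

end places

section core

variable {F : SubFld ℚ} [hF : FiniteDimensional ℚ F] {n : ℕ} {S : Finset ℕ} {w : ℕ}
  {T : IntegralSystem F n} {ℓ : ℕ} [hℓ : Fact ℓ.Prime]
  {k : Type} [Field k] [TopologicalSpace k] [IsTopologicalRing k] (ψ : ℤ_[ℓ] →+* k)

/-- the characteristic polynomial of a Frobenius element -/
theorem charpoly_frobF (hT : T.GoodSystem S w) {p : ℕ} (hp : p.Prime)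
    (hpS : p ∉ S) (hpℓ : ℓ ≠ p) {P : Ideal ZBar} (hP : P.IsMaximal) (hpP : (p : ZBar) ∈ P)
    {s : F.fixingSubgroup} (hs : IsGeomFrob (resCard F P) P s) :
    (lin (rep ψ T) s).charpoly = (T.poly (P.under (𝓞 F))).map (Int.castRingHom k) := by
  have hpm : (p : 𝓞 F) ∈ P.under (𝓞 F) := by
    rw [mem_under, map_natCast]
    exact hpP
  have h4 := (hT.good p hp hpS _ (under_max hP) hpm).frobenius ℓ hpℓ P hP rfl s hs
  rw [charpoly_lin, rep_val, Matrix.charpoly_map, h4, Polynomial.map_map]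
  congr 1
  exact RingHom.ext_int _ _

/-- The relations over the field `Ω`. -/
def BalAt (Ω : Type) [Field Ω] (T : IntegralSystem F n) (w p d : ℕ) (P₀ : Ideal ZBar)
    (m : Ideal (𝓞 F) → ℕ) (a : ℕ) : Prop :=
  ∃ A : Ideal (𝓞 F) → Multiset Ω,
    (∀ 𝔭 : Ideal (𝓞 F), 𝔭.IsMaximal → (p : 𝓞 F) ∈ 𝔭 → Multiset.card (A 𝔭) = d ∧
      (A 𝔭).prod ≠ 0 ∧
      A 𝔭 + (A 𝔭).map (fun z => ((Nat.card (𝓞 F ⧸ 𝔭) ^ w : ℕ) : Ω) / z) ≤
        ((T.poly 𝔭).map (Int.castRingHom Ω)).roots) ∧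
    ∏ q : GQ ⧸ F.fixingSubgroup,
      (A ((cj q.out P₀).under (𝓞 F))).prod ^ m ((cj q.out P₀).under (𝓞 F)) =
        (p : Ω) ^ (expo F.fixingSubgroup * a)

/-- **An isotropic stable subspace gives relations.** -/
theorem bal_of_iso (hT : T.PureSystem S w) {p : ℕ} (hp : p.Prime) (hpS : p ∉ S) (hpℓ : ℓ ≠ p)
    {P₀ : Ideal ZBar} (hP₀ : P₀.IsMaximal) (hpP₀ : (p : ZBar) ∈ P₀) {m : Ideal (𝓞 F) → ℕ}
    (hm : ∀ 𝔭 : Ideal (𝓞 F), 𝔭.IsMaximal → (p : 𝓞 F) ∈ 𝔭 →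
      Nat.card (𝓞 F ⧸ 𝔭) ^ m 𝔭 = p ^ expo F.fixingSubgroup)
    {U : Submodule k (Fin n → k)} (hU : IsStable (rep ψ T) U) {a : ℕ}
    (hwt : ∀ p : ℕ, p.Prime → ℓ ≠ p → ∀ P : Ideal ZBar, P.IsMaximal → (p : ZBar) ∈ P → ∀ σ : GQ,
      IsGeomFrob p P σ → ∏ q : GQ ⧸ F.fixingSubgroup, (detChar (rep ψ T) U hU (zz σ q) : k) =
        (p : k) ^ (expo F.fixingSubgroup * a))
    {J : Matrix (Fin n) (Fin n) k} (hJ : ∀ g : F.fixingSubgroup, (chik ψ g : k) ^ w •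
      ((rep ψ T g : Matrix (Fin n) (Fin n) k).transpose * J * rep ψ T g) = J)
    (hJd : J.det ≠ 0) (hiso : ∀ x ∈ U, ∀ y ∈ U, bf J x y = 0) :
    BalAt (AlgebraicClosure k) T w p (finrank k U) P₀ m a := by
  classical
  obtain ⟨P, σ₀, hP, hpP, hσ₀⟩ := exists_geom hp
  obtain ⟨x, rfl⟩ := exists_cj hp hP hpP hP₀ hpP₀
  have hσ := cj_frob (x := x) hσ₀
  have hch : ∀ 𝔭 : Ideal (𝓞 F), ∃ (Q : Ideal ZBar) (s : F.fixingSubgroup),
      𝔭.IsMaximal → (p : 𝓞 F) ∈ 𝔭 → Q.IsMaximal ∧ (p : ZBar) ∈ Q ∧ Q.under (𝓞 F) = 𝔭 ∧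
        IsGeomFrob (resCard F Q) Q s := by
    intro 𝔭
    by_cases h : 𝔭.IsMaximal ∧ (p : 𝓞 F) ∈ 𝔭
    · obtain ⟨Q, hQ, hQ𝔭⟩ := exists_over h.1
      have hpQ : (p : ZBar) ∈ Q := by
        have h1 := h.2
        rwa [← hQ𝔭, mem_under, map_natCast] at h1
      obtain ⟨s, hs⟩ := exists_geomF (F := F) hp hQ hpQ
      exact ⟨Q, s, fun _ _ => ⟨hQ, hpQ, hQ𝔭, hs⟩⟩
    · exact ⟨⊥, 1, fun h1 h2 => absurd ⟨h1, h2⟩ h⟩
  choose Q s hQs using hch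
  have hUs : ∀ g : F.fixingSubgroup, U ≤ U.comap (lin (rep ψ T) g) := fun g u hu => hU g u hu
  have hform : ∀ (g : F.fixingSubgroup) (x y : Fin n → k), (chik ψ g : k) ^ w *
      bf J (lin (rep ψ T) g x) (lin (rep ψ T) g y) = bf J x y := by
    intro g x y
    rw [bf_apply, bf_apply]
    conv_rhs => rw [← hJ g]
    rw [Matrix.smul_mulVec, dotProduct_smul, smul_eq_mul, ← Matrix.mulVec_mulVec,
      ← Matrix.mulVec_mulVec, Matrix.dotProduct_mulVec x, Matrix.vecMul_transpose]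
    rfl
  have hnd : LinearMap.BilinForm.Nondegenerate (bf J) :=
    LinearMap.BilinForm.nondegenerate_toBilin'_of_det_ne_zero' J hJd
  have hroots : ∀ 𝔭 : Ideal (𝓞 F), 𝔭.IsMaximal → (p : 𝓞 F) ∈ 𝔭 →
      ((lin (rep ψ T) (s 𝔭)).restrict (hUs (s 𝔭))).charpoly.aroots (AlgebraicClosure k) +
        (((lin (rep ψ T) (s 𝔭)).restrict (hUs (s 𝔭))).charpoly.aroots (AlgebraicClosure k)).map
          (fun z => ((Nat.card (𝓞 F ⧸ 𝔭) ^ w : ℕ) : AlgebraicClosure k) / z) ≤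
        ((T.poly 𝔭).map (Int.castRingHom (AlgebraicClosure k))).roots ∧
      (((lin (rep ψ T) (s 𝔭)).restrict (hUs (s 𝔭))).charpoly.aroots (AlgebraicClosure k)).prod =
        algebraMap k (AlgebraicClosure k) (detChar (rep ψ T) U hU (s 𝔭) : k) ∧
      Multiset.card (((lin (rep ψ T) (s 𝔭)).restrict (hUs (s 𝔭))).charpoly.aroots
        (AlgebraicClosure k)) = finrank k U := by
    intro 𝔭 h1 h2
    obtain ⟨hQ, hpQ, hQ𝔭, hs⟩ := hQs 𝔭 h1 h2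
    obtain ⟨f, hf, hf'⟩ := card_pos hp h1 h2
    have hcard : resCard F (Q 𝔭) = Nat.card (𝓞 F ⧸ 𝔭) := by rw [resCard, hQ𝔭]
    have h3 : (chik ψ (s 𝔭 : GQ) : k) * (p : k) ^ f = 1 :=
      chik_pow ψ hp hpℓ hQ hpQ (by rw [← hf', ← hcard]; exact hs)
    have h4 : ((Nat.card (𝓞 F ⧸ 𝔭) ^ w : ℕ) : k) ≠ 0 := by
      rw [hf', Nat.cast_pow, Nat.cast_pow]
      exact pow_ne_zero _ (right_ne_zero_of_mul_eq_one h3)
    have h5 : ∀ x y, bf J (lin (rep ψ T) (s 𝔭) x) (lin (rep ψ T) (s 𝔭) y) =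
        ((Nat.card (𝓞 F ⧸ 𝔭) ^ w : ℕ) : k) * bf J x y := by
      intro x y
      have h6 := hform (s 𝔭) x y
      rw [← h6, ← mul_assoc, hf', Nat.cast_pow, Nat.cast_pow, ← mul_pow, mul_comm ((p : k) ^ f), h3,
        one_pow, one_mul]
    obtain ⟨h6, h7, h8⟩ := roots_isotropic (Ω := AlgebraicClosure k) hnd h4 h5 (hUs (s 𝔭)) (by
      intro y hy x hx
      exact hiso x hx y hy)
    refine ⟨?_, h7, h8⟩
    rw [map_natCast] at h6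
    have h9 : (lin (rep ψ T) (s 𝔭)).charpoly.aroots (AlgebraicClosure k) =
        ((T.poly 𝔭).map (Int.castRingHom (AlgebraicClosure k))).roots := by
      rw [charpoly_frobF ψ hT.toGoodSystem hp hpS hpℓ hQ hpQ hs, aroots_def, Polynomial.map_map, hQ𝔭]
      congr 2
    rw [← h9]
    exact h6
  refine ⟨fun 𝔭 => ((lin (rep ψ T) (s 𝔭)).restrict (hUs (s 𝔭))).charpoly.aroots
    (AlgebraicClosure k), fun 𝔭 h1 h2 => ?_, ?_⟩
  · obtain ⟨h3, h4, h5⟩ := hroots 𝔭 h1 h2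
    refine ⟨h5, ?_, h3⟩
    rw [h4]
    exact (_root_.map_ne_zero _).2 (Units.ne_zero _)
  · have h6 := congrArg (algebraMap k (AlgebraicClosure k))
      (hwt p hp hpℓ _ hP₀ hpP₀ _ hσ)
    rw [map_prod, map_pow, map_natCast] at h6
    rw [← h6]
    refine Finset.prod_congr rfl fun q _ => ?_
    have h1 : ((cj q.out (cj x P)).under (𝓞 F)).IsMaximal := under_max (cj_max hP₀)
    have h2 : (p : 𝓞 F) ∈ (cj q.out (cj x P)).under (𝓞 F) := mem_place hpP₀ _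
    generalize h𝔭 : (cj q.out (cj x P)).under (𝓞 F) = 𝔭 at h1 h2 ⊢
    obtain ⟨hQ, hpQ, hQ𝔭, hs⟩ := hQs 𝔭 h1 h2
    rw [(hroots 𝔭 h1 h2).2.1, ← map_pow]
    congr 1
    obtain ⟨g, hg⟩ := exists_cjF (F := F) hQ (cj_max (x := q.out) hP₀) (by rw [hQ𝔭, h𝔭])
    have hs' : IsGeomFrob (resCard F (cj q.out (cj x P))) (cj q.out (cj x P))
        ((g⁻¹ * s 𝔭 * g : F.fixingSubgroup) : GQ) := by
      have h7 : resCard F (cj q.out (cj x P)) = resCard F (Q 𝔭) := by rw [resCard, resCard, h𝔭, hQ𝔭]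
      rw [h7, hg]
      exact cj_frob hs
    obtain ⟨f, m', hf, hfm, τ, hτ, hz⟩ := zz_eq hp hP₀ hpP₀ hσ q hs'
    have hmm : m' = m 𝔭 := by
      have h8 := hm 𝔭 h1 h2
      have h9 : Nat.card (𝓞 F ⧸ 𝔭) = p ^ f := by rw [← hf, resCard, h𝔭]
      rw [h9, ← pow_mul] at h8
      have h10 := Nat.pow_right_injective hp.two_le h8
      rw [← hfm] at h10
      have hN : 0 < expo F.fixingSubgroup := expo_pos
      rcases Nat.eq_zero_or_pos f with h11 | h11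
      · rw [h11, zero_mul] at hfm
        omega
      · exact (Nat.eq_of_mul_eq_mul_left h11 h10).symm
    rw [hz, map_mul, det_inertia ψ hT hU hp hpℓ (cj_max hP₀) (cj_nat.2 hpP₀) hτ, mul_one, map_pow,
      Units.val_pow_eq_pow_val, hmm]
    congr 2
    rw [map_mul, map_mul, map_inv, mul_comm (detChar (rep ψ T) U hU g)⁻¹, mul_assoc, inv_mul_cancel,
      mul_one]

/-- **The relations come from complex relations in almost all characteristics.** -/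
theorem bal_down (hT : T.GoodSystem S w) {p : ℕ} (hp : p.Prime) (hpS : p ∉ S)
    {P₀ : Ideal ZBar} (hP₀ : P₀.IsMaximal) (hpP₀ : (p : ZBar) ∈ P₀) (m : Ideal (𝓞 F) → ℕ) (a : ℕ) :
    ∃ M : ℤ, M ≠ 0 ∧ ∀ (Ω : Type) [Field Ω] [IsAlgClosed Ω], (M : Ω) ≠ 0 → ∀ d : ℕ,
      BalAt Ω T w p d P₀ m a →
      ∃ A : Ideal (𝓞 F) → Multiset ℂ,
        (∀ 𝔭 : Ideal (𝓞 F), 𝔭.IsMaximal → (p : 𝓞 F) ∈ 𝔭 → Multiset.card (A 𝔭) = d ∧
          A 𝔭 + (A 𝔭).map (fun z => ((Nat.card (𝓞 F ⧸ 𝔭) ^ w : ℕ) : ℂ) / z) ≤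
            (T.poly 𝔭).aroots ℂ) ∧
        ∏ q : GQ ⧸ F.fixingSubgroup,
          (A ((cj q.out P₀).under (𝓞 F))).prod ^ m ((cj q.out P₀).under (𝓞 F)) =
            (p : ℂ) ^ (expo F.fixingSubgroup * a) := by
  classical
  let pl : (GQ ⧸ F.fixingSubgroup) → Ideal (𝓞 F) := fun q => (cj q.out P₀).under (𝓞 F)
  let J := {𝔭 : Ideal (𝓞 F) // 𝔭 ∈ Finset.univ.image pl}
  let π : (GQ ⧸ F.fixingSubgroup) → J := fun q =>
    ⟨pl q, Finset.mem_image_of_mem _ (Finset.mem_univ q)⟩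
  let _ : Fintype J := Finset.Subtype.fintype _
  have hJ : ∀ j : J, (j : Ideal (𝓞 F)).IsMaximal ∧ (p : 𝓞 F) ∈ (j : Ideal (𝓞 F)) := by
    rintro ⟨𝔭, h⟩
    obtain ⟨q, _, rfl⟩ := Finset.mem_image.1 h
    exact ⟨under_max (cj_max hP₀), mem_place hpP₀ _⟩
  obtain ⟨M, hM0, hM⟩ := bal_gen π (fun j : J => T.poly j)
    (fun j => (hT.good p hp hpS _ (hJ j).1 (hJ j).2).monic) p
    (fun j => Nat.card (𝓞 F ⧸ (j : Ideal (𝓞 F))) ^ w) (fun j => by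
      obtain ⟨f, _, hf⟩ := card_pos hp (hJ j).1 (hJ j).2
      rw [hf]
      exact pow_ne_zero _ (pow_ne_zero _ hp.ne_zero))
    (fun q => m (pl q)) (expo F.fixingSubgroup * a)
  refine ⟨M, hM0, fun Ω _ _ hMΩ d hbal => ?_⟩
  obtain ⟨A, hA, hprod⟩ := hbal
  obtain ⟨A', h1, h2, h3⟩ := hM Ω hMΩ (fun j => A j) (fun j => (hA j (hJ j).1 (hJ j).2).2.1)
    (fun j => (hA j (hJ j).1 (hJ j).2).2.2) hprod
  have hmem : ∀ 𝔭 : Ideal (𝓞 F), 𝔭.IsMaximal → (p : 𝓞 F) ∈ 𝔭 → 𝔭 ∈ Finset.univ.image pl := by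
    intro 𝔭 h4 h5
    obtain ⟨q, hq⟩ := exists_q hp hP₀ hpP₀ h4 h5
    exact Finset.mem_image.2 ⟨q, Finset.mem_univ q, hq⟩
  obtain ⟨B, hB⟩ : ∃ B : Ideal (𝓞 F) → Multiset ℂ, ∀ (𝔭 : Ideal (𝓞 F))
      (h : 𝔭 ∈ Finset.univ.image pl), B 𝔭 = A' ⟨𝔭, h⟩ :=
    ⟨fun 𝔭 => if h : 𝔭 ∈ Finset.univ.image pl then A' ⟨𝔭, h⟩ else 0, fun 𝔭 h => dif_pos h⟩
  refine ⟨B, fun 𝔭 h4 h5 => ?_, ?_⟩
  · rw [hB 𝔭 (hmem 𝔭 h4 h5)]
    refine ⟨?_, h2 ⟨𝔭, hmem 𝔭 h4 h5⟩⟩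
    rw [h1]
    exact (hA 𝔭 h4 h5).1
  · rw [← h3]
    refine Finset.prod_congr rfl fun q _ => ?_
    have h6 : pl q ∈ Finset.univ.image pl := Finset.mem_image_of_mem _ (Finset.mem_univ q)
    show (B (pl q)).prod ^ m (pl q) = _
    rw [hB _ h6]

end core

end Pool.Agent.D0H1.SF
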