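import Pool.Agent.D0H1.SF.GMain

/-!
# Criteria for generic Frobenius eigenvalues
-/

set_option autoImplicit false
set_option linter.unusedSectionVars false

namespace Pool.Agent.D0H1.SF

open Module Polynomial NumberField Pool.Agent.Y800 Pool.Agent.R390.SF

attribute [local instance] Subgroup.fintypeQuotientOfFiniteIndex

variable {F : SubFld ℚ} [hF : FiniteDimensional ℚ F] {n : ℕ} {w : ℕ} {T : IntegralSystem F n}

/-- The product of the powers `z ^ c(z)` of the complex roots `z` of `P`, with multiplicities. -/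
noncomputable def relProd (P : ℤ[X]) (c : ℂ → ℤ) : ℂ := ((P.aroots ℂ).map fun z => z ^ c z).prod

/-- Maximal angle rank at the places of `F` above `p`: the Frobenius polynomials have no multiple
roots, and all the multiplicative relations between `p` and the roots `z` at the places `𝔭` above `p`
follow from the relations `z * (N𝔭 ^ w / z) = N𝔭 ^ w`. -/
def MaximalAngleRank (T : IntegralSystem F n) (w p : ℕ) : Prop :=
  (∀ 𝔭 : Idl F, Above p 𝔭 → ((T.poly 𝔭).aroots ℂ).Nodup) ∧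
  ∀ (c : Idl F → ℂ → ℤ) (b : ℤ),
    ∏ᶠ 𝔭 ∈ {𝔭 : Idl F | Above p 𝔭}, relProd (T.poly 𝔭) (c 𝔭) = (p : ℂ) ^ b →
    ∀ 𝔭 : Idl F, Above p 𝔭 → ∀ z ∈ (T.poly 𝔭).aroots ℂ, c 𝔭 z = c 𝔭 (((nrm 𝔭 ^ w : ℕ) : ℂ) / z)

/-- Small rank over `ℚ` without multiple Frobenius eigenvalues: `F = ℚ`, the rank is at most `5`, or at
most `7` and the weight is odd, and the Frobenius polynomial at the place above `p` has degree `n` and
no multiple roots. -/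
def SmallSquarefree (T : IntegralSystem F n) (w p : ℕ) : Prop :=
  finrank ℚ F = 1 ∧ (n ≤ 5 ∨ (Odd w ∧ n ≤ 7)) ∧
  ∀ 𝔭 : Idl F, Above p 𝔭 → (T.poly 𝔭).natDegree = n ∧ ((T.poly 𝔭).aroots ℂ).Nodup

/-- There are `d` roots `z` of the polynomial `P` with product `p ^ (w d / 2)`, `w d` even, such that
these roots and the numbers `p ^ w / z` together are among the roots, with multiplicities. -/
def IsotropicRelation (P : ℤ[X]) (p w d : ℕ) : Prop :=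
  ∃ (A : Multiset ℂ) (a : ℕ), Multiset.card A = d ∧ Paired P (p ^ w) A ∧ a * 2 = w * d ∧
    A.prod = (p : ℂ) ^ a

/-- the product of a sub-multiset as a product over the roots -/
theorem prod_sub {R A : Multiset ℂ} (hR : R.Nodup) (hA : A ≤ R) (k : ℕ) [DecidableEq ℂ] :
    (R.map fun z => z ^ ((k * A.count z : ℕ) : ℤ)).prod = A.prod ^ k := by
  have h1 : A.prod = ∏ z ∈ R.toFinset, z ^ A.count z :=
    Finset.prod_multiset_count_of_subset A R.toFinset (fun z hz => by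
      rw [Multiset.mem_toFinset] at hz ⊢
      exact Multiset.mem_of_le hA hz)
  rw [h1, ← Finset.prod_pow, Finset.prod_eq_multiset_prod, Multiset.toFinset_val,
    Multiset.dedup_eq_self.2 hR]
  congr 1
  apply Multiset.map_congr rfl
  intro z _
  rw [zpow_natCast, mul_comm, pow_mul]

/-- **Maximal angle rank.** -/
theorem not_balanced_of_rank {p : ℕ} (hp : p.Prime) (h : MaximalAngleRank T w p) {d : ℕ}
    (hd : 0 < d) : ¬ Balanced T w p d := by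
  classical
  rintro ⟨P₀, hP₀, hpP₀, A, m, a, hA0, -, hprod⟩
  have hA : ∀ 𝔭 : Ideal (𝓞 F), 𝔭.IsMaximal → (p : 𝓞 F) ∈ 𝔭 → Multiset.card (A 𝔭) = d ∧
      A 𝔭 + (A 𝔭).map (fun z => ((Nat.card (𝓞 F ⧸ 𝔭) ^ w : ℕ) : ℂ) / z) ≤ (T.poly 𝔭).aroots ℂ ∧
      Nat.card (𝓞 F ⧸ 𝔭) ^ m 𝔭 = p ^ expo F.fixingSubgroup := fun 𝔭 h1 h2 => hA0 𝔭 ⟨h1, h2⟩
  replace hprod : ∏ᶠ q : GQ ⧸ F.fixingSubgroup,
      (A ((cj q.out P₀).under (𝓞 F))).prod ^ m ((cj q.out P₀).under (𝓞 F)) =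
        (p : ℂ) ^ (expo F.fixingSubgroup * a) := hprod
  obtain ⟨hnd0, hrel0⟩ := h
  have hnd : ∀ 𝔭 : Ideal (𝓞 F), 𝔭.IsMaximal → (p : 𝓞 F) ∈ 𝔭 →
      ((T.poly 𝔭).aroots ℂ).Nodup := fun 𝔭 h1 h2 => hnd0 𝔭 ⟨h1, h2⟩
  have hrel : ∀ (c : Ideal (𝓞 F) → ℂ → ℤ) (b : ℤ),
      ∏ᶠ 𝔭 ∈ {𝔭 : Ideal (𝓞 F) | 𝔭.IsMaximal ∧ (p : 𝓞 F) ∈ 𝔭},
        (((T.poly 𝔭).aroots ℂ).map fun z => z ^ c 𝔭 z).prod = (p : ℂ) ^ b →
      ∀ 𝔭 : Ideal (𝓞 F), 𝔭.IsMaximal → (p : 𝓞 F) ∈ 𝔭 → ∀ z ∈ (T.poly 𝔭).aroots ℂ,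
        c 𝔭 z = c 𝔭 (((Nat.card (𝓞 F ⧸ 𝔭) ^ w : ℕ) : ℂ) / z) :=
    fun c b h 𝔭 h1 h2 => hrel0 c b h 𝔭 ⟨h1, h2⟩
  let pl : (GQ ⧸ F.fixingSubgroup) → Ideal (𝓞 F) := fun q => (cj q.out P₀).under (𝓞 F)
  let e : Ideal (𝓞 F) → ℕ := fun 𝔭 =>
    m 𝔭 * (Finset.univ.filter fun q : GQ ⧸ F.fixingSubgroup => pl q = 𝔭).card
  have hset : {𝔭 : Ideal (𝓞 F) | 𝔭.IsMaximal ∧ (p : 𝓞 F) ∈ 𝔭} =
      ((Finset.univ.image pl : Finset (Ideal (𝓞 F))) : Set (Ideal (𝓞 F))) := by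
    ext 𝔭
    rw [Set.mem_ofPred_eq, Finset.mem_coe, Finset.mem_image]
    constructor
    · rintro ⟨h1, h2⟩
      obtain ⟨q, hq⟩ := exists_q hp hP₀ hpP₀ h1 h2
      exact ⟨q, Finset.mem_univ q, hq⟩
    · rintro ⟨q, _, rfl⟩
      exact ⟨under_max (cj_max hP₀), mem_place hpP₀ _⟩
  have h1 := hrel (fun 𝔭 z => ((e 𝔭 * (A 𝔭).count z : ℕ) : ℤ)) ((expo F.fixingSubgroup * a : ℕ) : ℤ) (by
    rw [zpow_natCast, ← hprod, hset, finprod_mem_coe_finset, finprod_eq_prod_of_fintype]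
    have h2 : ∏ q : GQ ⧸ F.fixingSubgroup, (A (pl q)).prod ^ m (pl q) =
        ∏ 𝔭 ∈ Finset.univ.image pl, ((A 𝔭).prod ^ m 𝔭) ^
          (Finset.univ.filter fun q : GQ ⧸ F.fixingSubgroup => pl q = 𝔭).card :=
      Finset.prod_comp (fun 𝔭 => (A 𝔭).prod ^ m 𝔭) pl
    refine Eq.trans ?_ h2.symm
    refine Finset.prod_congr rfl fun 𝔭 h𝔭 => ?_
    have h3 : 𝔭.IsMaximal ∧ (p : 𝓞 F) ∈ 𝔭 := by
      have h4 : 𝔭 ∈ {𝔭 : Ideal (𝓞 F) | 𝔭.IsMaximal ∧ (p : 𝓞 F) ∈ 𝔭} := by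
        rw [hset]
        exact h𝔭
      exact h4
    rw [prod_sub (hnd 𝔭 h3.1 h3.2) ((Multiset.le_add_right _ _).trans (hA 𝔭 h3.1 h3.2).2.1) (e 𝔭),
      ← pow_mul])
  -- a place and a root in the family
  have h𝔭 : (pl (1 : GQ)).IsMaximal := under_max (cj_max hP₀)
  have hp𝔭 : (p : 𝓞 F) ∈ pl (1 : GQ) := mem_place hpP₀ _
  generalize h𝔭0 : pl (1 : GQ) = 𝔭 at h𝔭 hp𝔭
  obtain ⟨h2, h3, h4⟩ := hA 𝔭 h𝔭 hp𝔭
  obtain ⟨z, hz⟩ := Multiset.card_pos_iff_exists_mem.1 (h2.symm ▸ hd : 0 < Multiset.card (A 𝔭))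
  have hzR : z ∈ (T.poly 𝔭).aroots ℂ :=
    Multiset.mem_of_le ((Multiset.le_add_right _ _).trans h3) hz
  have h5 := h1 𝔭 h𝔭 hp𝔭 z hzR
  have he : e 𝔭 ≠ 0 := by
    apply mul_ne_zero
    · intro h0
      rw [h0, pow_zero] at h4
      have h6 : 0 < expo F.fixingSubgroup := expo_pos
      have h7 := Nat.one_lt_pow h6.ne' hp.one_lt
      omega
    · rw [Finset.card_ne_zero]
      exact ⟨(1 : GQ), Finset.mem_filter.2 ⟨Finset.mem_univ _, h𝔭0⟩⟩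
  have h6 : (A 𝔭).count z = (A 𝔭).count (((Nat.card (𝓞 F ⧸ 𝔭) ^ w : ℕ) : ℂ) / z) := by
    have h7 : e 𝔭 * (A 𝔭).count z =
        e 𝔭 * (A 𝔭).count (((Nat.card (𝓞 F ⧸ 𝔭) ^ w : ℕ) : ℂ) / z) := by exact_mod_cast h5
    exact Nat.eq_of_mul_eq_mul_left (Nat.pos_of_ne_zero he) h7
  have h7 : 0 < (A 𝔭).count z := Multiset.count_pos.2 hz
  have h8 : ((Nat.card (𝓞 F ⧸ 𝔭) ^ w : ℕ) : ℂ) / z ∈ A 𝔭 := Multiset.count_pos.1 (h6 ▸ h7)
  obtain ⟨f, _, hf⟩ := card_pos hp h𝔭 hp𝔭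
  have hN0 : ((Nat.card (𝓞 F ⧸ 𝔭) ^ w : ℕ) : ℂ) ≠ 0 := by
    rw [hf]
    exact_mod_cast pow_ne_zero _ (pow_ne_zero _ hp.ne_zero)
  have h9 : z ∈ (A 𝔭).map (fun z => ((Nat.card (𝓞 F ⧸ 𝔭) ^ w : ℕ) : ℂ) / z) := by
    refine Multiset.mem_map.2 ⟨_, h8, ?_⟩
    exact div_div_cancel₀ hN0
  have h10 : 2 ≤ (A 𝔭 + (A 𝔭).map (fun z => ((Nat.card (𝓞 F ⧸ 𝔭) ^ w : ℕ) : ℂ) / z)).count z := by
    rw [Multiset.count_add]
    have h11 := Multiset.count_pos.2 h9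
    omega
  have h11 := Multiset.count_le_of_le z h3
  have h12 := Multiset.nodup_iff_count_le_one.1 (hnd 𝔭 h𝔭 hp𝔭) z
  omega

/-- over `ℚ` -/
theorem expo_one (h : finrank ℚ F = 1) : expo F.fixingSubgroup = 1 := by
  have h1 : F.fixingSubgroup.index = 1 := by
    rw [← IntermediateField.finrank_eq_fixingSubgroup_index, h]
  rw [Subgroup.index_eq_one] at h1
  rw [expo, h1]
  have h2 : (⊤ : Subgroup GQ).normalCore = ⊤ := by
    rw [Subgroup.normalCore_eq_self]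
  rw [h2, Subgroup.index_top]

/-- **The relations for `F = ℚ`.** -/
theorem balanced_rat (h : finrank ℚ F = 1) {p : ℕ} (hp : p.Prime) {d : ℕ}
    {𝔭 : Ideal (𝓞 F)} (h𝔭 : 𝔭.IsMaximal) (hp𝔭 : (p : 𝓞 F) ∈ 𝔭) :
    Balanced T w p d ↔ IsotropicRelation (T.poly 𝔭) p w d := by
  classical
  have hcard : ∀ q : GQ ⧸ F.fixingSubgroup, q = ((1 : GQ) : GQ ⧸ F.fixingSubgroup) := by
    have h1 : Fintype.card (GQ ⧸ F.fixingSubgroup) = 1 := by rw [card_quot, h]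
    intro q
    exact (Fintype.card_le_one_iff.1 h1.le) q _
  have hpl : ∀ P₀ : Ideal ZBar, P₀.IsMaximal → (p : ZBar) ∈ P₀ → ∀ 𝔮 : Ideal (𝓞 F), 𝔮.IsMaximal →
      (p : 𝓞 F) ∈ 𝔮 → ∀ q : GQ ⧸ F.fixingSubgroup, (cj q.out P₀).under (𝓞 F) = 𝔮 := by
    intro P₀ hP₀ hpP₀ 𝔮 h1 h2 q
    obtain ⟨q', hq'⟩ := exists_q hp hP₀ hpP₀ h1 h2
    rw [hcard q, ← hcard q', hq']
  have hprod1 : ∀ f : GQ ⧸ F.fixingSubgroup → ℂ, ∏ᶠ q, f q = f ((1 : GQ) : GQ ⧸ F.fixingSubgroup) := by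
    intro f
    rw [finprod_eq_prod_of_fintype]
    have h1 : (Finset.univ : Finset (GQ ⧸ F.fixingSubgroup)) =
        {((1 : GQ) : GQ ⧸ F.fixingSubgroup)} := by
      ext q
      rw [Finset.mem_singleton]
      exact ⟨fun _ => hcard q, fun _ => Finset.mem_univ q⟩
    rw [h1, Finset.prod_singleton]
  obtain ⟨f, hf, hf'⟩ := card_pos hp h𝔭 hp𝔭
  obtain ⟨m₀, hm₀⟩ := exists_m (F := F) hp
  have hfm : ∀ m : ℕ, Nat.card (𝓞 F ⧸ 𝔭) ^ m = p ^ expo F.fixingSubgroup → m = 1 ∧ f = 1 := by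
    intro m hm
    rw [expo_one h, hf', ← pow_mul] at hm
    have h1 := Nat.pow_right_injective hp.two_le hm
    exact ⟨Nat.eq_one_of_mul_eq_one_left h1, Nat.eq_one_of_mul_eq_one_right h1⟩
  have hN : Nat.card (𝓞 F ⧸ 𝔭) = p := by
    rw [hf', (hfm _ (hm₀ 𝔭 h𝔭 hp𝔭)).2, pow_one]
  constructor
  · rintro ⟨P₀, hP₀, hpP₀, A, m, a, hA, ha, hprod⟩
    obtain ⟨h1, h2, h3⟩ := hA 𝔭 ⟨h𝔭, hp𝔭⟩
    rw [conjProd, galDeg] at hprod
    refine ⟨A 𝔭, a, h1, ?_, ?_, ?_⟩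
    · rw [nrm, hN] at h2
      exact h2
    · rw [h, one_mul] at ha
      exact ha
    · rw [hprod1, hpl P₀ hP₀ hpP₀ 𝔭 h𝔭 hp𝔭, (hfm _ h3).1, expo_one h, pow_one, one_mul] at hprod
      exact hprod
  · rintro ⟨A, a, h1, h2, h3, h4⟩
    obtain ⟨P₀, _, hP₀, hpP₀, _⟩ := exists_geom hp
    have huniq : ∀ 𝔮 : Ideal (𝓞 F), 𝔮.IsMaximal → (p : 𝓞 F) ∈ 𝔮 → 𝔮 = 𝔭 := by
      intro 𝔮 h5 h6
      rw [← hpl P₀ hP₀ hpP₀ 𝔮 h5 h6 ((1 : GQ) : GQ ⧸ F.fixingSubgroup),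
        hpl P₀ hP₀ hpP₀ 𝔭 h𝔭 hp𝔭]
    refine ⟨P₀, hP₀, hpP₀, fun _ => A, fun _ => 1, a, fun 𝔮 h5 => ?_, ?_, ?_⟩
    · rw [huniq 𝔮 h5.1 h5.2]
      refine ⟨h1, ?_, ?_⟩
      · rw [nrm, hN]
        exact h2
      · rw [nrm, hN, galDeg, expo_one h]
    · rw [h, one_mul]
      exact h3
    · rw [conjProd, galDeg, hprod1, expo_one h, pow_one, one_mul]
      exact h4

/-- **Small rank over `ℚ`.** -/
theorem not_balanced_small (h : finrank ℚ F = 1) {p : ℕ} (hp : p.Prime)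
    {𝔭 : Ideal (𝓞 F)} (h𝔭 : 𝔭.IsMaximal) (hp𝔭 : (p : 𝓞 F) ∈ 𝔭)
    (hnd : ((T.poly 𝔭).aroots ℂ).Nodup) (hn : (T.poly 𝔭).natDegree = n)
    (hsmall : n ≤ 5 ∨ (Odd w ∧ n ≤ 7)) {d : ℕ} (hd : 0 < d) : ¬ Balanced T w p d := by
  classical
  rw [balanced_rat h hp h𝔭 hp𝔭]
  rintro ⟨A, a, hAd, hA, ha, hprod⟩
  rw [Paired] at hA
  have h1 : 2 * d ≤ n := by
    have h2 := Multiset.card_le_card hA
    rw [Multiset.card_add, Multiset.card_map, hAd] at h2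
    have h3 : Multiset.card ((T.poly 𝔭).aroots ℂ) ≤ n := by
      refine (Polynomial.card_roots' _).trans ?_
      exact (Polynomial.natDegree_map_le).trans hn.le
    omega
  have hp0 : (p : ℂ) ≠ 0 := by exact_mod_cast hp.ne_zero
  have hd2 : d = 1 ∨ d = 2 := by
    rcases hsmall with h2 | ⟨h2, h3⟩
    · omega
    · have h4 : Even (w * d) := ⟨a, by omega⟩
      rw [Nat.even_mul] at h4
      rcases h4 with h4 | h4
      · exact absurd h4 (Nat.not_even_iff_odd.2 h2)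
      · obtain ⟨c, hc⟩ := h4
        omega
  have hcount := Multiset.nodup_iff_count_le_one.1 hnd
  rcases hd2 with rfl | rfl
  · obtain ⟨α, rfl⟩ := Multiset.card_eq_one.1 hAd
    rw [Multiset.prod_singleton] at hprod
    have h2 : ((p ^ w : ℕ) : ℂ) / α = α := by
      have h3 : w = a + a := by omega
      rw [hprod, Nat.cast_pow, h3, pow_add, mul_div_cancel_right₀ _ (pow_ne_zero _ hp0)]
    rw [Multiset.map_singleton, h2] at hA
    have h3 := Multiset.count_le_of_le α hA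
    have h4 := hcount α
    rw [Multiset.count_add, Multiset.count_singleton_self] at h3
    omega
  · obtain ⟨α, β, rfl⟩ := Multiset.card_eq_two.1 hAd
    have h2 : α * β = ((p ^ w : ℕ) : ℂ) := by
      have h3 : a = w := by omega
      have h4 : (({α, β} : Multiset ℂ)).prod = α * β := by
        rw [Multiset.insert_eq_cons, Multiset.prod_cons, Multiset.prod_singleton]
      rw [← h4, hprod, h3, Nat.cast_pow]
    have h3 : ((p ^ w : ℕ) : ℂ) ≠ 0 := by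
      rw [Nat.cast_pow]
      exact pow_ne_zero _ hp0
    have hβ : β ≠ 0 := by
      intro h0
      rw [h0, mul_zero] at h2
      exact h3 h2.symm
    have h4 : ((p ^ w : ℕ) : ℂ) / β = α := by
      rw [← h2, mul_div_cancel_right₀ _ hβ]
    have h5 := Multiset.count_le_of_le α hA
    have h6 := hcount α
    rw [Multiset.count_add] at h5
    have h7 : 0 < ({α, β} : Multiset ℂ).count α := Multiset.count_pos.2 (by
      rw [Multiset.insert_eq_cons]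
      exact Multiset.mem_cons_self _ _)
    have h8 : 0 < (({α, β} : Multiset ℂ).map (fun z => ((p ^ w : ℕ) : ℂ) / z)).count α :=
      Multiset.count_pos.2 (Multiset.mem_map.2 ⟨β, by
        rw [Multiset.insert_eq_cons]
        exact Multiset.mem_cons_of_mem (Multiset.mem_singleton_self _), h4⟩)
    omega

/-- the two criteria -/
theorem not_balanced_crit {p : ℕ} (hp : p.Prime)
    (h : MaximalAngleRank T w p ∨ SmallSquarefree T w p) {d : ℕ} (hd : 0 < d) :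
    ¬ Balanced T w p d := by
  rcases h with h | ⟨h1, h2, h3⟩
  · exact not_balanced_of_rank hp h hd
  · obtain ⟨P, _, hP, hpP, _⟩ := exists_geom hp
    have h4 : (P.under (𝓞 F)).IsMaximal := under_max hP
    have h5 : (p : 𝓞 F) ∈ P.under (𝓞 F) := by
      rw [mem_under, map_natCast]
      exact hpP
    obtain ⟨h6, h7⟩ := h3 _ ⟨h4, h5⟩
    exact not_balanced_small h1 hp h4 h5 h7 h6 h2 hd

end Pool.Agent.D0H1.SF
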