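import Pool.Agent.D0H1.SF.Tra

/-!
# Finiteness of the polarized systems with multiplicity free monodromy
-/

set_option autoImplicit false
set_option linter.unusedSectionVars false

namespace Pool.Agent.D0H1.SF

open Module Matrix Polynomial NumberField Pool.Agent.Y800 Pool.Agent.R390.SF
open Pool.Agent.R390.SF.IntegralSystem
open Pool.Agent.Y126.SH (chi exists_reps)

variable {F : SubFld ℚ} [hF : FiniteDimensional ℚ F] {n : ℕ} {S S' : Finset ℕ} {w : ℕ} {Λ : Set ℕ}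
  {T : IntegralSystem F n}

theorem noiso_rat (hT : DistinctSystem S S' w Λ T) {ℓ : ℕ} [hℓ : Fact ℓ.Prime] (hΛ : ℓ ∈ Λ) :
    ∃ J : Matrix (Fin n) (Fin n) ℚ_[ℓ], Equi (T.rat ℓ) J ∧ NoIso (T.rat ℓ) J := by
  obtain ⟨J, hJ, -⟩ := hT.polarization ℓ hΛ
  obtain ⟨p, hpS, hp, hpℓ, hdeg⟩ := hT.rational ℓ hΛ
  refine ⟨_, equi_rat hJ, noiso_blocks (algebraMap ℤ_[ℓ] ℚ_[ℓ]) hT.toPureSystem hp hpℓ hdeg
    (fun e he _ => pow_ne_one_padic hp he) (fun U hU => rat_wt hT.toPureSystem U hU)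
    (fun g => ?_) ?_⟩
  · have h1 := congrArg qm (hJ.equivariant g)
    rw [qm_smul, map_mul, map_mul, map_pow] at h1
    exact h1
  · have h1 := qm_det J
    intro h0
    have h2 : (qm J).det = 0 := h0
    rw [h2] at h1
    exact hJ.nondegenerate ((map_eq_zero_iff _ (IsFractionRing.injective ℤ_[ℓ] ℚ_[ℓ])).1 h1.symm)

theorem semis_rat' (hT : DistinctSystem S S' w Λ T) {ℓ : ℕ} [hℓ : Fact ℓ.Prime] (hΛ : ℓ ∈ Λ) :
    Semis (T.rat ℓ) := by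
  obtain ⟨J, h1, h2⟩ := noiso_rat hT hΛ
  exact fun U hU => ⟨orth J U, orth_stable h1 hU, isCompl_orth h1 h2 hU⟩

/-- the residual form -/
theorem res_form {ℓ : ℕ} [hℓ : Fact ℓ.Prime] {J : Matrix (Fin n) (Fin n) ℤ_[ℓ]}
    (hJ : T.IsPolarization w ℓ J) (g : F.fixingSubgroup) :
    (PadicInt.toZMod (chi ℓ g : ℤ_[ℓ])) ^ w •
      ((T.res ℓ g : Matrix (Fin n) (Fin n) (ZMod ℓ)).transpose * rd J * T.res ℓ g) = rd J := by
  have h1 := congrArg rd (hJ.equivariant g)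
  rw [rd_smul, map_mul, map_mul, map_pow] at h1
  exact h1

theorem rd_det_ne {ℓ : ℕ} [hℓ : Fact ℓ.Prime] {J : Matrix (Fin n) (Fin n) ℤ_[ℓ]}
    (hJ : IsUnit J.det) : (rd J).det ≠ 0 := by
  rw [rd_det]
  intro h0
  have h1 := hJ.map (PadicInt.toZMod (p := ℓ))
  rw [h0] at h1
  exact not_isUnit_zero h1

/-- **The transfer to the systems with the same traces.** -/
theorem noiso_all (hT : DistinctSystem S S' w Λ T) : ∃ N : ℕ, ∀ (ℓ : ℕ) [Fact ℓ.Prime], N < ℓ →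
    ℓ ∈ Λ → ∀ T' : IntegralSystem F n, DistinctSystem S S' w Λ T' →
      (∀ g, (T'.rat ℓ g : Matrix (Fin n) (Fin n) ℚ_[ℓ]).trace =
        (T.rat ℓ g : Matrix (Fin n) (Fin n) ℚ_[ℓ]).trace) →
      ∃ J : Matrix (Fin n) (Fin n) ℤ_[ℓ], T'.IsPolarization w ℓ J ∧ IsUnit J.det ∧
        NoIso (toF (T'.rho ℓ)) (rd J) := by
  obtain ⟨N₁, hN₁⟩ := res_wt hT.toPureSystem
  obtain ⟨N₂, hN₂⟩ := hT.residual
  set E := expo F.fixingSubgroup * finrank ℚ F * n ^ 2 with hE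
  refine ⟨max (max (max N₁ N₂) (max (S'.sup id) n)) (S.sup fun p => p ^ E), ?_⟩
  intro ℓ hℓ hN hΛ T' hT' htr
  simp only [max_lt_iff] at hN
  obtain ⟨⟨⟨h1, h2⟩, h3, h4⟩, h5⟩ := hN
  have hℓS : ℓ ∉ S' := fun h6 => absurd (Finset.le_sup (f := id) h6) (not_le.2 h3)
  obtain ⟨J₀, hJ₀, hJ₀u⟩ := hT.polarization ℓ hΛ
  obtain ⟨J, hJ, hJu⟩ := hT'.polarization ℓ hΛ
  obtain ⟨p, hpS, hp, hpℓ, hdeg⟩ := hN₂ ℓ hΛ h2
  have hno : NoIso (T.res ℓ) (rd J₀) :=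
    noiso_blocks (PadicInt.toZMod (p := ℓ)) hT.toPureSystem hp hpℓ hdeg
      (fun e he heE => pow_ne_one hp he heE
        (lt_of_le_of_lt (Finset.le_sup (f := fun p => p ^ E) hpS) h5))
      (fun U hU => hN₁ ℓ h1 U hU) (fun g => res_form hJ₀ g) (rd_det_ne (hJ₀u hℓS))
  refine ⟨J, hJ, hJu hℓS, ?_⟩
  obtain ⟨P, σ₁, hP, hpP, -⟩ := exists_geom hp
  obtain ⟨σ, g, -, -, -, hnil, hrk⟩ := hdeg P hP hpP
  refine noiso_transfer (ρ₀ := T.res ℓ) (ρ := T'.res ℓ)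
    (c := fun g => (PadicInt.toZMod (chi ℓ g : ℤ_[ℓ])) ^ w) ?_ (fun g => res_form hJ₀ g)
    (fun g => res_form hJ g) (rd_det_ne (hJ₀u hℓS)) (rd_det_ne (hJu hℓS)) ?_ hno g hnil ?_
  · intro m hm hmn h0
    rw [ZMod.natCast_eq_zero_iff] at h0
    have := Nat.le_of_dvd (by omega) h0
    omega
  · intro g
    have h6 : (T'.rho ℓ g : Matrix (Fin n) (Fin n) ℤ_[ℓ]).trace =
        (T.rho ℓ g : Matrix (Fin n) (Fin n) ℤ_[ℓ]).trace := by
      apply IsFractionRing.injective ℤ_[ℓ] ℚ_[ℓ]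
      have h7 := htr g
      have h8 : ∀ T : IntegralSystem F n, (T.rat ℓ g : Matrix (Fin n) (Fin n) ℚ_[ℓ]).trace =
          algebraMap ℤ_[ℓ] ℚ_[ℓ] (T.rho ℓ g : Matrix (Fin n) (Fin n) ℤ_[ℓ]).trace := by
        intro T
        rw [Matrix.trace, Matrix.trace, map_sum]
        rfl
      rw [h8, h8] at h7
      exact h7
    have h8 : ∀ T : IntegralSystem F n, (T.res ℓ g : Matrix (Fin n) (Fin n) (ZMod ℓ)).trace =
        PadicInt.toZMod (T.rho ℓ g : Matrix (Fin n) (Fin n) ℤ_[ℓ]).trace := by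
      intro T
      rw [Matrix.trace, Matrix.trace, map_sum]
      rfl
    rw [h8, h8, h6]
  · apply dist_of_rank
    intro b
    have h6 := hrk b
    have hNpow : ∀ j : ℕ, (Matrix.toLin' ((T.res ℓ g : Matrix (Fin n) (Fin n) (ZMod ℓ)) - 1) :
        End (ZMod ℓ) (Fin n → ZMod ℓ)) ^ j =
        Matrix.toLin' (((T.res ℓ g : Matrix (Fin n) (Fin n) (ZMod ℓ)) - 1) ^ j) := by
      intro j
      rw [Matrix.toLin'_pow]
    rw [hNpow, hNpow, hNpow]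
    exact h6

/-- **Finiteness of the polarized systems with multiplicity free monodromy.** -/
theorem distinct_finiteness (hn : 0 < n) (w : ℕ) (S S' : Finset ℕ) (Λ : Set ℕ) :
    ∃ (m : ℕ) (T : Fin m → IntegralSystem F n), (∀ i, DistinctSystem S S' w Λ (T i)) ∧
      ∀ T' : IntegralSystem F n, DistinctSystem S S' w Λ T' → ∃ i, IsomorphicOn Λ (T i) T' := by
  classical
  obtain ⟨𝒯, h𝒯, hdet⟩ := traces_of_finite (F := F) hn S
  refine exists_reps (fun T : IntegralSystem F n => DistinctSystem S S' w Λ T)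
    (fun T T' => IsomorphicOn Λ T T') (fun T => fun p : 𝒯 => (T.poly p).coeff (n - 1)) ?_ ?_
  · refine (Set.Finite.pi' (t := fun p : 𝒯 => Set.Icc
      (-((Nat.card (𝓞 F ⧸ (p : Ideal (𝓞 F))) ^ w) ^ n * n.choose (n / 2) : ℕ) : ℤ)
      (((Nat.card (𝓞 F ⧸ (p : Ideal (𝓞 F))) ^ w) ^ n * n.choose (n / 2) : ℕ) : ℤ))
      (fun p => Set.finite_Icc _ _)).subset ?_
    rintro _ ⟨T, hT, rfl⟩ p
    obtain ⟨h1, r, hr, hrS, h2⟩ := h𝒯 p p.2
    exact abs_le.1 (coeff_bound hT.toGoodSystem hr hrS h1 h2 (n - 1))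
  · intro T0 hT0
    obtain ⟨N, hN⟩ := noiso_all hT0
    choose k c hk hc using local_code2 (Λ := Λ) (T0 := T0)
      (fun ℓ hℓ hℓΛ => semis_rat' hT0 hℓΛ)
    obtain ⟨K, ⟨e⟩⟩ := Finite.exists_equiv_fin (∀ ℓ : Fin (N + 1), Fin (k ℓ))
    refine ⟨K, fun T => (e fun ℓ => ⟨c ℓ T, hk ℓ T⟩ : ℕ), fun T => Fin.is_lt _, ?_⟩
    intro T T' hT hT' hi hi' hcode ℓ hℓ hℓΛ
    have htr : ∀ T : IntegralSystem F n, DistinctSystem S S' w Λ T →
        ((fun p : 𝒯 => (T.poly p).coeff (n - 1)) = fun p : 𝒯 => (T0.poly p).coeff (n - 1)) →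
        ∀ g, (T.rat ℓ g : Matrix (Fin n) (Fin n) ℚ_[ℓ]).trace =
          (T0.rat ℓ g : Matrix (Fin n) (Fin n) ℚ_[ℓ]).trace := by
      intro T hT hi
      exact hdet w w T T0 hT.toGoodSystem hT0.toGoodSystem (fun p hp => congrFun hi ⟨p, hp⟩) ℓ
    have key : ∀ T : IntegralSystem F n, DistinctSystem S S' w Λ T →
        ((fun p : 𝒯 => (T.poly p).coeff (n - 1)) = fun p : 𝒯 => (T0.poly p).coeff (n - 1)) →
        ∃ B : Matrix (Fin n) (Fin n) ℤ_[ℓ], Inter T0 T ℓ B := by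
      intro T hT hi
      exact exists_inter (semis_rat' hT0 hℓΛ) (semis_rat' hT hℓΛ) (htr T hT hi)
    have h1 := key T hT hi
    have h2 := key T' hT' hi'
    by_cases hℓN : ℓ ≤ N
    · have h3 := e.injective (Fin.ext hcode)
      have h4 := congrFun h3 ⟨ℓ, Nat.lt_succ_of_le hℓN⟩
      exact hc ℓ T T' hℓΛ h1 h2 (congrArg Fin.val h4)
    · obtain ⟨B, hB, hBρ⟩ := h1
      obtain ⟨B', hB', hBρ'⟩ := h2
      obtain ⟨J0, hJ0, -, hn0⟩ := hN ℓ (not_le.1 hℓN) hℓΛ T0 hT0 (fun _ => rfl)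
      obtain ⟨J, hJ, hJu, hn⟩ := hN ℓ (not_le.1 hℓN) hℓΛ T hT (htr T hT hi)
      obtain ⟨J', hJ', hJu', hn'⟩ := hN ℓ (not_le.1 hℓN) hℓΛ T' hT' (htr T' hT' hi')
      obtain ⟨A, hA⟩ := uniq hJu hJ.equivariant hJ0.equivariant hn hn0 hB hBρ
      obtain ⟨A', hA'⟩ := uniq hJu' hJ'.equivariant hJ0.equivariant hn' hn0 hB' hBρ'
      refine ⟨A' * A⁻¹, fun g => ?_⟩
      rw [hA, hA']
      group

end Pool.Agent.D0H1.SF
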