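import Pool.Agent.D0H1.SF.GCore
import Pool.Agent.D0H1.SF.Main

/-!
# Finiteness of the polarized systems with generic Frobenius eigenvalues
-/

set_option autoImplicit false
set_option linter.unusedSectionVars false

namespace Pool.Agent.D0H1.SF

open Module Matrix Polynomial NumberField Pool.Agent.Y800 Pool.Agent.R390.SF
open Pool.Agent.R390.SF.IntegralSystem
open Pool.Agent.Y126.SH (chi exists_reps)

attribute [local instance] Subgroup.fintypeQuotientOfFiniteIndex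

section places

variable {F : SubFld ℚ} [hF : FiniteDimensional ℚ F]

/-- the exponents -/
theorem exists_m {p : ℕ} (hp : p.Prime) : ∃ m : Ideal (𝓞 F) → ℕ, ∀ 𝔭 : Ideal (𝓞 F),
    𝔭.IsMaximal → (p : 𝓞 F) ∈ 𝔭 → Nat.card (𝓞 F ⧸ 𝔭) ^ m 𝔭 = p ^ expo F.fixingSubgroup := by
  classical
  obtain ⟨P, σ, hP, hpP, hσ⟩ := exists_geom hp
  have h : ∀ 𝔭 : Ideal (𝓞 F), ∃ m : ℕ, 𝔭.IsMaximal → (p : 𝓞 F) ∈ 𝔭 →
      Nat.card (𝓞 F ⧸ 𝔭) ^ m = p ^ expo F.fixingSubgroup := by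
    intro 𝔭
    by_cases h1 : 𝔭.IsMaximal ∧ (p : 𝓞 F) ∈ 𝔭
    · obtain ⟨q, hq⟩ := exists_q hp hP hpP h1.1 h1.2
      obtain ⟨s, hs⟩ := exists_geomF (F := F) hp (cj_max (x := q.out) hP) (cj_nat.2 hpP)
      obtain ⟨f, m, hf, hfm, -⟩ := zz_eq hp hP hpP hσ q hs
      refine ⟨m, fun _ _ => ?_⟩
      rw [← hq]
      show resCard F (cj q.out P) ^ m = _
      rw [hf, ← pow_mul, hfm]
    · exact ⟨0, fun h2 h3 => absurd ⟨h2, h3⟩ h1⟩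
  choose m hm using h
  exact ⟨m, hm⟩

end places

section core

variable {F : SubFld ℚ} [hF : FiniteDimensional ℚ F] {n : ℕ} {S S' : Finset ℕ} {w : ℕ} {Λ : Set ℕ}
  {T : IntegralSystem F n}

/-- **No isotropic stable subspaces.** -/
theorem noiso_gen {ℓ : ℕ} [hℓ : Fact ℓ.Prime] {k : Type} [Field k] [TopologicalSpace k]
    [IsTopologicalRing k] (ψ : ℤ_[ℓ] →+* k) (hT : T.PureSystem S w)
    (hgen : ∀ d : ℕ, 0 < d → d ≤ n → ∃ p : ℕ, p.Prime ∧ p ∉ S ∧ ℓ ≠ p ∧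
      ∃ P₀ : Ideal ZBar, P₀.IsMaximal ∧ (p : ZBar) ∈ P₀ ∧ ∃ m : Ideal (𝓞 F) → ℕ,
        (∀ 𝔭 : Ideal (𝓞 F), 𝔭.IsMaximal → (p : 𝓞 F) ∈ 𝔭 →
          Nat.card (𝓞 F ⧸ 𝔭) ^ m 𝔭 = p ^ expo F.fixingSubgroup) ∧
        ∀ a : ℕ, a * 2 = w * (finrank ℚ F * d) →
          ¬ BalAt (AlgebraicClosure k) T w p d P₀ m a)
    (hwt : ∀ (U : Submodule k (Fin n → k)) (hU : IsStable (rep ψ T) U),
      Wt ψ w (finrank k U) (detChar (rep ψ T) U hU))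
    {J : Matrix (Fin n) (Fin n) k} (hJ : ∀ g : F.fixingSubgroup, (chik ψ g : k) ^ w •
      ((rep ψ T g : Matrix (Fin n) (Fin n) k).transpose * J * rep ψ T g) = J)
    (hJd : J.det ≠ 0) : NoIso (rep ψ T) J := by
  intro U hU hiso
  by_contra hU0
  have hd : 0 < finrank k U := Nat.pos_of_ne_zero fun h => hU0 (Submodule.finrank_eq_zero.1 h)
  have hdn : finrank k U ≤ n := by
    have := Submodule.finrank_le U
    rwa [finrank_fin_fun] at this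
  obtain ⟨p, hp, hpS, hpℓ, P₀, hP₀, hpP₀, m, hm, hno⟩ := hgen _ hd hdn
  obtain ⟨A, hA, hA'⟩ := hwt U hU
  exact hno A hA (bal_of_iso ψ hT hp hpS hpℓ hP₀ hpP₀ hm hU hA' hJ hJd
    (fun x hx y hy => by rw [bf_apply]; exact hiso x hx y hy))

/-- not balanced: no complex relations -/
theorem no_bal {p d a : ℕ} (hnb : ¬ Balanced T w p d) (ha : a * 2 = w * (finrank ℚ F * d))
    {P₀ : Ideal ZBar} (hP₀ : P₀.IsMaximal) (hpP₀ : (p : ZBar) ∈ P₀) {m : Ideal (𝓞 F) → ℕ}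
    (hm : ∀ 𝔭 : Ideal (𝓞 F), 𝔭.IsMaximal → (p : 𝓞 F) ∈ 𝔭 →
      Nat.card (𝓞 F ⧸ 𝔭) ^ m 𝔭 = p ^ expo F.fixingSubgroup)
    {A : Ideal (𝓞 F) → Multiset ℂ}
    (hA : ∀ 𝔭 : Ideal (𝓞 F), 𝔭.IsMaximal → (p : 𝓞 F) ∈ 𝔭 → Multiset.card (A 𝔭) = d ∧
      A 𝔭 + (A 𝔭).map (fun z => ((Nat.card (𝓞 F ⧸ 𝔭) ^ w : ℕ) : ℂ) / z) ≤ (T.poly 𝔭).aroots ℂ)
    (hprod : ∏ q : GQ ⧸ F.fixingSubgroup,
      (A ((cj q.out P₀).under (𝓞 F))).prod ^ m ((cj q.out P₀).under (𝓞 F)) =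
        (p : ℂ) ^ (expo F.fixingSubgroup * a)) : False := by
  apply hnb
  refine ⟨P₀, hP₀, hpP₀, A, m, a, fun 𝔭 h => ⟨(hA 𝔭 h.1 h.2).1, (hA 𝔭 h.1 h.2).2,
    hm 𝔭 h.1 h.2⟩, ha, ?_⟩
  rw [conjProd, finprod_eq_prod_of_fintype]
  exact hprod

theorem noiso_rat_gen (hT : GenericSystem S S' w Λ T) {ℓ : ℕ} [hℓ : Fact ℓ.Prime] (hΛ : ℓ ∈ Λ) :
    ∃ J : Matrix (Fin n) (Fin n) ℚ_[ℓ], Equi (T.rat ℓ) J ∧ NoIso (T.rat ℓ) J := by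
  obtain ⟨J, hJ, -⟩ := hT.polarization ℓ hΛ
  refine ⟨_, equi_rat hJ, noiso_gen (algebraMap ℤ_[ℓ] ℚ_[ℓ]) hT.toPureSystem
    (fun d hd hdn => ?_) (fun U hU => rat_wt hT.toPureSystem U hU)
    (fun g => ?_) ?_⟩
  · obtain ⟨p, hp, hpS, hpℓ, hnb⟩ := hT.generic ℓ hℓ.out hΛ d hd
    obtain ⟨P₀, _, hP₀, hpP₀, _⟩ := exists_geom hp
    obtain ⟨m, hm⟩ := exists_m (F := F) hp
    refine ⟨p, hp, hpS, hpℓ.symm, P₀, hP₀, hpP₀, m, hm, fun a ha hbal => ?_⟩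
    obtain ⟨M, hM0, hM⟩ := bal_down hT.toGoodSystem hp hpS hP₀ hpP₀ m a
    have hMΩ : (M : AlgebraicClosure ℚ_[ℓ]) ≠ 0 := by
      rw [← map_intCast (algebraMap ℚ_[ℓ] (AlgebraicClosure ℚ_[ℓ]))]
      exact (_root_.map_ne_zero _).2 (by exact_mod_cast hM0)
    obtain ⟨A, hA, hprod⟩ := hM (AlgebraicClosure ℚ_[ℓ]) hMΩ d hbal
    exact no_bal hnb ha hP₀ hpP₀ hm hA hprod
  · have h1 := congrArg qm (hJ.equivariant g)
    rw [qm_smul, map_mul, map_mul, map_pow] at h1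
    exact h1
  · have h1 := qm_det J
    intro h0
    have h2 : (qm J).det = 0 := h0
    rw [h2] at h1
    exact hJ.nondegenerate ((map_eq_zero_iff _ (IsFractionRing.injective ℤ_[ℓ] ℚ_[ℓ])).1 h1.symm)

theorem semis_rat_gen (hT : GenericSystem S S' w Λ T) {ℓ : ℕ} [hℓ : Fact ℓ.Prime] (hΛ : ℓ ∈ Λ) :
    Semis (T.rat ℓ) := by
  obtain ⟨J, h1, h2⟩ := noiso_rat_gen hT hΛ
  exact fun U hU => ⟨orth J U, orth_stable h1 hU, isCompl_orth h1 h2 hU⟩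

/-- intertwined matrices have the same characteristic polynomial -/
theorem charpoly_inter {R : Type*} [CommRing R] [IsDomain R] {A A' B : Matrix (Fin n) (Fin n) R}
    (hB : B.det ≠ 0) (h : A * B = B * A') : A.charpoly = A'.charpoly := by
  have h1 : A.charmatrix * (C.mapMatrix B) = (C.mapMatrix B) * A'.charmatrix := by
    rw [Matrix.charmatrix, Matrix.charmatrix, sub_mul, mul_sub, ← map_mul, ← map_mul, h]
    congr 1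
    exact Matrix.scalar_comm _ (fun _ => Commute.all _ _) _
  have h2 := congrArg Matrix.det h1
  rw [Matrix.det_mul, Matrix.det_mul, mul_comm] at h2
  refine mul_left_cancel₀ ?_ h2
  have h3 : (C.mapMatrix B).det = C B.det := (RingHom.map_det C B).symm
  rw [h3]
  exact fun h4 => hB (C_eq_zero.1 h4)

/-- the Frobenius polynomials of isogenous systems are the same -/
theorem poly_eq {T0 : IntegralSystem F n} (hT : T.GoodSystem S w) (hT0 : T0.GoodSystem S w)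
    {ℓ : ℕ} [hℓ : Fact ℓ.Prime] {B : Matrix (Fin n) (Fin n) ℤ_[ℓ]} (hB : Inter T0 T ℓ B)
    {p : ℕ} (hp : p.Prime) (hpS : p ∉ S) (hpℓ : ℓ ≠ p) {𝔭 : Ideal (𝓞 F)} (h𝔭 : 𝔭.IsMaximal)
    (hp𝔭 : (p : 𝓞 F) ∈ 𝔭) : T.poly 𝔭 = T0.poly 𝔭 := by
  obtain ⟨P, hP, rfl⟩ := exists_over h𝔭
  have hpP : (p : ZBar) ∈ P := by rwa [mem_under, map_natCast] at hp𝔭
  obtain ⟨s, hs⟩ := exists_geomF (F := F) hp hP hpP
  have h1 := (hT.good p hp hpS _ h𝔭 hp𝔭).frobenius ℓ hpℓ P hP rfl s hs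
  have h2 := (hT0.good p hp hpS _ h𝔭 hp𝔭).frobenius ℓ hpℓ P hP rfl s hs
  rw [charpoly_inter hB.1 (hB.2 s)] at h2
  rw [h1] at h2
  exact Polynomial.map_injective _ (RingHom.injective_int _) h2

/-- **The exceptional primes are the same for the systems with the same traces.** -/
theorem noiso_all_gen {T0 : IntegralSystem F n} (hT0 : GenericSystem S S' w Λ T0) :
    ∃ N : ℕ, ∀ (ℓ : ℕ) [Fact ℓ.Prime], N < ℓ → ℓ ∈ Λ → ∀ T : IntegralSystem F n,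
      GenericSystem S S' w Λ T →
      (∀ g, (T.rat ℓ g : Matrix (Fin n) (Fin n) ℚ_[ℓ]).trace =
        (T0.rat ℓ g : Matrix (Fin n) (Fin n) ℚ_[ℓ]).trace) →
      ∃ J : Matrix (Fin n) (Fin n) ℤ_[ℓ], T.IsPolarization w ℓ J ∧ IsUnit J.det ∧
        NoIso (toF (T.rho ℓ)) (rd J) := by
  classical
  by_cases hΛ0 : ∃ ℓ₀ : ℕ, ℓ₀.Prime ∧ ℓ₀ ∈ Λ
  swap
  · exact ⟨0, fun ℓ hℓ _ hΛ => absurd ⟨ℓ, hℓ.out, hΛ⟩ hΛ0⟩
  obtain ⟨ℓ₀, hℓ₀, hℓ₀Λ⟩ := hΛ0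
  obtain ⟨q, hq, hqS, Q, hQ, hqQ, σ, hσ, hσc⟩ := exists_core (F := F) S
  obtain ⟨M', hM'0, hM'⟩ := exists_M hT0.toGoodSystem hq hqS hQ hqQ hσ hσc (w * n)
  have hch : ∀ d : ℕ, ∃ (p : ℕ) (P₀ : Ideal ZBar) (m : Ideal (𝓞 F) → ℕ) (M : ℤ), 0 < d →
      p.Prime ∧ p ∉ S ∧ P₀.IsMaximal ∧ (p : ZBar) ∈ P₀ ∧
      (∀ 𝔭 : Ideal (𝓞 F), 𝔭.IsMaximal → (p : 𝓞 F) ∈ 𝔭 →
          Nat.card (𝓞 F ⧸ 𝔭) ^ m 𝔭 = p ^ expo F.fixingSubgroup) ∧ M ≠ 0 ∧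
      ∀ (Ω : Type) [Field Ω] [IsAlgClosed Ω], (M : Ω) ≠ 0 → ∀ a : ℕ,
        a * 2 = w * (finrank ℚ F * d) → ¬ BalAt Ω T0 w p d P₀ m a := by
    intro d
    by_cases hd : 0 < d
    · obtain ⟨p, hp, hpS, -, hnb⟩ := hT0.generic ℓ₀ hℓ₀ hℓ₀Λ d hd
      obtain ⟨P₀, _, hP₀, hpP₀, _⟩ := exists_geom hp
      obtain ⟨m, hm⟩ := exists_m (F := F) hp
      obtain ⟨M, hM0, hM⟩ := bal_down hT0.toGoodSystem hp hpS hP₀ hpP₀ m
        (w * (finrank ℚ F * d) / 2)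
      refine ⟨p, P₀, m, M, fun _ => ⟨hp, hpS, hP₀, hpP₀, hm, hM0, fun Ω _ _ hMΩ a ha hbal => ?_⟩⟩
      have ha' : a = w * (finrank ℚ F * d) / 2 := by omega
      rw [← ha'] at hM
      obtain ⟨A, hA, hprod⟩ := hM Ω hMΩ d hbal
      exact no_bal hnb ha hP₀ hpP₀ hm hA hprod
    · exact ⟨0, ⊥, fun _ => 0, 0, fun h => absurd h hd⟩
  choose p P₀ m M hpM using hch
  refine ⟨max (max (S'.sup id) (max q M'.natAbs))
    ((Finset.range (n + 1)).sup fun d => max (p d) (M d).natAbs), ?_⟩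
  intro ℓ hℓ hN hΛ T hT htr
  simp only [max_lt_iff] at hN
  obtain ⟨⟨h1, h2, h3⟩, h4⟩ := hN
  have hℓS : ℓ ∉ S' := fun h6 => absurd (Finset.le_sup (f := id) h6) (not_le.2 h1)
  obtain ⟨B, hB⟩ := exists_inter (semis_rat_gen hT0 hΛ) (semis_rat_gen hT hΛ) htr
  obtain ⟨J, hJ, hJu⟩ := hT.polarization ℓ hΛ
  have hpoly : ∀ r : ℕ, r.Prime → r ∉ S → ℓ ≠ r → ∀ 𝔭 : Ideal (𝓞 F), 𝔭.IsMaximal →
      (r : 𝓞 F) ∈ 𝔭 → T.poly 𝔭 = T0.poly 𝔭 := fun r hr hrS hrℓ 𝔭 h𝔭 hr𝔭 =>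
    poly_eq hT.toGoodSystem hT0.toGoodSystem hB hr hrS hrℓ h𝔭 hr𝔭
  refine ⟨J, hJ, hJu hℓS, noiso_gen (PadicInt.toZMod (p := ℓ)) hT.toPureSystem
    (fun d hd hdn => ?_) (fun U hU => ?_) (fun g => res_form hJ g) (rd_det_ne (hJu hℓS))⟩
  · obtain ⟨hp, hpS, hP₀, hpP₀, hm, hM0, hno⟩ := hpM d hd
    have h5 : max (p d) (M d).natAbs < ℓ := lt_of_le_of_lt
      (Finset.le_sup (f := fun d => max (p d) (M d).natAbs) (Finset.mem_range.2 (by omega))) h4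
    rw [max_lt_iff] at h5
    have hpℓ : ℓ ≠ p d := by omega
    refine ⟨p d, hp, hpS, hpℓ, P₀ d, hP₀, hpP₀, m d, hm, fun a ha hbal => ?_⟩
    have hMΩ : (M d : AlgebraicClosure (ZMod ℓ)) ≠ 0 := by
      rw [← map_intCast (algebraMap (ZMod ℓ) (AlgebraicClosure (ZMod ℓ)))]
      exact (_root_.map_ne_zero _).2 (ne_zero_mod hM0 h5.2)
    refine hno (AlgebraicClosure (ZMod ℓ)) hMΩ a ha ?_
    obtain ⟨A, hA, hprod⟩ := hbal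
    refine ⟨A, fun 𝔭 h6 h7 => ?_, hprod⟩
    rw [← hpoly (p d) hp hpS hpℓ 𝔭 h6 h7]
    exact hA 𝔭 h6 h7
  · refine weight_sub (PadicInt.toZMod (p := ℓ)) continuous_toZMod mink_zmod hT.toPureSystem
      (hT.uniformWeights ℓ hΛ hℓS) hq hqS (by omega) hQ hqQ hσ hσc (M := M')
      (ne_zero_mod hM'0 h3) ?_ U hU
    intro Ω _ _ hMΩ A a ha hA hprod
    refine hM' Ω hMΩ A a ha (fun x => ?_) hprod
    rw [← hpoly q hq hqS (by omega) _ (under_max (cj_max hQ)) (mem_place hqQ _)]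
    exact hA x

/-- **Finiteness of the polarized systems with generic Frobenius eigenvalues.** -/
theorem generic_finiteness (hn : 0 < n) (w : ℕ) (S S' : Finset ℕ) (Λ : Set ℕ) :
    ∃ (m : ℕ) (T : Fin m → IntegralSystem F n), (∀ i, GenericSystem S S' w Λ (T i)) ∧
      ∀ T' : IntegralSystem F n, GenericSystem S S' w Λ T' → ∃ i, IsomorphicOn Λ (T i) T' := by
  classical
  obtain ⟨𝒯, h𝒯, hdet⟩ := traces_of_finite (F := F) hn S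
  refine exists_reps (fun T : IntegralSystem F n => GenericSystem S S' w Λ T)
    (fun T T' => IsomorphicOn Λ T T') (fun T => fun p : 𝒯 => (T.poly p).coeff (n - 1)) ?_ ?_
  · refine (Set.Finite.pi' (t := fun p : 𝒯 => Set.Icc
      (-((Nat.card (𝓞 F ⧸ (p : Ideal (𝓞 F))) ^ w) ^ n * n.choose (n / 2) : ℕ) : ℤ)
      (((Nat.card (𝓞 F ⧸ (p : Ideal (𝓞 F))) ^ w) ^ n * n.choose (n / 2) : ℕ) : ℤ))
      (fun p => Set.finite_Icc _ _)).subset ?_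
    rintro _ ⟨T, hT, rfl⟩ p
    obtain ⟨h1, r, hr, hrS, h2⟩ := h𝒯 p p.2
    exact abs_le.1 (coeff_bound hT.toGoodSystem hr hrS h1 h2 (n - 1))
  · intro T0 hT0
    obtain ⟨N, hN⟩ := noiso_all_gen hT0
    choose k c hk hc using local_code2 (Λ := Λ) (T0 := T0)
      (fun ℓ hℓ hℓΛ => semis_rat_gen hT0 hℓΛ)
    obtain ⟨K, ⟨e⟩⟩ := Finite.exists_equiv_fin (∀ ℓ : Fin (N + 1), Fin (k ℓ))
    refine ⟨K, fun T => (e fun ℓ => ⟨c ℓ T, hk ℓ T⟩ : ℕ), fun T => Fin.is_lt _, ?_⟩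
    intro T T' hT hT' hi hi' hcode ℓ hℓ hℓΛ
    have htr : ∀ T : IntegralSystem F n, GenericSystem S S' w Λ T →
        ((fun p : 𝒯 => (T.poly p).coeff (n - 1)) = fun p : 𝒯 => (T0.poly p).coeff (n - 1)) →
        ∀ g, (T.rat ℓ g : Matrix (Fin n) (Fin n) ℚ_[ℓ]).trace =
          (T0.rat ℓ g : Matrix (Fin n) (Fin n) ℚ_[ℓ]).trace := by
      intro T hT hi
      exact hdet w w T T0 hT.toGoodSystem hT0.toGoodSystem (fun p hp => congrFun hi ⟨p, hp⟩) ℓ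
    have key : ∀ T : IntegralSystem F n, GenericSystem S S' w Λ T →
        ((fun p : 𝒯 => (T.poly p).coeff (n - 1)) = fun p : 𝒯 => (T0.poly p).coeff (n - 1)) →
        ∃ B : Matrix (Fin n) (Fin n) ℤ_[ℓ], Inter T0 T ℓ B := by
      intro T hT hi
      exact exists_inter (semis_rat_gen hT0 hℓΛ) (semis_rat_gen hT hℓΛ) (htr T hT hi)
    have h1 := key T hT hi
    have h2 := key T' hT' hi'
    by_cases hℓN : ℓ ≤ N
    · have h3 := e.injective (Fin.ext hcode)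
      have h4 := congrFun h3 ⟨ℓ, Nat.lt_succ_of_le hℓN⟩
      exact hc ℓ T T' hℓΛ h1 h2 (congrArg Fin.val h4)
    · obtain ⟨B, hB, hBρ⟩ := h1
      obtain ⟨B', hB', hBρ'⟩ := h2
      obtain ⟨J0, hJ0, -, hn0⟩ := hN ℓ (not_le.1 hℓN) hℓΛ T0 hT0 (fun _ => rfl)
      obtain ⟨J, hJ, hJu, hn⟩ := hN ℓ (not_le.1 hℓN) hℓΛ T hT (htr T hT hi)
      obtain ⟨J', hJ', hJu', hn'⟩ := hN ℓ (not_le.1 hℓN) hℓΛ T' hT' (htr T' hT' hi')
      obtain ⟨A, hA⟩ := uniq hJu hJ.equivariant hJ0.equivariant hn hn0 hB hBρ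
      obtain ⟨A', hA'⟩ := uniq hJu' hJ'.equivariant hJ0.equivariant hn' hn0 hB' hBρ'
      refine ⟨A' * A⁻¹, fun g => ?_⟩
      rw [hA, hA']
      group

end core

end Pool.Agent.D0H1.SF
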