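import Pool.Agent.D0H90.CS.Units
import Pool.Agent.D0H90.CS.Gal

/-!
# Exponents of algebraic characters which are trivial on units
-/

set_option autoImplicit false
set_option linter.unusedSectionVars false

namespace Pool.Agent.D0H1.SF

open NumberField NumberField.InfinitePlace Module Pool.Agent.D0H90.CS

variable {F : Type} [Field F] [NumberField F]

/-- Relations between the absolute values of the units at the complex embeddings. -/
theorem embedding_rel2 (f : (F →+* ℂ) → ℤ)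
    (hu : ∀ u : (𝓞 F)ˣ, ∑ φ : F →+* ℂ, (f φ : ℝ) * Real.log ‖φ ((u : 𝓞 F) : F)‖ = 0)
    (hs : ∑ φ : F →+* ℂ, f φ = 0) (φ : F →+* ℂ) :
    f φ + f (ComplexEmbedding.conjugate φ) = 0 := by
  classical
  let g : InfinitePlace F → ℝ := fun v => ∑ φ : F →+* ℂ with InfinitePlace.mk φ = v, (f φ : ℝ)
  have hg : ∀ x : F, ∑ v, g v * Real.log (v x) =
      ∑ φ : F →+* ℂ, (f φ : ℝ) * Real.log ‖φ x‖ := by
    intro x
    rw [← Finset.sum_fiberwise (s := Finset.univ) (g := fun φ : F →+* ℂ => InfinitePlace.mk φ)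
      (f := fun φ : F →+* ℂ => (f φ : ℝ) * Real.log ‖φ x‖)]
    refine Finset.sum_congr rfl fun v _ => ?_
    rw [Finset.sum_mul]
    refine Finset.sum_congr rfl fun φ hφ => ?_
    rw [← (Finset.mem_filter.mp hφ).2, apply]
  have hzero := relation_trivial g (fun u => by rw [hg]; exact hu u) 2 le_rfl (by
    rw [hg]
    have h1 : ∀ φ : F →+* ℂ, ‖φ ((2 : ℕ) : F)‖ = 2 := fun φ => by
      rw [map_natCast]
      simp
    simp_rw [h1, ← Finset.sum_mul]
    have h2 : (∑ φ : F →+* ℂ, (f φ : ℝ)) = 0 := by exact_mod_cast hs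
    rw [h2, zero_mul])
  have h1 := hzero (InfinitePlace.mk φ)
  by_cases hr : ComplexEmbedding.IsReal φ
  · have h2 : (Finset.univ.filter fun ψ : F →+* ℂ => InfinitePlace.mk ψ = InfinitePlace.mk φ) =
        {φ} := by
      ext ψ
      simp only [Finset.mem_filter, Finset.mem_univ, true_and, Finset.mem_singleton]
      rw [mk_eq_iff]
      constructor
      · rintro (h3 | h3)
        · exact h3
        · have : ComplexEmbedding.conjugate (ComplexEmbedding.conjugate ψ) =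
              ComplexEmbedding.conjugate φ := by rw [h3]
          rw [conj_conj] at this
          rw [this]; exact hr
      · intro h3; exact Or.inl h3
    have h3 : g (InfinitePlace.mk φ) = (f φ : ℝ) := by
      show ∑ φ : F →+* ℂ with _, (f φ : ℝ) = _
      rw [h2, Finset.sum_singleton]
    rw [h3] at h1
    have h4 : f φ = 0 := by exact_mod_cast h1
    rw [ComplexEmbedding.isReal_iff.mp hr, h4]; rfl
  · have hne : φ ≠ ComplexEmbedding.conjugate φ := fun h3 => hr h3.symm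
    have h2 : (Finset.univ.filter fun ψ : F →+* ℂ => InfinitePlace.mk ψ = InfinitePlace.mk φ) =
        {φ, ComplexEmbedding.conjugate φ} := by
      ext ψ
      simp only [Finset.mem_filter, Finset.mem_univ, true_and, Finset.mem_singleton,
        Finset.mem_insert]
      rw [mk_eq_iff]
      refine or_congr Iff.rfl ⟨fun h3 => ?_, fun h3 => ?_⟩
      · rw [← h3, conj_conj]
      · rw [h3, conj_conj]
    have h3 : g (InfinitePlace.mk φ) = (f φ : ℝ) + f (ComplexEmbedding.conjugate φ) := by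
      show ∑ φ : F →+* ℂ with _, (f φ : ℝ) = _
      rw [h2, Finset.sum_pair hne]
    rw [h3] at h1
    exact_mod_cast h1

variable {Ω : Type} [Field Ω] [Algebra ℚ Ω] [IsAlgClosed Ω] [Algebra.IsAlgebraic ℚ Ω] [CharZero Ω]

theorem emb_bij (ι : Ω →+* ℂ) : Function.Bijective fun τ : F →+* Ω => ι.comp τ := by
  rw [Fintype.bijective_iff_injective_and_card]
  refine ⟨fun τ τ' h => ?_, ?_⟩
  · ext x
    exact ι.injective (RingHom.congr_fun h x)
  · rw [Embeddings.card, Embeddings.card]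

theorem sum_log_unit (u : (𝓞 F)ˣ) : ∑ φ : F →+* ℂ, Real.log ‖φ ((u : 𝓞 F) : F)‖ = 0 := by
  have hne : ∀ φ : F →+* ℂ, ‖φ ((u : 𝓞 F) : F)‖ ≠ 0 := by
    intro φ
    rw [norm_ne_zero_iff, Ne, map_eq_zero]
    intro h0
    exact u.ne_zero (RingOfIntegers.ext (by rw [h0]; rfl))
  rw [← Real.log_prod (fun φ _ => hne φ), ← norm_prod]
  have h3 : ((Algebra.norm ℚ ((u : 𝓞 F) : F) : ℚ) : ℂ) = ∏ φ : F →+* ℂ, φ ((u : 𝓞 F) : F) := by
    have := Algebra.norm_eq_prod_embeddings ℚ ℂ ((u : 𝓞 F) : F)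
    rw [← Fintype.prod_equiv (RingHom.equivRatAlgHom F ℂ) (fun f : F →+* ℂ => f ((u : 𝓞 F) : F))
      (fun f => f ((u : 𝓞 F) : F)) fun _ => by simp [RingHom.equivRatAlgHom_apply]] at this
    rw [← this]
    rfl
  rw [← h3]
  have h4 : |((RingOfIntegers.norm ℚ (u : 𝓞 F) : 𝓞 ℚ) : ℚ)| = 1 :=
    (NumberField.isUnit_iff_norm).1 u.isUnit
  have h5 : |(Algebra.norm ℚ ((u : 𝓞 F) : F) : ℚ)| = 1 := h4
  have h6 : ‖((Algebra.norm ℚ ((u : 𝓞 F) : F) : ℚ) : ℂ)‖ = 1 := by
    rw [Complex.norm_ratCast]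
    exact_mod_cast h5
  rw [h6, Real.log_one]

/-- **Weil, Serre: the exponents of an algebraic character of weight `w d / …` which is trivial on the
units.** -/
theorem conj_weights (a : (F →+* Ω) → ℕ) {W : ℕ}
    (hu : ∀ u : (𝓞 F)ˣ, (∏ τ : F →+* Ω, τ ((u : 𝓞 F) : F) ^ a τ) ^ 2 = 1)
    (htot : 2 * ∑ τ : F →+* Ω, a τ = finrank ℚ F * W) (τ τ' : F →+* Ω) (hc : IsConjOf τ τ') :
    a τ + a τ' = W := by
  have key := gal_relation (Ω := Ω) (F := F) (fun τ => (a τ : ℤ)) (W : ℤ) ?_ τ τ' hc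
  · exact_mod_cast key
  intro ι t t' htt
  let e := Equiv.ofBijective _ (emb_bij (F := F) (Ω := Ω) ι)
  let f : (F →+* ℂ) → ℤ := fun φ => 2 * (a (e.symm φ) : ℤ) - W
  have hf : ∀ t : F →+* Ω, f (ι.comp t) = 2 * (a t : ℤ) - W := by
    intro t
    show 2 * (a (e.symm (e t)) : ℤ) - W = _
    rw [e.symm_apply_apply]
  have h1 := embedding_rel2 f (fun u => ?_) ?_ (ι.comp t)
  · have h2 : ComplexEmbedding.conjugate (ι.comp t) = ι.comp t' := by
      ext x
      exact (htt x).symm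
    rw [h2, hf, hf] at h1
    show (a t : ℤ) + (a t' : ℤ) = (W : ℤ)
    linarith
  · -- units
    have h2 : ∑ φ : F →+* ℂ, (f φ : ℝ) * Real.log ‖φ ((u : 𝓞 F) : F)‖ =
        ∑ t : F →+* Ω, (2 * (a t : ℝ) - W) * Real.log ‖ι (t ((u : 𝓞 F) : F))‖ := by
      refine (Fintype.sum_equiv e _ _ fun t => ?_).symm
      show _ = (f (ι.comp t) : ℝ) * Real.log ‖ι (t ((u : 𝓞 F) : F))‖
      rw [hf]
      push_cast
      rfl
    rw [h2]
    have hne : ∀ t : F →+* Ω, ‖ι (t ((u : 𝓞 F) : F))‖ ≠ 0 := by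
      intro t
      rw [norm_ne_zero_iff, Ne, map_eq_zero, map_eq_zero]
      intro h0
      exact u.ne_zero (RingOfIntegers.ext (by rw [h0]; rfl))
    have h3 : 2 * ∑ t : F →+* Ω, (a t : ℝ) * Real.log ‖ι (t ((u : 𝓞 F) : F))‖ = 0 := by
      have h4 := congrArg (fun z => Real.log ‖ι z‖) (hu u)
      simp only [map_pow, map_prod, norm_pow, norm_prod, map_one, norm_one, Real.log_one] at h4
      rw [Real.log_pow, Real.log_prod (fun t _ => pow_ne_zero _ (hne t))] at h4
      simp_rw [Real.log_pow] at h4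
      exact_mod_cast h4
    have h4 : ∑ t : F →+* Ω, Real.log ‖ι (t ((u : 𝓞 F) : F))‖ = 0 := by
      rw [← sum_log_unit u]
      exact Fintype.sum_equiv e _ _ fun t => rfl
    have h5 : ∀ t : F →+* Ω, (2 * (a t : ℝ) - W) * Real.log ‖ι (t ((u : 𝓞 F) : F))‖ =
        2 * ((a t : ℝ) * Real.log ‖ι (t ((u : 𝓞 F) : F))‖) -
          W * Real.log ‖ι (t ((u : 𝓞 F) : F))‖ := by
      intro t
      ring
    simp_rw [h5]
    rw [Finset.sum_sub_distrib, ← Finset.mul_sum, ← Finset.mul_sum, h3, h4]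
    ring
  · have h2 : ∑ φ : F →+* ℂ, f φ = ∑ t : F →+* Ω, (2 * (a t : ℤ) - W) := by
      refine (Fintype.sum_equiv e _ _ fun t => ?_).symm
      exact (hf t).symm
    rw [h2, Finset.sum_sub_distrib, ← Finset.mul_sum, Finset.sum_const, Finset.card_univ,
      Embeddings.card]
    have h3 : (2 : ℤ) * ∑ t : F →+* Ω, (a t : ℤ) = (finrank ℚ F : ℤ) * W := by
      exact_mod_cast htot
    rw [h3, nsmul_eq_mul]
    ring

end Pool.Agent.D0H1.SF
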