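import Pool.Agent.D0H1.SF.HA
import Pool.Agent.R390.SF.Rel
import Pool.Agent.R390.SF.Gal

/-!
# Relations between units in almost all characteristics
-/

set_option autoImplicit false
set_option linter.unusedSectionVars false

namespace Pool.Agent.D0H1.SF

open NumberField Module Pool.Agent.Y800 Pool.Agent.R390.SF

variable {F : Type} [Field F] [NumberField F]

/-- For almost all characteristics the relations between the units come from characteristic zero. -/
theorem exists_unitM (B : ℕ) : ∃ M : ℤ, M ≠ 0 ∧ ∀ (Ω : Type) [Field Ω] (π : ZBar →+* Ω),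
    (M : Ω) ≠ 0 → ∀ a : (F →+* AlgebraicClosure ℚ) → ℕ, (∀ τ, a τ ≤ B) →
      (∀ u : (𝓞 F)ˣ, (∏ τ : F →+* AlgebraicClosure ℚ,
        π (RingOfIntegers.mapRingHom τ (u : 𝓞 F)) ^ a τ) ^ 2 = 1) →
      ∀ u : (𝓞 F)ˣ, (∏ τ : F →+* AlgebraicClosure ℚ, τ ((u : 𝓞 F) : F) ^ a τ) ^ 2 = 1 := by
  classical
  obtain ⟨G, hG⟩ := (Monoid.fg_def (M := (𝓞 F)ˣ)).1 inferInstance
  let y : (𝓞 F)ˣ → ((F →+* AlgebraicClosure ℚ) → ℕ) → ZBar := fun u a =>
    (∏ τ : F →+* AlgebraicClosure ℚ, RingOfIntegers.mapRingHom τ (u : 𝓞 F) ^ a τ) ^ 2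
  let E : Finset ZBar := (G ×ˢ Fintype.piFinset
    (fun _ : (F →+* AlgebraicClosure ℚ) => Finset.range (B + 1))).image
    fun x => y x.1 x.2 - 1
  have hm : ∀ e : ZBar, ∃ m : ℤ, e ≠ 0 → (m ≠ 0 ∧ ∃ r, e * r = m) := by
    intro e
    by_cases he : e = 0
    · exact ⟨0, fun h => absurd he h⟩
    · obtain ⟨m, r, h1, h2⟩ := exists_int_mul he
      exact ⟨m, fun _ => ⟨h1, r, h2⟩⟩
  choose m hm using hm
  refine ⟨∏ e ∈ E.filter (fun e => e ≠ 0), m e, ?_, ?_⟩
  · rw [Finset.prod_ne_zero_iff]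
    intro e he
    exact (hm e (Finset.mem_filter.1 he).2).1
  intro Ω _ π hM a ha hrel u
  have hgood : ∀ e ∈ E, π e = 0 → e = 0 := by
    intro e he h0
    by_contra hne
    apply hM
    rw [Int.cast_prod]
    apply Finset.prod_eq_zero (Finset.mem_filter.2 ⟨he, hne⟩)
    obtain ⟨_, r, hr⟩ := hm e hne
    rw [← map_intCast π, ← hr, map_mul, h0, zero_mul]
  have hgen : ∀ u ∈ G, y u a = 1 := by
    intro u hu
    rw [← sub_eq_zero]
    apply hgood
    · refine Finset.mem_image.2 ⟨(u, a), ?_, rfl⟩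
      rw [Finset.mem_product, Fintype.mem_piFinset]
      exact ⟨hu, fun τ => Finset.mem_range.2 (Nat.lt_succ_of_le (ha τ))⟩
    · rw [map_sub, map_one, sub_eq_zero, ← hrel u]
      show π ((∏ τ : F →+* AlgebraicClosure ℚ,
        RingOfIntegers.mapRingHom τ (u : 𝓞 F) ^ a τ) ^ 2) = _
      rw [map_pow, map_prod]
      simp only [map_pow]
  have hall : ∀ u : (𝓞 F)ˣ, y u a = 1 := by
    intro u
    have hu : u ∈ Submonoid.closure (G : Set (𝓞 F)ˣ) := by rw [hG]; exact Submonoid.mem_top u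
    induction hu using Submonoid.closure_induction with
    | mem x hx => exact hgen x hx
    | one =>
      show (∏ τ : F →+* AlgebraicClosure ℚ,
        RingOfIntegers.mapRingHom τ ((1 : (𝓞 F)ˣ) : 𝓞 F) ^ a τ) ^ 2 = 1
      simp
    | mul x x' _ _ h1 h2 =>
      have h3 : y (x * x') a = y x a * y x' a := by
        show (∏ τ : F →+* AlgebraicClosure ℚ,
          RingOfIntegers.mapRingHom τ ((x * x' : (𝓞 F)ˣ) : 𝓞 F) ^ a τ) ^ 2 = _
        rw [← mul_pow, ← Finset.prod_mul_distrib]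
        congr 1
        refine Finset.prod_congr rfl fun τ _ => ?_
        rw [Units.val_mul, map_mul, mul_pow]
      rw [h3, h1, h2, mul_one]
  have h1 := congrArg (algebraMap ZBar (AlgebraicClosure ℚ)) (hall u)
  rw [map_one, map_pow, map_prod] at h1
  rw [← h1]
  congr 1

end Pool.Agent.D0H1.SF
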