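import Pool.Agent.R390.SF.PolDef
import Pool.Agent.D0H1.SF.GDef

/-!
# Polarized systems with given Hodge numbers: the determinants and the units
-/

set_option autoImplicit false

namespace Pool.Agent.D0H1.SF

open Polynomial NumberField Pool.Agent.Y800 Pool.Agent.R390.SF
open Pool.Agent.Y126.SH (chi)

variable {F : SubFld ℚ} {n : ℕ}

/-- The place of `F` which is given by the maximal ideal `P₀` of the ring of all algebraic integers and
the embedding `τ` of `F` in the algebraic closure of `ℚ`. -/
noncomputable def placeOf (P₀ : Ideal ZBar) (τ : F →+* AlgebraicClosure ℚ) : Idl F :=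
  P₀.comap (RingOfIntegers.mapRingHom τ)

/-- The determinants of the stable subspaces satisfy the relation for units of class field theory: if
the inertia groups at the places `𝔩` above `ℓ` act on the determinant of the stable subspace (with the
basis given by the columns of the matrix `C`, and the action `σ`) through `χ ^ (-a 𝔩)`, then, up to the
sign, the product of the conjugates `τ u` of a unit `u` of `F` with the exponents `a 𝔩`, where `𝔩` is
the place given by `τ`, is one. (The determinant is a character of the ideles which is trivial on the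
units outside `ℓ` and on `F`, and given by the norm with the exponent `-a 𝔩` on the units at `𝔩`.) The
homomorphism `π` identifies the algebraic integers with elements of an algebraic closure of `k`, and
`P₀` is the corresponding place. -/
def UnitRelation {k : Type} [Field k] (ρ : F.fixingSubgroup →* GL (Fin n) k) (χ : GQ → k) (ℓ : ℕ) :
    Prop :=
  ∃ (P₀ : Ideal ZBar) (π : ZBar →+* AlgebraicClosure k), P₀.IsMaximal ∧ (ℓ : ZBar) ∈ P₀ ∧
    ∀ (d : ℕ) (C : Matrix (Fin n) (Fin d) k) (σ : F.fixingSubgroup → Matrix (Fin d) (Fin d) k),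
      Function.Injective C.mulVec → (∀ g, (ρ g : Matrix (Fin n) (Fin n) k) * C = C * σ g) →
      ∀ a : Idl F → ℕ, (∀ P : Ideal ZBar, P.IsMaximal → (ℓ : ZBar) ∈ P → ∀ g : F.fixingSubgroup,
        InInertia P g → (σ g).det * χ g ^ a (P.under (𝓞 F)) = 1) →
      ∀ u : (𝓞 F)ˣ, (∏ᶠ τ : F →+* AlgebraicClosure ℚ,
        π (RingOfIntegers.mapRingHom τ (u : 𝓞 F)) ^ a (placeOf P₀ τ)) ^ 2 = 1

/-- The properties of the realisations of a polarized pure motive over `F` of weight `w`, with Hodge
numbers `h r = h^{r,w-r}`, `0 ≤ r ≤ w`, with a lattice, with good reduction outside the finite set `S`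
of primes and semistable reduction in `S`: those of `PolarizedSystem` (the polarization of `T_ℓ` is
perfect for `ℓ` outside the finite set `S'`), and the relation for units for the determinants of the
stable subspaces of `V_ℓ` and, for `ℓ` outside `S'`, of `T_ℓ / ℓ`. -/
structure HodgeSystem (S S' : Finset ℕ) (w : ℕ) (h : ℕ → ℕ) (T : IntegralSystem F n) : Prop
    extends T.PolarizedSystem S S' w h where
  /-- the determinants of the stable subspaces of `V_ℓ` -/
  rationalUnits : ∀ (ℓ : ℕ) [Fact ℓ.Prime],
    UnitRelation (T.rat ℓ) (fun g => algebraMap ℤ_[ℓ] ℚ_[ℓ] (chi ℓ g : ℤ_[ℓ])) ℓ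
  /-- the determinants of the stable subspaces of `T_ℓ / ℓ` -/
  residualUnits : ∀ (ℓ : ℕ) [Fact ℓ.Prime], ℓ ∉ S' →
    UnitRelation (T.res ℓ) (fun g => PadicInt.toZMod (chi ℓ g : ℤ_[ℓ])) ℓ

/-- Some place of `F` above `ℓ` induces on the largest subfield `F₀` of `F` which is totally real or a CM
field a place which is stable under the complex conjugation of `F₀`. The subfield `F₀` consists of the `x`
in `F` such that for some `y` in `F` (the complex conjugate of `x`) `φ y` is the complex conjugate of
`φ x` for all the embeddings `φ` of `F` in `ℂ`. -/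
def HasSelfConjugatePlace (F : SubFld ℚ) (ℓ : ℕ) : Prop :=
  ∃ 𝔩 : Idl F, Above ℓ 𝔩 ∧
    ∀ x y : 𝓞 F, (∀ φ : F →+* ℂ, φ y = star (φ x)) → x ∈ 𝔩 → y ∈ 𝔩

end Pool.Agent.D0H1.SF
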