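import Pool.Agent.D0H1.SF.HN

/-!
# Finiteness of the polarized systems with rigid Hodge numbers
-/

set_option autoImplicit false
set_option linter.unusedSectionVars false

namespace Pool.Agent.D0H1.SF

open Module Matrix Polynomial NumberField Pool.Agent.Y800 Pool.Agent.R390.SF
open Pool.Agent.R390.SF.IntegralSystem
open Pool.Agent.Y126.SH (chi exists_reps)
open Pool.Agent.D0H90.CS (IsConjOf)

attribute [local instance] Subgroup.fintypeQuotientOfFiniteIndex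

section single

variable {F : SubFld ℚ} [hF : FiniteDimensional ℚ F] {n : ℕ} {S S' : Finset ℕ} {w : ℕ} {h : ℕ → ℕ}
  {T : IntegralSystem F n}

theorem noiso_rat_hodge (hT : HodgeSystem S S' w h T) {ℓ : ℕ} [hℓ : Fact ℓ.Prime]
    (hFℓ : HasSelfConjugatePlace F ℓ) (hr : Rigid w h) : ∃ J : Matrix (Fin n) (Fin n) ℚ_[ℓ],
      Equi (T.rat ℓ) J ∧ NoIso (T.rat ℓ) J := by
  have hnf : NumberField F := numberField
  obtain ⟨J, hJ, hw⟩ := hT.rational ℓ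
  obtain ⟨q, hq, hqS', P, hPm, hqP, σ, hσ, hσc⟩ := exists_core (F := F) (S ∪ {ℓ})
  have hqS : q ∉ S := fun h => hqS' (Finset.mem_union_left _ h)
  have hqℓ : ℓ ≠ q := fun h => hqS' (Finset.mem_union_right _ (Finset.mem_singleton.2 h.symm))
  obtain ⟨M, hM0, hM⟩ := exists_M hT.toGoodSystem hq hqS hPm hqP hσ hσc (w * n)
  obtain ⟨M', hM0', hM'⟩ := exists_unitM (F := F) (w * n)
  exact ⟨_, equi_rat hJ, noiso_hodge (algebraMap ℤ_[ℓ] ℚ_[ℓ]) continuous_coe mink_padic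
    (pure_of_pol hT.toPolarizedSystem) (equi_rat hJ) hw (hT.rationalUnits ℓ) hFℓ hr hq hqS hqℓ hPm
    hqP hσ hσc (M := M) (by exact_mod_cast hM0) hM (M' := M') (by exact_mod_cast hM0') hM'⟩

theorem semis_rat_hodge (hT : HodgeSystem S S' w h T) {ℓ : ℕ} [hℓ : Fact ℓ.Prime]
    (hFℓ : HasSelfConjugatePlace F ℓ) (hr : Rigid w h) : Semis (T.rat ℓ) := by
  obtain ⟨J, h1, h2⟩ := noiso_rat_hodge hT hFℓ hr
  exact fun U hU => ⟨orth J U, orth_stable h1 hU, isCompl_orth h1 h2 hU⟩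

end single

section main

variable {F : SubFld ℚ} [hF : FiniteDimensional ℚ F] {n : ℕ}

/-- **Finiteness of the polarized systems.** -/
theorem hodge_finiteness (hn : 0 < n) (w : ℕ) (h : ℕ → ℕ) (S S' : Finset ℕ) (Λ : Set ℕ)
    (hr : Rigid w h) (hΛ : ∀ ℓ : ℕ, ℓ.Prime → ℓ ∈ Λ → HasSelfConjugatePlace F ℓ) :
    ∃ (m : ℕ) (T : Fin m → IntegralSystem F n), (∀ i, HodgeSystem S S' w h (T i)) ∧
      ∀ T' : IntegralSystem F n, HodgeSystem S S' w h T' → ∃ i, IsomorphicOn Λ (T i) T' := by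
  classical
  have hnf : NumberField F := numberField
  obtain ⟨𝒯, h𝒯, hdet⟩ := traces_of_finite (F := F) hn S
  obtain ⟨p, hp, hpS, P, hP, hpP, σ, hσ, hσc⟩ := exists_core (F := F) S
  obtain ⟨M', hM0', hM'⟩ := exists_unitM (F := F) (w * n)
  let 𝒰 : Finset (Ideal (𝓞 F)) := 𝒯 ∪ (Finset.univ.image fun q : GQ ⧸ F.fixingSubgroup =>
    (cj q.out P).under (𝓞 F))
  have h𝒰 : ∀ 𝔭 ∈ 𝒰, 𝔭.IsMaximal ∧ ∃ p : ℕ, p.Prime ∧ p ∉ S ∧ (p : 𝓞 F) ∈ 𝔭 := by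
    intro 𝔭 h𝔭
    rcases Finset.mem_union.1 h𝔭 with h1 | h1
    · exact h𝒯 𝔭 h1
    · obtain ⟨q, _, rfl⟩ := Finset.mem_image.1 h1
      refine ⟨under_max (cj_max hP), p, hp, hpS, ?_⟩
      rw [mem_under, map_natCast]
      exact cj_nat.2 hpP
  have hmem : ∀ q : GQ ⧸ F.fixingSubgroup, (cj q.out P).under (𝓞 F) ∈ 𝒰 := fun q =>
    Finset.mem_union_right _ (Finset.mem_image_of_mem _ (Finset.mem_univ q))
  have hpoly : ∀ T T' : IntegralSystem F n, T.GoodSystem S w → T'.GoodSystem S w →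
      ((fun x : 𝒰 × Fin (n + 1) => (T.poly x.1).coeff x.2) =
        fun x : 𝒰 × Fin (n + 1) => (T'.poly x.1).coeff x.2) →
      ∀ 𝔭 ∈ 𝒰, T.poly 𝔭 = T'.poly 𝔭 := by
    intro T T' hT hT' heq 𝔭 h𝔭
    obtain ⟨h1, p, hp, hpS, hp𝔭⟩ := h𝒰 𝔭 h𝔭
    ext i
    by_cases hi : i < n + 1
    · exact congrFun heq (⟨𝔭, h𝔭⟩, ⟨i, hi⟩)
    · rw [Polynomial.coeff_eq_zero_of_natDegree_lt, Polynomial.coeff_eq_zero_of_natDegree_lt]
      · rw [(hT'.good p hp hpS 𝔭 h1 hp𝔭).natDegree]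
        omega
      · rw [(hT.good p hp hpS 𝔭 h1 hp𝔭).natDegree]
        omega
  refine exists_reps (fun T : IntegralSystem F n => HodgeSystem S S' w h T)
    (fun T T' => IsomorphicOn Λ T T')
    (fun T => fun x : 𝒰 × Fin (n + 1) => (T.poly x.1).coeff x.2) ?_ ?_
  · refine (Set.Finite.pi' (t := fun x : 𝒰 × Fin (n + 1) => Set.Icc
      (-((Nat.card (𝓞 F ⧸ (x.1 : Ideal (𝓞 F))) ^ w) ^ n * n.choose (n / 2) : ℕ) : ℤ)
      (((Nat.card (𝓞 F ⧸ (x.1 : Ideal (𝓞 F))) ^ w) ^ n * n.choose (n / 2) : ℕ) : ℤ))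
      (fun p => Set.finite_Icc _ _)).subset ?_
    rintro _ ⟨T, hT, rfl⟩ x
    obtain ⟨h1, r, hr, hrS, h2⟩ := h𝒰 x.1 x.1.2
    exact abs_le.1 (coeff_bound hT.toGoodSystem hr hrS h1 h2 x.2)
  · intro T0 hT0
    obtain ⟨M, hM0, hM⟩ := exists_M hT0.toGoodSystem hp hpS hP hpP hσ hσc (w * n)
    let N : ℕ := max (max (S'.sup id) (max p M.natAbs)) M'.natAbs
    choose k c hk hc using local_code2 (Λ := Λ) (T0 := T0)
      (fun ℓ hℓ hℓΛ => semis_rat_hodge hT0 (hΛ ℓ hℓ.out hℓΛ) hr)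
    obtain ⟨K, ⟨e⟩⟩ := Finite.exists_equiv_fin (∀ ℓ : Fin (N + 1), Fin (k ℓ))
    refine ⟨K, fun T => (e fun ℓ => ⟨c ℓ T, hk ℓ T⟩ : ℕ), fun T => Fin.is_lt _, ?_⟩
    intro T T' hT hT' hi hi' hcode ℓ hℓ hℓΛ
    have hno := hΛ ℓ hℓ.out hℓΛ
    have key : ∀ T : IntegralSystem F n, HodgeSystem S S' w h T →
        ((fun x : 𝒰 × Fin (n + 1) => (T.poly x.1).coeff x.2) =
          fun x : 𝒰 × Fin (n + 1) => (T0.poly x.1).coeff x.2) →
        ∃ B : Matrix (Fin n) (Fin n) ℤ_[ℓ], Inter T0 T ℓ B := by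
      intro T hT hi
      refine exists_inter (semis_rat_hodge hT0 hno hr) (semis_rat_hodge hT hno hr) ?_
      refine hdet w w T T0 hT.toGoodSystem hT0.toGoodSystem (fun p hp => ?_) ℓ
      rw [hpoly T T0 hT.toGoodSystem hT0.toGoodSystem hi p (Finset.mem_union_left _ hp)]
    have key2 : N < ℓ → ∀ T : IntegralSystem F n, HodgeSystem S S' w h T →
        ((fun x : 𝒰 × Fin (n + 1) => (T.poly x.1).coeff x.2) =
          fun x : 𝒰 × Fin (n + 1) => (T0.poly x.1).coeff x.2) →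
        ∃ J : Matrix (Fin n) (Fin n) ℤ_[ℓ], T.IsPolarization w ℓ J ∧ IsUnit J.det ∧
          NoIso (toF (T.rho ℓ)) (rd J) := by
      intro hN T hT hi
      simp only [N, max_lt_iff] at hN
      obtain ⟨⟨h1, h2, h3⟩, h4⟩ := hN
      have hℓS : ℓ ∉ S' := fun h5 => absurd (Finset.le_sup (f := id) h5) (not_le.2 h1)
      obtain ⟨J, hJ, hJu, hw⟩ := hT.residual ℓ hℓS
      refine ⟨J, hJ, hJu, noiso_hodge (PadicInt.toZMod (p := ℓ)) continuous_toZMod mink_zmod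
        (pure_of_pol hT.toPolarizedSystem) (equi_res hJ) hw (hT.residualUnits ℓ hℓS) hno hr hp hpS
        (by omega) hP hpP hσ hσc (M := M) (ne_zero_mod hM0 h3) ?_ (M' := M')
        (ne_zero_mod hM0' h4) hM'⟩
      intro Ω _ _ hMΩ A a ha hA hprod
      refine hM Ω hMΩ A a ha (fun q => ?_) hprod
      rw [← hpoly T T0 hT.toGoodSystem hT0.toGoodSystem hi _ (hmem q)]
      exact hA q
    have h1 := key T hT hi
    have h2 := key T' hT' hi'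
    by_cases hℓN : ℓ ≤ N
    · have h3 := e.injective (Fin.ext hcode)
      have h4 := congrFun h3 ⟨ℓ, Nat.lt_succ_of_le hℓN⟩
      exact hc ℓ T T' hℓΛ h1 h2 (congrArg Fin.val h4)
    · obtain ⟨B, hB, hBρ⟩ := h1
      obtain ⟨B', hB', hBρ'⟩ := h2
      obtain ⟨J0, hJ0, -, hn0⟩ := key2 (not_le.1 hℓN) T0 hT0 rfl
      obtain ⟨J, hJ, hJu, hn⟩ := key2 (not_le.1 hℓN) T hT hi
      obtain ⟨J', hJ', hJu', hn'⟩ := key2 (not_le.1 hℓN) T' hT' hi'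
      obtain ⟨A, hA⟩ := uniq hJu hJ.equivariant hJ0.equivariant hn hn0 hB hBρ
      obtain ⟨A', hA'⟩ := uniq hJu' hJ'.equivariant hJ0.equivariant hn' hn0 hB' hBρ'
      refine ⟨A' * A⁻¹, fun g => ?_⟩
      rw [hA, hA']
      group

end main

section crit

variable {F : SubFld ℚ} [hF : FiniteDimensional ℚ F]

theorem exists_above {ℓ : ℕ} (hℓ : ℓ.Prime) : ∃ 𝔩 : Idl F, Above ℓ 𝔩 := by
  obtain ⟨P, _, hP, hℓP, _⟩ := exists_geom hℓ
  refine ⟨P.under (𝓞 F), under_max hP, ?_⟩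
  rw [mem_under, map_natCast]
  exact hℓP

/-- no CM subfields -/
theorem selfConj_of_noCM (h : ∀ M : IntermediateField ℚ F, ¬ IsCMField M) {ℓ : ℕ}
    (hℓ : ℓ.Prime) : HasSelfConjugatePlace F ℓ := by
  have hnf : NumberField F := numberField
  obtain ⟨𝔩, h𝔩⟩ := exists_above (F := F) hℓ
  refine ⟨𝔩, h𝔩, fun x y hxy hx => ?_⟩
  have h1 := Pool.Agent.D0H90.CS.isConjOf_self h (RingHom.id F) (x : F) (y : F) hxy
  have h2 : x = y := RingOfIntegers.ext h1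
  exact h2 ▸ hx

/-- a real place -/
theorem selfConj_of_real (h : ∃ φ : F →+* ℂ, ∀ x, star (φ x) = φ x) {ℓ : ℕ} (hℓ : ℓ.Prime) :
    HasSelfConjugatePlace F ℓ := by
  obtain ⟨φ, hφ⟩ := h
  obtain ⟨𝔩, h𝔩⟩ := exists_above (F := F) hℓ
  refine ⟨𝔩, h𝔩, fun x y hxy hx => ?_⟩
  have h1 : (y : F) = (x : F) := φ.injective (by rw [hxy, hφ])
  have h2 : y = x := RingOfIntegers.ext h1
  exact h2 ▸ hx

/-- one place above `ℓ` -/
theorem selfConj_of_unique {ℓ : ℕ} (hℓ : ℓ.Prime)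
    (h : ∀ 𝔩 𝔩' : Idl F, Above ℓ 𝔩 → Above ℓ 𝔩' → 𝔩 = 𝔩') : HasSelfConjugatePlace F ℓ := by
  have hnf : NumberField F := numberField
  obtain ⟨P, _, hP, hℓP, _⟩ := exists_geom hℓ
  let τ : F →+* AlgebraicClosure ℚ := algebraMap F (AlgebraicClosure ℚ)
  obtain ⟨τ', hτ'⟩ := Pool.Agent.D0H90.CS.exists_isConjOf (K := AlgebraicClosure ℚ) τ
  refine ⟨placeOf P τ', placeOf_max hP hℓP τ', fun x y hxy hx => ?_⟩
  have h1 : placeOf P τ' = placeOf P τ := h _ _ (placeOf_max hP hℓP τ') (placeOf_max hP hℓP τ)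
  rw [h1]
  have h2 : RingOfIntegers.mapRingHom τ' x = RingOfIntegers.mapRingHom τ y :=
    RingOfIntegers.ext (hτ' _ _ hxy)
  show RingOfIntegers.mapRingHom τ y ∈ P
  rw [← h2]
  exact hx

end crit

end Pool.Agent.D0H1.SF
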