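import Pool.Agent.D0H1.SF.HB
import Pool.Agent.D0H1.SF.HDef
import Pool.Agent.D0H1.SF.GMain
import Pool.Agent.R390.SF.PolNum
import Pool.Agent.D0H90.CS.Fields

/-!
# Rigid Hodge numbers: there are no isotropic stable subspaces
-/

set_option autoImplicit false
set_option linter.unusedSectionVars false

namespace Pool.Agent.D0H1.SF

open Module Matrix Polynomial NumberField Pool.Agent.Y800 Pool.Agent.R390.SF
open Pool.Agent.R390.SF.IntegralSystem
open Pool.Agent.Y126.SH (chi exists_reps)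
open Pool.Agent.D0H90.CS (IsConjOf)

attribute [local instance] Subgroup.fintypeQuotientOfFiniteIndex

section places

variable {F : SubFld ℚ}

/-- the restriction of an automorphism to `F` -/
noncomputable def restr (x : GQ) : F →+* AlgebraicClosure ℚ :=
  (x : AlgebraicClosure ℚ →+* AlgebraicClosure ℚ).comp (algebraMap F (AlgebraicClosure ℚ))

theorem placeOf_restr (P₀ : Ideal ZBar) (x : GQ) :
    placeOf P₀ (restr (F := F) x) = (cj x P₀).under (𝓞 F) := by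
  ext u
  rfl

theorem restr_inj {x y : GQ} (h : restr (F := F) x = restr y) :
    (x : GQ ⧸ F.fixingSubgroup) = y := by
  rw [QuotientGroup.eq, IntermediateField.mem_fixingSubgroup_iff]
  intro z hz
  have h1 : x z = y z := RingHom.congr_fun h ⟨z, hz⟩
  show x⁻¹ (y z) = z
  rw [← h1]
  exact AlgEquiv.symm_apply_apply x z

variable [hF : FiniteDimensional ℚ F]

theorem numberField : NumberField F := ⟨⟩

theorem restr_bij : Function.Bijective fun q : GQ ⧸ F.fixingSubgroup =>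
    restr (F := F) q.out := by
  have : NumberField F := numberField
  rw [Fintype.bijective_iff_injective_and_card]
  refine ⟨fun q q' h => ?_, ?_⟩
  · have := restr_inj h
    rwa [QuotientGroup.out_eq', QuotientGroup.out_eq'] at this
  · rw [card_quot, Embeddings.card]

theorem sum_place [NumberField F] (a : Ideal (𝓞 F) → ℕ) (P₀ : Ideal ZBar) :
    ∑ τ : F →+* AlgebraicClosure ℚ, a (placeOf P₀ τ) = tot F a P₀ := by
  unfold tot
  exact (Fintype.sum_bijective _ restr_bij _ _ fun q => by rw [placeOf_restr]).symm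

theorem placeOf_max {P₀ : Ideal ZBar} (hP₀ : P₀.IsMaximal) {ℓ : ℕ} (hℓ : (ℓ : ZBar) ∈ P₀)
    (τ : F →+* AlgebraicClosure ℚ) : (placeOf P₀ τ).IsMaximal ∧ (ℓ : 𝓞 F) ∈ placeOf P₀ τ := by
  obtain ⟨q, rfl⟩ := restr_bij.2 τ
  show (placeOf P₀ (restr q.out)).IsMaximal ∧ (ℓ : 𝓞 F) ∈ placeOf P₀ (restr q.out)
  rw [placeOf_restr]
  exact ⟨under_max (cj_max hP₀), mem_place hℓ _⟩

theorem exists_tau {P₀ : Ideal ZBar} (hP₀ : P₀.IsMaximal) {ℓ : ℕ} (hℓp : ℓ.Prime)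
    (hℓ : (ℓ : ZBar) ∈ P₀) {𝔩 : Ideal (𝓞 F)} (h : 𝔩.IsMaximal) (hℓ𝔩 : (ℓ : 𝓞 F) ∈ 𝔩) :
    ∃ x : GQ, placeOf P₀ (restr (F := F) x) = 𝔩 := by
  obtain ⟨q, hq⟩ := exists_q hℓp hP₀ hℓ h hℓ𝔩
  exact ⟨q.out, by rw [placeOf_restr, hq]⟩

/-- two conjugate embeddings with the same place -/
theorem exists_pair {ℓ : ℕ} (hℓp : ℓ.Prime) (hFℓ : HasSelfConjugatePlace F ℓ) {P₀ : Ideal ZBar}
    (hP₀ : P₀.IsMaximal) (hℓ : (ℓ : ZBar) ∈ P₀) :
    ∃ τ τ' : F →+* AlgebraicClosure ℚ, IsConjOf τ τ' ∧ placeOf P₀ τ = placeOf P₀ τ' := by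
  have hnf : NumberField F := numberField
  obtain ⟨𝔩, ⟨h𝔩, hℓ𝔩⟩, hconj⟩ := hFℓ
  obtain ⟨x, hx⟩ := exists_tau hP₀ hℓp hℓ h𝔩 hℓ𝔩
  set τ : F →+* AlgebraicClosure ℚ := restr x with hτ
  -- some conjugate embedding
  obtain ⟨τ₁, hτ₁⟩ := Pool.Agent.D0H90.CS.exists_isConjOf (K := AlgebraicClosure ℚ) τ
  obtain ⟨q₁, hq₁⟩ := restr_bij.2 τ₁
  have hs₁ : restr (F := F) q₁.out = τ₁ := hq₁
  set s : GQ := q₁.out * x⁻¹ with hs
  have hsτ : ∀ z : F, s (τ z) = τ₁ z := by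
    intro z
    rw [← hs₁]
    show (q₁.out * x⁻¹) (x (z : AlgebraicClosure ℚ)) = q₁.out (z : AlgebraicClosure ℚ)
    rw [AlgEquiv.mul_apply]
    congr 1
    exact AlgEquiv.symm_apply_apply x _
  -- the subfield `τ (F₀)`
  let F₀ := Pool.Agent.D0H90.CS.maxCM F
  let K₀ : SubFld ℚ := F₀.map τ.toRatAlgHom
  have hK₀fin : FiniteDimensional ℚ K₀ :=
    LinearEquiv.finiteDimensional (F₀.equivMap τ.toRatAlgHom).toLinearEquiv
  have hmemK : ∀ z y : F, (∀ φ : F →+* ℂ, φ y = star (φ z)) → τ z ∈ K₀ := by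
    intro z y hzy
    exact ⟨z, ⟨y, hzy⟩, rfl⟩
  have hplx : placeOf P₀ τ = 𝔩 := hx
  have hsame : P₀.under (𝓞 K₀) = (cj s P₀).under (𝓞 K₀) := by
    ext u
    rw [mem_under, mem_under, mem_cj]
    obtain ⟨z, ⟨y, hzy⟩, hz⟩ := (u : K₀).2
    have hz' : τ z = ((u : K₀) : AlgebraicClosure ℚ) := hz
    have hint : IsIntegral ℤ z := by
      have h1 : IsIntegral ℤ (τ z) := by
        rw [hz']
        exact ((algebraMap (𝓞 K₀) ZBar u) : ZBar).2
      exact (isIntegral_algHom_iff τ.toIntAlgHom τ.injective).1 h1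
    have hint' : IsIntegral ℤ y := by
      obtain ⟨φ⟩ : Nonempty (F →+* ℂ) := inferInstance
      have h1 : IsIntegral ℤ (φ y) := by
        rw [hzy φ]
        exact (hint.map φ.toIntAlgHom).map (starRingEnd ℂ).toIntAlgHom
      exact (isIntegral_algHom_iff φ.toIntAlgHom φ.injective).1 h1
    let z₀ : 𝓞 F := ⟨z, hint⟩
    let y₀ : 𝓞 F := ⟨y, hint'⟩
    have e1 : algebraMap (𝓞 K₀) ZBar u = RingOfIntegers.mapRingHom τ z₀ :=
      RingOfIntegers.ext hz'.symm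
    have e2 : s • algebraMap (𝓞 K₀) ZBar u = RingOfIntegers.mapRingHom τ y₀ := by
      apply RingOfIntegers.ext
      show s ((u : K₀) : AlgebraicClosure ℚ) = τ y
      rw [← hz', hsτ]
      exact hτ₁ z y hzy
    rw [e2, e1]
    have e3 : RingOfIntegers.mapRingHom τ z₀ ∈ P₀ ↔ z₀ ∈ 𝔩 := by rw [← hplx]; rfl
    have e4 : RingOfIntegers.mapRingHom τ y₀ ∈ P₀ ↔ y₀ ∈ 𝔩 := by rw [← hplx]; rfl
    rw [e3, e4]
    exact ⟨hconj z₀ y₀ hzy, hconj y₀ z₀ fun φ => by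
      show φ z = star (φ y)
      rw [hzy, star_star]⟩
  obtain ⟨t, ht⟩ := exists_cjF (F := K₀) hP₀ (cj_max hP₀) hsame
  set g : GQ := s * (t : GQ)⁻¹ with hg
  have hgP : cj g P₀ = P₀ := by
    rw [hg, ← cj_cj, ht, cj_cj, mul_inv_cancel]
    ext z
    rw [mem_cj, one_smul]
  refine ⟨τ, restr (F := F) (g * x), ?_, ?_⟩
  · intro z y hzy
    show (g * x) (z : AlgebraicClosure ℚ) = τ y
    rw [AlgEquiv.mul_apply]
    have h1 : x (z : AlgebraicClosure ℚ) = τ z := rfl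
    rw [h1, hg, AlgEquiv.mul_apply]
    have h2 : (t : GQ)⁻¹ (τ z) = τ z := by
      have h3 := (IntermediateField.mem_fixingSubgroup_iff K₀ ((t : GQ)⁻¹)).1
        (K₀.fixingSubgroup.inv_mem t.2) (τ z) (hmemK z y hzy)
      exact h3
    rw [h2, hsτ]
    exact hτ₁ z y hzy
  · rw [hτ, placeOf_restr, placeOf_restr, ← cj_cj, hgP]

end places

section units

variable {F : SubFld ℚ} {k : Type} [Field k] {n : ℕ} {ℓ : ℕ} [hℓ : Fact ℓ.Prime] (ψ : ℤ_[ℓ] →+* k)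

theorem unit_sub {ρ : F.fixingSubgroup →* GL (Fin n) k}
    (h : UnitRelation ρ (fun g => ψ (chi ℓ g : ℤ_[ℓ])) ℓ) :
    ∃ (P₀ : Ideal ZBar) (π : ZBar →+* AlgebraicClosure k), P₀.IsMaximal ∧ (ℓ : ZBar) ∈ P₀ ∧
      ∀ (U : Submodule k (Fin n → k)) (hU : IsStable ρ U) (a : Ideal (𝓞 F) → ℕ),
        (∀ P : Ideal ZBar, P.IsMaximal → (ℓ : ZBar) ∈ P → ∀ g : F.fixingSubgroup,
          InInertia P g → detChar ρ U hU g * chik ψ g ^ a (P.under (𝓞 F)) = 1) →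
        ∀ u : (𝓞 F)ˣ, (∏ᶠ τ : F →+* AlgebraicClosure ℚ,
          π (RingOfIntegers.mapRingHom τ (u : 𝓞 F)) ^ a (placeOf P₀ τ)) ^ 2 = 1 := by
  classical
  obtain ⟨P₀, π, hP₀, hℓP₀, hrel⟩ := h
  refine ⟨P₀, π, hP₀, hℓP₀, fun U hU a ha => ?_⟩
  let b := Module.finBasis k U
  let C : Matrix (Fin n) (Fin (finrank k U)) k := Matrix.of fun i j => (b j : Fin n → k) i
  have hC : ∀ v, C.mulVec v = ((∑ j, v j • b j : U) : Fin n → k) := by
    intro v
    funext i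
    rw [Matrix.mulVec, dotProduct, Submodule.coe_sum, Finset.sum_apply]
    refine Finset.sum_congr rfl fun j _ => ?_
    show (b j : Fin n → k) i * v j = v j * (b j : Fin n → k) i
    rw [mul_comm]
  have hinj : Function.Injective C.mulVec := by
    intro v v' hv
    rw [hC, hC] at hv
    have h3 := Subtype.ext hv
    have h4 := congrArg b.repr h3
    funext j
    have h5 := DFunLike.congr_fun h4 j
    rw [Basis.repr_sum_self, Basis.repr_sum_self] at h5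
    exact h5
  have heq : ∀ g, (ρ g : Matrix (Fin n) (Fin n) k) * C = C * LinearMap.toMatrix b b
      ((lin ρ g).restrict (hU g)) := by
    intro g
    ext i j
    have h3 : (C * LinearMap.toMatrix b b ((lin ρ g).restrict (hU g))) i j =
        C.mulVec (fun l => LinearMap.toMatrix b b ((lin ρ g).restrict (hU g)) l j) i := rfl
    rw [h3, hC]
    have h4 : (∑ l, LinearMap.toMatrix b b ((lin ρ g).restrict (hU g)) l j • b l) =
        ((lin ρ g).restrict (hU g)) (b j) := by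
      simp only [LinearMap.toMatrix_apply]
      exact b.sum_repr _
    rw [h4]
    rfl
  refine hrel (finrank k U) C _ hinj heq a fun P hP hℓP g hg => ?_
  have h5 := congrArg Units.val (ha P hP hℓP g hg)
  rw [LinearMap.det_toMatrix]
  exact h5

end units

section core

variable {F : SubFld ℚ} [hF : FiniteDimensional ℚ F] {n : ℕ} {S : Finset ℕ} {w : ℕ}
  {T : IntegralSystem F n} {ℓ : ℕ} [hℓ : Fact ℓ.Prime]
  {k : Type} [Field k] [TopologicalSpace k] [IsTopologicalRing k] (ψ : ℤ_[ℓ] →+* k)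

/-- **There are no isotropic stable subspaces.** -/
theorem noiso_hodge [NumberField F] (hψ : Continuous ψ) (hk : HasMink k) (hT : T.PureSystem S w)
    {h : ℕ → ℕ} {J : Matrix (Fin n) (Fin n) k} (hJ : Equi (rep ψ T) J)
    (hw : HodgeFormAt F (rep ψ T) J (fun g => ψ (chi ℓ g : ℤ_[ℓ])) ℓ w h)
    (hu : UnitRelation (rep ψ T) (fun g => ψ (chi ℓ g : ℤ_[ℓ])) ℓ)
    (hFℓ : HasSelfConjugatePlace F ℓ) (hr : Rigid w h)
    {p : ℕ} (hp : p.Prime) (hpS : p ∉ S) (hpℓ : ℓ ≠ p) {P : Ideal ZBar} (hP : P.IsMaximal)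
    (hpP : (p : ZBar) ∈ P) {σ : GQ} (hσ : IsGeomFrob p P σ)
    (hσc : σ ∈ (F.fixingSubgroup).normalCore) {M : ℤ} (hMk : (M : k) ≠ 0)
    (hM : ∀ (Ω : Type) [Field Ω] [IsAlgClosed Ω], (M : Ω) ≠ 0 →
      ∀ (A : (GQ ⧸ F.fixingSubgroup) → Multiset Ω) (a : ℕ),
        a ≤ expo F.fixingSubgroup * (finrank ℚ F * (w * n)) →
        (∀ q, A q ≤ ((T.poly ((cj q.out P).under (𝓞 F))).map (Int.castRingHom Ω)).roots) →
        ∏ q, (A q).prod ^ expo F.fixingSubgroup = (p : Ω) ^ a →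
          a * 2 = ∑ q, expo F.fixingSubgroup * (w * Multiset.card (A q)))
    {M' : ℤ} (hMk' : (M' : k) ≠ 0)
    (hM' : ∀ (Ω : Type) [Field Ω] (π : ZBar →+* Ω), (M' : Ω) ≠ 0 →
      ∀ a : (F →+* AlgebraicClosure ℚ) → ℕ, (∀ τ, a τ ≤ w * n) →
      (∀ u : (𝓞 F)ˣ, (∏ τ : F →+* AlgebraicClosure ℚ,
        π (RingOfIntegers.mapRingHom τ (u : 𝓞 F)) ^ a τ) ^ 2 = 1) →
      ∀ u : (𝓞 F)ˣ, (∏ τ : F →+* AlgebraicClosure ℚ, τ ((u : 𝓞 F) : F) ^ a τ) ^ 2 = 1) :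
    NoIso (rep ψ T) J := by
  classical
  intro U hU hiso
  obtain ⟨m, hm⟩ := hw
  obtain ⟨P₀, π, hP₀, hℓP₀, hrel⟩ := unit_sub ψ hu
  let a : Ideal (𝓞 F) → ℕ := fun 𝔩 => if 𝔩.IsMaximal ∧ (ℓ : 𝓞 F) ∈ 𝔩 then
    ∑ r ∈ Finset.range (w + 1), r * m U 𝔩 r else 0
  have hdle : finrank k U ≤ n := by
    have := Submodule.finrank_le U
    rwa [finrank_fin_fun] at this
  have hsub := fun (𝔩 : Ideal (𝓞 F)) (h1 : 𝔩.IsMaximal) (h2 : (ℓ : 𝓞 F) ∈ 𝔩) =>
    form_sub ψ (hm 𝔩 h1 h2).2.1 hU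
  have hac : ∀ 𝔩, a 𝔩 ≤ w * n := by
    intro 𝔩
    show (if 𝔩.IsMaximal ∧ (ℓ : 𝓞 F) ∈ 𝔩 then
      ∑ r ∈ Finset.range (w + 1), r * m U 𝔩 r else 0) ≤ w * n
    split_ifs with h1
    · calc ∑ r ∈ Finset.range (w + 1), r * m U 𝔩 r ≤ ∑ r ∈ Finset.range (w + 1), w * m U 𝔩 r := by
            refine Finset.sum_le_sum fun r hr => Nat.mul_le_mul_right _ ?_
            exact Nat.lt_succ_iff.1 (Finset.mem_range.1 hr)
        _ = w * finrank k U := by rw [← Finset.mul_sum, (hsub 𝔩 h1.1 h1.2).1]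
        _ ≤ w * n := Nat.mul_le_mul_left _ hdle
    · exact Nat.zero_le _
  have ha : ∀ P : Ideal ZBar, P.IsMaximal → (ℓ : ZBar) ∈ P → ∀ τ : F.fixingSubgroup,
      InInertia P τ → detChar (rep ψ T) U hU τ * chik ψ τ ^ a (P.under (𝓞 F)) = 1 := by
    intro P hP hℓP τ hτ
    have h1 : (P.under (𝓞 F)).IsMaximal := under_max hP
    have h2 : (ℓ : 𝓞 F) ∈ P.under (𝓞 F) := by
      rw [mem_under, map_natCast]
      exact hℓP
    have h3 : a (P.under (𝓞 F)) = ∑ r ∈ Finset.range (w + 1), r * m U (P.under (𝓞 F)) r :=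
      if_pos ⟨h1, h2⟩
    rw [h3]
    exact (hsub _ h1 h2).2 P hP rfl τ hτ
  have h1 := (weight_sub' ψ hψ hk hT hp hpS hpℓ hP hpP hσ hσc hMk hM U hU a hac ha hP₀ hℓP₀).1
  have hMK : (M' : AlgebraicClosure k) ≠ 0 := by
    rw [← map_intCast (algebraMap k (AlgebraicClosure k))]
    exact (_root_.map_ne_zero _).2 hMk'
  have hunit := hM' (AlgebraicClosure k) π hMK (fun τ => a (placeOf P₀ τ)) (fun τ => hac _)
    (fun u => by
      have h2 := hrel U hU a ha u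
      rw [finprod_eq_prod_of_fintype] at h2
      exact h2)
  obtain ⟨τ, τ', hττ, hpl⟩ := exists_pair hℓ.out hFℓ hP₀ hℓP₀
  have hQalg : Algebra.IsAlgebraic ℚ (AlgebraicClosure ℚ) := AlgebraicClosure.isAlgebraic ℚ
  have hwt := conj_weights (fun τ => a (placeOf P₀ τ)) (W := w * finrank k U) hunit (by
    rw [sum_place, mul_comm 2, h1]
    ring) τ τ' hττ
  rw [← hpl] at hwt
  obtain ⟨h3, h4⟩ := placeOf_max hP₀ hℓP₀ τ
  have h5 : a (placeOf P₀ τ) = ∑ r ∈ Finset.range (w + 1), r * m U (placeOf P₀ τ) r :=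
    if_pos ⟨h3, h4⟩
  obtain ⟨h6, -, h7⟩ := hm _ h3 h4
  have h8 := (hsub _ h3 h4).1
  have h9 := hr (fun r => m U (placeOf P₀ τ) r) (fun r hr => by
    have h10 := h6 U (orth J U) hU (orth_stable hJ hU) (fun x hx u hu => hiso u hu x hx) r
    have h11 := h7 U hU r hr
    show m U (placeOf P₀ τ) r + m U (placeOf P₀ τ) (w - r) ≤ h r
    omega) (by
    show 2 * ∑ r ∈ Finset.range (w + 1), r * m U (placeOf P₀ τ) r =
      w * ∑ r ∈ Finset.range (w + 1), m U (placeOf P₀ τ) r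
    rw [h8, ← h5]
    show 2 * a (placeOf P₀ τ) = w * finrank k U
    have h12 : a (placeOf P₀ τ) + a (placeOf P₀ τ) = w * finrank k U := hwt
    omega)
  exact Submodule.finrank_eq_zero.1 (h8.symm.trans h9)

end core

end Pool.Agent.D0H1.SF
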