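import Pool.Agent.R390.SF.PolNum

/-!
# Rigid Hodge numbers in all ranks
-/

set_option autoImplicit false

namespace Pool.Agent.D0H1.SF

open Pool.Agent.R390.SF

/-- If the Hodge numbers are at most one, and the distances `2 r - w` for `h r = 1`, `2 r > w`, form a
superincreasing sequence, then the Hodge numbers are rigid. -/
theorem rigid_of_super {w : ℕ} {h : ℕ → ℕ} (h1 : ∀ r ≤ w, h r ≤ 1)
    (h2 : ∀ r ≤ w, w < 2 * r → h r = 1 →
      ∑ s ∈ Finset.range r, (2 * s - w) * h s < 2 * r - w) : Rigid w h := by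
  classical
  intro m hm hmean
  let e : ℕ → ℤ := fun s => (m s : ℤ) - (m (w - s) : ℤ)
  have he : ∀ s ≤ w, |e s| ≤ (h s : ℤ) := by
    intro s hs
    have := hm s hs
    rw [abs_le]
    constructor <;> simp only [e] <;> omega
  -- the sum
  have hrefl : ∑ r ∈ Finset.range (w + 1), (((w - 2 * r : ℕ) : ℤ) * (m r : ℤ)) =
      ∑ r ∈ Finset.range (w + 1), (((2 * r - w : ℕ) : ℤ) * (m (w - r) : ℤ)) := by
    rw [← Finset.sum_range_reflect (fun r => (((w - 2 * r : ℕ) : ℤ) * (m r : ℤ))) (w + 1)]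
    refine Finset.sum_congr rfl fun r hr => ?_
    rw [Finset.mem_range] at hr
    have h3 : w + 1 - 1 - r = w - r := by omega
    have h4 : w - 2 * (w - r) = 2 * r - w := by omega
    rw [h3, h4]
  have hmean' : ∑ r ∈ Finset.range (w + 1), ((2 * (r : ℤ) - w) * (m r : ℤ)) = 0 := by
    have h3 : (2 * ∑ r ∈ Finset.range (w + 1), (r : ℤ) * m r) =
        w * ∑ r ∈ Finset.range (w + 1), (m r : ℤ) := by exact_mod_cast hmean
    calc ∑ r ∈ Finset.range (w + 1), ((2 * (r : ℤ) - w) * (m r : ℤ))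
        = (2 * ∑ r ∈ Finset.range (w + 1), (r : ℤ) * m r) -
          w * ∑ r ∈ Finset.range (w + 1), (m r : ℤ) := by
          rw [Finset.mul_sum, Finset.mul_sum, ← Finset.sum_sub_distrib]
          exact Finset.sum_congr rfl fun r _ => by ring
      _ = 0 := by rw [h3, sub_self]
  have hsum : ∑ r ∈ Finset.range (w + 1), (((2 * r - w : ℕ) : ℤ) * e r) = 0 := by
    calc ∑ r ∈ Finset.range (w + 1), (((2 * r - w : ℕ) : ℤ) * e r)
        = ∑ r ∈ Finset.range (w + 1), (((2 * r - w : ℕ) : ℤ) * (m r : ℤ)) -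
          ∑ r ∈ Finset.range (w + 1), (((2 * r - w : ℕ) : ℤ) * (m (w - r) : ℤ)) := by
          rw [← Finset.sum_sub_distrib]
          exact Finset.sum_congr rfl fun r _ => by simp only [e]; ring
      _ = ∑ r ∈ Finset.range (w + 1), ((2 * (r : ℤ) - w) * (m r : ℤ)) := by
          rw [← hrefl, ← Finset.sum_sub_distrib]
          refine Finset.sum_congr rfl fun r _ => ?_
          rw [← sub_mul]
          congr 1
          omega
      _ = 0 := hmean'
  -- no largest index
  have hz : ∀ s ≤ w, w < 2 * s → e s = 0 := by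
    by_contra hcon
    push Not at hcon
    let Z : Finset ℕ := (Finset.range (w + 1)).filter fun s => w < 2 * s ∧ e s ≠ 0
    have hZ : Z.Nonempty := by
      obtain ⟨s, hs, hs2, hs3⟩ := hcon
      exact ⟨s, Finset.mem_filter.2 ⟨Finset.mem_range.2 (by omega), hs2, hs3⟩⟩
    obtain ⟨s0, hs0, hmax⟩ := Z.exists_max_image id hZ
    obtain ⟨ha, hb, hc⟩ := Finset.mem_filter.1 hs0
    rw [Finset.mem_range] at ha
    have hhs0 : h s0 = 1 := by
      have h3 := he s0 (by omega)
      have h4 := h1 s0 (by omega)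
      have h5 : 0 < |e s0| := abs_pos.2 hc
      omega
    have h3 := h2 s0 (by omega) hb hhs0
    have hsplit : ∑ r ∈ Finset.range (w + 1), (((2 * r - w : ℕ) : ℤ) * e r) =
        ∑ r ∈ Finset.range (s0 + 1), (((2 * r - w : ℕ) : ℤ) * e r) := by
      symm
      refine Finset.sum_subset (fun r hr => ?_) fun r hr hr' => ?_
      · rw [Finset.mem_range] at hr ⊢
        omega
      · rw [Finset.mem_range] at hr hr'
        have h4 : e r = 0 := by
          by_contra h5
          have h6 := hmax r (Finset.mem_filter.2 ⟨Finset.mem_range.2 hr, by omega, h5⟩)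
          simp only [id] at h6
          omega
        rw [h4, mul_zero]
    rw [hsplit, Finset.sum_range_succ] at hsum
    have h4 : |∑ r ∈ Finset.range s0, (((2 * r - w : ℕ) : ℤ) * e r)| ≤
        ((∑ s ∈ Finset.range s0, (2 * s - w) * h s : ℕ) : ℤ) := by
      push_cast
      refine (Finset.abs_sum_le_sum_abs _ _).trans (Finset.sum_le_sum fun r hr => ?_)
      rw [Finset.mem_range] at hr
      rw [abs_mul, abs_of_nonneg (by positivity : (0 : ℤ) ≤ ((2 * r - w : ℕ) : ℤ))]
      exact mul_le_mul_of_nonneg_left (he r (by omega)) (by positivity)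
    have h5 : ∑ r ∈ Finset.range s0, (((2 * r - w : ℕ) : ℤ) * e r) =
        -(((2 * s0 - w : ℕ) : ℤ) * e s0) := by linarith
    rw [h5, abs_neg, abs_mul, abs_of_nonneg (by positivity : (0 : ℤ) ≤ ((2 * s0 - w : ℕ) : ℤ))] at h4
    have h6 : 1 ≤ |e s0| := Int.one_le_abs hc
    have h7 : ((2 * s0 - w : ℕ) : ℤ) ≤ ((2 * s0 - w : ℕ) : ℤ) * |e s0| := by
      nlinarith [(by positivity : (0 : ℤ) ≤ ((2 * s0 - w : ℕ) : ℤ))]
    have h8 : ((2 * s0 - w : ℕ) : ℤ) ≤ ((∑ s ∈ Finset.range s0, (2 * s - w) * h s : ℕ) : ℤ) :=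
      h7.trans h4
    have h9 : 2 * s0 - w ≤ ∑ s ∈ Finset.range s0, (2 * s - w) * h s := by exact_mod_cast h8
    omega
  refine Finset.sum_eq_zero fun r hr => ?_
  rw [Finset.mem_range] at hr
  have h3 := hm r (by omega)
  have h4 := h1 r (by omega)
  rcases lt_trichotomy w (2 * r) with h5 | h5 | h5
  · have h6 := hz r (by omega) h5
    simp only [e] at h6
    omega
  · have h6 : w - r = r := by omega
    rw [h6] at h3
    omega
  · have h6 := hz (w - r) (by omega) (by omega)
    simp only [e] at h6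
    have h7 : w - (w - r) = r := by omega
    rw [h7] at h6
    omega

end Pool.Agent.D0H1.SF
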