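import Mathlib

/-!
# Determinants on the pieces of a filtration
-/

set_option autoImplicit false
set_option linter.unusedSectionVars false

namespace Pool.Agent.D0H1.SF

open Module Finset

section exact

variable {K : Type*} [Field K] {U : Type*} [AddCommGroup U] [Module K U] [FiniteDimensional K U]
  {U' : Type*} [AddCommGroup U'] [Module K U'] [FiniteDimensional K U']

theorem det_exact {e : End K U} {e' : End K U'} {f : U →ₗ[K] U'} (hf : Function.Surjective f)
    (hfe : ∀ x, f (e x) = e' (f x)) (hk : ∀ x ∈ LinearMap.ker f, e x ∈ LinearMap.ker f) :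
    LinearMap.det e = LinearMap.det (e.restrict hk) * LinearMap.det e' := by
  rw [LinearMap.det_eq_det_mul_det (LinearMap.ker f) e hk]
  congr 1
  let g : (U ⧸ LinearMap.ker f) ≃ₗ[K] U' := f.quotKerEquivOfSurjective hf
  rw [← LinearMap.det_conj _ g]
  congr 1
  refine LinearMap.ext fun y => ?_
  obtain ⟨x, rfl⟩ := hf y
  rw [LinearMap.comp_apply, LinearMap.comp_apply]
  have h1 : g.symm (f x) = Submodule.Quotient.mk x := by
    rw [LinearEquiv.symm_apply_eq]
    rfl
  show g (((LinearMap.ker f).mapQ (LinearMap.ker f) e hk) (g.symm (f x))) = e' (f x)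
  rw [h1, ← hfe]
  rfl

end exact

variable {K : Type*} [Field K] {V : Type*} [AddCommGroup V] [Module K V] [FiniteDimensional K V]

/-- transport of the determinant to an equal subspace of a subspace -/
theorem det_sub_sub {e : End K V} {U W : Submodule K V} (hU : ∀ x ∈ U, e x ∈ U)
    (hW : ∀ x ∈ W, e x ∈ W) {W' : Submodule K U} (hW' : ∀ x ∈ W', (e.restrict hU) x ∈ W')
    (h : ∀ x : U, x ∈ W' ↔ (x : V) ∈ W) (hle : W ≤ U) :
    LinearMap.det ((e.restrict hU).restrict hW') = LinearMap.det (e.restrict hW) := by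
  let g : W' ≃ₗ[K] W :=
    { toFun := fun x => ⟨x.1.1, (h x.1).1 x.2⟩
      map_add' := fun x y => rfl
      map_smul' := fun c x => rfl
      invFun := fun x => ⟨⟨x.1, hle x.2⟩, (h _).2 x.2⟩
      left_inv := fun x => rfl
      right_inv := fun x => rfl }
  rw [← LinearMap.det_conj _ g]
  congr 1

/-- adjoining one vector -/
theorem det_adjoin {e : End K V} {W W' : Submodule K V} (hW : ∀ x ∈ W, e x ∈ W)
    (hW' : ∀ x ∈ W', e x ∈ W') (hle : W' ≤ W) {y : V} (hyW : y ∈ W) (hy : y ∉ W')
    (hspan : ∀ x ∈ W, ∃ a : K, x - a • y ∈ W') {μ : K} (hμ : e y - μ • y ∈ W') :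
    LinearMap.det (e.restrict hW) = μ * LinearMap.det (e.restrict hW') ∧
      finrank K W = finrank K W' + 1 := by
  obtain ⟨φ, hφy, hφ⟩ := Submodule.exists_dual_map_eq_bot_of_notMem hy inferInstance
  have hφ' : ∀ x ∈ W', φ x = 0 := by
    intro x hx
    have h1 : φ x ∈ W'.map φ := Submodule.mem_map_of_mem hx
    rw [hφ] at h1
    exact (Submodule.mem_bot _).1 h1
  let f : W →ₗ[K] K := φ.comp W.subtype
  have hf : Function.Surjective f := by
    intro c
    refine ⟨(c * (φ y)⁻¹) • ⟨y, hyW⟩, ?_⟩
    show φ ((c * (φ y)⁻¹) • y) = c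
    rw [map_smul, smul_eq_mul, mul_assoc, inv_mul_cancel₀ hφy, mul_one]
  have hdec : ∀ x ∈ W, ∀ a : K, x - a • y ∈ W' → φ x = a * φ y := by
    intro x _ a ha
    have h1 := hφ' _ ha
    rw [map_sub, map_smul, smul_eq_mul] at h1
    exact sub_eq_zero.1 h1
  have hfe : ∀ x : W, f ((e.restrict hW) x) = (μ • (1 : End K K)) (f x) := by
    intro x
    obtain ⟨a, ha⟩ := hspan x x.2
    have h1 := hφ' _ (hW' _ ha)
    have h2 := hφ' _ hμ
    rw [map_sub, map_smul, map_sub, map_smul] at h1
    rw [map_sub, map_smul] at h2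
    show φ (e x) = μ • φ x
    rw [hdec x x.2 a ha, sub_eq_zero.1 h1, sub_eq_zero.1 h2]
    simp only [smul_eq_mul]
    ring
  have hker : ∀ x : W, x ∈ LinearMap.ker f ↔ (x : V) ∈ W' := by
    intro x
    rw [LinearMap.mem_ker]
    constructor
    · intro hx
      obtain ⟨a, ha⟩ := hspan x x.2
      have h1 : φ x = a * φ y := hdec x x.2 a ha
      have h2 : φ (x : V) = 0 := hx
      rw [h2] at h1
      have h3 : a = 0 := by
        rcases mul_eq_zero.1 h1.symm with h | h
        · exact h
        · exact absurd h hφy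
      rw [h3, zero_smul, sub_zero] at ha
      exact ha
    · intro hx
      exact hφ' _ hx
  have hk : ∀ x ∈ LinearMap.ker f, (e.restrict hW) x ∈ LinearMap.ker f := by
    intro x hx
    rw [hker] at hx ⊢
    exact hW' _ hx
  constructor
  · rw [det_exact hf hfe hk, det_sub_sub hW hW' hk hker hle, LinearMap.det_smul, finrank_self,
      pow_one, map_one, mul_one, mul_comm]
  · have h1 := f.finrank_range_add_finrank_ker
    rw [LinearMap.range_eq_top.2 hf, finrank_top, finrank_self] at h1
    have h2 : finrank K (LinearMap.ker f) = finrank K W' := by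
      let g : LinearMap.ker f ≃ₗ[K] W' :=
        { toFun := fun x => ⟨x.1.1, (hker x.1).1 x.2⟩
          map_add' := fun x y => rfl
          map_smul' := fun c x => rfl
          invFun := fun x => ⟨⟨x.1, hle x.2⟩, (hker _).2 x.2⟩
          left_inv := fun x => rfl
          right_inv := fun x => rfl }
      exact g.finrank_eq
    omega

/-- the nilpotent step -/
theorem det_step {e e' N : End K V} {U : Submodule K V} (hU : ∀ x ∈ U, e x ∈ U)
    (hNe : ∀ x ∈ U, N (e x) = e' (N x)) (hU' : ∀ x ∈ U.map N, e' x ∈ U.map N)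
    (hS : ∀ x ∈ U ⊓ LinearMap.ker N, e x ∈ U ⊓ LinearMap.ker N) :
    LinearMap.det (e.restrict hU) = LinearMap.det (e.restrict hS) * LinearMap.det (e'.restrict hU') ∧
      finrank K U = finrank K (U ⊓ LinearMap.ker N : Submodule K V) + finrank K (U.map N) := by
  let f : U →ₗ[K] (U.map N) := N.restrict (fun x hx => Submodule.mem_map_of_mem hx)
  have hf : Function.Surjective f := by
    rintro ⟨y, hy⟩
    obtain ⟨x, hx, rfl⟩ := hy
    exact ⟨⟨x, hx⟩, rfl⟩
  have hfe : ∀ x : U, f ((e.restrict hU) x) = (e'.restrict hU') (f x) := by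
    intro x
    exact Subtype.ext (hNe x x.2)
  have hker : ∀ x : U, x ∈ LinearMap.ker f ↔ (x : V) ∈ U ⊓ LinearMap.ker N := by
    intro x
    rw [LinearMap.mem_ker, Submodule.mem_inf, LinearMap.mem_ker]
    constructor
    · intro h
      exact ⟨x.2, congrArg Subtype.val h⟩
    · rintro ⟨-, h⟩
      exact Subtype.ext h
  have hk : ∀ x ∈ LinearMap.ker f, (e.restrict hU) x ∈ LinearMap.ker f := by
    intro x hx
    rw [hker] at hx ⊢
    exact hS _ hx
  constructor
  · rw [det_exact hf hfe hk, det_sub_sub hU hS hk hker inf_le_left]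
  · have h1 := f.finrank_range_add_finrank_ker
    rw [LinearMap.range_eq_top.2 hf, finrank_top] at h1
    have h2 : finrank K (LinearMap.ker f) = finrank K (U ⊓ LinearMap.ker N : Submodule K V) := by
      let g : LinearMap.ker f ≃ₗ[K] (U ⊓ LinearMap.ker N : Submodule K V) :=
        { toFun := fun x => ⟨x.1.1, (hker x.1).1 x.2⟩
          map_add' := fun x y => rfl
          map_smul' := fun c x => rfl
          invFun := fun x => ⟨⟨x.1, x.2.1⟩, (hker _).2 x.2⟩
          left_inv := fun x => rfl
          right_inv := fun x => rfl }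
      exact g.finrank_eq
    omega

end Pool.Agent.D0H1.SF
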