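import Mathlib
import Pool.Agent.R390.SF.BN2

/-!
# Representations of rank two with commutative image
-/

set_option autoImplicit false
set_option linter.unusedSectionVars false

namespace Pool.Agent.D0H1.SF

open Module Matrix Pool.Agent.R390.SF

section mat

variable {R : Type*} [CommRing R]

/-- two matrices which commute with a matrix with different eigenvalues commute -/
theorem comm_of_comm [IsDomain R] {F X Y : Matrix (Fin 2) (Fin 2) R}
    (hF : F.trace ^ 2 - 4 * F.det ≠ 0) (hX : X * F = F * X) (hY : Y * F = F * Y) :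
    X * Y = Y * X := by
  have x1 := congrFun (congrFun hX 0) 0
  have x2 := congrFun (congrFun hX 0) 1
  have x3 := congrFun (congrFun hX 1) 0
  have y1 := congrFun (congrFun hY 0) 0
  have y2 := congrFun (congrFun hY 0) 1
  have y3 := congrFun (congrFun hY 1) 0
  simp only [Matrix.mul_apply, Fin.sum_univ_two] at x1 x2 x3 y1 y2 y3
  rw [Matrix.trace_fin_two, Matrix.det_fin_two] at hF
  generalize F 0 0 = a at *
  generalize F 0 1 = b at *
  generalize F 1 0 = c at *
  generalize F 1 1 = d at *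
  have hne : a - d ≠ 0 ∨ b ≠ 0 ∨ c ≠ 0 := by
    by_contra hcon
    push Not at hcon
    obtain ⟨h1, h2, h3⟩ := hcon
    apply hF
    have h4 : a = d := sub_eq_zero.1 h1
    rw [h2, h3, h4]
    ring
  have e1 : X 0 1 * Y 1 0 = Y 0 1 * X 1 0 ∧ (X 0 0 - X 1 1) * Y 0 1 = (Y 0 0 - Y 1 1) * X 0 1 ∧
      (X 0 0 - X 1 1) * Y 1 0 = (Y 0 0 - Y 1 1) * X 1 0 := by
    rcases hne with h | h | h
    · have e2 : (X 0 0 - X 1 1) * Y 0 1 = (Y 0 0 - Y 1 1) * X 0 1 := by
        apply mul_left_cancel₀ h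
        linear_combination (X 0 0 - X 1 1) * (-1) * y2 + (Y 0 0 - Y 1 1) * x2
      have e3 : (X 0 0 - X 1 1) * Y 1 0 = (Y 0 0 - Y 1 1) * X 1 0 := by
        apply mul_left_cancel₀ h
        linear_combination (X 0 0 - X 1 1) * y3 - (Y 0 0 - Y 1 1) * x3
      refine ⟨?_, e2, e3⟩
      apply mul_left_cancel₀ (pow_ne_zero 2 h)
      linear_combination (-1) * (a - d) * Y 1 0 * x2 + (a - d) * X 1 0 * y2 +
        (a - d) * b * e3
    · have e1 : X 0 1 * Y 1 0 = Y 0 1 * X 1 0 := by
        apply mul_left_cancel₀ h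
        linear_combination (-1) * X 0 1 * y1 + Y 0 1 * x1
      refine ⟨e1, ?_, ?_⟩
      · apply mul_left_cancel₀ h
        linear_combination Y 0 1 * x2 - X 0 1 * y2
      · apply mul_left_cancel₀ h
        linear_combination Y 1 0 * x2 - X 1 0 * y2 + (a - d) * e1
    · have e1 : X 0 1 * Y 1 0 = Y 0 1 * X 1 0 := by
        apply mul_left_cancel₀ h
        linear_combination Y 1 0 * x1 - X 1 0 * y1
      refine ⟨e1, ?_, ?_⟩
      · apply mul_left_cancel₀ h
        linear_combination (-1) * Y 0 1 * x3 + X 0 1 * y3 - (a - d) * e1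
      · apply mul_left_cancel₀ h
        linear_combination (-1) * Y 1 0 * x3 + X 1 0 * y3
  obtain ⟨e1, e2, e3⟩ := e1
  ext i j
  fin_cases i <;> fin_cases j <;> simp only [Fin.zero_eta, Fin.mk_one, Fin.isValue,
    Matrix.mul_apply, Fin.sum_univ_two]
  · linear_combination e1
  · linear_combination e2
  · linear_combination (-1) * e3
  · linear_combination (-1) * e1

/-- a cyclic vector -/
theorem exists_cyclic [IsLocalRing R] {F : Matrix (Fin 2) (Fin 2) R}
    (hF : IsUnit (F.trace ^ 2 - 4 * F.det)) : ∃ C : Matrix (Fin 2) (Fin 2) R,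
      IsUnit C.det ∧ F * C = C * !![0, -F.det; 1, F.trace] := by
  have key : ∀ u v : R, F * !![u, F 0 0 * u + F 0 1 * v; v, F 1 0 * u + F 1 1 * v] =
      !![u, F 0 0 * u + F 0 1 * v; v, F 1 0 * u + F 1 1 * v] * !![0, -F.det; 1, F.trace] := by
    intro u v
    rw [Matrix.trace_fin_two, Matrix.det_fin_two]
    ext i j
    fin_cases i <;> fin_cases j <;> simp [Matrix.mul_apply, Fin.sum_univ_two] <;> ring
  by_cases hb : IsUnit (F 0 1)
  · refine ⟨_, ?_, key 0 1⟩
    rw [Matrix.det_fin_two]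
    simp only [Matrix.of_apply, Matrix.cons_val', Matrix.cons_val_zero, Matrix.cons_val_one,
      Matrix.cons_val_fin_one]
    have : (0 : R) * (F 1 0 * 0 + F 1 1 * 1) - (F 0 0 * 0 + F 0 1 * 1) * 1 = - F 0 1 := by ring
    rw [this]
    exact hb.neg
  by_cases hc : IsUnit (F 1 0)
  · refine ⟨_, ?_, key 1 0⟩
    rw [Matrix.det_fin_two]
    simp only [Matrix.of_apply, Matrix.cons_val', Matrix.cons_val_zero, Matrix.cons_val_one,
      Matrix.cons_val_fin_one]
    have : (1 : R) * (F 1 0 * 1 + F 1 1 * 0) - (F 0 0 * 1 + F 0 1 * 0) * 0 = F 1 0 := by ring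
    rw [this]
    exact hc
  · refine ⟨_, ?_, key 1 1⟩
    rw [Matrix.det_fin_two]
    simp only [Matrix.of_apply, Matrix.cons_val', Matrix.cons_val_zero, Matrix.cons_val_one,
      Matrix.cons_val_fin_one]
    have h0 : (1 : R) * (F 1 0 * 1 + F 1 1 * 1) - (F 0 0 * 1 + F 0 1 * 1) * 1 =
      (F 1 1 - F 0 0) + (F 1 0 - F 0 1) := by ring
    rw [h0]
    have hbm : F 0 1 ∈ IsLocalRing.maximalIdeal R := (IsLocalRing.mem_maximalIdeal _).2 hb
    have hcm : F 1 0 ∈ IsLocalRing.maximalIdeal R := (IsLocalRing.mem_maximalIdeal _).2 hc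
    by_contra hn
    have h1 : (F 1 1 - F 0 0) + (F 1 0 - F 0 1) ∈ IsLocalRing.maximalIdeal R :=
      (IsLocalRing.mem_maximalIdeal _).2 hn
    have h2 : F 1 1 - F 0 0 ∈ IsLocalRing.maximalIdeal R := by
      have h3 := (IsLocalRing.maximalIdeal R).sub_mem h1
        ((IsLocalRing.maximalIdeal R).sub_mem hcm hbm)
      rwa [add_sub_cancel_right] at h3
    have h4 : F.trace ^ 2 - 4 * F.det ∈ IsLocalRing.maximalIdeal R := by
      have h5 : F.trace ^ 2 - 4 * F.det = (F 1 1 - F 0 0) * (F 1 1 - F 0 0) +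
          (4 * F 1 0) * F 0 1 := by
        rw [Matrix.trace_fin_two, Matrix.det_fin_two]
        ring
      rw [h5]
      exact (IsLocalRing.maximalIdeal R).add_mem ((IsLocalRing.maximalIdeal R).mul_mem_left _ h2)
        ((IsLocalRing.maximalIdeal R).mul_mem_left _ hbm)
    exact (IsLocalRing.mem_maximalIdeal _).1 h4 hF

variable {G : Type*} [Group G]

/-- **Lattices with commutative image.** -/
theorem ab_unique [IsDomain R] [IsLocalRing R] {ρ ρ₀ : G →* GL (Fin 2) R}
    (hab : ∀ g g', ρ g * ρ g' = ρ g' * ρ g) {B : Matrix (Fin 2) (Fin 2) R} (hB : B.det ≠ 0)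
    (hBρ : ∀ g, (ρ₀ g : Matrix (Fin 2) (Fin 2) R) * B = B * ρ g) {s : G}
    (htr : (ρ s : Matrix (Fin 2) (Fin 2) R).trace = (ρ₀ s : Matrix (Fin 2) (Fin 2) R).trace)
    (hdet : (ρ s : Matrix (Fin 2) (Fin 2) R).det = (ρ₀ s : Matrix (Fin 2) (Fin 2) R).det)
    (hu : IsUnit ((ρ s : Matrix (Fin 2) (Fin 2) R).trace ^ 2 -
      4 * (ρ s : Matrix (Fin 2) (Fin 2) R).det)) :
    ∃ A : GL (Fin 2) R, ∀ g, ρ g = A * ρ₀ g * A⁻¹ := by
  classical
  obtain ⟨C, hC, hFC⟩ := exists_cyclic hu
  obtain ⟨C₀, hC₀, hFC₀⟩ := exists_cyclic (F := (ρ₀ s : Matrix (Fin 2) (Fin 2) R)) (by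
    rw [← htr, ← hdet]; exact hu)
  rw [← htr, ← hdet] at hFC₀
  let c : GL (Fin 2) R := Matrix.GeneralLinearGroup.mk'' C hC
  let c₀ : GL (Fin 2) R := Matrix.GeneralLinearGroup.mk'' C₀ hC₀
  set M : Matrix (Fin 2) (Fin 2) R := !![0, -(ρ s : Matrix (Fin 2) (Fin 2) R).det; 1,
    (ρ s : Matrix (Fin 2) (Fin 2) R).trace] with hM
  have hc : (ρ s : Matrix (Fin 2) (Fin 2) R) * c = c * M := hFC
  have hc₀ : (ρ₀ s : Matrix (Fin 2) (Fin 2) R) * c₀ = c₀ * M := hFC₀
  let A : GL (Fin 2) R := c * c₀⁻¹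
  have hA : ((A * ρ₀ s : GL (Fin 2) R) : Matrix (Fin 2) (Fin 2) R) =
      ((ρ s * A : GL (Fin 2) R) : Matrix (Fin 2) (Fin 2) R) := by
    have h1 : M = (c₀⁻¹ : GL (Fin 2) R) * ((ρ₀ s : Matrix (Fin 2) (Fin 2) R) * c₀) := by
      rw [hc₀, ← mul_assoc, ← Units.val_mul, inv_mul_cancel, Units.val_one, one_mul]
    have h2 : ((c * c₀⁻¹ * ρ₀ s : GL (Fin 2) R) : Matrix (Fin 2) (Fin 2) R) * c₀ =
        ((ρ s * (c * c₀⁻¹) : GL (Fin 2) R) : Matrix (Fin 2) (Fin 2) R) * c₀ := by
      rw [Units.val_mul, Units.val_mul, Units.val_mul, Units.val_mul, mul_assoc, mul_assoc, ← h1,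
        mul_assoc, mul_assoc, ← Units.val_mul c₀⁻¹ c₀, inv_mul_cancel, Units.val_one, mul_one, hc]
    have h3 : c * c₀⁻¹ * ρ₀ s * c₀ = ρ s * (c * c₀⁻¹) * c₀ :=
      Units.ext (by rw [Units.val_mul, h2, ← Units.val_mul])
    exact congrArg Units.val (mul_right_cancel h3)
  have hA' : A * ρ₀ s = ρ s * A := Units.ext hA
  set B' : Matrix (Fin 2) (Fin 2) R := (A : Matrix (Fin 2) (Fin 2) R) * B with hB'
  have hB'd : B'.det ≠ 0 := by
    rw [hB', Matrix.det_mul]
    exact mul_ne_zero ((Matrix.isUnit_iff_isUnit_det _).1 A.isUnit).ne_zero hB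
  have hB's : B' * (ρ s : Matrix (Fin 2) (Fin 2) R) = (ρ s : Matrix (Fin 2) (Fin 2) R) * B' := by
    rw [hB', mul_assoc, ← hBρ, ← mul_assoc, ← mul_assoc, ← Units.val_mul, ← Units.val_mul, hA']
  have hcomm : ∀ g, B' * (ρ g : Matrix (Fin 2) (Fin 2) R) = ρ g * B' := by
    intro g
    refine comm_of_comm (F := (ρ s : Matrix (Fin 2) (Fin 2) R)) hu.ne_zero hB's ?_
    rw [← Units.val_mul, ← Units.val_mul, hab]
  refine ⟨A, fun g => ?_⟩
  apply Units.ext
  have h1 : ((A * ρ₀ g * A⁻¹ : GL (Fin 2) R) : Matrix (Fin 2) (Fin 2) R) * B' =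
      (ρ g : Matrix (Fin 2) (Fin 2) R) * B' := by
    rw [← hcomm, hB', Units.val_mul, mul_assoc, ← mul_assoc ((A⁻¹ : GL (Fin 2) R) :
      Matrix (Fin 2) (Fin 2) R), ← Units.val_mul, inv_mul_cancel, Units.val_one, one_mul,
      Units.val_mul, mul_assoc, hBρ, mul_assoc]
  have h2 : (((A * ρ₀ g * A⁻¹ : GL (Fin 2) R) : Matrix (Fin 2) (Fin 2) R) - ρ g) * B' = 0 := by
    rw [sub_mul, h1, sub_self]
  have h3 : (((A * ρ₀ g * A⁻¹ : GL (Fin 2) R) : Matrix (Fin 2) (Fin 2) R) - ρ g) * (B' *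
      B'.adjugate) = 0 := by
    rw [← mul_assoc, h2, zero_mul]
  rw [Matrix.mul_adjugate, Matrix.mul_smul, mul_one] at h3
  have h4 := (smul_eq_zero.1 h3).resolve_left hB'd
  exact (sub_eq_zero.1 h4).symm

end mat

section semis

variable {G : Type} [Group G] {k : Type} [Field k]

theorem cayley_two (M : Matrix (Fin 2) (Fin 2) k) :
    M * M = M.trace • M - M.det • (1 : Matrix (Fin 2) (Fin 2) k) := by
  rw [Matrix.trace_fin_two, Matrix.det_fin_two]
  ext i j
  fin_cases i <;> fin_cases j <;>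
    simp [Matrix.mul_apply, Fin.sum_univ_two] <;> ring

/-- **Semisimplicity with commutative image.** -/
theorem semis_ab {ρ : G →* GL (Fin 2) k} (hab : ∀ g g', ρ g * ρ g' = ρ g' * ρ g) {s : G}
    (hd : (ρ s : Matrix (Fin 2) (Fin 2) k).trace ^ 2 -
      4 * (ρ s : Matrix (Fin 2) (Fin 2) k).det ≠ 0) : Semis ρ := by
  classical
  intro U hU
  set M : Matrix (Fin 2) (Fin 2) k := (ρ s : Matrix (Fin 2) (Fin 2) k) with hM
  have hle := Submodule.finrank_le U
  rw [finrank_fin_fun] at hle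
  rcases (by omega : finrank k U = 0 ∨ finrank k U = 2 ∨ finrank k U = 1) with h | h | h
  · refine ⟨⊤, fun _ _ _ => Submodule.mem_top, ?_⟩
    rw [Submodule.finrank_eq_zero.1 h]
    exact isCompl_bot_top
  · refine ⟨⊥, fun g v hv => ?_, ?_⟩
    · rw [Submodule.mem_bot] at hv ⊢
      rw [hv, Matrix.mulVec_zero]
    · have h5 : U = ⊤ := Submodule.eq_top_of_finrank_eq (by rw [h, finrank_fin_fun])
      rw [h5]
      exact isCompl_top_bot
  · obtain ⟨u, hu0, hu⟩ := finrank_eq_one_iff'.1 h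
    obtain ⟨l, hl⟩ := hu ⟨M.mulVec u, hU s u u.2⟩
    have hl' : M.mulVec (u : Fin 2 → k) = l • (u : Fin 2 → k) := (congrArg Subtype.val hl).symm
    have hu0' : (u : Fin 2 → k) ≠ 0 := fun h0 => hu0 (Subtype.ext h0)
    have hUl : ∀ v ∈ U, M.mulVec v = l • v := by
      intro v hv
      obtain ⟨c, hc⟩ := hu ⟨v, hv⟩
      have hc' : c • (u : Fin 2 → k) = v := congrArg Subtype.val hc
      rw [← hc', Matrix.mulVec_smul, hl', smul_comm]
    have hquad : l * l - M.trace * l + M.det = 0 := by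
      have h1 := congrArg (fun X : Matrix (Fin 2) (Fin 2) k => X.mulVec (u : Fin 2 → k))
        (cayley_two M)
      rw [← Matrix.mulVec_mulVec, hl', Matrix.mulVec_smul, hl', Matrix.sub_mulVec,
        Matrix.smul_mulVec, Matrix.smul_mulVec, Matrix.one_mulVec, hl', smul_smul, smul_smul,
        ← sub_smul, ← sub_eq_zero, ← sub_smul] at h1
      have h2 := (smul_eq_zero.1 h1).resolve_right hu0'
      linear_combination h2
    let μ : k := M.trace - l
    have hμ : l - μ ≠ 0 := by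
      intro h0
      apply hd
      have h1 : M.trace = 2 * l := by
        have : l - (M.trace - l) = 0 := h0
        linear_combination (-1) * this
      have h2 : M.det = l * l := by
        rw [h1] at hquad
        linear_combination hquad
      rw [h1, h2]
      ring
    let U' : Submodule k (Fin 2 → k) := LinearMap.ker (M.mulVecLin - μ • LinearMap.id)
    have hU' : ∀ v, v ∈ U' ↔ M.mulVec v = μ • v := by
      intro v
      rw [LinearMap.mem_ker, LinearMap.sub_apply, sub_eq_zero]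
      rfl
    refine ⟨U', ?_, ?_⟩
    · intro g v hv
      rw [hU'] at hv ⊢
      have h1 : M * (ρ g : Matrix (Fin 2) (Fin 2) k) = (ρ g : Matrix (Fin 2) (Fin 2) k) * M := by
        rw [hM, ← Units.val_mul, ← Units.val_mul, hab]
      rw [Matrix.mulVec_mulVec, h1, ← Matrix.mulVec_mulVec, hv, Matrix.mulVec_smul]
    · have hdis : U ⊓ U' = ⊥ := by
        rw [eq_bot_iff]
        rintro v ⟨hv, hv'⟩
        have h1 := (hU' v).1 hv'
        rw [hUl v hv, ← sub_eq_zero, ← sub_smul] at h1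
        rw [Submodule.mem_bot]
        exact (smul_eq_zero.1 h1).resolve_left hμ
      refine ⟨disjoint_iff.2 hdis, ?_⟩
      rw [codisjoint_iff]
      -- a vector in `U'`
      have hex : ∃ v, M.mulVec v - l • v ≠ 0 := by
        by_contra hcon
        push Not at hcon
        have h1 : M = l • (1 : Matrix (Fin 2) (Fin 2) k) := by
          apply Matrix.ext_of_mulVec_single
          intro i
          rw [Matrix.smul_mulVec, Matrix.one_mulVec]
          exact sub_eq_zero.1 (hcon _)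
        apply hd
        rw [h1, Matrix.trace_smul, Matrix.det_smul, Matrix.trace_one, Matrix.det_one]
        simp
        ring
      obtain ⟨v, hv⟩ := hex
      have hv' : M.mulVec v - l • v ∈ U' := by
        rw [hU', Matrix.mulVec_sub, Matrix.mulVec_smul, Matrix.mulVec_mulVec, cayley_two,
          Matrix.sub_mulVec, Matrix.smul_mulVec, Matrix.smul_mulVec, Matrix.one_mulVec]
        have h1 : M.det = μ * l := by
          show M.det = (M.trace - l) * l
          linear_combination hquad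
        have h2 : M.trace = μ + l := by
          show M.trace = M.trace - l + l
          ring
        rw [h1, h2]
        module
      have h1 : 1 ≤ finrank k U' := by
        rw [Nat.one_le_iff_ne_zero]
        intro h0
        have h2 := Submodule.finrank_eq_zero.1 h0
        rw [h2, Submodule.mem_bot] at hv'
        exact hv hv'
      have h2 := Submodule.finrank_sup_add_finrank_inf_eq U U'
      rw [hdis, finrank_bot, h] at h2
      apply Submodule.eq_top_of_finrank_eq
      have h3 := Submodule.finrank_le (U ⊔ U')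
      rw [finrank_fin_fun] at h3 ⊢
      omega

end semis

end Pool.Agent.D0H1.SF
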