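import Pool.Agent.D0H1.SF.RArt2

/-!
# Finiteness of the systems of rank two, all Hodge numbers
-/

set_option autoImplicit false
set_option linter.unusedSectionVars false

namespace Pool.Agent.D0H1.SF

open Module Matrix Polynomial NumberField Pool.Agent.Y800 Pool.Agent.R390.SF
open Pool.Agent.R390.SF.IntegralSystem
open Pool.Agent.Y126.SH (chi exists_reps)
open Pool.Agent.D0H90.CS (IsConjOf)

variable {F : SubFld ℚ} [hF : FiniteDimensional ℚ F] {S : Finset ℕ} {w r : ℕ} {h : ℕ → ℕ}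
  {Λ : Set ℕ} {T : IntegralSystem F 2}

/-- the sum of the two weights is `w` -/
theorem weights_sum (hT : ReciprocalSystem S w h T)
    (hh : ∑ i ∈ Finset.range (w + 1), h i = 2) : ∑ i ∈ Finset.range (w + 1), i * h i = w := by
  classical
  have hnf : NumberField F := numberField
  have hQalg : Algebra.IsAlgebraic ℚ (AlgebraicClosure ℚ) := AlgebraicClosure.isAlgebraic ℚ
  have h2p : Fact (Nat.Prime 2) := ⟨Nat.prime_two⟩
  have h1 := rational_stable (ℓ := 2) hT (U := ⊤) (fun _ _ _ => Submodule.mem_top)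
  rw [finrank_top, finrank_fin_fun] at h1
  obtain ⟨a, -, ha, hE⟩ := h1
  have hac : ∀ τ, a τ = ∑ i ∈ Finset.range (w + 1), i * h i := by
    intro τ
    obtain ⟨m, h3, h4, h5⟩ := ha τ
    have h6 : ∀ i ∈ Finset.range (w + 1), m i = h i :=
      (Finset.sum_eq_sum_iff_of_le fun i _ => h3 i).1 (h4.trans hh.symm)
    rw [← h5]
    exact Finset.sum_congr rfl fun i hi => by rw [h6 i hi]
  obtain ⟨τ', hτ'⟩ := Pool.Agent.D0H90.CS.exists_isConjOf (K := AlgebraicClosure ℚ)
    (algebraMap F (AlgebraicClosure ℚ))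
  have h7 := eigenvalue_weights (E := insert 2 S) (d := 2) hT.toGoodSystem
    (fun p hp hpE 𝔭 h𝔭 x m hx => by
      rw [Finset.mem_insert, not_or] at hpE
      exact hE p hp hpE.2 hpE.1 𝔭 h𝔭 x m hx) _ τ' hτ'
  rw [hac, hac] at h7
  omega

/-- the Hodge numbers of rank two -/
theorem classify (h0 : ∀ i, w < i → h i = 0) (hh : ∑ i ∈ Finset.range (w + 1), h i = 2)
    (hc : ∑ i ∈ Finset.range (w + 1), i * h i = w) :
    (∃ r, 2 * r < w ∧ h = rankTwo r w) ∨ (∃ r, w = 2 * r ∧ h = twoAt r) := by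
  classical
  obtain ⟨i, hi, hi0⟩ := Finset.exists_ne_zero_of_sum_ne_zero (by rw [hh]; exact two_ne_zero)
  have h1 := Finset.add_sum_erase (Finset.range (w + 1)) h hi
  have h2 := Finset.add_sum_erase (Finset.range (w + 1)) (fun i => i * h i) hi
  rw [hh] at h1
  rw [hc] at h2
  by_cases hi1 : h i = 1
  · have h3 : ∑ x ∈ (Finset.range (w + 1)).erase i, h x = 1 := by omega
    obtain ⟨j, hj, hj0⟩ := Finset.exists_ne_zero_of_sum_ne_zero (by rw [h3]; exact one_ne_zero)
    have h4 := Finset.add_sum_erase ((Finset.range (w + 1)).erase i) h hj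
    have h5 := Finset.add_sum_erase ((Finset.range (w + 1)).erase i) (fun i => i * h i) hj
    rw [h3] at h4
    have hj1 : h j = 1 := by omega
    have h6 : ∑ x ∈ ((Finset.range (w + 1)).erase i).erase j, h x = 0 := by omega
    have h7 : ∀ x ∈ ((Finset.range (w + 1)).erase i).erase j, h x = 0 :=
      fun x hx => Finset.sum_eq_zero_iff.1 h6 x hx
    have h8 : ∑ x ∈ ((Finset.range (w + 1)).erase i).erase j, x * h x = 0 :=
      Finset.sum_eq_zero fun x hx => by rw [h7 x hx, mul_zero]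
    rw [h8, hj1, mul_one, add_zero] at h5
    rw [← h5, hi1, mul_one] at h2
    have hij : i ≠ j := (Finset.ne_of_mem_erase hj).symm
    have hval : ∀ k, h k = if k = i ∨ k = j then 1 else 0 := by
      intro k
      by_cases hk : k = i ∨ k = j
      · rw [if_pos hk]
        rcases hk with rfl | rfl
        · exact hi1
        · exact hj1
      · rw [if_neg hk]
        rw [not_or] at hk
        by_cases hkw : w < k
        · exact h0 k hkw
        · refine h7 k (Finset.mem_erase.2 ⟨hk.2, Finset.mem_erase.2 ⟨hk.1, ?_⟩⟩)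
          exact Finset.mem_range.2 (by omega)
    left
    rcases Nat.lt_or_gt_of_ne hij with hlt | hlt
    · refine ⟨i, by omega, ?_⟩
      funext k
      have : w - i = j := by omega
      rw [hval, rankTwo, this]
    · refine ⟨j, by omega, ?_⟩
      funext k
      have : w - j = i := by omega
      rw [hval, rankTwo, this]
      exact if_congr or_comm rfl rfl
  · have hi2 : h i = 2 := by omega
    have h3 : ∑ x ∈ (Finset.range (w + 1)).erase i, h x = 0 := by omega
    have h7 : ∀ x ∈ (Finset.range (w + 1)).erase i, h x = 0 :=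
      fun x hx => Finset.sum_eq_zero_iff.1 h3 x hx
    have h8 : ∑ x ∈ (Finset.range (w + 1)).erase i, x * h x = 0 :=
      Finset.sum_eq_zero fun x hx => by rw [h7 x hx, mul_zero]
    rw [h8, hi2, add_zero] at h2
    right
    refine ⟨i, by omega, ?_⟩
    funext k
    rw [twoAt]
    by_cases hk : k = i
    · rw [if_pos hk, hk, hi2]
    · rw [if_neg hk]
      by_cases hkw : w < k
      · exact h0 k hkw
      · exact h7 k (Finset.mem_erase.2 ⟨hk, Finset.mem_range.2 (by omega)⟩)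

theorem isCM_iff {ℓ : ℕ} : IsCM S (rankTwo r w) ℓ T ↔ IsCMType S r w ℓ T := by
  have key : ∀ c, rankTwo r w c ≠ 0 ↔ c = r ∨ c = w - r := by
    intro c
    rw [rankTwo]
    by_cases hc : c = r ∨ c = w - r
    · rw [if_pos hc]
      exact ⟨fun _ => hc, fun _ => one_ne_zero⟩
    · rw [if_neg hc]
      exact ⟨fun h => absurd rfl h, fun h => absurd h hc⟩
  constructor
  · rintro ⟨a, h1, h2, h3⟩
    exact ⟨a, h1, fun τ => (key _).1 (h2 τ), h3⟩
  · rintro ⟨a, h1, h2, h3⟩
    exact ⟨a, h1, fun τ => (key _).2 (h2 τ), h3⟩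

theorem system_iff : SystemOfRankTwo S w (rankTwo r w) Λ T ↔ RankTwoSystem S r w Λ T := by
  constructor
  · intro hT
    exact ⟨hT.toReciprocalSystem, fun ℓ _ hℓ hCM => hT.semisimple ℓ hℓ (isCM_iff.2 hCM)⟩
  · intro hT
    exact ⟨hT.toReciprocalSystem, fun ℓ _ hℓ hCM => hT.semisimple ℓ hℓ (isCM_iff.1 hCM)⟩

/-- **Finiteness of the systems of rank two.** -/
theorem all_finiteness (h0 : ∀ i, w < i → h i = 0)
    (hh : ∑ i ∈ Finset.range (w + 1), h i = 2) (S : Finset ℕ) (Λ : Set ℕ) :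
    ∃ (m : ℕ) (T : Fin m → IntegralSystem F 2), (∀ i, SystemOfRankTwo S w h Λ (T i)) ∧
      ∀ T' : IntegralSystem F 2, SystemOfRankTwo S w h Λ T' → ∃ i, IsomorphicOn Λ (T i) T' := by
  have hnf : NumberField F := numberField
  by_cases hex : ∃ T : IntegralSystem F 2, SystemOfRankTwo S w h Λ T
  swap
  · push Not at hex
    exact ⟨0, Fin.elim0, fun i => Fin.elim0 i, fun T' hT' => absurd hT' (hex T')⟩
  obtain ⟨T1, hT1⟩ := hex
  rcases classify h0 hh (weights_sum hT1.toReciprocalSystem hh) with ⟨r, hr, rfl⟩ | ⟨r, rfl, rfl⟩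
  · obtain ⟨m, T, h1, h2⟩ := two_finiteness (F := F) hr S Λ
    exact ⟨m, T, fun i => system_iff.2 (h1 i), fun T' hT' => h2 T' (system_iff.1 hT')⟩
  · exact fin_of_large S (fun T hT => hT.toGoodSystem)
      (fun T hT ℓ _ hℓΛ => semis_all hT hℓΛ) (fun T0 hT0 => large_art hT0)

theorem all_selfConj {ℓ : ℕ} (hℓ : ℓ.Prime) (hFℓ : HasSelfConjugatePlace F ℓ)
    (hw : ∀ i, h i ≠ 0 → 2 * i ≠ w) (hT : T.GoodSystem S w) : ¬ IsCM S h ℓ T := by
  rintro ⟨a, ⟨P₀, hP₀, hℓP₀, hl⟩, ha, hE⟩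
  obtain ⟨τ, τ', hττ, hpl⟩ := exists_pair hℓ hFℓ hP₀ hℓP₀
  have h1 := eigenvalue_weights (E := insert ℓ S) (d := 1) hT (fun p hp hpE 𝔭 h𝔭 x m hx => by
    rw [Finset.mem_insert, not_or] at hpE
    obtain ⟨z, h3, h4⟩ := hE p hp hpE.2 hpE.1 𝔭 h𝔭 x m hx
    exact ⟨{z}, Multiset.singleton_le.2 h3, Multiset.card_singleton z, by
      rw [Multiset.prod_singleton]; exact h4⟩) τ τ' hττ
  have h2 := hl τ τ' hpl
  exact hw (a τ) (ha τ) (by omega)

end Pool.Agent.D0H1.SF
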