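import Pool.Agent.D0H1.SF.RDef

/-!
# Systems of rank two with any Hodge numbers
-/

set_option autoImplicit false

namespace Pool.Agent.D0H1.SF

open Polynomial NumberField Pool.Agent.Y800 Pool.Agent.R390.SF

variable {F : SubFld ℚ}

/-- The system `T` of rank two with the Hodge numbers `h r = h^{r,w-r}` is of CM type, with an infinity
type from `ℓ`: there are numbers `a τ` with `h (a τ) ≠ 0` for the embeddings `τ` of `F`, depending only on
the places above `ℓ`, such that at all places `𝔭` of `F` above primes `p ≠ ℓ` outside `S`, if `𝔭 ^ m` is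
generated by `x`, some root `z` of the Frobenius polynomial has the `2 m`-th power
`(∏ τ, τ x ^ a τ) ^ 2`; in other words, up to roots of unity `z` is the value at `𝔭` of an algebraic
Hecke character with the infinity type `a`. -/
def IsCM (S : Finset ℕ) (h : ℕ → ℕ) (ℓ : ℕ) (T : IntegralSystem F 2) : Prop :=
  ∃ a : (F →+* AlgebraicClosure ℚ) → ℕ, IsLocal ℓ a ∧ (∀ τ, h (a τ) ≠ 0) ∧
    ∀ p : ℕ, p.Prime → p ∉ S → p ≠ ℓ → ∀ 𝔭 : Idl F, Above p 𝔭 →
      ∀ (x : 𝓞 F) (m : ℕ), 𝔭 ^ m = Ideal.span {x} →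
        ∃ z ∈ (T.poly 𝔭).aroots (AlgebraicClosure ℚ),
          z ^ (2 * m) = (typePow a x : AlgebraicClosure ℚ) ^ 2

/-- A system of rank two with the Hodge numbers `h r = h^{r,w-r}` (without polarization) such that
`V_ℓ` is semisimple for the prime numbers `ℓ` in `Λ` for which the system is of CM type, with an
infinity type from `ℓ`. -/
structure SystemOfRankTwo (S : Finset ℕ) (w : ℕ) (h : ℕ → ℕ) (Λ : Set ℕ)
    (T : IntegralSystem F 2) : Prop extends ReciprocalSystem S w h T where
  /-- semisimple -/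
  semisimple : ∀ (ℓ : ℕ) [Fact ℓ.Prime], ℓ ∈ Λ → IsCM S h ℓ T → Semis (T.rat ℓ)

end Pool.Agent.D0H1.SF
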