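import Pool.Agent.D0H1.SF.RTor2
import Pool.Agent.D0H1.SF.RDef3

/-!
# Systems of rank two with equal weights: Frobenius elements
-/

set_option autoImplicit false
set_option linter.unusedSectionVars false

namespace Pool.Agent.D0H1.SF

open Module Matrix Polynomial NumberField Pool.Agent.Y800 Pool.Agent.R390.SF
open Pool.Agent.R390.SF.IntegralSystem
open Pool.Agent.Y126.SH (chi)

/-- the Hodge number `h^{r,r} = 2` -/
def twoAt (r : ℕ) : ℕ → ℕ := fun i => if i = r then 2 else 0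

theorem pow_sub_one_sq {K : Type*} [Field K] {M : Matrix (Fin 2) (Fin 2) K} {b c : K} {e : ℕ}
    (h1 : M.trace = b + c) (h2 : M.det = b * c) (hb : b ^ e = 1) (hc : c ^ e = 1) :
    (M ^ e - 1) ^ 2 = 0 := by
  have h3 : M.charpoly = (X - C b) * (X - C c) := by
    rw [Matrix.charpoly_fin_two, h1, h2, C_add, C_mul]
    ring
  have h4 : (X - C b) ∣ (X ^ e - 1 : K[X]) := by
    rw [dvd_iff_isRoot]
    simp [hb]
  have h5 : (X - C c) ∣ (X ^ e - 1 : K[X]) := by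
    rw [dvd_iff_isRoot]
    simp [hc]
  obtain ⟨q, hq⟩ := mul_dvd_mul h4 h5
  have h6 : aeval M ((X ^ e - 1 : K[X]) * (X ^ e - 1)) = aeval M (M.charpoly * q) := by rw [hq, h3]
  rw [map_mul (aeval M) M.charpoly q, Matrix.aeval_self_charpoly, zero_mul] at h6
  simpa [sq] using h6

variable {F : SubFld ℚ} [hF : FiniteDimensional ℚ F] {S : Finset ℕ} {w r : ℕ} {Λ : Set ℕ}
  {T : IntegralSystem F 2}

/-- the twist -/
noncomputable def tw (T : IntegralSystem F 2) (r ℓ : ℕ) [Fact ℓ.Prime] :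
    F.fixingSubgroup →* GL (Fin 2) ℤ_[ℓ] where
  toFun g := Units.map (algebraMap ℤ_[ℓ] (Matrix (Fin 2) (Fin 2) ℤ_[ℓ])).toMonoidHom
    (chi ℓ (g : GQ) ^ r) * T.rho ℓ g
  map_one' := by
    show Units.map (algebraMap ℤ_[ℓ] (Matrix (Fin 2) (Fin 2) ℤ_[ℓ])).toMonoidHom
      (chi ℓ ((1 : F.fixingSubgroup) : GQ) ^ r) * T.rho ℓ 1 = 1
    have : ((1 : F.fixingSubgroup) : GQ) = 1 := rfl
    rw [this, map_one, one_pow, map_one, map_one, mul_one]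
  map_mul' g g' := by
    have : ((g * g' : F.fixingSubgroup) : GQ) = (g : GQ) * (g' : GQ) := rfl
    rw [this, map_mul (chi ℓ), mul_pow, map_mul, map_mul]
    apply Units.ext
    rw [Units.val_mul, Units.val_mul, Units.val_mul, Units.val_mul, Units.val_mul, Units.val_mul]
    have hc : ∀ (c : ℤ_[ℓ]ˣ) (X : Matrix (Fin 2) (Fin 2) ℤ_[ℓ]),
        ((Units.map (algebraMap ℤ_[ℓ] (Matrix (Fin 2) (Fin 2) ℤ_[ℓ])).toMonoidHom c :
          (Matrix (Fin 2) (Fin 2) ℤ_[ℓ])ˣ) : Matrix (Fin 2) (Fin 2) ℤ_[ℓ]) * X =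
        X * ((Units.map (algebraMap ℤ_[ℓ] (Matrix (Fin 2) (Fin 2) ℤ_[ℓ])).toMonoidHom c :
          (Matrix (Fin 2) (Fin 2) ℤ_[ℓ])ˣ) : Matrix (Fin 2) (Fin 2) ℤ_[ℓ]) :=
      fun c X => Algebra.commutes (c : ℤ_[ℓ]) X
    rw [mul_assoc, mul_assoc, ← mul_assoc _ _ (T.rho ℓ g' : Matrix (Fin 2) (Fin 2) ℤ_[ℓ]),
      hc (chi ℓ (g' : GQ) ^ r) (T.rho ℓ g), mul_assoc]

theorem tw_coe {ℓ : ℕ} [Fact ℓ.Prime] (g : F.fixingSubgroup) :
    (tw T r ℓ g : Matrix (Fin 2) (Fin 2) ℤ_[ℓ]) =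
      ((chi ℓ (g : GQ) : ℤ_[ℓ]) ^ r) • (T.rho ℓ g : Matrix (Fin 2) (Fin 2) ℤ_[ℓ]) := by
  rw [Algebra.smul_def]
  show (algebraMap ℤ_[ℓ] (Matrix (Fin 2) (Fin 2) ℤ_[ℓ])) ((chi ℓ (g : GQ) ^ r : ℤ_[ℓ]ˣ) : ℤ_[ℓ]) *
    (T.rho ℓ g : Matrix (Fin 2) (Fin 2) ℤ_[ℓ]) = _
  rw [Units.val_pow_eq_pow_val]

/-- the exponent of the ideal class group, twice -/
noncomputable def expo2 (F : SubFld ℚ) [NumberField F] : ℕ :=
  2 * Fintype.card (ClassGroup (𝓞 F))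

theorem exists_generator' {K : Type} [Field K] [NumberField K] {𝔭 : Ideal (𝓞 K)} (h : 𝔭 ≠ ⊥) :
    ∃ x : 𝓞 K, 𝔭 ^ Fintype.card (ClassGroup (𝓞 K)) = Ideal.span {x} := by
  have h1 : 𝔭 ∈ nonZeroDivisors (Ideal (𝓞 K)) := mem_nonZeroDivisors_of_ne_zero h
  let I : nonZeroDivisors (Ideal (𝓞 K)) := ⟨𝔭, h1⟩
  have h2 : (ClassGroup.mk0 I) ^ Fintype.card (ClassGroup (𝓞 K)) = 1 := pow_card_eq_one
  have h2' : ClassGroup.mk0 (I ^ Fintype.card (ClassGroup (𝓞 K))) = 1 := by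
    rw [map_pow]; exact h2
  have h3 := (ClassGroup.mk0_eq_one_iff (I ^ Fintype.card (ClassGroup (𝓞 K))).2).1 h2'
  obtain ⟨x, hx⟩ := h3.principal
  exact ⟨x, hx⟩

/-- the eigenvalues at the places of degree one -/
theorem art_roots [NumberField F] {ℓ : ℕ} (hT : T.GoodSystem S (2 * r))
    (hCM : IsCM S (twoAt r) ℓ T) {q : ℕ} (hq : q.Prime) (hqS : q ∉ S) (hqℓ : q ≠ ℓ)
    {P : Ideal ZBar} (hP : P.IsMaximal) (hqP : (q : ZBar) ∈ P) (hcard : resCard F P = q) :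
    ∃ z z' : AlgebraicClosure ℚ,
      z + z' = -((T.poly (P.under (𝓞 F))).coeff 1 : AlgebraicClosure ℚ) ∧
      z * z' = ((T.poly (P.under (𝓞 F))).coeff 0 : AlgebraicClosure ℚ) ∧
      z ^ expo2 F = ((q : AlgebraicClosure ℚ) ^ r) ^ expo2 F ∧
      z' ^ expo2 F = ((q : AlgebraicClosure ℚ) ^ r) ^ expo2 F := by
  classical
  have hQalg : Algebra.IsAlgebraic ℚ (AlgebraicClosure ℚ) := AlgebraicClosure.isAlgebraic ℚ
  have h𝔮 : (P.under (𝓞 F)).IsMaximal := under_max hP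
  have hq𝔮 : (q : 𝓞 F) ∈ P.under (𝓞 F) := by
    rw [mem_under, map_natCast]
    exact hqP
  have h𝔮0 : P.under (𝓞 F) ≠ ⊥ := by
    intro h
    rw [h, Ideal.mem_bot] at hq𝔮
    exact hq.ne_zero (by exact_mod_cast hq𝔮)
  obtain ⟨a, -, ha, hE⟩ := hCM
  have har : ∀ τ, a τ = r := by
    intro τ
    by_contra hne
    exact ha τ (by rw [twoAt, if_neg hne])
  set m := Fintype.card (ClassGroup (𝓞 F)) with hm
  have hm0 : 0 < m := Fintype.card_pos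
  obtain ⟨x, hx⟩ := exists_generator' (K := F) h𝔮0
  obtain ⟨z, hz, hzm⟩ := hE q hq hqS hqℓ _ ⟨h𝔮, hq𝔮⟩ x m hx
  have hgood := hT.good q hq hqS _ h𝔮 hq𝔮
  set Q := T.poly (P.under (𝓞 F)) with hQ
  have hN : Nat.card (𝓞 F ⧸ P.under (𝓞 F)) = q := hcard
  -- the equation for the roots
  have heq : ∀ u : AlgebraicClosure ℚ, aeval u Q =
      u ^ 2 + (Q.coeff 1 : AlgebraicClosure ℚ) * u + (Q.coeff 0 : AlgebraicClosure ℚ) := by
    intro u
    rw [aeval_eq_sum_range, hgood.natDegree, Finset.sum_range_succ, Finset.sum_range_succ,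
      Finset.sum_range_succ, Finset.sum_range_zero]
    have h2 : Q.coeff 2 = 1 := by
      have := hgood.monic.coeff_natDegree
      rwa [hgood.natDegree] at this
    rw [h2]
    simp only [zsmul_eq_mul, pow_zero, pow_one, mul_one, Int.cast_one, one_mul, zero_add]
    ring
  have hz2 : z ^ 2 + (Q.coeff 1 : AlgebraicClosure ℚ) * z + (Q.coeff 0 : AlgebraicClosure ℚ) = 0 := by
    rw [← heq]
    exact (mem_aroots.1 hz).2
  have hzz : z * (-(Q.coeff 1 : AlgebraicClosure ℚ) - z) = (Q.coeff 0 : AlgebraicClosure ℚ) := by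
    linear_combination (-1) * hz2
  have hz'r : (-(Q.coeff 1 : AlgebraicClosure ℚ) - z) ∈ Q.aroots (AlgebraicClosure ℚ) := by
    rw [mem_aroots]
    refine ⟨(mem_aroots.1 hz).1, ?_⟩
    rw [heq]
    linear_combination hz2
  have hc : (Q.coeff 0) ^ 2 = ((q : ℤ) ^ (2 * r)) ^ 2 := by
    obtain ⟨ι⟩ : Nonempty (AlgebraicClosure ℚ →+* ℂ) :=
      ⟨(IsAlgClosed.lift (R := ℚ) (S := AlgebraicClosure ℚ) (M := ℂ)).toRingHom⟩
    have key : ∀ u, u ∈ Q.aroots (AlgebraicClosure ℚ) → ‖ι u‖ ^ 2 = (q : ℝ) ^ (2 * r) := by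
      intro u hu
      have h1 : ι u ∈ Q.aroots ℂ := by
        rw [mem_aroots] at hu ⊢
        refine ⟨hu.1, ?_⟩
        have h3 := congrArg ι hu.2
        rw [map_zero, aeval_def, hom_eval₂] at h3
        rw [aeval_def, ← h3]
        congr 1
        exact Subsingleton.elim _ _
      have h2 := hgood.pure (ι u) h1
      rwa [hN] at h2
    have h1 := congrArg (fun u => ‖ι u‖ ^ 2) hzz
    simp only [map_mul, norm_mul, mul_pow] at h1
    rw [key z hz, key _ hz'r, map_intCast, Complex.norm_intCast, sq_abs] at h1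
    have h2 : (((Q.coeff 0) ^ 2 : ℤ) : ℝ) = ((((q : ℤ) ^ (2 * r)) ^ 2 : ℤ) : ℝ) := by
      push_cast
      rw [← h1]
      ring
    exact_mod_cast h2
  have hnorm : ((Ideal.absNorm (Ideal.span {x}) : ℕ) : AlgebraicClosure ℚ) =
      (q : AlgebraicClosure ℚ) ^ m := by
    rw [← hx, map_pow, Ideal.absNorm_apply, Submodule.cardQuot_apply, hN]
    push_cast
    rfl
  have hexp : expo2 F = 2 * m := rfl
  have hz3 : z ^ expo2 F = ((q : AlgebraicClosure ℚ) ^ r) ^ expo2 F := by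
    rw [hexp, hzm, typePow_coe]
    simp only [har]
    rw [Finset.prod_pow, ← pow_mul, mul_comm r 2, pow_mul, prod_conj_sq, hnorm]
    ring
  have hq0 : ((q : AlgebraicClosure ℚ) ^ r) ^ expo2 F ≠ 0 :=
    pow_ne_zero _ (pow_ne_zero _ (by exact_mod_cast hq.ne_zero))
  refine ⟨z, -(Q.coeff 1 : AlgebraicClosure ℚ) - z, by ring, hzz, hz3, ?_⟩
  apply mul_left_cancel₀ hq0
  have h3 : (Q.coeff 0 : AlgebraicClosure ℚ) ^ 2 = ((q : AlgebraicClosure ℚ) ^ (2 * r)) ^ 2 := by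
    exact_mod_cast congrArg (Int.cast : ℤ → AlgebraicClosure ℚ) hc
  nth_rewrite 1 [← hz3]
  rw [← mul_pow, hzz, hexp, pow_mul, h3]
  ring

variable {ℓ : ℕ} [hℓ : Fact ℓ.Prime]

/-- the twist of a Frobenius element -/
theorem tw_frob [NumberField F] (hT : T.GoodSystem S (2 * r))
    (hCM : IsCM S (twoAt r) ℓ T) {q : ℕ} (hq : q.Prime) (hqS : q ∉ S) (hqℓ : q ≠ ℓ)
    {P : Ideal ZBar} (hP : P.IsMaximal) (hqP : (q : ZBar) ∈ P) {s : F.fixingSubgroup}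
    (hs : IsGeomFrob q P s) :
    ((tw T r ℓ s : Matrix (Fin 2) (Fin 2) ℤ_[ℓ]) ^ expo2 F - 1) ^ 2 = 0 := by
  have hcard : resCard F P = q := resCard_one hq hP hqP s.2 hs
  obtain ⟨z, z', h1, h2, h3, h4⟩ := art_roots hT hCM hq hqS hqℓ hP hqP hcard
  obtain ⟨t1, t2⟩ := trace_det_frob hT (ℓ := ℓ) hq hqS (Ne.symm hqℓ) hP hqP
    (by rw [hcard]; exact hs)
  have hχ := Pool.Agent.Y126.SH.chi_frob (ℓ := ℓ) hq (Ne.symm hqℓ) hP hqP hs
  have hQalg : Algebra.IsAlgebraic ℚ (AlgebraicClosure ℚ) := AlgebraicClosure.isAlgebraic ℚ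
  obtain ⟨Φ⟩ : Nonempty (AlgebraicClosure ℚ →+* AlgebraicClosure ℚ_[ℓ]) :=
    ⟨(IsAlgClosed.lift (R := ℚ) (S := AlgebraicClosure ℚ)
      (M := AlgebraicClosure ℚ_[ℓ])).toRingHom⟩
  let ι : ℤ_[ℓ] →+* AlgebraicClosure ℚ_[ℓ] :=
    (algebraMap ℚ_[ℓ] (AlgebraicClosure ℚ_[ℓ])).comp (algebraMap ℤ_[ℓ] ℚ_[ℓ])
  have hι : Function.Injective ι := (algebraMap ℚ_[ℓ] (AlgebraicClosure ℚ_[ℓ])).injective.comp
    (FaithfulSMul.algebraMap_injective ℤ_[ℓ] ℚ_[ℓ])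
  set Q := T.poly (P.under (𝓞 F)) with hQ
  have hsum : Φ z + Φ z' = -((Q.coeff 1 : ℤ) : AlgebraicClosure ℚ_[ℓ]) := by
    rw [← map_add, h1, map_neg, map_intCast]
  have hprod : Φ z * Φ z' = ((Q.coeff 0 : ℤ) : AlgebraicClosure ℚ_[ℓ]) := by
    rw [← map_mul, h2, map_intCast]
  set c : ℤ_[ℓ] := (chi ℓ (s : GQ) : ℤ_[ℓ]) ^ r with hc
  have hcq : ι c * (q : AlgebraicClosure ℚ_[ℓ]) ^ r = 1 := by
    have h5 : c * (q : ℤ_[ℓ]) ^ r = 1 := by rw [hc, ← mul_pow, hχ, one_pow]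
    have h6 := congrArg ι h5
    rwa [map_mul ι c, map_pow ι (q : ℤ_[ℓ]), map_natCast, map_one] at h6
  have hroot : ∀ y : AlgebraicClosure ℚ, y ^ expo2 F = ((q : AlgebraicClosure ℚ) ^ r) ^ expo2 F →
      (ι c * Φ y) ^ expo2 F = 1 := by
    intro y hy
    rw [mul_pow, ← map_pow Φ, hy, map_pow Φ, map_pow Φ, map_natCast, ← mul_pow, hcq, one_pow]
  have key := pow_sub_one_sq (e := expo2 F)
    (M := ι.mapMatrix (tw T r ℓ s : Matrix (Fin 2) (Fin 2) ℤ_[ℓ]))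
    (b := ι c * Φ z) (c := ι c * Φ z') (by
      have e1 : (ι.mapMatrix (tw T r ℓ s : Matrix (Fin 2) (Fin 2) ℤ_[ℓ])).trace =
          ι (tw T r ℓ s : Matrix (Fin 2) (Fin 2) ℤ_[ℓ]).trace :=
        (AddMonoidHom.map_trace ι.toAddMonoidHom _).symm
      rw [e1, tw_coe, Matrix.trace_smul, t1, smul_eq_mul, map_mul, map_neg, map_intCast, ← hsum]
      ring) (by
      rw [← RingHom.map_det, tw_coe, Matrix.det_smul, t2, Fintype.card_fin, map_mul, map_pow,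
        map_intCast, ← hprod]
      ring) (hroot z h3) (hroot z' h4)
  have h7 : ι.mapMatrix (((tw T r ℓ s : Matrix (Fin 2) (Fin 2) ℤ_[ℓ]) ^ expo2 F - 1) ^ 2) =
      ι.mapMatrix 0 := by
    rw [map_pow, map_sub, map_pow, map_one, map_zero]
    exact key
  exact Matrix.map_injective hι h7

theorem tw_all [NumberField F] (hT : T.GoodSystem S (2 * r))
    (hCM : IsCM S (twoAt r) ℓ T) (g : F.fixingSubgroup) :
    ((tw T r ℓ g : Matrix (Fin 2) (Fin 2) ℤ_[ℓ]) ^ expo2 F - 1) ^ 2 = 0 := by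
  have hcont : Continuous fun g : F.fixingSubgroup =>
      ((tw T r ℓ g : Matrix (Fin 2) (Fin 2) ℤ_[ℓ]) ^ expo2 F - 1) ^ 2 := by
    have h1 : Continuous fun g : F.fixingSubgroup => (chi ℓ (g : GQ) : ℤ_[ℓ]) :=
      Units.continuous_val.comp
        ((Pool.Agent.Y126.SH.continuous_chi ℓ).comp continuous_subtype_val)
    have h2 := hT.continuous ℓ
    have h3 : Continuous fun g : F.fixingSubgroup => (tw T r ℓ g : Matrix (Fin 2) (Fin 2) ℤ_[ℓ]) := by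
      simp only [tw_coe]
      exact (h1.pow r).smul h2
    exact ((h3.pow _).sub continuous_const).pow 2
  refine closed_univ' {g | ((tw T r ℓ g : Matrix (Fin 2) (Fin 2) ℤ_[ℓ]) ^ expo2 F - 1) ^ 2 = 0}
    (isClosed_singleton.preimage hcont) (S ∪ {ℓ}) ?_ g
  intro p hp hpS P' hP' hpP' σ' hσ'
  rw [Finset.mem_union, Finset.mem_singleton, not_or] at hpS
  exact tw_frob hT hCM hp hpS.1 hpS.2 hP' hpP' hσ'

end Pool.Agent.D0H1.SF
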