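import Pool.Agent.D0H1.SF.RNo

/-!
# Finiteness of the systems of rank two over all number fields
-/

set_option autoImplicit false
set_option linter.unusedSectionVars false

namespace Pool.Agent.D0H1.SF

open Module Matrix Polynomial NumberField Pool.Agent.Y800 Pool.Agent.R390.SF
open Pool.Agent.R390.SF.IntegralSystem
open Pool.Agent.Y126.SH (chi exists_reps)

variable {F : SubFld ℚ} [hF : FiniteDimensional ℚ F] {S : Finset ℕ} {w r : ℕ} {Λ : Set ℕ}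
  {T : IntegralSystem F 2}

theorem isCM_of_stable (hr : 2 * r < w) {T : IntegralSystem F 2} {ℓ : ℕ} {d : ℕ}
    (hd0 : 0 < d) (hd : d < 2) (H : HasAlgebraicEigenvalue S w (rankTwo r w) ℓ T d) :
    IsCMType S r w ℓ T := by
  have h3 : d = 1 := by omega
  exact isCM_of_eigenvalue hr (h3 ▸ H)

theorem irr_or_cm (hr : 2 * r < w) (hT : RankTwoSystem S r w Λ T) {ℓ : ℕ} [hℓ : Fact ℓ.Prime]
    (hCM : ¬ IsCMType S r w ℓ T) (U : Submodule ℚ_[ℓ] (Fin 2 → ℚ_[ℓ]))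
    (hU : IsStable (T.rat ℓ) U) : U = ⊥ ∨ U = ⊤ := by
  by_contra hcon
  rw [not_or] at hcon
  have h1 : 0 < finrank ℚ_[ℓ] U := Submodule.one_le_finrank_iff.2 hcon.1
  have h2 : finrank ℚ_[ℓ] U < 2 := by
    have := Submodule.finrank_lt (Ne.lt_top hcon.2).ne
    rwa [finrank_fin_fun] at this
  exact hCM (isCM_of_stable hr h1 h2 (rational_stable hT.toReciprocalSystem hU))

theorem semis_two (hr : 2 * r < w) (hT : RankTwoSystem S r w Λ T) {ℓ : ℕ} [hℓ : Fact ℓ.Prime]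
    (hΛ : ℓ ∈ Λ) : Semis (T.rat ℓ) := by
  by_cases hCM : IsCMType S r w ℓ T
  · exact hT.semisimple ℓ hΛ hCM
  · intro U hU
    rcases irr_or_cm hr hT hCM U hU with rfl | rfl
    · exact ⟨⊤, fun _ _ _ => Submodule.mem_top, isCompl_bot_top⟩
    · refine ⟨⊥, fun g v hv => ?_, isCompl_top_bot⟩
      rw [Submodule.mem_bot] at hv ⊢
      rw [hv, Matrix.mulVec_zero]

/-- the image on `T_ℓ` is commutative if it is on `V_ℓ` -/
theorem comm_of_rat {ℓ : ℕ} [hℓ : Fact ℓ.Prime]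
    (h : ∀ g g' : F.fixingSubgroup, T.rat ℓ g * T.rat ℓ g' = T.rat ℓ g' * T.rat ℓ g)
    (g g' : F.fixingSubgroup) : T.rho ℓ g * T.rho ℓ g' = T.rho ℓ g' * T.rho ℓ g := by
  have h1 : (algebraMap ℤ_[ℓ] ℚ_[ℓ]).mapMatrix
      ((T.rho ℓ g * T.rho ℓ g' : GL (Fin 2) ℤ_[ℓ]) : Matrix (Fin 2) (Fin 2) ℤ_[ℓ]) =
      (algebraMap ℤ_[ℓ] ℚ_[ℓ]).mapMatrix
      ((T.rho ℓ g' * T.rho ℓ g : GL (Fin 2) ℤ_[ℓ]) : Matrix (Fin 2) (Fin 2) ℤ_[ℓ]) := by
    rw [Units.val_mul, Units.val_mul, map_mul, map_mul]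
    have h2 := congrArg Units.val (h g g')
    rw [Units.val_mul, Units.val_mul] at h2
    exact h2
  apply Units.ext
  exact Matrix.map_injective (FaithfulSMul.algebraMap_injective ℤ_[ℓ] ℚ_[ℓ]) h1

/-- the systems with the same Frobenius polynomials are of CM type for the same primes -/
theorem isCM_congr {T0 : IntegralSystem F 2} {ℓ : ℕ} (hCM : IsCMType S r w ℓ T0)
    (h : ∀ p : ℕ, p.Prime → p ∉ S → p ≠ ℓ → ∀ 𝔭 : Idl F, Above p 𝔭 → T.poly 𝔭 = T0.poly 𝔭) :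
    IsCMType S r w ℓ T := by
  obtain ⟨a, hl, ha, hE⟩ := hCM
  refine ⟨a, hl, ha, fun p hp hpS hpℓ 𝔭 h𝔭 x m hx => ?_⟩
  rw [h p hp hpS hpℓ 𝔭 h𝔭]
  exact hE p hp hpS hpℓ 𝔭 h𝔭 x m hx

/-- **For large `ℓ` the lattice `T_ℓ` is determined by `V_ℓ`.** -/
theorem large_two (hr : 2 * r < w) {T0 : IntegralSystem F 2} (hT0 : RankTwoSystem S r w Λ T0) :
    ∃ N : ℕ, ∀ (ℓ : ℕ) [Fact ℓ.Prime], N < ℓ → ℓ ∈ Λ → ∀ T : IntegralSystem F 2,
      RankTwoSystem S r w Λ T →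
      (∀ g, (T.rat ℓ g : Matrix (Fin 2) (Fin 2) ℚ_[ℓ]).trace =
        (T0.rat ℓ g : Matrix (Fin 2) (Fin 2) ℚ_[ℓ]).trace) →
      ∃ A : GL (Fin 2) ℤ_[ℓ], ∀ g, T.rho ℓ g = A * T0.rho ℓ g * A⁻¹ := by
  classical
  obtain ⟨N₁, hN₁⟩ := residual_stable hT0.toReciprocalSystem
  obtain ⟨N₂, hN₂⟩ := no_res_line hr hT0.toGoodSystem
  obtain ⟨q, P, hq, hqS, hP, hqP, hd⟩ := exists_split (F := F) hr S
  refine ⟨max (max N₁ N₂) (max q (dsc (T0.poly (P.under (𝓞 F)))).natAbs), ?_⟩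
  intro ℓ hℓ hlt hΛ T hT htr
  rw [max_lt_iff, max_lt_iff, max_lt_iff] at hlt
  obtain ⟨⟨hlt1, hlt4⟩, hlt2, hlt3⟩ := hlt
  have hqℓ : ℓ ≠ q := by omega
  obtain ⟨A, hA⟩ := bn_ss (semis_two hr hT hΛ) (semis_two hr hT0 hΛ) htr
  by_cases hirr : ∀ U : Submodule ℚ_[ℓ] (Fin 2 → ℚ_[ℓ]), IsStable (T0.rat ℓ) U → U = ⊥ ∨ U = ⊤
  · -- irreducible, also modulo `ℓ`
    obtain ⟨B, hB, hB'⟩ := exists_primitive two_pos (ρ := T0.rho ℓ) (ρ₁ := T.rho ℓ) A hA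
    refine lat_res (fun U hU => ?_) hB hB'
    by_cases hCM : IsCMType S r w ℓ T0
    · exact hN₂ ℓ hlt4 hCM hirr U hU
    · by_contra hcon
      rw [not_or] at hcon
      have h1 : 0 < finrank (ZMod ℓ) U := Submodule.one_le_finrank_iff.2 hcon.1
      have h2 : finrank (ZMod ℓ) U < 2 := by
        have := Submodule.finrank_lt (Ne.lt_top hcon.2).ne
        rwa [finrank_fin_fun] at this
      exact hCM (isCM_of_stable hr h1 h2 (hN₁ ℓ hlt1 U hU))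
  · -- reducible and semisimple, with commutative image
    push Not at hirr
    obtain ⟨U, hU, hU0, hU1⟩ := hirr
    have hCM : IsCMType S r w ℓ T0 := by
      have h1 : 0 < finrank ℚ_[ℓ] U := Submodule.one_le_finrank_iff.2 hU0
      have h2 : finrank ℚ_[ℓ] U < 2 := by
        have := Submodule.finrank_lt (Ne.lt_top hU1).ne
        rwa [finrank_fin_fun] at this
      exact isCM_of_stable hr h1 h2 (rational_stable hT0.toReciprocalSystem hU)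
    have hab0 := comm_of_line (semis_two hr hT0 hΛ) hU hU0 hU1
    have hAG : ∀ g, T.rat ℓ g = A⁻¹ * T0.rat ℓ g * A := by
      intro g
      have h1 : T0.rat ℓ g * A = A * T.rat ℓ g := Units.ext (hA g)
      rw [mul_assoc, h1, inv_mul_cancel_left]
    have hab : ∀ g g' : F.fixingSubgroup, T.rat ℓ g * T.rat ℓ g' = T.rat ℓ g' * T.rat ℓ g := by
      intro g g'
      have h1 := hab0 g g'
      rw [hAG g, hAG g']
      have e1 : A⁻¹ * T0.rat ℓ g * A * (A⁻¹ * T0.rat ℓ g' * A) =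
          A⁻¹ * (T0.rat ℓ g * T0.rat ℓ g') * A := by group
      have e2 : A⁻¹ * T0.rat ℓ g' * A * (A⁻¹ * T0.rat ℓ g * A) =
          A⁻¹ * (T0.rat ℓ g' * T0.rat ℓ g) * A := by group
      rw [e1, e2, h1]
    obtain ⟨B, hB⟩ := exists_inter (semis_two hr hT0 hΛ) (semis_two hr hT hΛ) htr
    have hpoly : ∀ p : ℕ, p.Prime → p ∉ S → p ≠ ℓ → ∀ 𝔭 : Idl F, Above p 𝔭 →
        T.poly 𝔭 = T0.poly 𝔭 := fun p hp hpS hpℓ 𝔭 h𝔭 =>
      poly_eq hT.toGoodSystem hT0.toGoodSystem hB hp hpS (Ne.symm hpℓ) h𝔭.1 h𝔭.2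
    obtain ⟨s, hs⟩ := exists_geomF (F := F) hq hP hqP
    have hqm : (q : 𝓞 F) ∈ P.under (𝓞 F) := by
      rw [mem_under, map_natCast]
      exact hqP
    have hP' := hpoly q hq hqS (Ne.symm hqℓ) _ ⟨under_max hP, hqm⟩
    obtain ⟨h1, h2⟩ := trace_det_frob hT.toGoodSystem hq hqS hqℓ hP hqP hs
    obtain ⟨h3, h4⟩ := trace_det_frob hT0.toGoodSystem hq hqS hqℓ hP hqP hs
    have h5 := hd S T0 ℓ hT0.toGoodSystem hqS (Ne.symm hqℓ) hCM
    refine ab_unique (s := s) (comm_of_rat hab) hB.1 hB.2 ?_ ?_ ?_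
    · rw [h1, h3, hP']
    · rw [h2, h4, hP']
    · rw [disc_frob hT.toGoodSystem hq hqS hqℓ hP hqP hs, hP']
      have h6 := ne_zero_mod h5 hlt3
      rw [PadicInt.isUnit_iff]
      by_contra hn
      have h7 : ‖((dsc (T0.poly (P.under (𝓞 F))) : ℤ) : ℤ_[ℓ])‖ < 1 :=
        lt_of_le_of_ne (PadicInt.norm_le_one _) hn
      have h8 : (PadicInt.toZMod (p := ℓ)) ((dsc (T0.poly (P.under (𝓞 F))) : ℤ) : ℤ_[ℓ]) = 0 := by
        rw [← RingHom.mem_ker, PadicInt.ker_toZMod, IsLocalRing.mem_maximalIdeal,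
          PadicInt.mem_nonunits]
        exact h7
      rw [map_intCast] at h8
      exact h6 h8

/-- **Finiteness of the systems of rank two.** -/
theorem two_finiteness (hr : 2 * r < w) (S : Finset ℕ) (Λ : Set ℕ) :
    ∃ (m : ℕ) (T : Fin m → IntegralSystem F 2), (∀ i, RankTwoSystem S r w Λ (T i)) ∧
      ∀ T' : IntegralSystem F 2, RankTwoSystem S r w Λ T' → ∃ i, IsomorphicOn Λ (T i) T' := by
  classical
  obtain ⟨𝒯, h𝒯, hdet⟩ := traces_of_finite (F := F) two_pos S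
  refine exists_reps (fun T : IntegralSystem F 2 => RankTwoSystem S r w Λ T)
    (fun T T' => IsomorphicOn Λ T T') (fun T => fun p : 𝒯 => (T.poly p).coeff (2 - 1)) ?_ ?_
  · refine (Set.Finite.pi' (t := fun p : 𝒯 => Set.Icc
      (-((Nat.card (𝓞 F ⧸ (p : Ideal (𝓞 F))) ^ w) ^ 2 * Nat.choose 2 (2 / 2) : ℕ) : ℤ)
      (((Nat.card (𝓞 F ⧸ (p : Ideal (𝓞 F))) ^ w) ^ 2 * Nat.choose 2 (2 / 2) : ℕ) : ℤ))
      (fun p => Set.finite_Icc _ _)).subset ?_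
    rintro _ ⟨T, hT, rfl⟩ p
    obtain ⟨h1, r, hr, hrS, h2⟩ := h𝒯 p p.2
    exact abs_le.1 (coeff_bound hT.toGoodSystem hr hrS h1 h2 (2 - 1))
  · intro T0 hT0
    obtain ⟨N, hN⟩ := large_two hr hT0
    choose k c hk hc using local_code2 (Λ := Λ) (T0 := T0)
      (fun ℓ hℓ hℓΛ => semis_two hr hT0 hℓΛ)
    obtain ⟨K, ⟨e⟩⟩ := Finite.exists_equiv_fin (∀ ℓ : Fin (N + 1), Fin (k ℓ))
    refine ⟨K, fun T => (e fun ℓ => ⟨c ℓ T, hk ℓ T⟩ : ℕ), fun T => Fin.is_lt _, ?_⟩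
    intro T T' hT hT' hi hi' hcode ℓ hℓ hℓΛ
    have htr : ∀ T : IntegralSystem F 2, RankTwoSystem S r w Λ T →
        ((fun p : 𝒯 => (T.poly p).coeff (2 - 1)) = fun p : 𝒯 => (T0.poly p).coeff (2 - 1)) →
        ∀ g, (T.rat ℓ g : Matrix (Fin 2) (Fin 2) ℚ_[ℓ]).trace =
          (T0.rat ℓ g : Matrix (Fin 2) (Fin 2) ℚ_[ℓ]).trace := by
      intro T hT hi
      exact hdet w w T T0 hT.toGoodSystem hT0.toGoodSystem
        (fun p hp => congrFun hi ⟨p, hp⟩) ℓ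
    by_cases hℓN : ℓ ≤ N
    · have h3 := e.injective (Fin.ext hcode)
      have h4 := congrFun h3 ⟨ℓ, Nat.lt_succ_of_le hℓN⟩
      exact hc ℓ T T' hℓΛ
        (exists_inter (semis_two hr hT0 hℓΛ) (semis_two hr hT hℓΛ) (htr T hT hi))
        (exists_inter (semis_two hr hT0 hℓΛ) (semis_two hr hT' hℓΛ) (htr T' hT' hi'))
        (congrArg Fin.val h4)
    · obtain ⟨A, hA⟩ := hN ℓ (not_le.1 hℓN) hℓΛ T hT (htr T hT hi)
      obtain ⟨A', hA'⟩ := hN ℓ (not_le.1 hℓN) hℓΛ T' hT' (htr T' hT' hi')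
      refine ⟨A' * A⁻¹, fun g => ?_⟩
      rw [hA, hA']
      group

end Pool.Agent.D0H1.SF
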