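import Pool.Agent.D0H1.SF.RArt
import Pool.Agent.D0H1.SF.RTwo

/-!
# Finiteness of the systems of rank two with any Hodge numbers
-/

set_option autoImplicit false
set_option linter.unusedSectionVars false

namespace Pool.Agent.D0H1.SF

open Module Matrix Polynomial NumberField Pool.Agent.Y800 Pool.Agent.R390.SF
open Pool.Agent.R390.SF.IntegralSystem
open Pool.Agent.Y126.SH (chi exists_reps)
open Pool.Agent.D0H90.CS (IsConjOf)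

variable {F : SubFld ℚ} [hF : FiniteDimensional ℚ F] {S : Finset ℕ} {w r : ℕ} {h : ℕ → ℕ}
  {Λ : Set ℕ} {T : IntegralSystem F 2}

/-- **Irreducible representations with equal weights are irreducible modulo `ℓ` for large `ℓ`.** -/
theorem no_res_art [NumberField F] (hT : T.GoodSystem S (2 * r)) {ℓ : ℕ} [hℓ : Fact ℓ.Prime]
    (hlt : expo2 F < ℓ) (hCM : IsCM S (twoAt r) ℓ T)
    (hirr : ∀ U : Submodule ℚ_[ℓ] (Fin 2 → ℚ_[ℓ]), IsStable (T.rat ℓ) U → U = ⊥ ∨ U = ⊤)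
    (U : Submodule (ZMod ℓ) (Fin 2 → ZMod ℓ)) (hU : IsStable (T.res ℓ) U) : U = ⊥ ∨ U = ⊤ := by
  by_contra hcon
  rw [not_or] at hcon
  obtain ⟨u, hu, hu0, hul⟩ := line_scalar hU hcon.1 hcon.2
  have he0 : 0 < expo2 F := Nat.mul_pos two_pos Fintype.card_pos
  refine tor_core (ρ := tw T r ℓ) (e := expo2 F)
    (fun hdvd => absurd (Nat.le_of_dvd he0 hdvd) (not_le.2 hlt)) (tw_all hT hCM)
    (fun W hW => hirr W ?_) hu0 (fun g => ?_)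
  · intro g x hx
    have h1 := hW g x hx
    set c : ℚ_[ℓ] := algebraMap ℤ_[ℓ] ℚ_[ℓ] ((chi ℓ (g : GQ) : ℤ_[ℓ]) ^ r) with hc
    have hc0 : c ≠ 0 := by
      rw [hc, Ne, FaithfulSMul.algebraMap_eq_zero_iff]
      exact pow_ne_zero _ (chi ℓ (g : GQ)).ne_zero
    have h2 : (((Matrix.GeneralLinearGroup.map (n := Fin 2) (algebraMap ℤ_[ℓ] ℚ_[ℓ])).comp
        (tw T r ℓ)) g : Matrix (Fin 2) (Fin 2) ℚ_[ℓ]) =
        c • (T.rat ℓ g : Matrix (Fin 2) (Fin 2) ℚ_[ℓ]) := by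
      show (algebraMap ℤ_[ℓ] ℚ_[ℓ]).mapMatrix (tw T r ℓ g : Matrix (Fin 2) (Fin 2) ℤ_[ℓ]) = _
      rw [tw_coe]
      ext i j
      rw [RingHom.mapMatrix_apply, Matrix.map_apply, Matrix.smul_apply, Matrix.smul_apply,
        smul_eq_mul, smul_eq_mul, map_mul]
      rfl
    rw [h2, Matrix.smul_mulVec] at h1
    have h3 := W.smul_mem c⁻¹ h1
    rwa [smul_smul, inv_mul_cancel₀ hc0, one_smul] at h3
  · obtain ⟨a, ha⟩ := hul g
    have ha' := ha u hu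
    refine ⟨PadicInt.toZMod ((chi ℓ (g : GQ) : ℤ_[ℓ]) ^ r) * a, ?_⟩
    have h2 : (tw T r ℓ g : Matrix (Fin 2) (Fin 2) ℤ_[ℓ]).map (PadicInt.toZMod (p := ℓ)) =
        (PadicInt.toZMod ((chi ℓ (g : GQ) : ℤ_[ℓ]) ^ r)) •
          (T.res ℓ g : Matrix (Fin 2) (Fin 2) (ZMod ℓ)) := by
      rw [tw_coe]
      ext i j
      rw [Matrix.map_apply, Matrix.smul_apply, Matrix.smul_apply, smul_eq_mul, smul_eq_mul, map_mul]
      rfl
    rw [h2, Matrix.smul_mulVec, ha', smul_smul]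

theorem weight_of_one {c : ℕ} (H : IsWeightSum w h 1 c) : h c ≠ 0 := by
  classical
  obtain ⟨m, h1, h2, rfl⟩ := H
  obtain ⟨i, hi, hmi⟩ := Finset.exists_ne_zero_of_sum_ne_zero (by rw [h2]; exact one_ne_zero)
  have h3 := Finset.add_sum_erase (Finset.range (w + 1)) m hi
  rw [h2] at h3
  have h4 : m i = 1 := by omega
  have h5 : ∑ x ∈ (Finset.range (w + 1)).erase i, m x = 0 := by omega
  have h6 : ∀ x ∈ (Finset.range (w + 1)).erase i, x * m x = 0 := fun x hx => by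
    rw [Finset.sum_eq_zero_iff.1 h5 x hx, mul_zero]
  rw [← Finset.add_sum_erase _ _ hi, Finset.sum_eq_zero h6, h4, mul_one, add_zero]
  have := h1 i
  omega

theorem isCM_of_one {ℓ : ℕ} (H : HasAlgebraicEigenvalue S w h ℓ T 1) : IsCM S h ℓ T := by
  obtain ⟨a, hl, ha, hE⟩ := H
  refine ⟨a, hl, fun τ => weight_of_one (ha τ), ?_⟩
  intro p hp hpS hpℓ 𝔭 h𝔭 x m hx
  obtain ⟨s, h1, h2, h3⟩ := hE p hp hpS hpℓ 𝔭 h𝔭 x m hx
  obtain ⟨z, rfl⟩ := Multiset.card_eq_one.1 h2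
  rw [Multiset.prod_singleton] at h3
  exact ⟨z, Multiset.singleton_le.1 h1, h3⟩

theorem one_of_ne {k : Type} [Field k] {U : Submodule k (Fin 2 → k)} (h0 : U ≠ ⊥) (h1 : U ≠ ⊤) :
    finrank k U = 1 := by
  have h2 : 0 < finrank k U := Submodule.one_le_finrank_iff.2 h0
  have h3 : finrank k U < 2 := by
    have := Submodule.finrank_lt (Ne.lt_top h1).ne
    rwa [finrank_fin_fun] at this
  omega

theorem semis_all (hT : SystemOfRankTwo S w h Λ T) {ℓ : ℕ} [hℓ : Fact ℓ.Prime]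
    (hΛ : ℓ ∈ Λ) : Semis (T.rat ℓ) := by
  by_cases hCM : IsCM S h ℓ T
  · exact hT.semisimple ℓ hΛ hCM
  · intro U hU
    have h1 : U = ⊥ ∨ U = ⊤ := by
      by_contra hcon
      rw [not_or] at hcon
      apply hCM
      apply isCM_of_one (w := w)
      rw [← one_of_ne hcon.1 hcon.2]
      exact rational_stable hT.toReciprocalSystem hU
    rcases h1 with rfl | rfl
    · exact ⟨⊤, fun _ _ _ => Submodule.mem_top, isCompl_bot_top⟩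
    · refine ⟨⊥, fun g v hv => ?_, isCompl_top_bot⟩
      rw [Submodule.mem_bot] at hv ⊢
      rw [hv, Matrix.mulVec_zero]

/-- the lattice is unique if the representation is reducible and semisimple and some Frobenius element has
different eigenvalues -/
theorem ab_case {T0 : IntegralSystem F 2} (hT : T.GoodSystem S w) (hT0 : T0.GoodSystem S w)
    {ℓ : ℕ} [hℓ : Fact ℓ.Prime] (hss : Semis (T.rat ℓ)) (hss0 : Semis (T0.rat ℓ))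
    (htr : ∀ g, (T.rat ℓ g : Matrix (Fin 2) (Fin 2) ℚ_[ℓ]).trace =
        (T0.rat ℓ g : Matrix (Fin 2) (Fin 2) ℚ_[ℓ]).trace)
    {U : Submodule ℚ_[ℓ] (Fin 2 → ℚ_[ℓ])} (hU : IsStable (T0.rat ℓ) U) (hU0 : U ≠ ⊥) (hU1 : U ≠ ⊤)
    {q : ℕ} (hq : q.Prime) (hqS : q ∉ S) (hqℓ : ℓ ≠ q) {P : Ideal ZBar} (hP : P.IsMaximal)
    (hqP : (q : ZBar) ∈ P) (hd : dsc (T0.poly (P.under (𝓞 F))) ≠ 0)
    (hlt : (dsc (T0.poly (P.under (𝓞 F)))).natAbs < ℓ) :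
    ∃ A : GL (Fin 2) ℤ_[ℓ], ∀ g, T.rho ℓ g = A * T0.rho ℓ g * A⁻¹ := by
  obtain ⟨A, hA⟩ := bn_ss hss hss0 htr
  have hab0 := comm_of_line hss0 hU hU0 hU1
  have hAG : ∀ g, T.rat ℓ g = A⁻¹ * T0.rat ℓ g * A := by
    intro g
    have h1 : T0.rat ℓ g * A = A * T.rat ℓ g := Units.ext (hA g)
    rw [mul_assoc, h1, inv_mul_cancel_left]
  have hab : ∀ g g' : F.fixingSubgroup, T.rat ℓ g * T.rat ℓ g' = T.rat ℓ g' * T.rat ℓ g := by
    intro g g'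
    have h1 := hab0 g g'
    rw [hAG g, hAG g']
    have e1 : A⁻¹ * T0.rat ℓ g * A * (A⁻¹ * T0.rat ℓ g' * A) =
        A⁻¹ * (T0.rat ℓ g * T0.rat ℓ g') * A := by group
    have e2 : A⁻¹ * T0.rat ℓ g' * A * (A⁻¹ * T0.rat ℓ g * A) =
        A⁻¹ * (T0.rat ℓ g' * T0.rat ℓ g) * A := by group
    rw [e1, e2, h1]
  obtain ⟨B, hB⟩ := exists_inter hss0 hss htr
  have hpoly : ∀ p : ℕ, p.Prime → p ∉ S → p ≠ ℓ → ∀ 𝔭 : Idl F, Above p 𝔭 →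
      T.poly 𝔭 = T0.poly 𝔭 := fun p hp hpS hpℓ 𝔭 h𝔭 =>
    poly_eq hT hT0 hB hp hpS (Ne.symm hpℓ) h𝔭.1 h𝔭.2
  obtain ⟨s, hs⟩ := exists_geomF (F := F) hq hP hqP
  have hqm : (q : 𝓞 F) ∈ P.under (𝓞 F) := by
    rw [mem_under, map_natCast]
    exact hqP
  have hP' := hpoly q hq hqS (Ne.symm hqℓ) _ ⟨under_max hP, hqm⟩
  obtain ⟨h1, h2⟩ := trace_det_frob hT hq hqS hqℓ hP hqP hs
  obtain ⟨h3, h4⟩ := trace_det_frob hT0 hq hqS hqℓ hP hqP hs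
  refine ab_unique (s := s) (comm_of_rat hab) hB.1 hB.2 ?_ ?_ ?_
  · rw [h1, h3, hP']
  · rw [h2, h4, hP']
  · rw [disc_frob hT hq hqS hqℓ hP hqP hs, hP']
    refine isUnit_of_toZMod ?_
    rw [map_intCast]
    exact ne_zero_mod hd hlt

/-- the lattice is unique if all elements of the image are scalar -/
theorem scalar_case {T0 : IntegralSystem F 2} {ℓ : ℕ} [hℓ : Fact ℓ.Prime]
    (hss : Semis (T.rat ℓ)) (hss0 : Semis (T0.rat ℓ))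
    (htr : ∀ g, (T.rat ℓ g : Matrix (Fin 2) (Fin 2) ℚ_[ℓ]).trace =
        (T0.rat ℓ g : Matrix (Fin 2) (Fin 2) ℚ_[ℓ]).trace)
    {U : Submodule ℚ_[ℓ] (Fin 2 → ℚ_[ℓ])} (hU : IsStable (T0.rat ℓ) U) (hU0 : U ≠ ⊥) (hU1 : U ≠ ⊤)
    (hz : ∀ g, dm (T0.rho ℓ g : Matrix (Fin 2) (Fin 2) ℤ_[ℓ]) = 0) (g : F.fixingSubgroup) :
    T.rho ℓ g = T0.rho ℓ g := by
  obtain ⟨A, hA⟩ := bn_ss hss hss0 htr
  obtain ⟨W, hW, hUW⟩ := hss0 U hU
  have hW0 : W ≠ ⊥ := by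
    rintro rfl
    exact hU1 (by simpa using hUW.sup_eq_top)
  have hW1 : W ≠ ⊤ := by
    rintro rfl
    exact hU0 (by simpa using hUW.inf_eq_bot)
  set M : Matrix (Fin 2) (Fin 2) ℚ_[ℓ] := (T0.rat ℓ g : Matrix (Fin 2) (Fin 2) ℚ_[ℓ]) with hM
  have hd : M.trace ^ 2 - 4 * M.det = 0 := by
    rw [hM, disc_rat]
    have := hz g
    unfold dm at this
    rw [this, map_zero]
  have key : ∀ {X : Submodule ℚ_[ℓ] (Fin 2 → ℚ_[ℓ])}, IsStable (T0.rat ℓ) X → X ≠ ⊥ → X ≠ ⊤ →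
      ∀ v ∈ X, (2 : ℚ_[ℓ]) • M.mulVec v = M.trace • v := by
    intro X hX hX0 hX1 v hv
    obtain ⟨u, hu, hu0, hl⟩ := line_scalar hX hX0 hX1
    obtain ⟨t, ht⟩ := hl g
    have ht' : ∀ v ∈ X, M.mulVec v = t • v := ht
    have h1 := congrArg (fun Y : Matrix (Fin 2) (Fin 2) ℚ_[ℓ] => Y.mulVec u) (cayley_two M)
    rw [← Matrix.mulVec_mulVec, ht' u hu, Matrix.mulVec_smul, ht' u hu, Matrix.sub_mulVec,
      Matrix.smul_mulVec, Matrix.smul_mulVec, Matrix.one_mulVec, ht' u hu, smul_smul, smul_smul,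
      ← sub_smul, ← sub_eq_zero, ← sub_smul] at h1
    have h2 := (smul_eq_zero.1 h1).resolve_right hu0
    have h3 : (2 * t - M.trace) ^ 2 = 0 := by linear_combination 4 * h2 + hd
    have h4 : 2 * t - M.trace = 0 := pow_eq_zero_iff two_ne_zero |>.1 h3
    rw [ht' v hv, smul_smul, sub_eq_zero.1 h4]
  have hsc : (2 : ℚ_[ℓ]) • M = M.trace • (1 : Matrix (Fin 2) (Fin 2) ℚ_[ℓ]) := by
    apply Matrix.ext_of_mulVec_single
    intro i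
    have h2 : (Pi.single i 1 : Fin 2 → ℚ_[ℓ]) ∈ U ⊔ W := by
      rw [hUW.sup_eq_top]
      exact Submodule.mem_top
    obtain ⟨a, ha, b, hb, hab⟩ := Submodule.mem_sup.1 h2
    rw [← hab, Matrix.smul_mulVec, Matrix.smul_mulVec, Matrix.one_mulVec, Matrix.mulVec_add,
      smul_add, key hU hU0 hU1 a ha, key hW hW0 hW1 b hb, smul_add]
  have h5 : (T.rat ℓ g : Matrix (Fin 2) (Fin 2) ℚ_[ℓ]) = M := by
    have h6 : M * (A : Matrix (Fin 2) (Fin 2) ℚ_[ℓ]) = A * T.rat ℓ g := hA g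
    have h7 : M * (A : Matrix (Fin 2) (Fin 2) ℚ_[ℓ]) = A * M := by
      have h8 : (2 : ℚ_[ℓ]) • (M * (A : Matrix (Fin 2) (Fin 2) ℚ_[ℓ])) =
          (2 : ℚ_[ℓ]) • ((A : Matrix (Fin 2) (Fin 2) ℚ_[ℓ]) * M) := by
        rw [← Matrix.smul_mul, ← Matrix.mul_smul, hsc, Matrix.smul_mul, Matrix.mul_smul, one_mul,
          mul_one]
      exact smul_right_injective _ (two_ne_zero (α := ℚ_[ℓ])) h8
    have h9 : (A : Matrix (Fin 2) (Fin 2) ℚ_[ℓ]) * T.rat ℓ g = A * M := h6.symm.trans h7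
    exact (Units.mul_right_inj A).1 h9
  apply Units.ext
  exact Matrix.map_injective (FaithfulSMul.algebraMap_injective ℤ_[ℓ] ℚ_[ℓ]) h5

/-- **For large `ℓ` the lattice `T_ℓ` is determined by `V_ℓ`, for equal weights.** -/
theorem large_art [NumberField F] {T0 : IntegralSystem F 2}
    (hT0 : SystemOfRankTwo S (2 * r) (twoAt r) Λ T0) :
    ∃ N : ℕ, ∀ (ℓ : ℕ) [Fact ℓ.Prime], N < ℓ → ℓ ∈ Λ → ∀ T : IntegralSystem F 2,
      SystemOfRankTwo S (2 * r) (twoAt r) Λ T →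
      (∀ g, (T.rat ℓ g : Matrix (Fin 2) (Fin 2) ℚ_[ℓ]).trace =
        (T0.rat ℓ g : Matrix (Fin 2) (Fin 2) ℚ_[ℓ]).trace) →
      ∃ A : GL (Fin 2) ℤ_[ℓ], ∀ g, T.rho ℓ g = A * T0.rho ℓ g * A⁻¹ := by
  classical
  obtain ⟨N₁, hN₁⟩ := residual_stable hT0.toReciprocalSystem
  have hI : ∀ (ℓ : ℕ) [Fact ℓ.Prime], N₁ < ℓ → expo2 F < ℓ → ℓ ∈ Λ → ∀ T : IntegralSystem F 2,
      SystemOfRankTwo S (2 * r) (twoAt r) Λ T →
      (∀ g, (T.rat ℓ g : Matrix (Fin 2) (Fin 2) ℚ_[ℓ]).trace =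
        (T0.rat ℓ g : Matrix (Fin 2) (Fin 2) ℚ_[ℓ]).trace) →
      (∀ U : Submodule ℚ_[ℓ] (Fin 2 → ℚ_[ℓ]), IsStable (T0.rat ℓ) U → U = ⊥ ∨ U = ⊤) →
      ∃ A : GL (Fin 2) ℤ_[ℓ], ∀ g, T.rho ℓ g = A * T0.rho ℓ g * A⁻¹ := by
    intro ℓ hℓ hlt1 hlt2 hΛ T hT htr hirr
    obtain ⟨A, hA⟩ := bn_ss (semis_all hT hΛ) (semis_all hT0 hΛ) htr
    obtain ⟨B, hB, hB'⟩ := exists_primitive two_pos (ρ := T0.rho ℓ) (ρ₁ := T.rho ℓ) A hA
    refine lat_res (fun U hU => ?_) hB hB'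
    by_cases hCM : IsCM S (twoAt r) ℓ T0
    · exact no_res_art hT0.toGoodSystem hlt2 hCM hirr U hU
    · by_contra hcon
      rw [not_or] at hcon
      apply hCM
      apply isCM_of_one (w := 2 * r)
      rw [← one_of_ne hcon.1 hcon.2]
      exact hN₁ ℓ hlt1 U hU
  by_cases hd : ∃ (q : ℕ) (P : Ideal ZBar), q.Prime ∧ q ∉ S ∧ P.IsMaximal ∧ (q : ZBar) ∈ P ∧
      dsc (T0.poly (P.under (𝓞 F))) ≠ 0
  · obtain ⟨q, P, hq, hqS, hP, hqP, hd⟩ := hd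
    refine ⟨max (max N₁ (expo2 F)) (max q (dsc (T0.poly (P.under (𝓞 F)))).natAbs), ?_⟩
    intro ℓ hℓ hlt hΛ T hT htr
    rw [max_lt_iff, max_lt_iff, max_lt_iff] at hlt
    obtain ⟨⟨hlt1, hlt4⟩, hlt2, hlt3⟩ := hlt
    by_cases hirr : ∀ U : Submodule ℚ_[ℓ] (Fin 2 → ℚ_[ℓ]), IsStable (T0.rat ℓ) U → U = ⊥ ∨ U = ⊤
    · exact hI ℓ hlt1 hlt4 hΛ T hT htr hirr
    · push Not at hirr
      obtain ⟨U, hU, hU0, hU1⟩ := hirr
      exact ab_case hT.toGoodSystem hT0.toGoodSystem (semis_all hT hΛ) (semis_all hT0 hΛ) htr hU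
        hU0 hU1 hq hqS (by omega) hP hqP hd hlt3
  · push Not at hd
    refine ⟨max N₁ (expo2 F), ?_⟩
    intro ℓ hℓ hlt hΛ T hT htr
    rw [max_lt_iff] at hlt
    by_cases hirr : ∀ U : Submodule ℚ_[ℓ] (Fin 2 → ℚ_[ℓ]), IsStable (T0.rat ℓ) U → U = ⊥ ∨ U = ⊤
    · exact hI ℓ hlt.1 hlt.2 hΛ T hT htr hirr
    · push Not at hirr
      obtain ⟨U, hU, hU0, hU1⟩ := hirr
      have hz : ∀ g, dm (T0.rho ℓ g : Matrix (Fin 2) (Fin 2) ℤ_[ℓ]) = 0 := by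
        intro g
        have hcont : Continuous fun g => dm (T0.rho ℓ g : Matrix (Fin 2) (Fin 2) ℤ_[ℓ]) := by
          have h3 := hT0.continuous ℓ
          unfold dm
          exact (h3.matrix_trace.pow 2).sub (continuous_const.mul h3.matrix_det)
        refine closed_univ' {g | dm (T0.rho ℓ g : Matrix (Fin 2) (Fin 2) ℤ_[ℓ]) = 0}
          (isClosed_singleton.preimage hcont) (S ∪ {ℓ}) ?_ g
        intro p hp hpS P' hP' hpP' σ' hσ'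
        rw [Finset.mem_union, Finset.mem_singleton, not_or] at hpS
        have hcard' : resCard F P' = p := resCard_one hp hP' hpP' σ'.2 hσ'
        show dm _ = 0
        rw [dm, disc_frob hT0.toGoodSystem hp hpS.1 (Ne.symm hpS.2) hP' hpP'
          (by rw [hcard']; exact hσ'), hd p P' hp hpS.1 hP' hpP', Int.cast_zero]
      refine ⟨1, fun g => ?_⟩
      rw [one_mul, inv_one, mul_one]
      exact scalar_case (semis_all hT hΛ) (semis_all hT0 hΛ) htr hU hU0 hU1 hz g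

/-- finiteness from the uniqueness for large `ℓ` -/
theorem fin_of_large {PP : IntegralSystem F 2 → Prop} (S : Finset ℕ) {w : ℕ} {Λ : Set ℕ}
    (hgood : ∀ T, PP T → T.GoodSystem S w)
    (hss : ∀ T, PP T → ∀ (ℓ : ℕ) [Fact ℓ.Prime], ℓ ∈ Λ → Semis (T.rat ℓ))
    (hlarge : ∀ T0, PP T0 → ∃ N : ℕ, ∀ (ℓ : ℕ) [Fact ℓ.Prime], N < ℓ → ℓ ∈ Λ →
      ∀ T : IntegralSystem F 2, PP T →
      (∀ g, (T.rat ℓ g : Matrix (Fin 2) (Fin 2) ℚ_[ℓ]).trace =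
        (T0.rat ℓ g : Matrix (Fin 2) (Fin 2) ℚ_[ℓ]).trace) →
      ∃ A : GL (Fin 2) ℤ_[ℓ], ∀ g, T.rho ℓ g = A * T0.rho ℓ g * A⁻¹) :
    ∃ (m : ℕ) (T : Fin m → IntegralSystem F 2), (∀ i, PP (T i)) ∧
      ∀ T' : IntegralSystem F 2, PP T' → ∃ i, IsomorphicOn Λ (T i) T' := by
  classical
  obtain ⟨𝒯, h𝒯, hdet⟩ := traces_of_finite (F := F) two_pos S
  refine exists_reps (fun T : IntegralSystem F 2 => PP T)
    (fun T T' => IsomorphicOn Λ T T') (fun T => fun p : 𝒯 => (T.poly p).coeff (2 - 1)) ?_ ?_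
  · refine (Set.Finite.pi' (t := fun p : 𝒯 => Set.Icc
      (-((Nat.card (𝓞 F ⧸ (p : Ideal (𝓞 F))) ^ w) ^ 2 * Nat.choose 2 (2 / 2) : ℕ) : ℤ)
      (((Nat.card (𝓞 F ⧸ (p : Ideal (𝓞 F))) ^ w) ^ 2 * Nat.choose 2 (2 / 2) : ℕ) : ℤ))
      (fun p => Set.finite_Icc _ _)).subset ?_
    rintro _ ⟨T, hT, rfl⟩ p
    obtain ⟨h1, r, hr, hrS, h2⟩ := h𝒯 p p.2
    exact abs_le.1 (coeff_bound (hgood T hT) hr hrS h1 h2 (2 - 1))
  · intro T0 hT0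
    obtain ⟨N, hN⟩ := hlarge T0 hT0
    choose k c hk hc using local_code2 (Λ := Λ) (T0 := T0)
      (fun ℓ hℓ hℓΛ => hss T0 hT0 ℓ hℓΛ)
    obtain ⟨K, ⟨e⟩⟩ := Finite.exists_equiv_fin (∀ ℓ : Fin (N + 1), Fin (k ℓ))
    refine ⟨K, fun T => (e fun ℓ => ⟨c ℓ T, hk ℓ T⟩ : ℕ), fun T => Fin.is_lt _, ?_⟩
    intro T T' hT hT' hi hi' hcode ℓ hℓ hℓΛ
    have htr : ∀ T : IntegralSystem F 2, PP T →
        ((fun p : 𝒯 => (T.poly p).coeff (2 - 1)) = fun p : 𝒯 => (T0.poly p).coeff (2 - 1)) →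
        ∀ g, (T.rat ℓ g : Matrix (Fin 2) (Fin 2) ℚ_[ℓ]).trace =
          (T0.rat ℓ g : Matrix (Fin 2) (Fin 2) ℚ_[ℓ]).trace := by
      intro T hT hi
      exact hdet w w T T0 (hgood T hT) (hgood T0 hT0)
        (fun p hp => congrFun hi ⟨p, hp⟩) ℓ
    by_cases hℓN : ℓ ≤ N
    · have h3 := e.injective (Fin.ext hcode)
      have h4 := congrFun h3 ⟨ℓ, Nat.lt_succ_of_le hℓN⟩
      exact hc ℓ T T' hℓΛ
        (exists_inter (hss T0 hT0 ℓ hℓΛ) (hss T hT ℓ hℓΛ) (htr T hT hi))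
        (exists_inter (hss T0 hT0 ℓ hℓΛ) (hss T' hT' ℓ hℓΛ) (htr T' hT' hi'))
        (congrArg Fin.val h4)
    · obtain ⟨A, hA⟩ := hN ℓ (not_le.1 hℓN) hℓΛ T hT (htr T hT hi)
      obtain ⟨A', hA'⟩ := hN ℓ (not_le.1 hℓN) hℓΛ T' hT' (htr T' hT' hi')
      refine ⟨A' * A⁻¹, fun g => ?_⟩
      rw [hA, hA']
      group

end Pool.Agent.D0H1.SF
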