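import Pool.Agent.D0H1.SF.RGrp2

/-!
# Irreducible groups of matrices of rank two which split and are reducible modulo `ℓ`
-/

set_option autoImplicit false
set_option linter.unusedSectionVars false

namespace Pool.Agent.D0H1.SF

open Module Matrix

/-- diagonalization -/
theorem exists_diag {R : Type*} [CommRing R] [IsLocalRing R] {M : Matrix (Fin 2) (Fin 2) R}
    {b c : R} (htr : M.trace = b + c) (hdet : M.det = b * c) (hu : IsUnit (b - c)) :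
    ∃ V : GL (Fin 2) R, M * (V : Matrix (Fin 2) (Fin 2) R) = V * !![b, 0; 0, c] := by
  have hu2 : IsUnit (M.trace ^ 2 - 4 * M.det) := by
    have : M.trace ^ 2 - 4 * M.det = (b - c) ^ 2 := by
      rw [htr, hdet]
      ring
    rw [this]
    exact hu.pow 2
  obtain ⟨C, hC, hMC⟩ := exists_cyclic hu2
  have hW : IsUnit (C * !![-c, -b; 1, 1]).det := by
    rw [Matrix.det_mul, Matrix.det_fin_two_of]
    refine hC.mul ?_
    have : -c * 1 - -b * 1 = b - c := by ring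
    rw [this]
    exact hu
  refine ⟨Matrix.GeneralLinearGroup.mk'' _ hW, ?_⟩
  show M * (C * !![-c, -b; 1, 1]) = C * !![-c, -b; 1, 1] * !![b, 0; 0, c]
  rw [← mul_assoc, hMC, mul_assoc, mul_assoc, htr, hdet]
  congr 1
  ext i j
  fin_cases i <;> fin_cases j <;> simp [Matrix.mul_apply, Fin.sum_univ_two] <;> ring

variable {ℓ : ℕ} [hℓ : Fact ℓ.Prime]

theorem con_core (h2 : ℓ ≠ 2) {G : Type*} [Group G] {ρ : G →* GL (Fin 2) ℤ_[ℓ]} {s : G}
    {b c : ℤ_[ℓ]} (htr : (ρ s : Matrix (Fin 2) (Fin 2) ℤ_[ℓ]).trace = b + c)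
    (hdet : (ρ s : Matrix (Fin 2) (Fin 2) ℤ_[ℓ]).det = b * c) (hu : IsUnit (b - c))
    (hk : ∀ k : ℕ, 0 < k → b ^ k ≠ c ^ k)
    (hsq : ∀ g, ∃ e : ℤ_[ℓ], e ^ 2 = dm (ρ g : Matrix (Fin 2) (Fin 2) ℤ_[ℓ]))
    (hirr : ∀ v : Fin 2 → ℤ_[ℓ], v ≠ 0 →
      ¬ ∀ g, ∃ t : ℤ_[ℓ], (ρ g : Matrix (Fin 2) (Fin 2) ℤ_[ℓ]).mulVec v = t • v)
    {u : Fin 2 → ZMod ℓ} (hu0 : u ≠ 0)
    (hres : ∀ g, ∃ t : ZMod ℓ, ((ρ g : Matrix (Fin 2) (Fin 2) ℤ_[ℓ]).map
      (PadicInt.toZMod (p := ℓ))).mulVec u = t • u) : False := by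
  classical
  obtain ⟨V, hV⟩ := exists_diag htr hdet hu
  let ρ' : G →* GL (Fin 2) ℤ_[ℓ] := (MulAut.conj V⁻¹).toMonoidHom.comp ρ
  have hρ' : ∀ g, ρ' g = V⁻¹ * ρ g * V := by
    intro g
    show V⁻¹ * ρ g * V⁻¹⁻¹ = _
    rw [inv_inv]
  have hVρ : ∀ g, (V : Matrix (Fin 2) (Fin 2) ℤ_[ℓ]) * ρ' g = ρ g * V := by
    intro g
    rw [hρ', ← Units.val_mul, ← Units.val_mul]
    congr 1
    group
  have hs : (ρ' s : Matrix (Fin 2) (Fin 2) ℤ_[ℓ]) = !![b, 0; 0, c] := by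
    rw [hρ', mul_assoc, Units.val_mul, Units.val_mul, hV, ← mul_assoc, ← Units.val_mul,
      inv_mul_cancel, Units.val_one, one_mul]
  -- eigenvectors
  have hvec : ∀ v : Fin 2 → ℤ_[ℓ], v ≠ 0 →
      ¬ ∀ g, ∃ t : ℤ_[ℓ], (ρ' g : Matrix (Fin 2) (Fin 2) ℤ_[ℓ]).mulVec v = t • v := by
    intro v hv h
    refine hirr ((V : Matrix (Fin 2) (Fin 2) ℤ_[ℓ]).mulVec v) ?_ fun g => ?_
    · intro h0
      apply hv
      have h1 := congrArg (fun y => ((V⁻¹ : GL (Fin 2) ℤ_[ℓ]) :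
        Matrix (Fin 2) (Fin 2) ℤ_[ℓ]).mulVec y) h0
      simp only [Matrix.mulVec_mulVec, Matrix.mulVec_zero] at h1
      rwa [← Units.val_mul, inv_mul_cancel, Units.val_one, Matrix.one_mulVec] at h1
    · obtain ⟨t, ht⟩ := h g
      refine ⟨t, ?_⟩
      rw [Matrix.mulVec_mulVec, ← hVρ, ← Matrix.mulVec_mulVec, ht, Matrix.mulVec_smul]
  -- the residual eigenvector
  let φ : ℤ_[ℓ] →+* ZMod ℓ := PadicInt.toZMod (p := ℓ)
  let Vb : GL (Fin 2) (ZMod ℓ) := Matrix.GeneralLinearGroup.map φ V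
  have hVb : (Vb : Matrix (Fin 2) (Fin 2) (ZMod ℓ)) = (V : Matrix (Fin 2) (Fin 2) ℤ_[ℓ]).map φ :=
    rfl
  set y : Fin 2 → ZMod ℓ := ((Vb⁻¹ : GL (Fin 2) (ZMod ℓ)) : Matrix _ _ _).mulVec u with hy
  have hy0 : y ≠ 0 := by
    intro h0
    apply hu0
    have h1 := congrArg (fun y => (Vb : Matrix (Fin 2) (Fin 2) (ZMod ℓ)).mulVec y) h0
    simp only [hy, Matrix.mulVec_mulVec, Matrix.mulVec_zero] at h1
    rwa [← Units.val_mul, mul_inv_cancel, Units.val_one, Matrix.one_mulVec] at h1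
  have hVbρ : ∀ g, ((ρ' g : Matrix (Fin 2) (Fin 2) ℤ_[ℓ]).map φ) *
      ((Vb⁻¹ : GL (Fin 2) (ZMod ℓ)) : Matrix _ _ _) =
      ((Vb⁻¹ : GL (Fin 2) (ZMod ℓ)) : Matrix (Fin 2) (Fin 2) (ZMod ℓ)) *
        ((ρ g : Matrix (Fin 2) (Fin 2) ℤ_[ℓ]).map φ) := by
    intro g
    have h1 := congrArg (fun X : Matrix (Fin 2) (Fin 2) ℤ_[ℓ] => X.map φ) (hVρ g)
    simp only [Matrix.map_mul, ← hVb] at h1
    have h3 : ((Vb⁻¹ : GL (Fin 2) (ZMod ℓ)) : Matrix (Fin 2) (Fin 2) (ZMod ℓ)) *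
        ((Vb : Matrix (Fin 2) (Fin 2) (ZMod ℓ)) * (ρ' g : Matrix (Fin 2) (Fin 2) ℤ_[ℓ]).map φ) *
          ((Vb⁻¹ : GL (Fin 2) (ZMod ℓ)) : Matrix _ _ _) =
        ((Vb⁻¹ : GL (Fin 2) (ZMod ℓ)) : Matrix (Fin 2) (Fin 2) (ZMod ℓ)) *
        (((ρ g : Matrix (Fin 2) (Fin 2) ℤ_[ℓ]).map φ) * (Vb : Matrix (Fin 2) (Fin 2) (ZMod ℓ))) *
          ((Vb⁻¹ : GL (Fin 2) (ZMod ℓ)) : Matrix _ _ _) := by
      rw [h1]
    rw [← mul_assoc, ← Units.val_mul, inv_mul_cancel, Units.val_one, one_mul, mul_assoc, mul_assoc,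
      ← Units.val_mul, mul_inv_cancel, Units.val_one, mul_one] at h3
    exact h3
  have hyρ : ∀ g, ∃ t : ZMod ℓ, ((ρ' g : Matrix (Fin 2) (Fin 2) ℤ_[ℓ]).map φ).mulVec y =
      t • y := by
    intro g
    obtain ⟨t, ht⟩ := hres g
    refine ⟨t, ?_⟩
    have ht' : ((ρ g : Matrix (Fin 2) (Fin 2) ℤ_[ℓ]).map φ).mulVec u = t • u := ht
    rw [hy, Matrix.mulVec_mulVec, hVbρ, ← Matrix.mulVec_mulVec, ht', Matrix.mulVec_smul]
  have hcoord : y 0 = 0 ∨ y 1 = 0 := by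
    obtain ⟨t, ht⟩ := hyρ s
    rw [hs] at ht
    have e0 := congrFun ht 0
    have e1 := congrFun ht 1
    simp [Matrix.mulVec, dotProduct, Fin.sum_univ_two] at e0 e1
    by_contra hcon
    rw [not_or] at hcon
    have h3 : φ b = t := by
      rcases e0 with h | h
      · exact h
      · exact absurd h hcon.1
    have h4 : φ c = t := by
      rcases e1 with h | h
      · exact h
      · exact absurd h hcon.2
    have h5 : IsUnit (φ (b - c)) := hu.map φ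
    rw [map_sub, h3, h4, sub_self] at h5
    exact not_isUnit_zero h5
  have hlt : ∀ x : ℤ_[ℓ], φ x = 0 → ‖x‖ < 1 := by
    intro x hx
    have h3 : x ∈ RingHom.ker (PadicInt.toZMod (p := ℓ)) := hx
    rw [PadicInt.ker_toZMod, IsLocalRing.mem_maximalIdeal, PadicInt.mem_nonunits] at h3
    exact h3
  have hBC : ∀ g, ‖(ρ' g : Matrix (Fin 2) (Fin 2) ℤ_[ℓ]) 0 1 *
      (ρ' g : Matrix (Fin 2) (Fin 2) ℤ_[ℓ]) 1 0‖ < 1 := by
    intro g
    apply hlt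
    rw [map_mul]
    obtain ⟨t, ht⟩ := hyρ g
    have e0 := congrFun ht 0
    have e1 := congrFun ht 1
    simp [Matrix.mulVec, dotProduct, Fin.sum_univ_two] at e0 e1
    rcases hcoord with h | h
    · have h3 : y 1 ≠ 0 := by
        intro h4
        apply hy0
        ext i
        fin_cases i
        · exact h
        · exact h4
      rw [h, mul_zero, mul_zero, zero_add] at e0
      rw [(mul_eq_zero.1 e0).resolve_right h3, zero_mul]
    · have h3 : y 0 ≠ 0 := by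
        intro h4
        apply hy0
        ext i
        fin_cases i
        · exact h4
        · exact h
      rw [h, mul_zero, mul_zero, add_zero] at e1
      rw [(mul_eq_zero.1 e1).resolve_right h3, mul_zero]
  refine group_core h2 (ρ := ρ') hs hk hBC ?_ ?_ ?_
  · by_contra hcon
    push Not at hcon
    refine hvec ![0, 1] (fun h0 => one_ne_zero (congrFun h0 1)) fun g => ?_
    refine ⟨(ρ' g : Matrix (Fin 2) (Fin 2) ℤ_[ℓ]) 1 1, ?_⟩
    ext i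
    fin_cases i <;> simp [Matrix.mulVec, dotProduct, Fin.sum_univ_two, hcon]
  · by_contra hcon
    push Not at hcon
    refine hvec ![1, 0] (fun h0 => one_ne_zero (congrFun h0 0)) fun g => ?_
    refine ⟨(ρ' g : Matrix (Fin 2) (Fin 2) ℤ_[ℓ]) 0 0, ?_⟩
    ext i
    fin_cases i <;> simp [Matrix.mulVec, dotProduct, Fin.sum_univ_two, hcon]
  · intro g
    obtain ⟨e, he⟩ := hsq g
    refine ⟨e, he.trans ?_⟩
    unfold dm
    rw [hρ', Units.val_mul, Units.val_mul, Matrix.trace_mul_cycle, ← Units.val_mul, mul_inv_cancel,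
      Units.val_one, one_mul, Matrix.det_mul, Matrix.det_mul, mul_comm (Matrix.det _) (Matrix.det _),
      mul_assoc, ← Matrix.det_mul, ← Units.val_mul, inv_mul_cancel, Units.val_one, Matrix.det_one,
      mul_one]

end Pool.Agent.D0H1.SF
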