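import Pool.Agent.D0H1.SF.Bal

/-!
# Relations between roots of a polynomial and an algebraic integer, in almost all characteristics
-/

set_option autoImplicit false

namespace Pool.Agent.D0H1.SF

open Polynomial NumberField Pool.Agent.Y800 Pool.Agent.Y126.SH

theorem lift_one {P : ℤ[X]} (hP : P.Monic) {c : ℕ} (hc : c ≠ 0) (y : ZBar) (e f : ℕ) :
    ∃ M : ℤ, M ≠ 0 ∧ ∀ (Ω : Type) [Field Ω] (π : ZBar →+* Ω), (M : Ω) ≠ 0 →
      (∀ A : Multiset Ω, A ≤ (P.map (Int.castRingHom Ω)).roots → A.prod ^ e = π y ^ f →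
        ∃ s ≤ P.aroots (AlgebraicClosure ℚ), Multiset.card s = Multiset.card A ∧
          s.prod ^ e = (y : AlgebraicClosure ℚ) ^ f) ∧
      (∀ A : Multiset Ω, A.prod ≠ 0 →
        A + A.map (fun z => (c : Ω) / z) ≤ (P.map (Int.castRingHom Ω)).roots →
        A.prod ^ e = π y ^ f →
        ∃ s : Multiset (AlgebraicClosure ℚ),
          s + s.map (fun z => (c : AlgebraicClosure ℚ) / z) ≤ P.aroots (AlgebraicClosure ℚ) ∧
          Multiset.card s = Multiset.card A ∧ s.prod ^ e = (y : AlgebraicClosure ℚ) ^ f) := by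
  classical
  obtain ⟨R, hR⟩ := exists_roots hP
  let E : Finset ZBar :=
    ((R ×ˢ R).map fun x : ZBar × ZBar => x.1 * x.2 - (c : ZBar)).toFinset ∪
    (R.powerset.toFinset.image fun s : Multiset ZBar => s.prod ^ e - y ^ f)
  have hm : ∀ e : ZBar, ∃ m : ℤ, e ≠ 0 → (m ≠ 0 ∧ ∃ r, e * r = m) := by
    intro e
    by_cases he : e = 0
    · exact ⟨0, fun h => absurd he h⟩
    · obtain ⟨m, r, h1, h2⟩ := exists_int_mul he
      exact ⟨m, fun _ => ⟨h1, r, h2⟩⟩
  choose m hm using hm
  refine ⟨∏ e ∈ E.filter (fun e => e ≠ 0), m e, ?_, ?_⟩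
  · rw [Finset.prod_ne_zero_iff]
    intro e he
    exact (hm e (Finset.mem_filter.1 he).2).1
  intro Ω _ π hM
  have hgood : ∀ e ∈ E, π e = 0 → e = 0 := by
    intro e he h0
    by_contra hne
    apply hM
    rw [Int.cast_prod]
    apply Finset.prod_eq_zero (Finset.mem_filter.2 ⟨he, hne⟩)
    obtain ⟨_, r, hr⟩ := hm e hne
    rw [← map_intCast π, ← hr, map_mul, h0, zero_mul]
  let i : ZBar →+* AlgebraicClosure ℚ := algebraMap ZBar (AlgebraicClosure ℚ)
  have hroots : P.aroots (AlgebraicClosure ℚ) = R.map i := roots_map hR i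
  have hprod : ∀ s : Multiset ZBar, s ≤ R → (s.map π).prod ^ e = π y ^ f →
      (s.map i).prod ^ e = (y : AlgebraicClosure ℚ) ^ f := by
    intro s hs h1
    have h2 : s.prod ^ e = y ^ f := by
      rw [← sub_eq_zero]
      apply hgood
      · apply Finset.mem_union_right
        exact Finset.mem_image.2 ⟨s, by rw [Multiset.mem_toFinset]; exact Multiset.mem_powerset.2 hs,
          rfl⟩
      · rw [map_sub, map_pow, map_pow, map_multiset_prod, h1, sub_self]
    have h3 := congrArg i h2
    rw [map_pow, map_pow, map_multiset_prod] at h3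
    exact h3
  refine ⟨fun A hA hAy => ?_, fun A hA0 hA hAy => ?_⟩
  · rw [roots_map hR π] at hA
    obtain ⟨s, hs, rfl⟩ := exists_le_map π A R hA
    refine ⟨s.map i, ?_, ?_, hprod s hs hAy⟩
    · rw [hroots]
      exact Multiset.map_le_map hs
    · rw [Multiset.card_map, Multiset.card_map]
  · rw [roots_map hR π] at hA
    obtain ⟨s, s', hss, hs, hs'⟩ := exists_add_le_map π hA
    have hsR : s ≤ R := (Multiset.le_add_right _ _).trans hss
    have hsR' : s' ≤ R := (Multiset.le_add_left _ _).trans hss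
    have hne : ∀ t ∈ s, π t ≠ 0 := by
      intro t ht h0
      apply hA0
      apply Multiset.prod_eq_zero
      rw [← h0, ← hs]
      exact Multiset.mem_map_of_mem π ht
    have hrel : Multiset.Rel (fun t t' => t * t' = (c : ZBar)) s s' := by
      have h1 : Multiset.Rel (fun x y => x = y) (A.map (fun z => (c : Ω) / z)) (s'.map π) :=
        Multiset.rel_eq.2 hs'.symm
      rw [← hs, Multiset.map_map, Multiset.rel_map] at h1
      refine h1.mono ?_
      intro t ht t' ht' h2
      rw [Function.comp_apply, div_eq_iff (hne t ht)] at h2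
      rw [← sub_eq_zero]
      apply hgood
      · apply Finset.mem_union_left
        rw [Multiset.mem_toFinset]
        exact Multiset.mem_map.2 ⟨(t, t'), Multiset.mem_product.2
          ⟨Multiset.mem_of_le hsR ht, Multiset.mem_of_le hsR' ht'⟩, rfl⟩
      · rw [map_sub, map_mul, map_natCast, h2]
        ring
    have hdual : (s.map i).map (fun z => (c : AlgebraicClosure ℚ) / z) = s'.map i := by
      apply Multiset.rel_eq.1
      rw [Multiset.map_map, Multiset.rel_map]
      refine hrel.mono ?_
      intro t _ t' _ h2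
      have hs : (c : AlgebraicClosure ℚ) ≠ 0 := by exact_mod_cast hc
      have h3 : i t * i t' = (c : AlgebraicClosure ℚ) := by rw [← map_mul, h2, map_natCast]
      rw [Function.comp_apply, div_eq_iff (left_ne_zero_of_mul (h3 ▸ hs)), ← h3, mul_comm]
    refine ⟨s.map i, ?_, ?_, hprod s hsR (by rw [hs]; exact hAy)⟩
    · rw [hdual, ← Multiset.map_add, hroots]
      exact Multiset.map_le_map hss
    · rw [← hs, Multiset.card_map, Multiset.card_map]

end Pool.Agent.D0H1.SF
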