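import Pool.Agent.D0H1.SF.RDef2
import Pool.Agent.D0H1.SF.RLift
import Pool.Agent.D0H1.SF.HN

/-!
# The types of the stable subspaces
-/

set_option autoImplicit false
set_option linter.unusedSectionVars false

namespace Pool.Agent.D0H1.SF

open Module Matrix Polynomial NumberField Pool.Agent.Y800 Pool.Agent.R390.SF
open Pool.Agent.R390.SF.IntegralSystem
open Pool.Agent.Y126.SH (chi roots_isotropic)

attribute [local instance] Subgroup.fintypeQuotientOfFiniteIndex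

section matrix

variable {F : SubFld ℚ} {k : Type} [Field k] {n : ℕ}

/-- a stable subspace by matrices -/
theorem exists_matrix {ρ : F.fixingSubgroup →* GL (Fin n) k} {U : Submodule k (Fin n → k)}
    (hU : IsStable ρ U) : ∃ (C : Matrix (Fin n) (Fin (finrank k U)) k)
      (σ : F.fixingSubgroup → Matrix (Fin (finrank k U)) (Fin (finrank k U)) k),
      Function.Injective C.mulVec ∧ (∀ g, (ρ g : Matrix (Fin n) (Fin n) k) * C = C * σ g) ∧
        ∀ g, (σ g).det = (detChar ρ U hU g : k) := by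
  classical
  let b := Module.finBasis k U
  let C : Matrix (Fin n) (Fin (finrank k U)) k := Matrix.of fun i j => (b j : Fin n → k) i
  have hC : ∀ v, C.mulVec v = ((∑ j, v j • b j : U) : Fin n → k) := by
    intro v
    funext i
    rw [Matrix.mulVec, dotProduct, Submodule.coe_sum, Finset.sum_apply]
    refine Finset.sum_congr rfl fun j _ => ?_
    show (b j : Fin n → k) i * v j = v j * (b j : Fin n → k) i
    rw [mul_comm]
  refine ⟨C, fun g => LinearMap.toMatrix b b ((lin ρ g).restrict (hU g)), ?_, ?_, ?_⟩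
  · intro v v' hv
    rw [hC, hC] at hv
    have h3 := Subtype.ext hv
    have h4 := congrArg b.repr h3
    funext j
    have h5 := DFunLike.congr_fun h4 j
    rw [Basis.repr_sum_self, Basis.repr_sum_self] at h5
    exact h5
  · intro g
    ext i j
    have h3 : (C * LinearMap.toMatrix b b ((lin ρ g).restrict (hU g))) i j =
        C.mulVec (fun l => LinearMap.toMatrix b b ((lin ρ g).restrict (hU g)) l j) i := rfl
    rw [h3, hC]
    have h4 : (∑ l, LinearMap.toMatrix b b ((lin ρ g).restrict (hU g)) l j • b l) =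
        ((lin ρ g).restrict (hU g)) (b j) := by
      simp only [LinearMap.toMatrix_apply]
      exact b.sum_repr _
    rw [h4]
    rfl
  · intro g
    rw [LinearMap.det_toMatrix]
    rfl

end matrix

section core

variable {F : SubFld ℚ} [hF : FiniteDimensional ℚ F] {n : ℕ} {S : Finset ℕ} {w : ℕ}
  {T : IntegralSystem F n} {ℓ : ℕ} [hℓ : Fact ℓ.Prime]
  {k : Type} [Field k] [TopologicalSpace k] [IsTopologicalRing k] (ψ : ℤ_[ℓ] →+* k)

theorem recip_sub {ρ : F.fixingSubgroup →* GL (Fin n) k}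
    (h : Reciprocity ρ (fun g => ψ (chi ℓ g : ℤ_[ℓ])) S ℓ) :
    ∃ (P₀ : Ideal ZBar) (π : ZBar →+* AlgebraicClosure k), P₀.IsMaximal ∧ (ℓ : ZBar) ∈ P₀ ∧
      ∀ (U : Submodule k (Fin n → k)) (hU : IsStable ρ U) (a : Ideal (𝓞 F) → ℕ),
        (∀ P : Ideal ZBar, P.IsMaximal → (ℓ : ZBar) ∈ P → ∀ g : F.fixingSubgroup,
          InInertia P g → detChar ρ U hU g * chik ψ g ^ a (P.under (𝓞 F)) = 1) →
        ∀ p : ℕ, p.Prime → p ∉ S → p ≠ ℓ → ∀ P : Ideal ZBar, P.IsMaximal → (p : ZBar) ∈ P →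
        ∀ g : F.fixingSubgroup, IsGeomFrob (resCard F P) P g →
        ∀ (x : 𝓞 F) (m : ℕ), (P.under (𝓞 F) : Idl F) ^ m = Ideal.span {x} →
          algebraMap k (AlgebraicClosure k) (detChar ρ U hU g : k) ^ (2 * m) =
            π (typePow (fun τ => a (placeOf P₀ τ)) x) ^ 2 := by
  classical
  obtain ⟨P₀, π, hP₀, hℓP₀, hrel⟩ := h
  refine ⟨P₀, π, hP₀, hℓP₀, ?_⟩
  intro U hU a ha p hp hpS hpℓ P hP hpP g hg x m hx
  obtain ⟨C, σ, h1, h2, h3⟩ := exists_matrix hU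
  have h4 := hrel (finrank k U) C σ h1 h2 a (fun P hP hℓP g hg => by
    rw [h3]
    exact congrArg Units.val (ha P hP hℓP g hg)) p hp hpS hpℓ P hP hpP g hg x m hx
  rw [h3] at h4
  exact h4

/-- the eigenvalues of a Frobenius element on a stable subspace -/
theorem eigen_sub (hT : T.GoodSystem S w) {U : Submodule k (Fin n → k)}
    (hU : IsStable (rep ψ T) U) {p : ℕ} (hp : p.Prime) (hpS : p ∉ S) (hpℓ : ℓ ≠ p)
    {P : Ideal ZBar} (hP : P.IsMaximal) (hpP : (p : ZBar) ∈ P) {g : F.fixingSubgroup}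
    (hg : IsGeomFrob (resCard F P) P g) :
    ∃ A : Multiset (AlgebraicClosure k),
      A ≤ ((T.poly (P.under (𝓞 F))).map (Int.castRingHom (AlgebraicClosure k))).roots ∧
      Multiset.card A = finrank k U ∧
      A.prod = algebraMap k (AlgebraicClosure k) (detChar (rep ψ T) U hU g : k) := by
  have hUg : U ≤ U.comap (lin (rep ψ T) g) := fun u hu => hU g u hu
  obtain ⟨h1, h2, h3⟩ := Pool.Agent.Y126.MD.roots_sub (Ω := AlgebraicClosure k) hUg
  refine ⟨_, ?_, h3, h2⟩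
  have h4 : (lin (rep ψ T) g).charpoly.aroots (AlgebraicClosure k) =
      ((T.poly (P.under (𝓞 F))).map (Int.castRingHom (AlgebraicClosure k))).roots := by
    rw [charpoly_frobF ψ hT hp hpS hpℓ hP hpP hg, aroots_def, Polynomial.map_map]
    congr 2
  rw [← h4]
  exact h1

/-- The types over the field `Ω`. -/
def TypeAt (S : Finset ℕ) (ℓ : ℕ) (Ω : Type) [Field Ω] (T : IntegralSystem F n) (d : ℕ)
    (a : (F →+* AlgebraicClosure ℚ) → ℕ) : Prop :=
  ∃ π : ZBar →+* Ω, ∀ p : ℕ, p.Prime → p ∉ S → p ≠ ℓ → ∀ 𝔭 : Idl F, Above p 𝔭 →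
    ∀ (x : 𝓞 F) (m : ℕ), 𝔭 ^ m = Ideal.span {x} → ∃ A : Multiset Ω,
      A ≤ ((T.poly 𝔭).map (Int.castRingHom Ω)).roots ∧ Multiset.card A = d ∧
        A.prod ^ (2 * m) = π (typePow a x) ^ 2

theorem sub_type (hT : T.GoodSystem S w) {h : ℕ → ℕ}
    (hw : HodgeWeightsAt F (rep ψ T) (fun g => ψ (chi ℓ g : ℤ_[ℓ])) ℓ w h)
    (hr : Reciprocity (rep ψ T) (fun g => ψ (chi ℓ g : ℤ_[ℓ])) S ℓ)
    {U : Submodule k (Fin n → k)} (hU : IsStable (rep ψ T) U) :
    ∃ a : (F →+* AlgebraicClosure ℚ) → ℕ, IsLocal ℓ a ∧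
      (∀ τ, IsWeightSum w h (finrank k U) (a τ)) ∧
      TypeAt S ℓ (AlgebraicClosure k) T (finrank k U) a := by
  obtain ⟨P₀, π, hP₀, hℓP₀, hrel⟩ := recip_sub ψ hr
  obtain ⟨m, hm1, hm2, -, hm3⟩ := exists_hodge ψ hw hU
  refine ⟨fun τ => ∑ r ∈ Finset.range (w + 1), r * m (placeOf P₀ τ) r,
    ⟨P₀, hP₀, hℓP₀, fun τ τ' hτ => ?_⟩, fun τ => ?_, π, ?_⟩
  · show ∑ r ∈ Finset.range (w + 1), r * m (placeOf P₀ τ) r = _
    rw [hτ]
  · obtain ⟨h1, h2⟩ := placeOf_max hP₀ hℓP₀ τ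
    exact ⟨m (placeOf P₀ τ), hm1 _, hm2 _ h1 h2, rfl⟩
  · rintro p hp hpS hpℓ 𝔭 ⟨h𝔭, hp𝔭⟩ x e hx
    obtain ⟨P, hP, rfl⟩ := exists_over h𝔭
    rw [mem_under, map_natCast] at hp𝔭
    obtain ⟨g, hg⟩ := exists_geomF (F := F) hp hP hp𝔭
    obtain ⟨A, hA, hAc, hAp⟩ := eigen_sub ψ hT hU hp hpS (Ne.symm hpℓ) hP hp𝔭 hg
    refine ⟨A, hA, hAc, ?_⟩
    rw [hAp]
    exact hrel U hU (fun 𝔩 => ∑ r ∈ Finset.range (w + 1), r * m 𝔩 r) hm3 p hp hpS hpℓ P hP hp𝔭 g hg
      x e hx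

end core

end Pool.Agent.D0H1.SF
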