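import Pool.Agent.D0H1.SF.RSplit

/-!
# Embeddings in the algebraic closure of `ℚ_ℓ` and local infinity types
-/

set_option autoImplicit false
set_option linter.unusedSectionVars false

namespace Pool.Agent.D0H1.SF

open Module Matrix Polynomial NumberField Pool.Agent.Y800 Pool.Agent.R390.SF
open Pool.Agent.R390.SF.IntegralSystem

section emb

variable {ℓ : ℕ} [hℓ : Fact ℓ.Prime]

/-- the norm of the algebraic closure of `ℚ_ℓ` -/
noncomputable abbrev sn (ℓ : ℕ) [Fact ℓ.Prime] (x : AlgebraicClosure ℚ_[ℓ]) : ℝ :=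
  spectralMulAlgNorm ℚ_[ℓ] (AlgebraicClosure ℚ_[ℓ]) x

theorem sn_zero : sn ℓ 0 = 0 := map_zero (spectralMulAlgNorm ℚ_[ℓ] (AlgebraicClosure ℚ_[ℓ]))

theorem sn_one : sn ℓ 1 = 1 := map_one (spectralMulAlgNorm ℚ_[ℓ] (AlgebraicClosure ℚ_[ℓ]))

theorem sn_mul (x y : AlgebraicClosure ℚ_[ℓ]) : sn ℓ (x * y) = sn ℓ x * sn ℓ y :=
  map_mul (spectralMulAlgNorm ℚ_[ℓ] (AlgebraicClosure ℚ_[ℓ])) x y

theorem sn_add {x y : AlgebraicClosure ℚ_[ℓ]} (hx : sn ℓ x < 1) (hy : sn ℓ y < 1) :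
    sn ℓ (x + y) < 1 :=
  lt_of_le_of_lt (isNonarchimedean_spectralNorm (K := ℚ_[ℓ]) (L := AlgebraicClosure ℚ_[ℓ]) x y)
    (max_lt hx hy)

theorem sn_int (Φ : AlgebraicClosure ℚ →+* AlgebraicClosure ℚ_[ℓ]) (z : ZBar) :
    sn ℓ (Φ (z : AlgebraicClosure ℚ)) ≤ 1 := by
  obtain ⟨p, hp, hpz⟩ := RingOfIntegers.isIntegral_coe z
  have h1 : aeval (Φ (z : AlgebraicClosure ℚ)) (p.map (Int.castRingHom ℚ_[ℓ])) = 0 := by
    rw [aeval_def, eval₂_map]
    have h2 := congrArg Φ hpz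
    rw [map_zero, hom_eval₂] at h2
    rw [← h2]
    congr 1
    exact RingHom.ext_int _ _
  have h2 : (p.map (Int.castRingHom ℚ_[ℓ])).Monic := hp.map _
  have h3 := norm_root_le_spectralValue (f := spectralAlgNorm ℚ_[ℓ] (AlgebraicClosure ℚ_[ℓ]))
    spectralAlgNorm_isPowMul (isNonarchimedean_spectralNorm (K := ℚ_[ℓ])
      (L := AlgebraicClosure ℚ_[ℓ])) h2 h1
  refine le_trans h3 ((spectralValue_le_one_iff h2).2 fun n => ?_)
  rw [coeff_map, eq_intCast]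
  exact Padic.norm_int_le_one _

/-- the place of an embedding -/
noncomputable def embPlace (Φ : AlgebraicClosure ℚ →+* AlgebraicClosure ℚ_[ℓ]) : Ideal ZBar where
  carrier := {z | sn ℓ (Φ (z : AlgebraicClosure ℚ)) < 1}
  add_mem' := by
    intro a b ha hb
    have h1 : ((a + b : ZBar) : AlgebraicClosure ℚ) = (a : AlgebraicClosure ℚ) + b := rfl
    show sn ℓ (Φ ((a + b : ZBar) : AlgebraicClosure ℚ)) < 1
    rw [h1, map_add]
    exact sn_add ha hb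
  zero_mem' := by
    show sn ℓ (Φ ((0 : ZBar) : AlgebraicClosure ℚ)) < 1
    have h1 : ((0 : ZBar) : AlgebraicClosure ℚ) = 0 := rfl
    rw [h1, map_zero, sn_zero]
    exact one_pos
  smul_mem' := by
    intro c x hx
    have h1 : ((c * x : ZBar) : AlgebraicClosure ℚ) = (c : AlgebraicClosure ℚ) * x := rfl
    show sn ℓ (Φ ((c * x : ZBar) : AlgebraicClosure ℚ)) < 1
    rw [h1, map_mul, sn_mul]
    have h2 := sn_int Φ c
    have h3 : sn ℓ (Φ (x : AlgebraicClosure ℚ)) < 1 := hx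
    have h4 : 0 ≤ sn ℓ (Φ (x : AlgebraicClosure ℚ)) := apply_nonneg _ _
    calc sn ℓ (Φ (c : AlgebraicClosure ℚ)) * sn ℓ (Φ (x : AlgebraicClosure ℚ))
        ≤ 1 * sn ℓ (Φ (x : AlgebraicClosure ℚ)) := mul_le_mul_of_nonneg_right h2 h4
      _ < 1 := by rwa [one_mul]

theorem mem_embPlace {Φ : AlgebraicClosure ℚ →+* AlgebraicClosure ℚ_[ℓ]} {z : ZBar} :
    z ∈ embPlace Φ ↔ sn ℓ (Φ (z : AlgebraicClosure ℚ)) < 1 := Iff.rfl

theorem embPlace_mem (Φ : AlgebraicClosure ℚ →+* AlgebraicClosure ℚ_[ℓ]) :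
    (ℓ : ZBar) ∈ embPlace Φ := by
  rw [mem_embPlace]
  have h1 : ((ℓ : ZBar) : AlgebraicClosure ℚ) = (ℓ : AlgebraicClosure ℚ) :=
    map_natCast (algebraMap ZBar (AlgebraicClosure ℚ)) ℓ
  rw [h1, map_natCast, ← map_natCast (algebraMap ℚ_[ℓ] (AlgebraicClosure ℚ_[ℓ])) ℓ]
  show spectralNorm ℚ_[ℓ] (AlgebraicClosure ℚ_[ℓ]) _ < 1
  rw [spectralNorm_extends]
  exact Padic.norm_p_lt_one

theorem embPlace_max (Φ : AlgebraicClosure ℚ →+* AlgebraicClosure ℚ_[ℓ]) :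
    (embPlace Φ).IsMaximal := by
  have hprime : (embPlace Φ).IsPrime := by
    refine ⟨?_, ?_⟩
    · rw [Ideal.ne_top_iff_one, mem_embPlace]
      have h1 : ((1 : ZBar) : AlgebraicClosure ℚ) = 1 := rfl
      rw [h1, map_one, sn_one]
      exact lt_irrefl _
    · intro x y hxy
      by_contra hcon
      rw [not_or, mem_embPlace, mem_embPlace, not_lt, not_lt] at hcon
      rw [mem_embPlace] at hxy
      have h1 : ((x * y : ZBar) : AlgebraicClosure ℚ) = (x : AlgebraicClosure ℚ) * y := rfl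
      rw [h1, map_mul, sn_mul] at hxy
      have h2 := one_le_mul_of_one_le_of_one_le hcon.1 hcon.2
      exact absurd hxy (not_lt.2 h2)
  have h1 : ((embPlace Φ).under ℤ).IsMaximal := by
    have h2 : (embPlace Φ).under ℤ = Ideal.span {(ℓ : ℤ)} := by
      have h3 : (Ideal.span {(ℓ : ℤ)}).IsMaximal :=
        PrincipalIdealRing.isMaximal_of_irreducible
          (Nat.prime_iff_prime_int.1 hℓ.out).irreducible
      refine (h3.eq_of_le ?_ ?_).symm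
      · exact (Ideal.IsPrime.under ℤ (embPlace Φ)).ne_top
      · rw [Ideal.span_singleton_le_iff_mem, Ideal.under_def, Ideal.mem_comap, map_natCast]
        exact embPlace_mem Φ
    rw [h2]
    exact PrincipalIdealRing.isMaximal_of_irreducible
      (Nat.prime_iff_prime_int.1 hℓ.out).irreducible
  exact Ideal.isMaximal_of_isIntegral_of_isMaximal_comap (R := ℤ) _ h1

/-- every maximal ideal above `ℓ` is the place of an embedding -/
theorem exists_emb {P₀ : Ideal ZBar} (hP₀ : P₀.IsMaximal) (hℓP : (ℓ : ZBar) ∈ P₀) :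
    ∃ Φ : AlgebraicClosure ℚ →+* AlgebraicClosure ℚ_[ℓ], P₀ = embPlace Φ := by
  have hQalg : Algebra.IsAlgebraic ℚ (AlgebraicClosure ℚ) := AlgebraicClosure.isAlgebraic ℚ
  obtain ⟨Φ⟩ : Nonempty (AlgebraicClosure ℚ →+* AlgebraicClosure ℚ_[ℓ]) :=
    ⟨(IsAlgClosed.lift (R := ℚ) (S := AlgebraicClosure ℚ)
      (M := AlgebraicClosure ℚ_[ℓ])).toRingHom⟩
  obtain ⟨g, hg⟩ := exists_cj hℓ.out (embPlace_max Φ) (embPlace_mem Φ) hP₀ hℓP
  refine ⟨Φ.comp (g : AlgebraicClosure ℚ →+* AlgebraicClosure ℚ), ?_⟩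
  rw [hg]
  ext z
  rw [mem_cj, mem_embPlace, mem_embPlace]
  rfl

theorem restr_gen {k L K : Type*} [Field k] [Field L] [Field K] [Algebra k L] [Normal k L]
    [Algebra k K] (Φ : L →ₐ[k] K) (σ : K ≃ₐ[k] K) : ∃ g : L ≃ₐ[k] L, ∀ z, σ (Φ z) = Φ (g z) := by
  let _ : Algebra L K := Φ.toRingHom.toAlgebra
  have : IsScalarTower k L K := IsScalarTower.of_algebraMap_eq fun x => (Φ.commutes x).symm
  exact ⟨σ.restrictNormal L, fun z => (AlgEquiv.restrictNormal_commutes σ L z).symm⟩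

theorem restr_gen' {k K : Type} [Field k] [Field K] [Algebra k K] (Φ : AlgebraicClosure k →+* K)
    (hΦ : ∀ r : k, Φ (algebraMap k (AlgebraicClosure k) r) = algebraMap k K r) (σ : K ≃+* K)
    (hσ : ∀ r : k, σ (algebraMap k K r) = algebraMap k K r) :
    ∃ g : AbsGal k, ∀ z, σ (Φ z) = Φ (g z) := by
  have hn : Normal k (AlgebraicClosure k) := IsAlgClosure.normal k (AlgebraicClosure k)
  let Φ' : AlgebraicClosure k →ₐ[k] K := { Φ with commutes' := hΦ }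
  obtain ⟨g, hg⟩ := restr_gen (k := k) Φ' (AlgEquiv.ofRingEquiv (f := σ) hσ)
  exact ⟨g, hg⟩

/-- the decomposition group -/
theorem exists_decomp (Φ : AlgebraicClosure ℚ →+* AlgebraicClosure ℚ_[ℓ])
    (σ : AlgebraicClosure ℚ_[ℓ] ≃ₐ[ℚ_[ℓ]] AlgebraicClosure ℚ_[ℓ]) :
    ∃ g : GQ, (∀ z, σ (Φ z) = Φ (g z)) ∧ cj g (embPlace Φ) = embPlace Φ := by
  obtain ⟨g, hg'⟩ := restr_gen' (k := ℚ) Φ
    (fun r => RingHom.congr_fun (Subsingleton.elim (Φ.comp (algebraMap ℚ (AlgebraicClosure ℚ)))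
      (algebraMap ℚ (AlgebraicClosure ℚ_[ℓ]))) r) (σ : AlgebraicClosure ℚ_[ℓ] ≃+* _)
    (fun r => RingHom.congr_fun (Subsingleton.elim ((σ : AlgebraicClosure ℚ_[ℓ] →+* _).comp
      (algebraMap ℚ (AlgebraicClosure ℚ_[ℓ]))) (algebraMap ℚ (AlgebraicClosure ℚ_[ℓ]))) r)
  refine ⟨g, hg', ?_⟩
  ext z
  rw [mem_cj, mem_embPlace, mem_embPlace]
  have h1 : Φ ((g • z : ZBar) : AlgebraicClosure ℚ) = σ (Φ (z : AlgebraicClosure ℚ)) :=
    (hg' (z : AlgebraicClosure ℚ)).symm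
  rw [h1]
  have h2 : sn ℓ (σ (Φ (z : AlgebraicClosure ℚ))) = sn ℓ (Φ (z : AlgebraicClosure ℚ)) :=
    (spectralNorm_eq_of_equiv σ (Φ (z : AlgebraicClosure ℚ))).symm
  rw [h2]

variable {F : SubFld ℚ} [hF : FiniteDimensional ℚ F]

/-- **The values of the infinity types from `ℓ` lie in `ℚ_ℓ`.** -/
theorem typePow_rat {a : (F →+* AlgebraicClosure ℚ) → ℕ} (ha : IsLocal ℓ a) :
    ∃ Φ : AlgebraicClosure ℚ →+* AlgebraicClosure ℚ_[ℓ], ∀ x : 𝓞 F,
      ∃ y : ℚ_[ℓ], algebraMap ℚ_[ℓ] (AlgebraicClosure ℚ_[ℓ]) y =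
        Φ (typePow a x : AlgebraicClosure ℚ) := by
  have hnf : NumberField F := numberField
  obtain ⟨P₀, hP₀, hℓP, ha⟩ := ha
  obtain ⟨Φ, rfl⟩ := exists_emb hP₀ hℓP
  refine ⟨Φ, fun x => ?_⟩
  have hG : IsGalois ℚ_[ℓ] (AlgebraicClosure ℚ_[ℓ]) := inferInstance
  rw [← Set.mem_range]
  rw [InfiniteGalois.mem_range_algebraMap_iff_fixed]
  intro σ
  obtain ⟨g, hg, hgP⟩ := exists_decomp Φ σ
  rw [hg]
  congr 1
  rw [typePow_coe, map_prod]
  let e : (F →+* AlgebraicClosure ℚ) ≃ (F →+* AlgebraicClosure ℚ) :=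
    { toFun := fun τ => (g : AlgebraicClosure ℚ →+* AlgebraicClosure ℚ).comp τ
      invFun := fun τ => ((g⁻¹ : GQ) : AlgebraicClosure ℚ →+* AlgebraicClosure ℚ).comp τ
      left_inv := fun τ => by
        ext z
        exact AlgEquiv.symm_apply_apply g (τ z)
      right_inv := fun τ => by
        ext z
        exact AlgEquiv.apply_symm_apply g (τ z) }
  refine Fintype.prod_equiv e _ _ fun τ => ?_
  rw [map_pow]
  have h1 : a (e τ) = a τ := by
    apply ha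
    ext u
    have h2 : u ∈ placeOf (embPlace Φ) (e τ) ↔
        RingOfIntegers.mapRingHom τ u ∈ cj g (embPlace Φ) := Iff.rfl
    rw [h2, hgP]
    rfl
  rw [h1]
  rfl

end emb

end Pool.Agent.D0H1.SF
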