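import Pool.Agent.R390.SF.Hodge
import Pool.Agent.R390.SF.BN2
import Pool.Agent.D0H1.SF.HDef

/-!
# Systems with the reciprocity law for the determinants of the stable subspaces
-/

set_option autoImplicit false

namespace Pool.Agent.D0H1.SF

open Polynomial NumberField Pool.Agent.Y800 Pool.Agent.R390.SF
open Pool.Agent.Y126.SH (chi)

variable {F : SubFld ℚ} {n : ℕ}

/-- The product of the conjugates `τ x` of the element `x` of `F` with the exponents `a τ`: up to a root
of unity the value at `x` of an algebraic Hecke character with the infinity type `a`. -/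
noncomputable def typePow (a : (F →+* AlgebraicClosure ℚ) → ℕ) (x : 𝓞 F) : ZBar :=
  ∏ᶠ τ : F →+* AlgebraicClosure ℚ, RingOfIntegers.mapRingHom τ x ^ a τ

/-- The reciprocity law of class field theory for the determinants of the stable subspaces: if the
inertia groups at the places `𝔩` above `ℓ` act on the determinant of the stable subspace (with the
basis given by the columns of the matrix `C`, and the action `σ`) through `χ ^ (-a 𝔩)`, and if the power
`𝔭 ^ m` of the place `𝔭` (not above `ℓ` or a prime in `S`) is generated by `x`, then, up to the sign, the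
value of the determinant at the `m`-th power of a geometric Frobenius element at `𝔭` is the product of
the conjugates `τ x` with the exponents `a 𝔩`, where `𝔩` is the place given by `τ`. The homomorphism `π`
identifies the algebraic integers with elements of an algebraic closure of `k`, and `P₀` is the
corresponding place. -/
def Reciprocity {k : Type} [Field k] (ρ : F.fixingSubgroup →* GL (Fin n) k) (χ : GQ → k)
    (S : Finset ℕ) (ℓ : ℕ) : Prop :=
  ∃ (P₀ : Ideal ZBar) (π : ZBar →+* AlgebraicClosure k), P₀.IsMaximal ∧ (ℓ : ZBar) ∈ P₀ ∧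
    ∀ (d : ℕ) (C : Matrix (Fin n) (Fin d) k) (σ : F.fixingSubgroup → Matrix (Fin d) (Fin d) k),
      Function.Injective C.mulVec → (∀ g, (ρ g : Matrix (Fin n) (Fin n) k) * C = C * σ g) →
      ∀ a : Idl F → ℕ, (∀ P : Ideal ZBar, P.IsMaximal → (ℓ : ZBar) ∈ P → ∀ g : F.fixingSubgroup,
        InInertia P g → (σ g).det * χ g ^ a (P.under (𝓞 F)) = 1) →
      ∀ p : ℕ, p.Prime → p ∉ S → p ≠ ℓ → ∀ P : Ideal ZBar, P.IsMaximal → (p : ZBar) ∈ P →
        ∀ g : F.fixingSubgroup, IsGeomFrob (nrm (F := F) (P.under (𝓞 F))) P g →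
        ∀ (x : 𝓞 F) (m : ℕ), (P.under (𝓞 F) : Idl F) ^ m = Ideal.span {x} →
          algebraMap k (AlgebraicClosure k) (σ g).det ^ (2 * m) =
            π (typePow (fun τ => a (placeOf P₀ τ)) x) ^ 2

/-- The properties of the realisations of a pure motive over `F` of weight `w`, with Hodge numbers
`h r = h^{r,w-r}`, `0 ≤ r ≤ w`, with a lattice, with good reduction outside the finite set `S` of primes
and semistable reduction in `S` (`IntegralSystem.HodgeSystem`), and the reciprocity law for the
determinants of the stable subspaces of `V_ℓ` for all, and of `T_ℓ / ℓ` for almost all `ℓ`. No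
polarization. -/
structure ReciprocalSystem (S : Finset ℕ) (w : ℕ) (h : ℕ → ℕ) (T : IntegralSystem F n) : Prop
    extends T.HodgeSystem S w h where
  /-- the determinants of the stable subspaces of `V_ℓ` -/
  rationalReciprocity : ∀ (ℓ : ℕ) [Fact ℓ.Prime],
    Reciprocity (T.rat ℓ) (fun g => algebraMap ℤ_[ℓ] ℚ_[ℓ] (chi ℓ g : ℤ_[ℓ])) S ℓ
  /-- the determinants of the stable subspaces of `T_ℓ / ℓ` -/
  residualReciprocity : ∃ N : ℕ, ∀ (ℓ : ℕ) [Fact ℓ.Prime], N < ℓ →
    Reciprocity (T.res ℓ) (fun g => PadicInt.toZMod (chi ℓ g : ℤ_[ℓ])) S ℓ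

/-- The properties of the realisations of a polarized pure motive: those of `PolarizedSystem` (the
polarization of `T_ℓ` is perfect for `ℓ` outside the finite set `S'`), and the reciprocity law for the
determinants of the stable subspaces of `V_ℓ` and, for `ℓ` outside `S'`, of `T_ℓ / ℓ`. -/
structure PolarizedReciprocalSystem (S S' : Finset ℕ) (w : ℕ) (h : ℕ → ℕ) (T : IntegralSystem F n) :
    Prop extends T.PolarizedSystem S S' w h where
  /-- the determinants of the stable subspaces of `V_ℓ` -/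
  rationalReciprocity : ∀ (ℓ : ℕ) [Fact ℓ.Prime],
    Reciprocity (T.rat ℓ) (fun g => algebraMap ℤ_[ℓ] ℚ_[ℓ] (chi ℓ g : ℤ_[ℓ])) S ℓ
  /-- the determinants of the stable subspaces of `T_ℓ / ℓ` -/
  residualReciprocity : ∀ (ℓ : ℕ) [Fact ℓ.Prime], ℓ ∉ S' →
    Reciprocity (T.res ℓ) (fun g => PadicInt.toZMod (chi ℓ g : ℤ_[ℓ])) S ℓ

/-- `c` is the sum of `d` weights, with the multiplicities `m r`, no two of which are opposite:
`m r + m (w - r) ≤ h r`. -/
def IsIsotropicSum (w : ℕ) (h : ℕ → ℕ) (d c : ℕ) : Prop :=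
  ∃ m : ℕ → ℕ, (∀ r ≤ w, m r + m (w - r) ≤ h r) ∧ ∑ r ∈ Finset.range (w + 1), m r = d ∧
    ∑ r ∈ Finset.range (w + 1), r * m r = c

/-- The numbers `a τ` depend only on the places of `F` above `ℓ` which are given by the embeddings `τ`
of `F` (and by a maximal ideal above `ℓ` of the ring of all algebraic integers). -/
def IsLocal (ℓ : ℕ) (a : (F →+* AlgebraicClosure ℚ) → ℕ) : Prop :=
  ∃ P₀ : Ideal ZBar, P₀.IsMaximal ∧ (ℓ : ZBar) ∈ P₀ ∧
    ∀ τ τ' : F →+* AlgebraicClosure ℚ, placeOf P₀ τ = placeOf P₀ τ' → a τ = a τ'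

/-- The system `T` of rank two (with the Hodge numbers `h^{r,w-r} = h^{w-r,r} = 1`) is of CM type, with an
infinity type from `ℓ`: there are numbers `a τ` in `{r, w - r}` for the embeddings `τ` of `F`, depending
only on the places above `ℓ`, such that at all places `𝔭` of `F` above primes `p ≠ ℓ` outside `S`, if
`𝔭 ^ m` is generated by `x`, some root `z` of the Frobenius polynomial has the `2 m`-th power
`(∏ τ, τ x ^ a τ) ^ 2`; in other words, up to roots of unity `z` is the value at `𝔭` of an algebraic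
Hecke character with the infinity type `a`. -/
def IsCMType (S : Finset ℕ) (r w ℓ : ℕ) (T : IntegralSystem F 2) : Prop :=
  ∃ a : (F →+* AlgebraicClosure ℚ) → ℕ, IsLocal ℓ a ∧ (∀ τ, a τ = r ∨ a τ = w - r) ∧
    ∀ p : ℕ, p.Prime → p ∉ S → p ≠ ℓ → ∀ 𝔭 : Idl F, Above p 𝔭 →
      ∀ (x : 𝓞 F) (m : ℕ), 𝔭 ^ m = Ideal.span {x} →
        ∃ z ∈ (T.poly 𝔭).aroots (AlgebraicClosure ℚ),
          z ^ (2 * m) = (typePow a x : AlgebraicClosure ℚ) ^ 2

/-- A family `s` of `d` Frobenius eigenvalues at `𝔭` is isotropic: the numbers `z` in `s` and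
`N𝔭 ^ w / z` together are roots of the Frobenius polynomial, with multiplicities. -/
def IsIsotropicFamily (T : IntegralSystem F n) (w d : ℕ) (𝔭 : Idl F)
    (s : Multiset (AlgebraicClosure ℚ)) : Prop :=
  s + s.map (fun z => ((nrm 𝔭 ^ w : ℕ) : AlgebraicClosure ℚ) / z) ≤
    (T.poly 𝔭).aroots (AlgebraicClosure ℚ) ∧ Multiset.card s = d

/-- The products of isotropic families of `d` Frobenius eigenvalues are algebraic (with an infinity type
from `ℓ`): there are numbers `a τ` for the embeddings `τ` of `F`, depending only on the places above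
`ℓ`, each of them an isotropic sum of `d` weights, such that at all places `𝔭` of `F` above primes
`p ≠ ℓ` outside `S`, if `𝔭 ^ m` is generated by `x`, the product of some isotropic family of `d`
Frobenius eigenvalues has the `2 m`-th power `(∏ τ, τ x ^ a τ) ^ 2`. -/
def HasIsotropicEigenvalue (S : Finset ℕ) (w : ℕ) (h : ℕ → ℕ) (ℓ : ℕ) (T : IntegralSystem F n)
    (d : ℕ) : Prop :=
  ∃ a : (F →+* AlgebraicClosure ℚ) → ℕ, IsLocal ℓ a ∧ (∀ τ, IsIsotropicSum w h d (a τ)) ∧
    ∀ p : ℕ, p.Prime → p ∉ S → p ≠ ℓ → ∀ 𝔭 : Idl F, Above p 𝔭 →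
      ∀ (x : 𝓞 F) (m : ℕ), 𝔭 ^ m = Ideal.span {x} →
        ∃ s : Multiset (AlgebraicClosure ℚ), IsIsotropicFamily T w d 𝔭 s ∧
          s.prod ^ (2 * m) = (typePow a x : AlgebraicClosure ℚ) ^ 2

/-- The product of an isotropic family of `d` Frobenius eigenvalues at `𝔭` has a power in the normal
closure of `F`. -/
def HasRationalPower (T : IntegralSystem F n) (w d : ℕ) (𝔭 : Idl F) : Prop :=
  ∃ s : Multiset (AlgebraicClosure ℚ), IsIsotropicFamily T w d 𝔭 s ∧
    ∃ m : ℕ, 0 < m ∧ s.prod ^ m ∈ IntermediateField.normalClosure ℚ F (AlgebraicClosure ℚ)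

/-- A system of rank two with the Hodge numbers `h^{r,w-r} = h^{w-r,r} = 1` (without polarization) such
that `V_ℓ` is semisimple for the prime numbers `ℓ` in `Λ` for which the system is of CM type, with an
infinity type from `ℓ`. -/
structure RankTwoSystem (S : Finset ℕ) (r w : ℕ) (Λ : Set ℕ) (T : IntegralSystem F 2) : Prop
    extends ReciprocalSystem S w (rankTwo r w) T where
  /-- semisimple -/
  semisimple : ∀ (ℓ : ℕ) [Fact ℓ.Prime], ℓ ∈ Λ → IsCMType S r w ℓ T → Semis (T.rat ℓ)

/-- A polarized system such that for the prime numbers `ℓ` in `Λ` and all `d > 0` the products of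
isotropic families of `d` Frobenius eigenvalues are not algebraic with an infinity type from `ℓ`. -/
structure PolarizedNonCMSystem (S S' : Finset ℕ) (w : ℕ) (h : ℕ → ℕ) (Λ : Set ℕ)
    (T : IntegralSystem F n) : Prop extends PolarizedReciprocalSystem S S' w h T where
  /-- no isotropic algebraic eigenvalues -/
  notCM : ∀ ℓ : ℕ, ℓ.Prime → ℓ ∈ Λ → ∀ d : ℕ, 0 < d → ¬ HasIsotropicEigenvalue S w h ℓ T d

end Pool.Agent.D0H1.SF
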