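import Pool.Agent.D0H1.SF.RDef

/-!
# Algebraic eigenvalues of the exterior powers
-/

set_option autoImplicit false

namespace Pool.Agent.D0H1.SF

open Polynomial NumberField Pool.Agent.Y800 Pool.Agent.R390.SF

variable {F : SubFld ℚ} {n : ℕ}

/-- `c` is the sum of `d` weights, with the multiplicities `m r`, of which at most `h r` are equal to
`r`. -/
def IsWeightSum (w : ℕ) (h : ℕ → ℕ) (d c : ℕ) : Prop :=
  ∃ m : ℕ → ℕ, (∀ r, m r ≤ h r) ∧ ∑ r ∈ Finset.range (w + 1), m r = d ∧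
    ∑ r ∈ Finset.range (w + 1), r * m r = c

/-- The `d`-th exterior power of `T` has an algebraic eigenvalue (with an infinity type from `ℓ`): there
are numbers `a τ` for the embeddings `τ` of `F`, depending only on the places above `ℓ`, each of them a
sum of `d` weights, such that at all places `𝔭` of `F` above primes `p ≠ ℓ` outside `S`, if `𝔭 ^ m` is
generated by `x`, the product of some `d` roots of the Frobenius polynomial has the `2 m`-th power
`(∏ τ, τ x ^ a τ) ^ 2`. -/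
def HasAlgebraicEigenvalue (S : Finset ℕ) (w : ℕ) (h : ℕ → ℕ) (ℓ : ℕ) (T : IntegralSystem F n)
    (d : ℕ) : Prop :=
  ∃ a : (F →+* AlgebraicClosure ℚ) → ℕ, IsLocal ℓ a ∧ (∀ τ, IsWeightSum w h d (a τ)) ∧
    ∀ p : ℕ, p.Prime → p ∉ S → p ≠ ℓ → ∀ 𝔭 : Idl F, Above p 𝔭 →
      ∀ (x : 𝓞 F) (m : ℕ), 𝔭 ^ m = Ideal.span {x} →
        ∃ s ≤ (T.poly 𝔭).aroots (AlgebraicClosure ℚ), Multiset.card s = d ∧
          s.prod ^ (2 * m) = (typePow a x : AlgebraicClosure ℚ) ^ 2

end Pool.Agent.D0H1.SF
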