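import Pool.Agent.D0H1.SF.RWt

/-!
# Polarized systems without isotropic algebraic eigenvalues
-/

set_option autoImplicit false
set_option linter.unusedSectionVars false

namespace Pool.Agent.D0H1.SF

open Module Matrix Polynomial NumberField Pool.Agent.Y800 Pool.Agent.R390.SF
open Pool.Agent.R390.SF.IntegralSystem
open Pool.Agent.Y126.SH (chi roots_isotropic exists_reps)

attribute [local instance] Subgroup.fintypeQuotientOfFiniteIndex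

section core

variable {F : SubFld ℚ} [hF : FiniteDimensional ℚ F] {n : ℕ} {S : Finset ℕ} {w : ℕ}
  {T : IntegralSystem F n} {ℓ : ℕ} [hℓ : Fact ℓ.Prime]
  {k : Type} [Field k] [TopologicalSpace k] [IsTopologicalRing k] (ψ : ℤ_[ℓ] →+* k)

/-- the eigenvalues of a Frobenius element on an isotropic stable subspace -/
theorem iso_eigen (hT : T.GoodSystem S w) {U : Submodule k (Fin n → k)}
    (hU : IsStable (rep ψ T) U)
    {J : Matrix (Fin n) (Fin n) k} (hJ : ∀ g : F.fixingSubgroup, (chik ψ g : k) ^ w •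
      ((rep ψ T g : Matrix (Fin n) (Fin n) k).transpose * J * rep ψ T g) = J)
    (hJd : J.det ≠ 0) (hiso : ∀ x ∈ U, ∀ y ∈ U, bf J x y = 0)
    {p : ℕ} (hp : p.Prime) (hpS : p ∉ S) (hpℓ : ℓ ≠ p)
    {P : Ideal ZBar} (hP : P.IsMaximal) (hpP : (p : ZBar) ∈ P) {g : F.fixingSubgroup}
    (hg : IsGeomFrob (resCard F P) P g) :
    ∃ A : Multiset (AlgebraicClosure k), A.prod ≠ 0 ∧
      A + A.map (fun z => ((resCard F P ^ w : ℕ) : AlgebraicClosure k) / z) ≤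
        ((T.poly (P.under (𝓞 F))).map (Int.castRingHom (AlgebraicClosure k))).roots ∧
      Multiset.card A = finrank k U ∧
      A.prod = algebraMap k (AlgebraicClosure k) (detChar (rep ψ T) U hU g : k) := by
  classical
  have hUs : U ≤ U.comap (lin (rep ψ T) g) := fun u hu => hU g u hu
  have hform : ∀ (g : F.fixingSubgroup) (x y : Fin n → k), (chik ψ g : k) ^ w *
      bf J (lin (rep ψ T) g x) (lin (rep ψ T) g y) = bf J x y := by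
    intro g x y
    rw [bf_apply, bf_apply]
    conv_rhs => rw [← hJ g]
    rw [Matrix.smul_mulVec, dotProduct_smul, smul_eq_mul, ← Matrix.mulVec_mulVec,
      ← Matrix.mulVec_mulVec, Matrix.dotProduct_mulVec x, Matrix.vecMul_transpose]
    rfl
  have hnd : LinearMap.BilinForm.Nondegenerate (bf J) :=
    LinearMap.BilinForm.nondegenerate_toBilin'_of_det_ne_zero' J hJd
  obtain ⟨f, hf, hf'⟩ := resCard_pow (F := F) hp hP hpP
  have h3 : (chik ψ (g : GQ) : k) * (p : k) ^ f = 1 :=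
    chik_pow ψ hp hpℓ hP hpP (by rw [← hf']; exact hg)
  have h4 : ((resCard F P ^ w : ℕ) : k) ≠ 0 := by
    rw [hf', Nat.cast_pow, Nat.cast_pow]
    exact pow_ne_zero _ (right_ne_zero_of_mul_eq_one h3)
  have h5 : ∀ x y, bf J (lin (rep ψ T) g x) (lin (rep ψ T) g y) =
      ((resCard F P ^ w : ℕ) : k) * bf J x y := by
    intro x y
    have h6 := hform g x y
    rw [← h6, ← mul_assoc, hf', Nat.cast_pow, Nat.cast_pow, ← mul_pow, mul_comm ((p : k) ^ f), h3,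
      one_pow, one_mul]
  obtain ⟨h6, h7, h8⟩ := roots_isotropic (Ω := AlgebraicClosure k) hnd h4 h5 hUs (by
    intro y hy x hx
    exact hiso x hx y hy)
  refine ⟨_, ?_, ?_, h8, h7⟩
  · rw [h7]
    have h10 : (detChar (rep ψ T) U hU g : k) ≠ 0 := Units.ne_zero _
    exact (_root_.map_ne_zero (algebraMap k (AlgebraicClosure k))).2 h10
  · rw [map_natCast] at h6
    have h9 : (lin (rep ψ T) g).charpoly.aroots (AlgebraicClosure k) =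
        ((T.poly (P.under (𝓞 F))).map (Int.castRingHom (AlgebraicClosure k))).roots := by
      rw [charpoly_frobF ψ hT hp hpS hpℓ hP hpP hg, aroots_def, Polynomial.map_map]
      congr 2
    rw [← h9]
    exact h6

/-- The isotropic types over the field `Ω`. -/
def IsoTypeAt (S : Finset ℕ) (ℓ : ℕ) (Ω : Type) [Field Ω] (T : IntegralSystem F n) (w d : ℕ)
    (a : (F →+* AlgebraicClosure ℚ) → ℕ) : Prop :=
  ∃ π : ZBar →+* Ω, ∀ p : ℕ, p.Prime → p ∉ S → p ≠ ℓ → ∀ 𝔭 : Idl F, Above p 𝔭 →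
    ∀ (x : 𝓞 F) (m : ℕ), 𝔭 ^ m = Ideal.span {x} → ∃ A : Multiset Ω, A.prod ≠ 0 ∧
      A + A.map (fun z => ((nrm 𝔭 ^ w : ℕ) : Ω) / z) ≤
        ((T.poly 𝔭).map (Int.castRingHom Ω)).roots ∧ Multiset.card A = d ∧
        A.prod ^ (2 * m) = π (typePow a x) ^ 2

theorem iso_type (hT : T.GoodSystem S w) {h : ℕ → ℕ} {J : Matrix (Fin n) (Fin n) k}
    (hw : HodgeFormAt F (rep ψ T) J (fun g => ψ (chi ℓ g : ℤ_[ℓ])) ℓ w h)
    (hr : Reciprocity (rep ψ T) (fun g => ψ (chi ℓ g : ℤ_[ℓ])) S ℓ)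
    (hJ : ∀ g : F.fixingSubgroup, (chik ψ g : k) ^ w •
      ((rep ψ T g : Matrix (Fin n) (Fin n) k).transpose * J * rep ψ T g) = J)
    (hJd : J.det ≠ 0) {U : Submodule k (Fin n → k)} (hU : IsStable (rep ψ T) U)
    (hiso : ∀ x ∈ U, ∀ y ∈ U, dotProduct x (J.mulVec y) = 0) :
    ∃ a : (F →+* AlgebraicClosure ℚ) → ℕ, IsLocal ℓ a ∧
      (∀ τ, IsIsotropicSum w h (finrank k U) (a τ)) ∧
      IsoTypeAt S ℓ (AlgebraicClosure k) T w (finrank k U) a := by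
  classical
  obtain ⟨P₀, π, hP₀, hℓP₀, hrel⟩ := recip_sub ψ hr
  obtain ⟨m, hm⟩ := hw
  have hEq : Equi (rep ψ T) J := ⟨fun g => (chik ψ g : k) ^ w, hJ⟩
  have hsub := fun (𝔩 : Ideal (𝓞 F)) (h1 : 𝔩.IsMaximal) (h2 : (ℓ : 𝓞 F) ∈ 𝔩) =>
    form_sub ψ (hm 𝔩 h1 h2).2.1 hU
  let a : Ideal (𝓞 F) → ℕ := fun 𝔩 => ∑ r ∈ Finset.range (w + 1), r * m U 𝔩 r
  have ha : ∀ P : Ideal ZBar, P.IsMaximal → (ℓ : ZBar) ∈ P → ∀ τ : F.fixingSubgroup,
      InInertia P τ → detChar (rep ψ T) U hU τ * chik ψ τ ^ a (P.under (𝓞 F)) = 1 := by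
    intro P hP hℓP τ hτ
    have h1 : (P.under (𝓞 F)).IsMaximal := under_max hP
    have h2 : (ℓ : 𝓞 F) ∈ P.under (𝓞 F) := by
      rw [mem_under, map_natCast]
      exact hℓP
    exact (hsub _ h1 h2).2 P hP rfl τ hτ
  refine ⟨fun τ => a (placeOf P₀ τ), ⟨P₀, hP₀, hℓP₀, fun τ τ' hτ => congrArg a hτ⟩,
    fun τ => ?_, π, ?_⟩
  · obtain ⟨h3, h4⟩ := placeOf_max hP₀ hℓP₀ τ
    obtain ⟨h6, -, h7⟩ := hm _ h3 h4
    refine ⟨m U (placeOf P₀ τ), fun r hr => ?_, (hsub _ h3 h4).1, rfl⟩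
    have h10 := h6 U (orth J U) hU (orth_stable hEq hU) (fun x hx u hu => hiso u hu x hx) r
    have h11 := h7 U hU r hr
    omega
  · rintro p hp hpS hpℓ 𝔭 ⟨h𝔭, hp𝔭⟩ x e hx
    obtain ⟨P, hP, rfl⟩ := exists_over h𝔭
    rw [mem_under, map_natCast] at hp𝔭
    obtain ⟨g, hg⟩ := exists_geomF (F := F) hp hP hp𝔭
    obtain ⟨A, hA0, hA, hAc, hAp⟩ := iso_eigen ψ hT hU hJ hJd
      (fun x hx y hy => by rw [bf_apply]; exact hiso x hx y hy) hp hpS (Ne.symm hpℓ) hP hp𝔭 hg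
    refine ⟨A, hA0, hA, hAc, ?_⟩
    rw [hAp]
    exact hrel U hU a ha p hp hpS hpℓ P hP hp𝔭 g hg x e hx

end core

section single

variable {F : SubFld ℚ} [hF : FiniteDimensional ℚ F] {n : ℕ} {S S' : Finset ℕ} {w : ℕ} {h : ℕ → ℕ}
  {T : IntegralSystem F n}

theorem isotropicSum_le {d c : ℕ} (H : IsIsotropicSum w h d c) : c ≤ w * d := by
  obtain ⟨m, -, h2, rfl⟩ := H
  calc ∑ r ∈ Finset.range (w + 1), r * m r ≤ ∑ r ∈ Finset.range (w + 1), w * m r := by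
        refine Finset.sum_le_sum fun r hr => Nat.mul_le_mul_right _ ?_
        exact Nat.lt_succ_iff.1 (Finset.mem_range.1 hr)
    _ = w * d := by rw [← Finset.mul_sum, h2]

theorem nrm_pow_ne (w : ℕ) {p : ℕ} (hp : p.Prime) {𝔭 : Idl F} (h : Above p 𝔭) :
    nrm 𝔭 ^ w ≠ 0 := by
  obtain ⟨f, _, hf⟩ := card_pos hp h.1 h.2
  rw [nrm, hf]
  exact pow_ne_zero _ (pow_ne_zero _ hp.ne_zero)

theorem rational_iso_type (hT : T.GoodSystem S w) {ℓ : ℕ} [hℓ : Fact ℓ.Prime] {d : ℕ}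
    {a : (F →+* AlgebraicClosure ℚ) → ℕ} (hl : IsLocal ℓ a) (ha : ∀ τ, IsIsotropicSum w h d (a τ))
    (ht : IsoTypeAt S ℓ (AlgebraicClosure ℚ_[ℓ]) T w d a) : HasIsotropicEigenvalue S w h ℓ T d := by
  obtain ⟨π, hπ⟩ := ht
  refine ⟨a, hl, ha, ?_⟩
  intro p hp hpS hpℓ 𝔭 h𝔭 x m hx
  obtain ⟨A, hA0, hA, hAc, hAp⟩ := hπ p hp hpS hpℓ 𝔭 h𝔭 x m hx
  obtain ⟨M, hM0, hM⟩ := lift_one (hT.good p hp hpS 𝔭 h𝔭.1 h𝔭.2).monic (nrm_pow_ne w hp h𝔭)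
    (typePow a x) (2 * m) 2
  obtain ⟨s, h1, h2, h3⟩ := (hM (AlgebraicClosure ℚ_[ℓ]) π (by exact_mod_cast hM0)).2 A hA0 hA hAp
  exact ⟨s, ⟨h1, h2.trans hAc⟩, h3⟩

theorem residual_iso_bound (hT : T.GoodSystem S w) (d : ℕ) (a : (F →+* AlgebraicClosure ℚ) → ℕ)
    (ha : ∀ τ, IsIsotropicSum w h d (a τ)) :
    ∃ N : ℕ, ∀ (ℓ : ℕ) [Fact ℓ.Prime], N < ℓ → IsLocal ℓ a →
      IsoTypeAt S ℓ (AlgebraicClosure (ZMod ℓ)) T w d a → HasIsotropicEigenvalue S w h ℓ T d := by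
  by_cases h1 : ∃ p : ℕ, p.Prime ∧ p ∉ S ∧ ∃ 𝔭 : Idl F, Above p 𝔭 ∧ ∃ (x : 𝓞 F) (m : ℕ),
      𝔭 ^ m = Ideal.span {x} ∧ ∀ s : Multiset (AlgebraicClosure ℚ),
          s + s.map (fun z => ((nrm 𝔭 ^ w : ℕ) : AlgebraicClosure ℚ) / z) ≤
            (T.poly 𝔭).aroots (AlgebraicClosure ℚ) →
        Multiset.card s = d → s.prod ^ (2 * m) ≠ (typePow a x : AlgebraicClosure ℚ) ^ 2
  swap
  · push Not at h1
    refine ⟨0, fun ℓ _ _ hl _ => ⟨a, hl, ha, ?_⟩⟩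
    intro p hp hpS _ 𝔭 h𝔭 x m hx
    obtain ⟨s, h2, h3, h4⟩ := h1 p hp hpS 𝔭 h𝔭 x m hx
    exact ⟨s, ⟨h2, h3⟩, h4⟩
  obtain ⟨p, hp, hpS, 𝔭, h𝔭, x, m, hx, hs⟩ := h1
  obtain ⟨M, hM0, hM⟩ := lift_one (hT.good p hp hpS 𝔭 h𝔭.1 h𝔭.2).monic (nrm_pow_ne w hp h𝔭)
    (typePow a x) (2 * m) 2
  refine ⟨max p M.natAbs, fun ℓ hℓ hlt _ ht => ?_⟩
  rw [max_lt_iff] at hlt
  obtain ⟨π, hπ⟩ := ht
  obtain ⟨A, hA0, hA, hAc, hAp⟩ := hπ p hp hpS (by omega) 𝔭 h𝔭 x m hx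
  have hM1 : (M : AlgebraicClosure (ZMod ℓ)) ≠ 0 := by
    rw [← map_intCast (algebraMap (ZMod ℓ) (AlgebraicClosure (ZMod ℓ)))]
    exact (_root_.map_ne_zero _).2 (ne_zero_mod hM0 hlt.2)
  obtain ⟨s, h1, h2, h3⟩ := (hM (AlgebraicClosure (ZMod ℓ)) π hM1).2 A hA0 hA hAp
  exact absurd h3 (hs s h1 (h2.trans hAc))

variable {Λ : Set ℕ}

theorem noiso_rat_none (hT : PolarizedNonCMSystem S S' w h Λ T) {ℓ : ℕ}
    [hℓ : Fact ℓ.Prime] (hΛ : ℓ ∈ Λ) :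
    ∃ J : Matrix (Fin n) (Fin n) ℚ_[ℓ], Equi (T.rat ℓ) J ∧ NoIso (T.rat ℓ) J := by
  obtain ⟨J, hJ, hw⟩ := hT.rational ℓ
  refine ⟨_, equi_rat hJ, fun U hU hiso => ?_⟩
  by_contra hU0
  have hd : 0 < finrank ℚ_[ℓ] U := Nat.pos_of_ne_zero fun h => hU0 (Submodule.finrank_eq_zero.1 h)
  obtain ⟨a, hl, ha, ht⟩ := iso_type (algebraMap ℤ_[ℓ] ℚ_[ℓ]) hT.toGoodSystem hw
    (hT.rationalReciprocity ℓ) (fun g => by
      have h1 := congrArg qm (hJ.equivariant g)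
      rw [qm_smul, map_mul, map_mul, map_pow] at h1
      exact h1) (by
      have h1 := qm_det J
      intro h0
      have h2 : (qm J).det = 0 := h0
      rw [h2] at h1
      exact hJ.nondegenerate
        ((map_eq_zero_iff _ (IsFractionRing.injective ℤ_[ℓ] ℚ_[ℓ])).1 h1.symm)) hU hiso
  exact hT.notCM ℓ hℓ.out hΛ _ hd (rational_iso_type hT.toGoodSystem hl ha ht)

theorem semis_rat_none (hT : PolarizedNonCMSystem S S' w h Λ T) {ℓ : ℕ}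
    [hℓ : Fact ℓ.Prime] (hΛ : ℓ ∈ Λ) : Semis (T.rat ℓ) := by
  obtain ⟨J, h1, h2⟩ := noiso_rat_none hT hΛ
  exact fun U hU => ⟨orth J U, orth_stable h1 hU, isCompl_orth h1 h2 hU⟩

/-- **The exceptional primes are the same for the systems with the same traces.** -/
theorem noiso_all_none {T0 : IntegralSystem F n} (hT0 : PolarizedNonCMSystem S S' w h Λ T0) :
    ∃ N : ℕ, ∀ (ℓ : ℕ) [Fact ℓ.Prime], N < ℓ → ℓ ∈ Λ → ∀ T : IntegralSystem F n,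
      PolarizedNonCMSystem S S' w h Λ T →
      (∀ g, (T.rat ℓ g : Matrix (Fin n) (Fin n) ℚ_[ℓ]).trace =
        (T0.rat ℓ g : Matrix (Fin n) (Fin n) ℚ_[ℓ]).trace) →
      ∃ J : Matrix (Fin n) (Fin n) ℤ_[ℓ], T.IsPolarization w ℓ J ∧ IsUnit J.det ∧
        NoIso (toF (T.rho ℓ)) (rd J) := by
  classical
  have hnf : NumberField F := numberField
  have hN : ∀ (d : ℕ) (a : (F →+* AlgebraicClosure ℚ) → ℕ), ∃ N : ℕ,
      (∀ τ, IsIsotropicSum w h d (a τ)) → ∀ (ℓ : ℕ) [Fact ℓ.Prime], N < ℓ → IsLocal ℓ a →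
        IsoTypeAt S ℓ (AlgebraicClosure (ZMod ℓ)) T0 w d a →
          HasIsotropicEigenvalue S w h ℓ T0 d := by
    intro d a
    by_cases hd : ∀ τ, IsIsotropicSum w h d (a τ)
    · obtain ⟨N, hN⟩ := residual_iso_bound hT0.toGoodSystem d a hd
      exact ⟨N, fun _ => hN⟩
    · exact ⟨0, fun h2 => absurd h2 hd⟩
  choose N hN using hN
  let X : Finset (ℕ × ((F →+* AlgebraicClosure ℚ) → ℕ)) := Finset.range (n + 1) ×ˢ
    Fintype.piFinset (fun _ : (F →+* AlgebraicClosure ℚ) => Finset.range (w * n + 1))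
  refine ⟨max (S'.sup id) (X.sup fun x => N x.1 x.2), ?_⟩
  intro ℓ hℓ hlt hΛ T hT htr
  rw [max_lt_iff] at hlt
  have hℓS : ℓ ∉ S' := fun h6 => absurd (Finset.le_sup (f := id) h6) (not_le.2 hlt.1)
  obtain ⟨B, hB⟩ := exists_inter (semis_rat_none hT0 hΛ) (semis_rat_none hT hΛ) htr
  obtain ⟨J, hJ, hJu, hw⟩ := hT.residual ℓ hℓS
  refine ⟨J, hJ, hJu, fun U hU hiso => ?_⟩
  by_contra hU0
  have hd : 0 < finrank (ZMod ℓ) U := Nat.pos_of_ne_zero fun h => hU0 (Submodule.finrank_eq_zero.1 h)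
  have hdn : finrank (ZMod ℓ) U ≤ n := by
    have := Submodule.finrank_le U
    rwa [finrank_fin_fun] at this
  obtain ⟨a, hl, ha, ht⟩ := iso_type (PadicInt.toZMod (p := ℓ)) hT.toGoodSystem hw
    (hT.residualReciprocity ℓ hℓS) (fun g => res_form hJ g) (rd_det_ne hJu) hU hiso
  refine hT0.notCM ℓ hℓ.out hΛ _ hd
    (hN (finrank (ZMod ℓ) U) a ha ℓ (lt_of_le_of_lt ?_ hlt.2) hl ?_)
  · refine Finset.le_sup (f := fun x : ℕ × ((F →+* AlgebraicClosure ℚ) → ℕ) => N x.1 x.2)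
      (b := (finrank (ZMod ℓ) U, a)) ?_
    rw [Finset.mem_product, Fintype.mem_piFinset]
    refine ⟨Finset.mem_range.2 (Nat.lt_succ_of_le hdn), fun τ =>
      Finset.mem_range.2 (Nat.lt_succ_of_le ?_)⟩
    exact (isotropicSum_le (ha τ)).trans (Nat.mul_le_mul_left _ hdn)
  · obtain ⟨π, hπ⟩ := ht
    refine ⟨π, fun p hp hpS hpℓ 𝔭 h𝔭 x m hx => ?_⟩
    rw [← poly_eq hT.toGoodSystem hT0.toGoodSystem hB hp hpS (Ne.symm hpℓ) h𝔭.1 h𝔭.2]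
    exact hπ p hp hpS hpℓ 𝔭 h𝔭 x m hx

/-- **Finiteness of the polarized systems without isotropic algebraic eigenvalues.** -/
theorem none_finiteness (hn : 0 < n) (w : ℕ) (h : ℕ → ℕ) (S S' : Finset ℕ) (Λ : Set ℕ) :
    ∃ (m : ℕ) (T : Fin m → IntegralSystem F n),
      (∀ i, PolarizedNonCMSystem S S' w h Λ (T i)) ∧
      ∀ T' : IntegralSystem F n, PolarizedNonCMSystem S S' w h Λ T' →
        ∃ i, IsomorphicOn Λ (T i) T' := by
  classical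
  obtain ⟨𝒯, h𝒯, hdet⟩ := traces_of_finite (F := F) hn S
  refine exists_reps (fun T : IntegralSystem F n => PolarizedNonCMSystem S S' w h Λ T)
    (fun T T' => IsomorphicOn Λ T T') (fun T => fun p : 𝒯 => (T.poly p).coeff (n - 1)) ?_ ?_
  · refine (Set.Finite.pi' (t := fun p : 𝒯 => Set.Icc
      (-((Nat.card (𝓞 F ⧸ (p : Ideal (𝓞 F))) ^ w) ^ n * n.choose (n / 2) : ℕ) : ℤ)
      (((Nat.card (𝓞 F ⧸ (p : Ideal (𝓞 F))) ^ w) ^ n * n.choose (n / 2) : ℕ) : ℤ))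
      (fun p => Set.finite_Icc _ _)).subset ?_
    rintro _ ⟨T, hT, rfl⟩ p
    obtain ⟨h1, r, hr, hrS, h2⟩ := h𝒯 p p.2
    exact abs_le.1 (coeff_bound hT.toGoodSystem hr hrS h1 h2 (n - 1))
  · intro T0 hT0
    obtain ⟨N, hN⟩ := noiso_all_none hT0
    choose k c hk hc using local_code2 (Λ := Λ) (T0 := T0)
      (fun ℓ hℓ hℓΛ => semis_rat_none hT0 hℓΛ)
    obtain ⟨K, ⟨e⟩⟩ := Finite.exists_equiv_fin (∀ ℓ : Fin (N + 1), Fin (k ℓ))
    refine ⟨K, fun T => (e fun ℓ => ⟨c ℓ T, hk ℓ T⟩ : ℕ), fun T => Fin.is_lt _, ?_⟩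
    intro T T' hT hT' hi hi' hcode ℓ hℓ hℓΛ
    have htr : ∀ T : IntegralSystem F n, PolarizedNonCMSystem S S' w h Λ T →
        ((fun p : 𝒯 => (T.poly p).coeff (n - 1)) = fun p : 𝒯 => (T0.poly p).coeff (n - 1)) →
        ∀ g, (T.rat ℓ g : Matrix (Fin n) (Fin n) ℚ_[ℓ]).trace =
          (T0.rat ℓ g : Matrix (Fin n) (Fin n) ℚ_[ℓ]).trace := by
      intro T hT hi
      exact hdet w w T T0 hT.toGoodSystem hT0.toGoodSystem
        (fun p hp => congrFun hi ⟨p, hp⟩) ℓ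
    have key : ∀ T : IntegralSystem F n, PolarizedNonCMSystem S S' w h Λ T →
        ((fun p : 𝒯 => (T.poly p).coeff (n - 1)) = fun p : 𝒯 => (T0.poly p).coeff (n - 1)) →
        ∃ B : Matrix (Fin n) (Fin n) ℤ_[ℓ], Inter T0 T ℓ B := by
      intro T hT hi
      exact exists_inter (semis_rat_none hT0 hℓΛ) (semis_rat_none hT hℓΛ) (htr T hT hi)
    have h1 := key T hT hi
    have h2 := key T' hT' hi'
    by_cases hℓN : ℓ ≤ N
    · have h3 := e.injective (Fin.ext hcode)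
      have h4 := congrFun h3 ⟨ℓ, Nat.lt_succ_of_le hℓN⟩
      exact hc ℓ T T' hℓΛ h1 h2 (congrArg Fin.val h4)
    · obtain ⟨B, hB, hBρ⟩ := h1
      obtain ⟨B', hB', hBρ'⟩ := h2
      obtain ⟨J0, hJ0, -, hn0⟩ := hN ℓ (not_le.1 hℓN) hℓΛ T0 hT0 (fun _ => rfl)
      obtain ⟨J, hJ, hJu, hn⟩ := hN ℓ (not_le.1 hℓN) hℓΛ T hT (htr T hT hi)
      obtain ⟨J', hJ', hJu', hn'⟩ := hN ℓ (not_le.1 hℓN) hℓΛ T' hT' (htr T' hT' hi')
      obtain ⟨A, hA⟩ := uniq hJu hJ.equivariant hJ0.equivariant hn hn0 hB hBρ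
      obtain ⟨A', hA'⟩ := uniq hJu' hJ'.equivariant hJ0.equivariant hn' hn0 hB' hBρ'
      refine ⟨A' * A⁻¹, fun g => ?_⟩
      rw [hA, hA']
      group

end single

end Pool.Agent.D0H1.SF
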