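import Pool.Agent.D0H1.SF.RSplit
import Pool.Agent.D0H1.SF.RAb
import Pool.Agent.D0H1.SF.RPol

/-!
# Frobenius elements in rank two
-/

set_option autoImplicit false
set_option linter.unusedSectionVars false

namespace Pool.Agent.D0H1.SF

open Module Matrix Polynomial NumberField Pool.Agent.Y800 Pool.Agent.R390.SF
open Pool.Agent.R390.SF.IntegralSystem
open Pool.Agent.Y126.SH (chi exists_reps)

variable {F : SubFld ℚ} [hF : FiniteDimensional ℚ F] {S : Finset ℕ} {w r : ℕ} {Λ : Set ℕ}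
  {T : IntegralSystem F 2}

/-- the trace and the determinant of a Frobenius element -/
theorem trace_det_frob (hT : T.GoodSystem S w) {ℓ : ℕ} [hℓ : Fact ℓ.Prime] {q : ℕ} (hq : q.Prime)
    (hqS : q ∉ S) (hqℓ : ℓ ≠ q) {P : Ideal ZBar} (hP : P.IsMaximal) (hqP : (q : ZBar) ∈ P)
    {s : F.fixingSubgroup} (hs : IsGeomFrob (resCard F P) P s) :
    (T.rho ℓ s : Matrix (Fin 2) (Fin 2) ℤ_[ℓ]).trace =
        -(((T.poly (P.under (𝓞 F))).coeff 1 : ℤ) : ℤ_[ℓ]) ∧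
      (T.rho ℓ s : Matrix (Fin 2) (Fin 2) ℤ_[ℓ]).det =
        (((T.poly (P.under (𝓞 F))).coeff 0 : ℤ) : ℤ_[ℓ]) := by
  have hpm : (q : 𝓞 F) ∈ P.under (𝓞 F) := by
    rw [mem_under, map_natCast]
    exact hqP
  have h1 := (hT.good q hq hqS _ (under_max hP) hpm).frobenius ℓ hqℓ P hP rfl s hs
  rw [Matrix.charpoly_fin_two] at h1
  have h2 := congrArg (fun p : ℤ_[ℓ][X] => p.coeff 1) h1
  have h3 := congrArg (fun p : ℤ_[ℓ][X] => p.coeff 0) h1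
  simp only [coeff_add, coeff_sub, coeff_X_pow, coeff_C_mul, coeff_X, coeff_C, coeff_map,
    eq_intCast] at h2 h3
  norm_num at h2 h3
  exact ⟨by rw [← h2, neg_neg], h3⟩

theorem disc_frob (hT : T.GoodSystem S w) {ℓ : ℕ} [hℓ : Fact ℓ.Prime] {q : ℕ} (hq : q.Prime)
    (hqS : q ∉ S) (hqℓ : ℓ ≠ q) {P : Ideal ZBar} (hP : P.IsMaximal) (hqP : (q : ZBar) ∈ P)
    {s : F.fixingSubgroup} (hs : IsGeomFrob (resCard F P) P s) :
    (T.rho ℓ s : Matrix (Fin 2) (Fin 2) ℤ_[ℓ]).trace ^ 2 -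
      4 * (T.rho ℓ s : Matrix (Fin 2) (Fin 2) ℤ_[ℓ]).det =
        ((dsc (T.poly (P.under (𝓞 F))) : ℤ) : ℤ_[ℓ]) := by
  obtain ⟨h1, h2⟩ := trace_det_frob hT hq hqS hqℓ hP hqP hs
  rw [h1, h2, dsc]
  push_cast
  ring

theorem disc_rat {ℓ : ℕ} [hℓ : Fact ℓ.Prime] (s : F.fixingSubgroup) :
    (T.rat ℓ s : Matrix (Fin 2) (Fin 2) ℚ_[ℓ]).trace ^ 2 -
      4 * (T.rat ℓ s : Matrix (Fin 2) (Fin 2) ℚ_[ℓ]).det =
      algebraMap ℤ_[ℓ] ℚ_[ℓ] ((T.rho ℓ s : Matrix (Fin 2) (Fin 2) ℤ_[ℓ]).trace ^ 2 -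
        4 * (T.rho ℓ s : Matrix (Fin 2) (Fin 2) ℤ_[ℓ]).det) := by
  have h1 : ∀ i j, (T.rat ℓ s : Matrix (Fin 2) (Fin 2) ℚ_[ℓ]) i j =
      algebraMap ℤ_[ℓ] ℚ_[ℓ] ((T.rho ℓ s : Matrix (Fin 2) (Fin 2) ℤ_[ℓ]) i j) := fun _ _ => rfl
  rw [Matrix.trace_fin_two, Matrix.det_fin_two, Matrix.trace_fin_two, Matrix.det_fin_two]
  simp only [h1, map_sub, map_mul, map_pow, map_add, map_ofNat]

/-- two different eigenvalues at a completely split prime -/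
theorem exists_split (hr : 2 * r < w) (S' : Finset ℕ) : ∃ (q : ℕ) (P : Ideal ZBar), q.Prime ∧
    q ∉ S' ∧ P.IsMaximal ∧ (q : ZBar) ∈ P ∧ ∀ (S : Finset ℕ) (T : IntegralSystem F 2) (ℓ : ℕ),
      T.GoodSystem S w → q ∉ S → q ≠ ℓ → IsCMType S r w ℓ T →
        dsc (T.poly (P.under (𝓞 F))) ≠ 0 := by
  obtain ⟨R, hR⟩ := exists_ram2 F
  obtain ⟨q, hq, hqS', P, hP, hqP, σ, hσ, hσc⟩ := exists_core (F := F) (S' ∪ R)
  rw [Finset.mem_union, not_or] at hqS'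
  refine ⟨q, P, hq, hqS'.1, hP, hqP, fun S T ℓ hT hqS hqℓ hCM => ?_⟩
  exact dsc_ne_zero hr hT hCM hq hqS hqℓ hP hqP hσ
    ((Subgroup.normalCore_le _) hσc) (fun τ hτ => hR q hq hqS'.2 P hP hqP τ hτ)

end Pool.Agent.D0H1.SF
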