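import Mathlib
import Pool.Agent.D0H1.SF.RAb

/-!
# Irreducible groups of `ℓ`-adic matrices of rank two contain matrices which do not split
-/

set_option autoImplicit false
set_option linter.unusedSectionVars false

namespace Pool.Agent.D0H1.SF

open Module Matrix Filter Topology

section arith

variable {ℓ : ℕ} [hℓ : Fact ℓ.Prime]

theorem closed_sq : IsClosed {x : ℤ_[ℓ] | ∃ e : ℤ_[ℓ], e ^ 2 = x} := by
  have h : {x : ℤ_[ℓ] | ∃ e : ℤ_[ℓ], e ^ 2 = x} = Set.range fun e : ℤ_[ℓ] => e ^ 2 := rfl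
  rw [h]
  exact (isCompact_range (continuous_pow 2)).isClosed

theorem isUnit_two (h2 : ℓ ≠ 2) : IsUnit (2 : ℤ_[ℓ]) := by
  have h : ((2 : ℕ) : ℤ_[ℓ]) = 2 := by norm_num
  rw [← h, PadicInt.isUnit_iff]
  by_contra hn
  have h1 : ‖((2 : ℕ) : ℤ_[ℓ])‖ < 1 := lt_of_le_of_ne (PadicInt.norm_le_one _) hn
  have h3 := (PadicInt.norm_int_lt_one_iff_dvd (p := ℓ) (2 : ℤ)).1 (by exact_mod_cast h1)
  have h4 : ℓ ∣ 2 := by exact_mod_cast h3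
  exact h2 ((Nat.prime_dvd_prime_iff_eq hℓ.out Nat.prime_two).1 h4)

/-- a square in the fraction field is a square -/
theorem sq_of_mul {c x : ℤ_[ℓ]} (hc : c ≠ 0) (h : ∃ e : ℤ_[ℓ], e ^ 2 = c ^ 2 * x) :
    ∃ e : ℤ_[ℓ], e ^ 2 = x := by
  obtain ⟨e, he⟩ := h
  have h1 : c ^ 2 ∣ e ^ 2 := ⟨x, he⟩
  obtain ⟨f, rfl⟩ := (IsIntegrallyClosed.pow_dvd_pow_iff two_ne_zero).1 h1
  refine ⟨f, ?_⟩
  apply mul_left_cancel₀ (pow_ne_zero 2 hc)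
  rw [← he]
  ring

/-- units which are one modulo `ℓ` are squares -/
theorem sq_one_sub (h2 : ℓ ≠ 2) {x : ℤ_[ℓ]} (hx : ‖x‖ < 1) : ∃ e : ℤ_[ℓ], e ≠ 0 ∧ e ^ 2 = 1 - x := by
  have h3 : ‖(2 : ℤ_[ℓ])‖ = 1 := PadicInt.isUnit_iff.1 (isUnit_two h2)
  have h1 : ‖Polynomial.aeval (1 : ℤ_[ℓ]) (Polynomial.X ^ 2 - Polynomial.C (1 - x) : Polynomial ℤ_[ℓ])‖ <
      ‖Polynomial.aeval (1 : ℤ_[ℓ])
        (Polynomial.derivative (Polynomial.X ^ 2 - Polynomial.C (1 - x) : Polynomial ℤ_[ℓ]))‖ ^ 2 := by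
    have e1 : Polynomial.aeval (1 : ℤ_[ℓ])
        (Polynomial.X ^ 2 - Polynomial.C (1 - x) : Polynomial ℤ_[ℓ]) = x := by
      simp
    have e2 : Polynomial.aeval (1 : ℤ_[ℓ])
        (Polynomial.derivative (Polynomial.X ^ 2 - Polynomial.C (1 - x) : Polynomial ℤ_[ℓ])) = 2 := by
      simp
      norm_num
    rw [e1, e2, h3, one_pow]
    exact hx
  obtain ⟨z, hz, -⟩ := hensels_lemma h1
  refine ⟨z, ?_, ?_⟩
  · rintro rfl
    simp at hz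
    have h4 : x = 1 := by linear_combination hz
    rw [h4, norm_one] at hx
    exact lt_irrefl _ hx
  · simp at hz
    linear_combination hz

/-- **The arithmetic contradiction.** -/
theorem no_form (h2 : ℓ ≠ 2) {Δ K : ℤ_[ℓ]} (hΔ : IsUnit Δ) (hK0 : K ≠ 0) (hK : ‖K‖ < 1)
    (h : ∀ a b : ℤ_[ℓ], ∃ e : ℤ_[ℓ], e ^ 2 = Δ ^ 2 * (a + b) ^ 2 + 4 * Δ * K * a * b) : False := by
  obtain ⟨Δ', rfl⟩ := hΔ
  set Δ : ℤ_[ℓ] := (Δ' : ℤ_[ℓ]) with hΔd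
  have hΔ0 : Δ ≠ 0 := Δ'.ne_zero
  obtain ⟨t, ht⟩ := isUnit_two (ℓ := ℓ) h2
  have h20 : (2 : ℤ_[ℓ]) ≠ 0 := by rw [← ht]; exact t.ne_zero
  obtain ⟨κ, hκ⟩ : ∃ κ : ℤ_[ℓ], K = κ * Δ := ⟨K * (Δ'⁻¹ : ℤ_[ℓ]ˣ), by
    rw [hΔd, mul_assoc, Units.inv_mul, mul_one]⟩
  have hκ0 : κ ≠ 0 := by
    intro h0
    rw [h0, zero_mul] at hκ
    exact hK0 hκ
  have hκ1 : ‖κ‖ < 1 := by
    have h1 : ‖K‖ = ‖κ‖ * ‖Δ‖ := by rw [hκ, norm_mul]
    rw [PadicInt.isUnit_iff.1 Δ'.isUnit, mul_one] at h1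
    rwa [← h1]
  have h' : ∀ a b : ℤ_[ℓ], ∃ e : ℤ_[ℓ], e ^ 2 = (a + b) ^ 2 + 4 * κ * a * b := by
    intro a b
    obtain ⟨e, he⟩ := h a b
    refine sq_of_mul hΔ0 ⟨e, ?_⟩
    rw [he, hκ]
    ring
  -- `-κ` is a square
  obtain ⟨c, hc⟩ : ∃ c : ℤ_[ℓ], c ^ 2 = -κ := by
    obtain ⟨e, he⟩ := h' 1 (-1)
    refine sq_of_mul (c := 2) h20 ⟨e, ?_⟩
    rw [he]
    ring
  have hc0 : c ≠ 0 := by
    rintro rfl
    apply hκ0
    linear_combination hc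
  have hc1 : ‖c ^ 2‖ < 1 := by rw [hc, norm_neg]; exact hκ1
  obtain ⟨e, he0, he⟩ := sq_one_sub h2 hc1
  have h'' : ∀ x y : ℤ_[ℓ], ∃ z : ℤ_[ℓ], z ^ 2 = y ^ 2 + x ^ 2 := by
    intro x y
    obtain ⟨z, hz⟩ := h' x (2 * c ^ 2 * x + 2 * c * e * y - x)
    refine sq_of_mul (c := 2 * c * e) (mul_ne_zero (mul_ne_zero h20 hc0) he0) ⟨z, ?_⟩
    rw [hz]
    have h3 : κ = - c ^ 2 := by linear_combination hc
    rw [h3]
    linear_combination (-4) * c ^ 2 * x ^ 2 * he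
  -- a non-residue
  have hnr : ∃ u : ZMod ℓ, ¬ ∃ v, v ^ 2 = u := by
    obtain ⟨u, hu⟩ := FiniteField.exists_nonsquare (F := ZMod ℓ) (by
      rw [ZMod.ringChar_zmod_n]
      exact h2)
    refine ⟨u, fun ⟨v, hv⟩ => hu ⟨v, ?_⟩⟩
    rw [← hv, sq]
  obtain ⟨u, hu⟩ := hnr
  obtain ⟨x, y, hxy⟩ := ZMod.sq_add_sq ℓ u
  obtain ⟨z, hz⟩ := h'' ((x.val : ℕ) : ℤ_[ℓ]) ((y.val : ℕ) : ℤ_[ℓ])
  apply hu
  refine ⟨PadicInt.toZMod z, ?_⟩
  rw [← map_pow, hz, map_add, map_pow, map_pow, map_natCast, map_natCast, ZMod.natCast_zmod_val,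
    ZMod.natCast_zmod_val, add_comm, hxy]

end arith

section mats

variable {R : Type*} [CommRing R]

/-- the discriminant of the characteristic polynomial -/
def dm (M : Matrix (Fin 2) (Fin 2) R) : R := M.trace ^ 2 - 4 * M.det

/-- the discriminant of `g⁻¹ s ^ m g s ^ n` -/
theorem dm_conj {M N : Matrix (Fin 2) (Fin 2) R} {A B C D u v p q : R}
    (hM : M = !![A, B; C, D]) (hN : M * N = !![u, 0; 0, v] * M * !![p, 0; 0, q]) :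
    M.det ^ 2 * dm N = M.det ^ 2 * (p * u - q * v) ^ 2 +
      2 * M.det * (B * C) * (p * u + q * v) * (p - q) * (u - v) +
        (B * C) ^ 2 * (p - q) ^ 2 * (u - v) ^ 2 := by
  have hdet : M.det = A * D - B * C := by rw [hM, Matrix.det_fin_two_of]
  have h1 : M.det • N = M.adjugate * (!![u, 0; 0, v] * M * !![p, 0; 0, q]) := by
    rw [← hN, ← mul_assoc, Matrix.adjugate_mul, Matrix.smul_mul, one_mul]
  have htr : M.det * N.trace = (A * D) * (p * u + q * v) - (B * C) * (p * v + q * u) := by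
    have h2 := congrArg Matrix.trace h1
    rw [Matrix.trace_smul, smul_eq_mul] at h2
    rw [h2, hM, Matrix.adjugate_fin_two_of]
    simp [Matrix.trace_fin_two]
    ring
  have hdt : M.det * N.det = M.det * (u * v * (p * q)) := by
    have h2 := congrArg Matrix.det hN
    rw [Matrix.det_mul, Matrix.det_mul, Matrix.det_mul, Matrix.det_fin_two_of,
      Matrix.det_fin_two_of] at h2
    rw [h2]
    ring
  have h3 : M.det ^ 2 * dm N = (M.det * N.trace) ^ 2 - 4 * M.det * (M.det * N.det) := by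
    unfold dm
    ring
  rw [h3, htr, hdt, hdet]
  ring

end mats

end Pool.Agent.D0H1.SF
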