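import Pool.Agent.D0H1.SF.RGrp

/-!
# The group theoretic contradiction
-/

set_option autoImplicit false
set_option linter.unusedSectionVars false

namespace Pool.Agent.D0H1.SF

open Module Matrix Filter Topology

variable {ℓ : ℕ} [hℓ : Fact ℓ.Prime]

/-- powers of a unit tend to one -/
theorem exists_pow_tendsto {τ : ℤ_[ℓ]} (hτ : IsUnit τ) (hne : ∀ k : ℕ, 0 < k → τ ^ k ≠ 1) :
    ∃ k : ℕ → ℕ, (∀ N, τ ^ k N - 1 ≠ 0) ∧ Tendsto (fun N => τ ^ k N - 1) atTop (𝓝 0) := by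
  have hℓ1 : 0 < ℓ - 1 := by have := hℓ.out.two_le; omega
  refine ⟨fun N => (ℓ - 1) * ℓ ^ N, fun N => ?_, ?_⟩
  · exact sub_ne_zero.2 (hne _ (Nat.mul_pos hℓ1 (pow_pos hℓ.out.pos _)))
  · have h1 : (ℓ : ℤ_[ℓ]) ∣ τ ^ (ℓ - 1) - 1 := by
      rw [← Ideal.mem_span_singleton, ← PadicInt.maximalIdeal_eq_span_p, ← PadicInt.ker_toZMod,
        RingHom.mem_ker, map_sub, map_pow, map_one, sub_eq_zero]
      apply ZMod.pow_card_sub_one_eq_one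
      exact (hτ.map (PadicInt.toZMod (p := ℓ))).ne_zero
    have h2 : ∀ N : ℕ, ‖τ ^ ((ℓ - 1) * ℓ ^ N) - 1‖ ≤ (ℓ : ℝ) ^ (-(N + 1 : ℕ) : ℤ) := by
      intro N
      rw [PadicInt.norm_le_pow_iff_mem_span_pow, Ideal.mem_span_singleton]
      have h3 := dvd_sub_pow_of_dvd_sub h1 N
      rwa [one_pow, ← pow_mul] at h3
    rw [tendsto_zero_iff_norm_tendsto_zero]
    refine squeeze_zero (fun N => norm_nonneg _) h2 ?_
    have h4 : Tendsto (fun N : ℕ => ((ℓ : ℝ)⁻¹) ^ (N + 1)) atTop (𝓝 0) := by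
      refine (tendsto_pow_atTop_nhds_zero_of_lt_one (by positivity) ?_).comp (tendsto_add_atTop_nat 1)
      exact inv_lt_one_of_one_lt₀ (by exact_mod_cast hℓ.out.one_lt)
    refine h4.congr fun N => ?_
    rw [_root_.zpow_neg, zpow_natCast, inv_pow]

theorem group_core (h2 : ℓ ≠ 2) {G : Type*} [Group G] {ρ : G →* GL (Fin 2) ℤ_[ℓ]} {s : G}
    {a₁ a₂ : ℤ_[ℓ]} (hs : (ρ s : Matrix (Fin 2) (Fin 2) ℤ_[ℓ]) = !![a₁, 0; 0, a₂])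
    (hk : ∀ k : ℕ, 0 < k → a₁ ^ k ≠ a₂ ^ k)
    (hBC : ∀ g, ‖(ρ g : Matrix (Fin 2) (Fin 2) ℤ_[ℓ]) 0 1 *
      (ρ g : Matrix (Fin 2) (Fin 2) ℤ_[ℓ]) 1 0‖ < 1)
    (hB : ∃ g, (ρ g : Matrix (Fin 2) (Fin 2) ℤ_[ℓ]) 0 1 ≠ 0)
    (hC : ∃ g, (ρ g : Matrix (Fin 2) (Fin 2) ℤ_[ℓ]) 1 0 ≠ 0)
    (hsq : ∀ g, ∃ e : ℤ_[ℓ], e ^ 2 = dm (ρ g : Matrix (Fin 2) (Fin 2) ℤ_[ℓ])) : False := by
  have hdet : ∀ g, IsUnit (ρ g : Matrix (Fin 2) (Fin 2) ℤ_[ℓ]).det := fun g =>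
    (Matrix.isUnit_iff_isUnit_det _).1 (ρ g).isUnit
  have hAD : ∀ g, (ρ g : Matrix (Fin 2) (Fin 2) ℤ_[ℓ]) 0 0 *
      (ρ g : Matrix (Fin 2) (Fin 2) ℤ_[ℓ]) 1 1 ≠ 0 := by
    intro g h0
    have h1 := hdet g
    rw [Matrix.det_fin_two, h0, zero_sub] at h1
    have h3 := PadicInt.isUnit_iff.1 h1
    rw [norm_neg] at h3
    exact (hBC g).ne h3
  obtain ⟨g, hg⟩ : ∃ g, (ρ g : Matrix (Fin 2) (Fin 2) ℤ_[ℓ]) 0 1 *
      (ρ g : Matrix (Fin 2) (Fin 2) ℤ_[ℓ]) 1 0 ≠ 0 := by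
    obtain ⟨g₁, h1⟩ := hB
    obtain ⟨g₂, h3⟩ := hC
    by_contra hcon
    push Not at hcon
    have h4 : (ρ g₁ : Matrix (Fin 2) (Fin 2) ℤ_[ℓ]) 1 0 = 0 :=
      (mul_eq_zero.1 (hcon g₁)).resolve_left h1
    have h5 : (ρ g₂ : Matrix (Fin 2) (Fin 2) ℤ_[ℓ]) 0 1 = 0 :=
      (mul_eq_zero.1 (hcon g₂)).resolve_right h3
    have h6 := hcon (g₁ * g₂)
    rw [map_mul, Units.val_mul, Matrix.mul_apply, Matrix.mul_apply, Fin.sum_univ_two,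
      Fin.sum_univ_two, h4, h5, mul_zero, zero_add, zero_mul, zero_add] at h6
    have h7 := hAD g₁
    have h8 := hAD g₂
    rcases mul_eq_zero.1 h6 with h9 | h9
    · rcases mul_eq_zero.1 h9 with h10 | h10
      · exact h1 h10
      · exact h8 (by rw [h10, mul_zero])
    · rcases mul_eq_zero.1 h9 with h10 | h10
      · exact h7 (by rw [h10, mul_zero])
      · exact h3 h10
  have hdets : IsUnit (a₁ * a₂) := by
    have h1 := hdet s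
    rw [hs, Matrix.det_fin_two_of, mul_zero, sub_zero] at h1
    exact h1
  have ha₁ : IsUnit a₁ := isUnit_of_mul_isUnit_left hdets
  have ha₂ : IsUnit a₂ := isUnit_of_mul_isUnit_right hdets
  obtain ⟨b₂, hb₂⟩ := ha₂
  obtain ⟨τ, hτ⟩ : ∃ τ : ℤ_[ℓ], a₁ = τ * a₂ := ⟨a₁ * (b₂⁻¹ : ℤ_[ℓ]ˣ), by
    rw [← hb₂, mul_assoc, Units.inv_mul, mul_one]⟩
  have hτu : IsUnit τ := by
    rw [hτ] at ha₁
    exact isUnit_of_mul_isUnit_left ha₁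
  have ha₂0 : a₂ ≠ 0 := by rw [← hb₂]; exact b₂.ne_zero
  have hτk : ∀ k : ℕ, 0 < k → τ ^ k ≠ 1 := by
    intro k hk0 h1
    apply hk k hk0
    rw [hτ, mul_pow, h1, one_mul]
  set M : Matrix (Fin 2) (Fin 2) ℤ_[ℓ] := (ρ g : Matrix (Fin 2) (Fin 2) ℤ_[ℓ]) with hM
  set B := M 0 1 with hBd
  set C := M 1 0 with hCd
  set Δ := M.det with hΔd
  set K := B * C with hKd
  have hspow : ∀ m : ℕ, ((ρ (s ^ m) : GL (Fin 2) ℤ_[ℓ]) : Matrix (Fin 2) (Fin 2) ℤ_[ℓ]) =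
      !![a₁ ^ m, 0; 0, a₂ ^ m] := by
    intro m
    rw [map_pow, Units.val_pow_eq_pow_val, hs]
    have h1 : !![a₁, 0; 0, a₂] = Matrix.diagonal ![a₁, a₂] := by
      ext i j
      fin_cases i <;> fin_cases j <;> simp
    rw [h1, Matrix.diagonal_pow]
    ext i j
    fin_cases i <;> fin_cases j <;> simp
  have hform : ∀ m n : ℕ, ∃ e : ℤ_[ℓ], e ^ 2 = Δ ^ 2 * (τ ^ n * τ ^ m - 1) ^ 2 +
      2 * Δ * K * (τ ^ n * τ ^ m + 1) * (τ ^ n - 1) * (τ ^ m - 1) +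
        K ^ 2 * (τ ^ n - 1) ^ 2 * (τ ^ m - 1) ^ 2 := by
    intro m n
    obtain ⟨e, he⟩ := hsq (g⁻¹ * s ^ m * g * s ^ n)
    have h1 := dm_conj (M := M)
      (N := (ρ (g⁻¹ * s ^ m * g * s ^ n) : Matrix (Fin 2) (Fin 2) ℤ_[ℓ]))
      (A := M 0 0) (B := B) (C := C) (D := M 1 1) (u := a₁ ^ m) (v := a₂ ^ m) (p := a₁ ^ n)
      (q := a₂ ^ n) (Matrix.eta_fin_two M) (by
        rw [← hspow, ← hspow, hM, ← Units.val_mul, ← Units.val_mul, ← Units.val_mul, ← map_mul,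
          ← map_mul, ← map_mul]
        congr 2
        group)
    refine sq_of_mul (c := a₂ ^ n * a₂ ^ m)
      (mul_ne_zero (pow_ne_zero _ ha₂0) (pow_ne_zero _ ha₂0)) ⟨Δ * e, ?_⟩
    rw [mul_pow, he, h1, hτ, mul_pow, mul_pow]
    ring
  -- the limit
  obtain ⟨k, hk0, hkt⟩ := exists_pow_tendsto hτu hτk
  have hnat : ∀ a b : ℕ, ∃ e : ℤ_[ℓ], e ^ 2 =
      Δ ^ 2 * ((a : ℤ_[ℓ]) + b) ^ 2 + 4 * Δ * K * a * b := by
    intro a b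
    let α : ℤ_[ℓ] → ℤ_[ℓ] := fun θ => ∑ i ∈ Finset.range a, (1 + θ) ^ i
    let β : ℤ_[ℓ] → ℤ_[ℓ] := fun θ => ∑ i ∈ Finset.range b, (1 + θ) ^ i
    let Ψ : ℤ_[ℓ] → ℤ_[ℓ] := fun θ => Δ ^ 2 * (α θ + β θ + θ * α θ * β θ) ^ 2 +
      2 * Δ * K * ((1 + θ) ^ a * (1 + θ) ^ b + 1) * α θ * β θ +
        K ^ 2 * θ ^ 2 * α θ ^ 2 * β θ ^ 2
    have hαc : Continuous α := by fun_prop
    have hβc : Continuous β := by fun_prop
    have hΨc : Continuous Ψ := by fun_prop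
    have hα : ∀ θ, (1 + θ) ^ a = 1 + θ * α θ := by
      intro θ
      have h1 := geom_sum_mul (1 + θ) a
      rw [add_sub_cancel_left] at h1
      show (1 + θ) ^ a = 1 + θ * ∑ i ∈ Finset.range a, (1 + θ) ^ i
      linear_combination (-1) * h1
    have hβ : ∀ θ, (1 + θ) ^ b = 1 + θ * β θ := by
      intro θ
      have h1 := geom_sum_mul (1 + θ) b
      rw [add_sub_cancel_left] at h1
      show (1 + θ) ^ b = 1 + θ * ∑ i ∈ Finset.range b, (1 + θ) ^ i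
      linear_combination (-1) * h1
    have hmem : ∀ N, Ψ (τ ^ k N - 1) ∈ {x : ℤ_[ℓ] | ∃ e : ℤ_[ℓ], e ^ 2 = x} := by
      intro N
      obtain ⟨e, he⟩ := hform (k N * b) (k N * a)
      refine sq_of_mul (hk0 N) ⟨e, ?_⟩
      rw [he, pow_mul, pow_mul]
      set θ := τ ^ k N - 1 with hθ
      have h1 : τ ^ k N = 1 + θ := by rw [hθ]; ring
      rw [h1]
      show _ = θ ^ 2 * (Δ ^ 2 * (α θ + β θ + θ * α θ * β θ) ^ 2 +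
        2 * Δ * K * ((1 + θ) ^ a * (1 + θ) ^ b + 1) * α θ * β θ +
        K ^ 2 * θ ^ 2 * α θ ^ 2 * β θ ^ 2)
      rw [hα, hβ]
      ring
    have h0 : Ψ 0 ∈ {x : ℤ_[ℓ] | ∃ e : ℤ_[ℓ], e ^ 2 = x} :=
      closed_sq.mem_of_tendsto (hΨc.continuousAt.tendsto.comp hkt)
        (Eventually.of_forall hmem)
    obtain ⟨e, he⟩ := h0
    refine ⟨e, he.trans ?_⟩
    show Δ ^ 2 * (α 0 + β 0 + 0 * α 0 * β 0) ^ 2 +
      2 * Δ * K * ((1 + 0) ^ a * (1 + 0) ^ b + 1) * α 0 * β 0 +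
        K ^ 2 * 0 ^ 2 * α 0 ^ 2 * β 0 ^ 2 = _
    have h1 : α 0 = a := by
      show ∑ i ∈ Finset.range a, (1 + 0 : ℤ_[ℓ]) ^ i = a
      simp
    have h3 : β 0 = b := by
      show ∑ i ∈ Finset.range b, (1 + 0 : ℤ_[ℓ]) ^ i = b
      simp
    rw [h1, h3]
    simp only [add_zero, one_pow]
    ring
  have hall : ∀ a b : ℤ_[ℓ], ∃ e : ℤ_[ℓ], e ^ 2 =
      Δ ^ 2 * (a + b) ^ 2 + 4 * Δ * K * a * b := by
    intro a b
    refine (PadicInt.denseRange_natCast (p := ℓ)).induction_on₂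
      (p := fun a b => ∃ e : ℤ_[ℓ], e ^ 2 = Δ ^ 2 * (a + b) ^ 2 + 4 * Δ * K * a * b) ?_ ?_ a b
    · exact closed_sq.preimage (f := fun x : ℤ_[ℓ] × ℤ_[ℓ] =>
        Δ ^ 2 * (x.1 + x.2) ^ 2 + 4 * Δ * K * x.1 * x.2) (by fun_prop)
    · intro a b
      exact hnat a b
  exact no_form h2 (hdet g) hg (hBC g) hall

end Pool.Agent.D0H1.SF
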