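import Pool.Agent.D0H1.SF.RCore
import Pool.Agent.R390.SF.Main

/-!
# Systems without algebraic eigenvalues are irreducible
-/

set_option autoImplicit false
set_option linter.unusedSectionVars false

namespace Pool.Agent.D0H1.SF

open Module Matrix Polynomial NumberField Pool.Agent.Y800 Pool.Agent.R390.SF
open Pool.Agent.R390.SF.IntegralSystem
open Pool.Agent.Y126.SH (chi)

variable {F : SubFld ℚ} [hF : FiniteDimensional ℚ F] {n : ℕ} {S : Finset ℕ} {w : ℕ} {h : ℕ → ℕ}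
  {T : IntegralSystem F n}

theorem weightSum_le {d c : ℕ} (H : IsWeightSum w h d c) : c ≤ w * d := by
  obtain ⟨m, -, h2, rfl⟩ := H
  calc ∑ r ∈ Finset.range (w + 1), r * m r ≤ ∑ r ∈ Finset.range (w + 1), w * m r := by
        refine Finset.sum_le_sum fun r hr => Nat.mul_le_mul_right _ ?_
        exact Nat.lt_succ_iff.1 (Finset.mem_range.1 hr)
    _ = w * d := by rw [← Finset.mul_sum, h2]

theorem rational_type (hT : T.GoodSystem S w) {ℓ : ℕ} [hℓ : Fact ℓ.Prime] {d : ℕ}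
    {a : (F →+* AlgebraicClosure ℚ) → ℕ} (hl : IsLocal ℓ a) (ha : ∀ τ, IsWeightSum w h d (a τ))
    (ht : TypeAt S ℓ (AlgebraicClosure ℚ_[ℓ]) T d a) : HasAlgebraicEigenvalue S w h ℓ T d := by
  obtain ⟨π, hπ⟩ := ht
  refine ⟨a, hl, ha, ?_⟩
  intro p hp hpS hpℓ 𝔭 h𝔭 x m hx
  obtain ⟨A, hA, hAc, hAp⟩ := hπ p hp hpS hpℓ 𝔭 h𝔭 x m hx
  obtain ⟨M, hM0, hM⟩ := lift_one (hT.good p hp hpS 𝔭 h𝔭.1 h𝔭.2).monic one_ne_zero
    (typePow a x) (2 * m) 2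
  obtain ⟨s, h1, h2, h3⟩ := (hM (AlgebraicClosure ℚ_[ℓ]) π (by exact_mod_cast hM0)).1 A hA hAp
  exact ⟨s, h1, h2.trans hAc, h3⟩

theorem residual_bound (hT : T.GoodSystem S w) (d : ℕ) (a : (F →+* AlgebraicClosure ℚ) → ℕ)
    (ha : ∀ τ, IsWeightSum w h d (a τ)) :
    ∃ N : ℕ, ∀ (ℓ : ℕ) [Fact ℓ.Prime], N < ℓ → IsLocal ℓ a →
      TypeAt S ℓ (AlgebraicClosure (ZMod ℓ)) T d a → HasAlgebraicEigenvalue S w h ℓ T d := by
  by_cases h1 : ∃ p : ℕ, p.Prime ∧ p ∉ S ∧ ∃ 𝔭 : Idl F, Above p 𝔭 ∧ ∃ (x : 𝓞 F) (m : ℕ),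
      𝔭 ^ m = Ideal.span {x} ∧ ∀ s ≤ (T.poly 𝔭).aroots (AlgebraicClosure ℚ),
        Multiset.card s = d → s.prod ^ (2 * m) ≠ (typePow a x : AlgebraicClosure ℚ) ^ 2
  swap
  · push Not at h1
    refine ⟨0, fun ℓ _ _ hl _ => ⟨a, hl, ha, ?_⟩⟩
    intro p hp hpS _ 𝔭 h𝔭 x m hx
    exact h1 p hp hpS 𝔭 h𝔭 x m hx
  obtain ⟨p, hp, hpS, 𝔭, h𝔭, x, m, hx, hs⟩ := h1
  obtain ⟨M, hM0, hM⟩ := lift_one (hT.good p hp hpS 𝔭 h𝔭.1 h𝔭.2).monic one_ne_zero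
    (typePow a x) (2 * m) 2
  refine ⟨max p M.natAbs, fun ℓ hℓ hlt _ ht => ?_⟩
  rw [max_lt_iff] at hlt
  obtain ⟨π, hπ⟩ := ht
  obtain ⟨A, hA, hAc, hAp⟩ := hπ p hp hpS (by omega) 𝔭 h𝔭 x m hx
  have hM1 : (M : AlgebraicClosure (ZMod ℓ)) ≠ 0 := by
    rw [← map_intCast (algebraMap (ZMod ℓ) (AlgebraicClosure (ZMod ℓ)))]
    exact (_root_.map_ne_zero _).2 (ne_zero_mod hM0 hlt.2)
  obtain ⟨s, h1, h2, h3⟩ := (hM (AlgebraicClosure (ZMod ℓ)) π hM1).1 A hA hAp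
  exact absurd h3 (hs s h1 (h2.trans hAc))

/-- the stable subspaces of `V_ℓ` -/
theorem rational_stable (hT : ReciprocalSystem S w h T) {ℓ : ℕ} [hℓ : Fact ℓ.Prime]
    {U : Submodule ℚ_[ℓ] (Fin n → ℚ_[ℓ])} (hU : IsStable (T.rat ℓ) U) :
    HasAlgebraicEigenvalue S w h ℓ T (finrank ℚ_[ℓ] U) := by
  obtain ⟨a, hl, ha, ht⟩ := sub_type (algebraMap ℤ_[ℓ] ℚ_[ℓ]) hT.toGoodSystem (hT.weights ℓ)
    (hT.rationalReciprocity ℓ) hU
  exact rational_type hT.toGoodSystem hl ha ht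

/-- the stable subspaces of `T_ℓ / ℓ` -/
theorem residual_stable (hT : ReciprocalSystem S w h T) : ∃ N : ℕ, ∀ (ℓ : ℕ) [Fact ℓ.Prime],
    N < ℓ → ∀ U : Submodule (ZMod ℓ) (Fin n → ZMod ℓ), IsStable (T.res ℓ) U →
      HasAlgebraicEigenvalue S w h ℓ T (finrank (ZMod ℓ) U) := by
  classical
  have hnf : NumberField F := numberField
  have hN : ∀ (d : ℕ) (a : (F →+* AlgebraicClosure ℚ) → ℕ), ∃ N : ℕ,
      (∀ τ, IsWeightSum w h d (a τ)) → ∀ (ℓ : ℕ) [Fact ℓ.Prime], N < ℓ → IsLocal ℓ a →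
        TypeAt S ℓ (AlgebraicClosure (ZMod ℓ)) T d a → HasAlgebraicEigenvalue S w h ℓ T d := by
    intro d a
    by_cases hd : ∀ τ, IsWeightSum w h d (a τ)
    · obtain ⟨N, hN⟩ := residual_bound hT.toGoodSystem d a hd
      exact ⟨N, fun _ => hN⟩
    · exact ⟨0, fun h3 => absurd h3 hd⟩
  choose N hN using hN
  obtain ⟨N₁, hN₁⟩ := hT.residualWeights
  obtain ⟨N₂, hN₂⟩ := hT.residualReciprocity
  let X : Finset (ℕ × ((F →+* AlgebraicClosure ℚ) → ℕ)) := Finset.range (n + 1) ×ˢ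
    Fintype.piFinset (fun _ : (F →+* AlgebraicClosure ℚ) => Finset.range (w * n + 1))
  refine ⟨max (max N₁ N₂) (X.sup fun x => N x.1 x.2), ?_⟩
  intro ℓ hℓ hlt U hU
  rw [max_lt_iff, max_lt_iff] at hlt
  have h2 : finrank (ZMod ℓ) U ≤ n := by
    have := Submodule.finrank_le U
    rwa [finrank_fin_fun] at this
  obtain ⟨a, hl, ha, ht⟩ := sub_type (PadicInt.toZMod (p := ℓ)) hT.toGoodSystem (hN₁ ℓ hlt.1.1)
    (hN₂ ℓ hlt.1.2) hU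
  refine hN (finrank (ZMod ℓ) U) a ha ℓ (lt_of_le_of_lt ?_ hlt.2) hl ht
  refine Finset.le_sup (f := fun x : ℕ × ((F →+* AlgebraicClosure ℚ) → ℕ) => N x.1 x.2)
    (b := (finrank (ZMod ℓ) U, a)) ?_
  rw [Finset.mem_product, Fintype.mem_piFinset]
  refine ⟨Finset.mem_range.2 (by omega), fun τ => Finset.mem_range.2 (Nat.lt_succ_of_le ?_)⟩
  exact (weightSum_le (ha τ)).trans (Nat.mul_le_mul_left _ h2)

end Pool.Agent.D0H1.SF
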