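import Pool.Agent.D0H1.SF.RDec

/-!
# The Frobenius eigenvalues of the systems of CM type are rational over `ℚ_ℓ`
-/

set_option autoImplicit false
set_option linter.unusedSectionVars false

namespace Pool.Agent.D0H1.SF

open Module Matrix Polynomial NumberField Pool.Agent.Y800 Pool.Agent.R390.SF
open Pool.Agent.R390.SF.IntegralSystem

variable {F : SubFld ℚ} [hF : FiniteDimensional ℚ F] {S : Finset ℕ} {w r ℓ : ℕ}
  {T : IntegralSystem F 2}

/-- **At the places of degree one the quotient of the eigenvalues is not a root of unity.** -/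
theorem cm_root (hr : 2 * r < w) (hT : T.GoodSystem S w) {a : (F →+* AlgebraicClosure ℚ) → ℕ}
    (ha : ∀ τ, a τ = r ∨ a τ = w - r)
    (hE : ∀ p : ℕ, p.Prime → p ∉ S → p ≠ ℓ → ∀ 𝔭 : Idl F, Above p 𝔭 →
      ∀ (x : 𝓞 F) (m : ℕ), 𝔭 ^ m = Ideal.span {x} →
        ∃ z ∈ (T.poly 𝔭).aroots (AlgebraicClosure ℚ),
          z ^ (2 * m) = (typePow a x : AlgebraicClosure ℚ) ^ 2)
    {q : ℕ} (hq : q.Prime) (hqS : q ∉ S) (hqℓ : q ≠ ℓ) {P : Ideal ZBar} (hP : P.IsMaximal)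
    (hqP : (q : ZBar) ∈ P) {σ : GQ} (hσ : IsGeomFrob q P σ) (hσF : σ ∈ F.fixingSubgroup)
    (hR : ∀ τ : GQ, (∀ a : 𝓞 F, τ • algebraMap (𝓞 F) ZBar a - algebraMap (𝓞 F) ZBar a ∈ P) →
      τ ∈ F.fixingSubgroup) :
    ∃ (z z' : AlgebraicClosure ℚ) (m : ℕ) (x : 𝓞 F), 0 < m ∧
      z + z' = -((T.poly (P.under (𝓞 F))).coeff 1 : AlgebraicClosure ℚ) ∧
      z * z' = ((T.poly (P.under (𝓞 F))).coeff 0 : AlgebraicClosure ℚ) ∧
      z ^ (2 * m) = (typePow a x : AlgebraicClosure ℚ) ^ 2 ∧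
      ∀ k : ℕ, 0 < k → z ^ k ≠ z' ^ k := by
  classical
  have hnf : NumberField F := numberField
  have hQalg : Algebra.IsAlgebraic ℚ (AlgebraicClosure ℚ) := AlgebraicClosure.isAlgebraic ℚ
  have h𝔮 : (P.under (𝓞 F)).IsMaximal := under_max hP
  have hq𝔮 : (q : 𝓞 F) ∈ P.under (𝓞 F) := by
    rw [mem_under, map_natCast]
    exact hqP
  have h𝔮0 : P.under (𝓞 F) ≠ ⊥ := by
    intro h
    rw [h, Ideal.mem_bot] at hq𝔮
    exact hq.ne_zero (by exact_mod_cast hq𝔮)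
  obtain ⟨m, x, hm, hx⟩ := exists_generator h𝔮0
  obtain ⟨z, hz, hzm⟩ := hE q hq hqS hqℓ _ ⟨h𝔮, hq𝔮⟩ x m hx
  have hgood := hT.good q hq hqS _ h𝔮 hq𝔮
  set Q := T.poly (P.under (𝓞 F)) with hQ
  set N := Nat.card (𝓞 F ⧸ P.under (𝓞 F)) with hN
  -- the equation for the roots
  have heq : ∀ u : AlgebraicClosure ℚ, aeval u Q =
      u ^ 2 + (Q.coeff 1 : AlgebraicClosure ℚ) * u + (Q.coeff 0 : AlgebraicClosure ℚ) := by
    intro u
    rw [aeval_eq_sum_range, hgood.natDegree, Finset.sum_range_succ, Finset.sum_range_succ,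
      Finset.sum_range_succ, Finset.sum_range_zero]
    have h2 : Q.coeff 2 = 1 := by
      have := hgood.monic.coeff_natDegree
      rwa [hgood.natDegree] at this
    rw [h2]
    simp only [zsmul_eq_mul, pow_zero, pow_one, mul_one, Int.cast_one, one_mul, zero_add]
    ring
  have hz2 : z ^ 2 + (Q.coeff 1 : AlgebraicClosure ℚ) * z + (Q.coeff 0 : AlgebraicClosure ℚ) = 0 := by
    rw [← heq]
    exact (mem_aroots.1 hz).2
  refine ⟨z, -(Q.coeff 1 : AlgebraicClosure ℚ) - z, m, x, hm, by ring,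
    by linear_combination (-1) * hz2, hzm, ?_⟩
  intro k hk hzk
  set z' : AlgebraicClosure ℚ := -(Q.coeff 1 : AlgebraicClosure ℚ) - z with hz'
  have hzz : z * z' = (Q.coeff 0 : AlgebraicClosure ℚ) := by
    rw [hz']
    linear_combination (-1) * hz2
  have hz'r : z' ∈ Q.aroots (AlgebraicClosure ℚ) := by
    rw [mem_aroots]
    refine ⟨(mem_aroots.1 hz).1, ?_⟩
    rw [heq, hz']
    linear_combination hz2
  have hc : (Q.coeff 0) ^ 2 = ((N : ℤ) ^ w) ^ 2 := by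
    obtain ⟨ι⟩ : Nonempty (AlgebraicClosure ℚ →+* ℂ) :=
      ⟨(IsAlgClosed.lift (R := ℚ) (S := AlgebraicClosure ℚ) (M := ℂ)).toRingHom⟩
    have key : ∀ u, u ∈ Q.aroots (AlgebraicClosure ℚ) → ‖ι u‖ ^ 2 = (N : ℝ) ^ w := by
      intro u hu
      have h1 : ι u ∈ Q.aroots ℂ := by
        rw [mem_aroots] at hu ⊢
        refine ⟨hu.1, ?_⟩
        have h3 := congrArg ι hu.2
        rw [map_zero, aeval_def, hom_eval₂] at h3
        rw [aeval_def, ← h3]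
        congr 1
        exact Subsingleton.elim _ _
      exact hgood.pure (ι u) h1
    have h1 := congrArg (fun u => ‖ι u‖ ^ 2) hzz
    simp only [map_mul, norm_mul, mul_pow, key z hz, key z' hz'r, map_intCast,
      Complex.norm_intCast, sq_abs] at h1
    have h2 : (((Q.coeff 0) ^ 2 : ℤ) : ℝ) = ((((N : ℤ) ^ w) ^ 2 : ℤ) : ℝ) := by
      push_cast
      rw [← h1]
      ring
    exact_mod_cast h2
  -- the relation between the conjugates
  have hnorm : ((Ideal.absNorm (Ideal.span {x}) : ℕ) : AlgebraicClosure ℚ) =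
      (N : AlgebraicClosure ℚ) ^ m := by
    rw [← hx, map_pow, Ideal.absNorm_apply, Submodule.cardQuot_apply]
    push_cast
    rfl
  have hrel : (∏ τ : F →+* AlgebraicClosure ℚ, τ (x : F)) ^ (2 * (w * k)) =
      (typePow a x : AlgebraicClosure ℚ) ^ (4 * k) := by
    have h1 : (Q.coeff 0 : AlgebraicClosure ℚ) ^ k = z ^ (2 * k) := by
      rw [← hzz, mul_pow, ← hzk, mul_comm 2 k, pow_mul, sq]
    have h2 : (Q.coeff 0 : AlgebraicClosure ℚ) ^ (2 * (k * m)) =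
        (typePow a x : AlgebraicClosure ℚ) ^ (4 * k) := by
      have e1 : (Q.coeff 0 : AlgebraicClosure ℚ) ^ (2 * (k * m)) =
          ((Q.coeff 0 : AlgebraicClosure ℚ) ^ k) ^ (2 * m) := by
        rw [← pow_mul]; congr 1; ring
      have e2 : (z ^ (2 * k)) ^ (2 * m) = (z ^ (2 * m)) ^ (2 * k) := by
        rw [← pow_mul, ← pow_mul]; congr 1; ring
      have e3 : ((typePow a x : AlgebraicClosure ℚ) ^ 2) ^ (2 * k) =
          (typePow a x : AlgebraicClosure ℚ) ^ (4 * k) := by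
        rw [← pow_mul]; congr 1; ring
      rw [e1, h1, e2, hzm, e3]
    have h3 : (Q.coeff 0 : AlgebraicClosure ℚ) ^ 2 = ((N : AlgebraicClosure ℚ) ^ w) ^ 2 := by
      exact_mod_cast congrArg (Int.cast : ℤ → AlgebraicClosure ℚ) hc
    rw [← h2, pow_mul, prod_conj_sq, hnorm, pow_mul (Q.coeff 0 : AlgebraicClosure ℚ), h3]
    ring
  let τ₀ : F →+* AlgebraicClosure ℚ := algebraMap F (AlgebraicClosure ℚ)
  let Y : (F →+* AlgebraicClosure ℚ) → ZBar := fun τ => RingOfIntegers.mapRingHom τ x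
  have hY : ∏ τ, Y τ ^ ((2 * w) * k) = ∏ τ, Y τ ^ ((4 * a τ) * k) := by
    apply RingOfIntegers.ext
    have e1 := map_prod (algebraMap ZBar (AlgebraicClosure ℚ)) (fun τ => Y τ ^ ((2 * w) * k))
      Finset.univ
    have e2 := map_prod (algebraMap ZBar (AlgebraicClosure ℚ)) (fun τ => Y τ ^ ((4 * a τ) * k))
      Finset.univ
    refine e1.trans (Eq.trans ?_ e2.symm)
    have e3 : ∀ τ, algebraMap ZBar (AlgebraicClosure ℚ) (Y τ) = τ (x : F) := fun τ => rfl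
    simp only [map_pow, e3]
    rw [Finset.prod_pow, mul_assoc, hrel, typePow_coe, ← Finset.prod_pow]
    refine Finset.prod_congr rfl fun τ _ => ?_
    rw [← pow_mul]
    congr 1
    ring
  have hY0 : ∀ τ, Y τ ≠ 0 := by
    intro τ h1
    have hx0 : x ≠ 0 := by
      rintro rfl
      rw [Ideal.span_singleton_eq_bot.2 rfl] at hx
      exact h𝔮0 (pow_eq_zero_iff hm.ne' |>.1 hx)
    apply hx0
    apply RingOfIntegers.ext
    apply τ.injective
    have h2 := congrArg (algebraMap ZBar (AlgebraicClosure ℚ)) h1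
    rw [map_zero] at h2
    show τ (x : F) = τ ((0 : 𝓞 F) : F)
    have h3 : ((0 : 𝓞 F) : F) = 0 := rfl
    rw [h3, map_zero]
    exact h2
  have hin : Y τ₀ ∈ P := conj_mem hm hx
  have hout : ∀ τ, τ ≠ τ₀ → Y τ ∉ P := fun τ hτ =>
    conj_not_mem hq hP hqP hσ hσF hR hx τ hτ
  have hPp : P.IsPrime := hP.isPrime
  have hprod : ∀ f : (F →+* AlgebraicClosure ℚ) → ℕ,
      ∏ τ ∈ Finset.univ.erase τ₀, Y τ ^ f τ ∉ P := by
    intro f h1
    obtain ⟨τ, hτ, h2⟩ := Ideal.IsPrime.prod_mem_iff.1 h1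
    exact hout τ (Finset.ne_of_mem_erase hτ) (hPp.mem_of_pow_mem _ h2)
  rw [← Finset.mul_prod_erase _ _ (Finset.mem_univ τ₀),
    ← Finset.mul_prod_erase _ _ (Finset.mem_univ τ₀)] at hY
  have key : ∀ (i j : ℕ) (A B : ZBar), i < j → B ∉ P → Y τ₀ ^ j * A = Y τ₀ ^ i * B → False := by
    intro i j A B hij hB h1
    obtain ⟨k, rfl⟩ : ∃ k, j = i + k := ⟨j - i, by omega⟩
    rw [pow_add, mul_assoc] at h1
    have h2 := mul_left_cancel₀ (pow_ne_zero i (hY0 τ₀)) h1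
    apply hB
    rw [← h2]
    exact P.mul_mem_right _ (P.pow_mem_of_mem hin k (by omega))
  rcases ha τ₀ with h1 | h1
  · exact key _ _ _ _ (Nat.mul_lt_mul_of_pos_right (by omega : 4 * a τ₀ < 2 * w) hk) (hprod _) hY
  · exact key _ _ _ _ (Nat.mul_lt_mul_of_pos_right (by omega : 2 * w < 4 * a τ₀) hk) (hprod _)
      hY.symm

variable [hℓ : Fact ℓ.Prime]

/-- **At the places of degree one the discriminant is a square.** -/
theorem dsc_sq (hr : 2 * r < w) (hT : T.GoodSystem S w) (hCM : IsCMType S r w ℓ T)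
    {q : ℕ} (hq : q.Prime) (hqS : q ∉ S) (hqℓ : q ≠ ℓ) {P : Ideal ZBar} (hP : P.IsMaximal)
    (hqP : (q : ZBar) ∈ P) {σ : GQ} (hσ : IsGeomFrob q P σ) (hσF : σ ∈ F.fixingSubgroup)
    (hR : ∀ τ : GQ, (∀ a : 𝓞 F, τ • algebraMap (𝓞 F) ZBar a - algebraMap (𝓞 F) ZBar a ∈ P) →
      τ ∈ F.fixingSubgroup) :
    ∃ e : ℤ_[ℓ], e ^ 2 = ((dsc (T.poly (P.under (𝓞 F))) : ℤ) : ℤ_[ℓ]) := by
  obtain ⟨a, hl, ha, hE⟩ := hCM
  obtain ⟨Φ, hΦ⟩ := typePow_rat hl
  obtain ⟨z, z', m, x, hm, h1, h2, h3, h4⟩ := cm_root hr hT ha hE hq hqS hqℓ hP hqP hσ hσF hR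
  obtain ⟨y, hy⟩ := hΦ x
  set Q := T.poly (P.under (𝓞 F)) with hQ
  have hsum : Φ z + Φ z' = -((Q.coeff 1 : ℤ) : AlgebraicClosure ℚ_[ℓ]) := by
    rw [← map_add, h1, map_neg, map_intCast]
  have hprod : Φ z * Φ z' = ((Q.coeff 0 : ℤ) : AlgebraicClosure ℚ_[ℓ]) := by
    rw [← map_mul, h2, map_intCast]
  have hδ : (Φ z - Φ z') ^ 2 = ((dsc Q : ℤ) : AlgebraicClosure ℚ_[ℓ]) := by
    rw [dsc]
    push_cast
    have e1 : (Φ z - Φ z') ^ 2 = (Φ z + Φ z') ^ 2 - 4 * (Φ z * Φ z') := by ring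
    rw [e1, hsum, hprod]
    ring
  have hG : IsGalois ℚ_[ℓ] (AlgebraicClosure ℚ_[ℓ]) := inferInstance
  have hmem : Φ z - Φ z' ∈ Set.range (algebraMap ℚ_[ℓ] (AlgebraicClosure ℚ_[ℓ])) := by
    rw [InfiniteGalois.mem_range_algebraMap_iff_fixed]
    intro σ
    by_contra hne
    have e1 : (σ (Φ z - Φ z')) ^ 2 = (Φ z - Φ z') ^ 2 := by
      rw [← map_pow, hδ, map_intCast]
    have e2 : σ (Φ z - Φ z') = -(Φ z - Φ z') := (sq_eq_sq_iff_eq_or_eq_neg.1 e1).resolve_left hne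
    have e3 : σ (Φ z) = Φ z' := by
      have e4 : σ (2 * Φ z) = 2 * Φ z' := by
        have e5 : 2 * Φ z = (Φ z + Φ z') + (Φ z - Φ z') := by ring
        rw [e5, map_add, e2, hsum, map_neg, map_intCast, ← hsum]
        ring
      rw [map_mul, map_ofNat] at e4
      exact mul_left_cancel₀ two_ne_zero e4
    have e6 : (Φ z') ^ (2 * m) = (Φ z) ^ (2 * m) := by
      rw [← e3, ← map_pow σ, ← map_pow Φ, h3, map_pow Φ, ← hy, ← map_pow (algebraMap _ _),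
        AlgEquiv.commutes]
    rw [← map_pow, ← map_pow] at e6
    exact h4 (2 * m) (by omega) (Φ.injective e6).symm
  obtain ⟨e, he⟩ := hmem
  have he2 : e ^ 2 = ((dsc Q : ℤ) : ℚ_[ℓ]) := by
    apply (algebraMap ℚ_[ℓ] (AlgebraicClosure ℚ_[ℓ])).injective
    rw [map_pow, he, hδ, map_intCast]
  have hnorm : ‖e‖ ≤ 1 := by
    have e1 : ‖e‖ ^ 2 ≤ 1 := by
      rw [← norm_pow, he2]
      exact Padic.norm_int_le_one _
    exact (sq_le_one_iff₀ (norm_nonneg _)).1 e1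
  let e' : ℤ_[ℓ] := ⟨e, hnorm⟩
  refine ⟨e', ?_⟩
  apply PadicInt.ext
  rw [PadicInt.coe_pow, PadicInt.coe_intCast]
  exact he2

/-- the quotients of the eigenvalues in `ℤ_ℓ` -/
theorem eig_ne (hr : 2 * r < w) (hT : T.GoodSystem S w) (hCM : IsCMType S r w ℓ T)
    {q : ℕ} (hq : q.Prime) (hqS : q ∉ S) (hqℓ : q ≠ ℓ) {P : Ideal ZBar} (hP : P.IsMaximal)
    (hqP : (q : ZBar) ∈ P) {σ : GQ} (hσ : IsGeomFrob q P σ) (hσF : σ ∈ F.fixingSubgroup)
    (hR : ∀ τ : GQ, (∀ a : 𝓞 F, τ • algebraMap (𝓞 F) ZBar a - algebraMap (𝓞 F) ZBar a ∈ P) →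
      τ ∈ F.fixingSubgroup) {b c : ℤ_[ℓ]}
    (hb : b + c = -(((T.poly (P.under (𝓞 F))).coeff 1 : ℤ) : ℤ_[ℓ]))
    (hc : b * c = (((T.poly (P.under (𝓞 F))).coeff 0 : ℤ) : ℤ_[ℓ])) (k : ℕ) (hk : 0 < k) :
    b ^ k ≠ c ^ k := by
  obtain ⟨a, hl, ha, hE⟩ := hCM
  obtain ⟨Φ, -⟩ := typePow_rat hl
  obtain ⟨z, z', m, x, hm, h1, h2, h3, h4⟩ := cm_root hr hT ha hE hq hqS hqℓ hP hqP hσ hσF hR
  set Q := T.poly (P.under (𝓞 F)) with hQ
  have hsum : Φ z + Φ z' = -((Q.coeff 1 : ℤ) : AlgebraicClosure ℚ_[ℓ]) := by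
    rw [← map_add, h1, map_neg, map_intCast]
  have hprod : Φ z * Φ z' = ((Q.coeff 0 : ℤ) : AlgebraicClosure ℚ_[ℓ]) := by
    rw [← map_mul, h2, map_intCast]
  let ι : ℤ_[ℓ] →+* AlgebraicClosure ℚ_[ℓ] :=
    (algebraMap ℚ_[ℓ] (AlgebraicClosure ℚ_[ℓ])).comp (algebraMap ℤ_[ℓ] ℚ_[ℓ])
  have hb' : ι b + ι c = Φ z + Φ z' := by
    rw [← map_add, hb, map_neg, map_intCast, hsum]
  have hc' : ι b * ι c = Φ z * Φ z' := by
    rw [← map_mul, hc, map_intCast, hprod]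
  have h5 : (ι b - Φ z) * (ι b - Φ z') = 0 := by
    linear_combination ι b * hb' - hc'
  intro hbc
  have h6 := congrArg ι hbc
  rw [map_pow, map_pow] at h6
  rcases mul_eq_zero.1 h5 with h7 | h7
  · have e1 : ι b = Φ z := sub_eq_zero.1 h7
    have e2 : ι c = Φ z' := by
      rw [e1] at hb'
      exact add_left_cancel hb'
    rw [e1, e2, ← map_pow, ← map_pow] at h6
    exact h4 k hk (Φ.injective h6)
  · have e1 : ι b = Φ z' := sub_eq_zero.1 h7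
    have e2 : ι c = Φ z := by
      rw [e1, add_comm] at hb'
      exact add_right_cancel hb'
    rw [e1, e2, ← map_pow, ← map_pow] at h6
    exact h4 k hk (Φ.injective h6).symm

end Pool.Agent.D0H1.SF
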