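import Pool.Agent.D0H1.SF.RFrob
import Pool.Agent.D0H1.SF.RCon
import Pool.Agent.D0H1.SF.RSq
import Pool.Agent.R390.SF.Fal

/-!
# Irreducible representations of CM type are irreducible modulo `ℓ` for large `ℓ`
-/

set_option autoImplicit false
set_option linter.unusedSectionVars false

namespace Pool.Agent.D0H1.SF

open Module Matrix Polynomial NumberField Pool.Agent.Y800 Pool.Agent.R390.SF
open Pool.Agent.R390.SF.IntegralSystem

section lines

variable {G : Type} [Group G] {k : Type} [Field k]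

/-- stable lines -/
theorem line_scalar {ρ : G →* GL (Fin 2) k} {U : Submodule k (Fin 2 → k)} (hU : IsStable ρ U)
    (h0 : U ≠ ⊥) (h1 : U ≠ ⊤) : ∃ u ∈ U, u ≠ 0 ∧
      ∀ g, ∃ t : k, ∀ v ∈ U, (ρ g : Matrix (Fin 2) (Fin 2) k).mulVec v = t • v := by
  have h2 : 0 < finrank k U := Submodule.one_le_finrank_iff.2 h0
  have h3 : finrank k U < 2 := by
    have := Submodule.finrank_lt (Ne.lt_top h1).ne
    rwa [finrank_fin_fun] at this
  obtain ⟨u, hu0, hu⟩ := finrank_eq_one_iff'.1 (by omega : finrank k U = 1)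
  refine ⟨u, u.2, fun h4 => hu0 (Subtype.ext h4), fun g => ?_⟩
  obtain ⟨l, hl⟩ := hu ⟨(ρ g : Matrix (Fin 2) (Fin 2) k).mulVec u, hU g u u.2⟩
  have hl' : (ρ g : Matrix (Fin 2) (Fin 2) k).mulVec (u : Fin 2 → k) = l • (u : Fin 2 → k) :=
    (congrArg Subtype.val hl).symm
  refine ⟨l, fun v hv => ?_⟩
  obtain ⟨c, hc⟩ := hu ⟨v, hv⟩
  have hc' : c • (u : Fin 2 → k) = v := congrArg Subtype.val hc
  rw [← hc', Matrix.mulVec_smul, hl', smul_comm]

/-- the image is commutative if the representation is reducible and semisimple -/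
theorem comm_of_line {ρ : G →* GL (Fin 2) k} (hss : Semis ρ) {U : Submodule k (Fin 2 → k)}
    (hU : IsStable ρ U) (h0 : U ≠ ⊥) (h1 : U ≠ ⊤) (g g' : G) : ρ g * ρ g' = ρ g' * ρ g := by
  obtain ⟨W, hW, hUW⟩ := hss U hU
  have hW0 : W ≠ ⊥ := by
    rintro rfl
    exact h1 (by simpa using hUW.sup_eq_top)
  have hW1 : W ≠ ⊤ := by
    rintro rfl
    exact h0 (by simpa using hUW.inf_eq_bot)
  have key : ∀ {X : Submodule k (Fin 2 → k)}, IsStable ρ X → X ≠ ⊥ → X ≠ ⊤ → ∀ v ∈ X,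
      (ρ g : Matrix (Fin 2) (Fin 2) k).mulVec ((ρ g' : Matrix (Fin 2) (Fin 2) k).mulVec v) =
        (ρ g' : Matrix (Fin 2) (Fin 2) k).mulVec ((ρ g : Matrix (Fin 2) (Fin 2) k).mulVec v) := by
    intro X hX hX0 hX1 v hv
    obtain ⟨-, -, -, hl⟩ := line_scalar hX hX0 hX1
    obtain ⟨t, ht⟩ := hl g
    obtain ⟨t', ht'⟩ := hl g'
    rw [ht' v hv, ht v hv, Matrix.mulVec_smul, Matrix.mulVec_smul, ht v hv, ht' v hv, smul_comm]
  apply Units.ext
  rw [Units.val_mul, Units.val_mul]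
  apply Matrix.ext_of_mulVec_single
  intro i
  have h2 : (Pi.single i 1 : Fin 2 → k) ∈ U ⊔ W := by
    rw [hUW.sup_eq_top]
    exact Submodule.mem_top
  obtain ⟨a, ha, b, hb, hab⟩ := Submodule.mem_sup.1 h2
  rw [← hab, ← Matrix.mulVec_mulVec, ← Matrix.mulVec_mulVec, Matrix.mulVec_add, Matrix.mulVec_add,
    Matrix.mulVec_add, Matrix.mulVec_add, key hU h0 h1 a ha, key hW hW0 hW1 b hb]

end lines

variable {F : SubFld ℚ} [hF : FiniteDimensional ℚ F] {S : Finset ℕ} {w r : ℕ} {Λ : Set ℕ}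
  {T : IntegralSystem F 2}

/-- **Irreducible representations of CM type are irreducible modulo `ℓ` for large `ℓ`.** -/
theorem no_res_line (hr : 2 * r < w) (hT : T.GoodSystem S w) :
    ∃ N : ℕ, ∀ (ℓ : ℕ) [Fact ℓ.Prime], N < ℓ → IsCMType S r w ℓ T →
      (∀ U : Submodule ℚ_[ℓ] (Fin 2 → ℚ_[ℓ]), IsStable (T.rat ℓ) U → U = ⊥ ∨ U = ⊤) →
      ∀ U : Submodule (ZMod ℓ) (Fin 2 → ZMod ℓ), IsStable (T.res ℓ) U → U = ⊥ ∨ U = ⊤ := by
  classical
  obtain ⟨R, hR⟩ := exists_ram2 F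
  obtain ⟨q, hq, hqS, P, hP, hqP, σ, hσ, hσc⟩ := exists_core (F := F) (S ∪ R)
  rw [Finset.mem_union, not_or] at hqS
  have hσF : σ ∈ F.fixingSubgroup := (Subgroup.normalCore_le _) hσc
  let s : F.fixingSubgroup := ⟨σ, hσF⟩
  have hcard : resCard F P = q := resCard_one hq hP hqP hσF hσ
  refine ⟨max 2 (max q (dsc (T.poly (P.under (𝓞 F)))).natAbs), ?_⟩
  intro ℓ hℓ hlt hCM hirr U hU
  rw [max_lt_iff, max_lt_iff] at hlt
  obtain ⟨hlt1, hlt2, hlt3⟩ := hlt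
  have hqℓ : q ≠ ℓ := by omega
  by_contra hcon
  rw [not_or] at hcon
  have hRP := fun τ hτ => hR q hq hqS.2 P hP hqP τ hτ
  have hd := dsc_ne_zero hr hT hCM hq hqS.1 hqℓ hP hqP hσ hσF hRP
  have hdu : IsUnit ((dsc (T.poly (P.under (𝓞 F))) : ℤ) : ℤ_[ℓ]) := by
    have h6 := ne_zero_mod hd hlt3
    rw [PadicInt.isUnit_iff]
    by_contra hn
    have h7 : ‖((dsc (T.poly (P.under (𝓞 F))) : ℤ) : ℤ_[ℓ])‖ < 1 :=
      lt_of_le_of_ne (PadicInt.norm_le_one _) hn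
    have h8 : (PadicInt.toZMod (p := ℓ)) ((dsc (T.poly (P.under (𝓞 F))) : ℤ) : ℤ_[ℓ]) = 0 := by
      rw [← RingHom.mem_ker, PadicInt.ker_toZMod, IsLocalRing.mem_maximalIdeal,
        PadicInt.mem_nonunits]
      exact h7
    rw [map_intCast] at h8
    exact h6 h8
  obtain ⟨e, he⟩ := dsc_sq hr hT hCM hq hqS.1 hqℓ hP hqP hσ hσF hRP
  have heu : IsUnit e := (isUnit_pow_iff two_ne_zero).1 (he ▸ hdu)
  have h2 : ℓ ≠ 2 := by omega
  obtain ⟨i, hi⟩ := (isUnit_two (ℓ := ℓ) h2).exists_right_inv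
  have hs : IsGeomFrob (resCard F P) P s := by
    rw [hcard]
    exact hσ
  obtain ⟨ht1, ht2⟩ := trace_det_frob hT (ℓ := ℓ) hq hqS.1 (Ne.symm hqℓ) hP hqP hs
  have hds := disc_frob hT (ℓ := ℓ) hq hqS.1 (Ne.symm hqℓ) hP hqP hs
  set t := (T.rho ℓ s : Matrix (Fin 2) (Fin 2) ℤ_[ℓ]).trace with ht
  set δ := (T.rho ℓ s : Matrix (Fin 2) (Fin 2) ℤ_[ℓ]).det with hδ
  have hb1 : t = i * (t + e) + i * (t - e) := by linear_combination (-t) * hi
  have hb2 : δ = i * (t + e) * (i * (t - e)) := by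
    have h3 : t ^ 2 - e ^ 2 = 4 * δ := by
      rw [he, ← hds]
      ring
    have h4 : i * (t + e) * (i * (t - e)) = i ^ 2 * (t ^ 2 - e ^ 2) := by ring
    rw [h4, h3]
    linear_combination (-δ) * (2 * i + 1) * hi
  have hb3 : i * (t + e) - i * (t - e) = e := by linear_combination e * hi
  obtain ⟨u, hu, hu0, hul⟩ := line_scalar hU hcon.1 hcon.2
  refine con_core (ℓ := ℓ) h2 (ρ := T.rho ℓ) (s := s) (b := i * (t + e)) (c := i * (t - e)) hb1 hb2
    (by rw [hb3]; exact heu) ?_ ?_ ?_ hu0 (fun g => ?_)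
  · intro k hk
    exact eig_ne hr hT hCM hq hqS.1 hqℓ hP hqP hσ hσF hRP (by rw [← hb1, ht1])
      (by rw [← hb2, ht2]) k hk
  · intro g
    have hcont : Continuous fun g => dm (T.rho ℓ g : Matrix (Fin 2) (Fin 2) ℤ_[ℓ]) := by
      have h3 := hT.continuous ℓ
      unfold dm
      exact (h3.matrix_trace.pow 2).sub (continuous_const.mul h3.matrix_det)
    refine closed_univ' {g | ∃ e : ℤ_[ℓ], e ^ 2 = dm (T.rho ℓ g : Matrix (Fin 2) (Fin 2) ℤ_[ℓ])}
      (closed_sq.preimage hcont) (S ∪ (R ∪ {ℓ})) ?_ g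
    intro p hp hpS P' hP' hpP' σ' hσ'
    rw [Finset.mem_union, Finset.mem_union, Finset.mem_singleton, not_or, not_or] at hpS
    obtain ⟨e', he'⟩ := dsc_sq hr hT hCM hp hpS.1 hpS.2.2 hP' hpP' hσ' σ'.2
      (fun τ hτ => hR p hp hpS.2.1 P' hP' hpP' τ hτ)
    have hcard' : resCard F P' = p := resCard_one hp hP' hpP' σ'.2 hσ'
    refine ⟨e', he'.trans ?_⟩
    rw [dm]
    exact (disc_frob hT hp hpS.1 (Ne.symm hpS.2.2) hP' hpP' (by rw [hcard']; exact hσ')).symm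
  · intro v hv h
    let v' : Fin 2 → ℚ_[ℓ] := fun i => algebraMap ℤ_[ℓ] ℚ_[ℓ] (v i)
    have hv' : v' ≠ 0 := by
      intro h0
      apply hv
      ext i
      exact (injective_iff_map_eq_zero (algebraMap ℤ_[ℓ] ℚ_[ℓ])).1
        (FaithfulSMul.algebraMap_injective ℤ_[ℓ] ℚ_[ℓ]) (v i) (congrFun h0 i)
    have hst : IsStable (T.rat ℓ) (Submodule.span ℚ_[ℓ] {v'}) := by
      intro g x hx
      obtain ⟨c, rfl⟩ := Submodule.mem_span_singleton.1 hx
      obtain ⟨a, ha⟩ := h g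
      have h3 : (T.rat ℓ g : Matrix (Fin 2) (Fin 2) ℚ_[ℓ]).mulVec v' =
          algebraMap ℤ_[ℓ] ℚ_[ℓ] a • v' := by
        ext i
        have h4 := congrArg (algebraMap ℤ_[ℓ] ℚ_[ℓ]) (congrFun ha i)
        have h5 : (algebraMap ℤ_[ℓ] ℚ_[ℓ])
            ((T.rho ℓ g : Matrix (Fin 2) (Fin 2) ℤ_[ℓ]).mulVec v i) =
            (T.rat ℓ g : Matrix (Fin 2) (Fin 2) ℚ_[ℓ]).mulVec v' i := by
          rw [Matrix.mulVec, Matrix.mulVec, dotProduct, dotProduct, map_sum]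
          refine Finset.sum_congr rfl fun j _ => ?_
          rw [map_mul]
          rfl
        rw [← h5, h4, Pi.smul_apply, Pi.smul_apply, smul_eq_mul, smul_eq_mul, map_mul]
      rw [Matrix.mulVec_smul, h3]
      exact Submodule.smul_mem _ _ (Submodule.smul_mem _ _ (Submodule.mem_span_singleton_self _))
    have hfr : finrank ℚ_[ℓ] (Submodule.span ℚ_[ℓ] {v'}) = 1 := finrank_span_singleton hv'
    rcases hirr _ hst with h3 | h3
    · rw [h3, finrank_bot] at hfr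
      exact zero_ne_one hfr
    · rw [h3, finrank_top, finrank_fin_fun] at hfr
      omega
  · obtain ⟨a, ha⟩ := hul g
    exact ⟨a, ha u hu⟩

end Pool.Agent.D0H1.SF
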