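import Pool.Agent.D0H1.SF.RWt

/-!
# Completely split primes and the Frobenius polynomials of systems of CM type
-/

set_option autoImplicit false
set_option linter.unusedSectionVars false

namespace Pool.Agent.D0H1.SF

open Module Matrix Polynomial NumberField Pool.Agent.Y800 Pool.Agent.R390.SF
open Pool.Agent.R390.SF.IntegralSystem
open Pool.Agent.Y126.SH (chi)
open Pool.Agent.D0H90.CS (IsConjOf)

section split

variable {F : SubFld ℚ} [hF : FiniteDimensional ℚ F]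

variable (F) in
/-- for almost all primes an automorphism which is trivial on `𝓞 F` modulo `P` fixes `F` -/
theorem exists_ram2 : ∃ R : Finset ℕ, ∀ p : ℕ, p.Prime → p ∉ R → ∀ P : Ideal ZBar,
    P.IsMaximal → (p : ZBar) ∈ P → ∀ τ : GQ,
      (∀ a : 𝓞 F, τ • algebraMap (𝓞 F) ZBar a - algebraMap (𝓞 F) ZBar a ∈ P) →
        τ ∈ F.fixingSubgroup := by
  classical
  let b := RingOfIntegers.basis F
  have hm : ∀ e : ZBar, ∃ m : ℤ, m ≠ 0 ∧ (e ≠ 0 → ∃ r, e * r = m) := by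
    intro e
    by_cases he : e = 0
    · exact ⟨1, one_ne_zero, fun h => absurd he h⟩
    · obtain ⟨m, r, h1, h2⟩ := exists_int_mul he
      exact ⟨m, h1, fun _ => ⟨r, h2⟩⟩
  choose m hm0 hm using hm
  let x : Free.ChooseBasisIndex ℤ (𝓞 F) → ZBar := fun i => algebraMap (𝓞 F) ZBar (b i)
  have hfq : Finite (GQ ⧸ F.fixingSubgroup) := inferInstance
  have := Fintype.ofFinite (GQ ⧸ F.fixingSubgroup)
  let e : (GQ ⧸ F.fixingSubgroup) → Free.ChooseBasisIndex ℤ (𝓞 F) → ZBar :=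
    fun q i => q.out • x i - x i
  refine ⟨(∏ q, ∏ i, (m (e q i))).natAbs.primeFactors, ?_⟩
  intro p hp hpR P hP hpP τ hτ
  have hfix : ∀ i, τ • x i = x i := by
    intro i
    by_contra hne
    obtain ⟨h, hh⟩ := QuotientGroup.mk_out_eq_mul F.fixingSubgroup τ
    have h1 : (Quotient.out ((τ : GQ) : GQ ⧸ F.fixingSubgroup)) • x i = τ • x i := by
      rw [hh, mul_smul]
      congr 1
      exact smul_F h.2 (b i)
    have h2 : e ((τ : GQ) : GQ ⧸ F.fixingSubgroup) i = τ • x i - x i := by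
      show (Quotient.out ((τ : GQ) : GQ ⧸ F.fixingSubgroup)) • x i - x i = _
      rw [h1]
    have h3 : e ((τ : GQ) : GQ ⧸ F.fixingSubgroup) i ≠ 0 := by
      rw [h2]
      exact sub_ne_zero.2 hne
    obtain ⟨r, hr⟩ := hm _ h3
    have h4 : ((m (e ((τ : GQ) : GQ ⧸ F.fixingSubgroup) i) : ℤ) : ZBar) ∈ P := by
      rw [← hr, h2]
      exact P.mul_mem_right _ (hτ (b i))
    have h5 : ¬ (p : ℤ) ∣ m (e ((τ : GQ) : GQ ⧸ F.fixingSubgroup) i) := by
      intro hdvd
      apply hpR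
      rw [Nat.mem_primeFactors]
      refine ⟨hp, ?_, ?_⟩
      · rw [← Int.natCast_dvd]
        exact hdvd.trans ((Finset.dvd_prod_of_mem _ (Finset.mem_univ i)).trans
          (Finset.dvd_prod_of_mem (fun q => ∏ i, m (e q i))
            (Finset.mem_univ ((τ : GQ) : GQ ⧸ F.fixingSubgroup))))
      · rw [Int.natAbs_ne_zero, Finset.prod_ne_zero_iff]
        intro q _
        rw [Finset.prod_ne_zero_iff]
        intro i _
        exact hm0 _
    have h6 : IsCoprime (p : ℤ) (m (e ((τ : GQ) : GQ ⧸ F.fixingSubgroup) i)) :=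
      (Int.prime_iff_natAbs_prime.2 (by rwa [Int.natAbs_natCast])).coprime_iff_not_dvd.2 h5
    obtain ⟨u, v, huv⟩ := h6
    apply hP.ne_top
    rw [Ideal.eq_top_iff_one]
    have h7 := congrArg (Int.cast : ℤ → ZBar) huv
    rw [Int.cast_add, Int.cast_mul, Int.cast_mul, Int.cast_one, Int.cast_natCast] at h7
    rw [← h7]
    exact P.add_mem (P.mul_mem_left _ hpP) (P.mul_mem_left _ h4)
  have hint : ∀ a : 𝓞 F, τ • (algebraMap (𝓞 F) ZBar a) = algebraMap (𝓞 F) ZBar a := by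
    intro a
    rw [← b.sum_repr a, map_sum, Finset.smul_sum]
    refine Finset.sum_congr rfl fun i _ => ?_
    rw [zsmul_eq_mul, map_mul, map_intCast, smul_mul', hfix i]
    congr 1
    exact map_intCast (MulSemiringAction.toRingHom GQ ZBar τ) _
  rw [IntermediateField.mem_fixingSubgroup_iff]
  intro y hy
  obtain ⟨a, c, hc, hac⟩ := IsFractionRing.div_surjective (A := 𝓞 F) (⟨y, hy⟩ : F)
  have h1 : ∀ a : 𝓞 F, τ ((a : F) : AlgebraicClosure ℚ) = ((a : F) : AlgebraicClosure ℚ) :=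
    fun a => congrArg (fun z : ZBar => (z : AlgebraicClosure ℚ)) (hint a)
  have h2 : y = ((a : F) : AlgebraicClosure ℚ) / ((c : F) : AlgebraicClosure ℚ) := by
    have h3 := congrArg (fun z : F => (z : AlgebraicClosure ℚ)) hac
    exact h3.symm
  rw [h2, map_div₀, h1, h1]

/-- the residue field is the prime field if a Frobenius element fixes `F` -/
theorem exists_int_mod {q : ℕ} (hq : q.Prime) {P : Ideal ZBar} (hP : P.IsMaximal)
    (hqP : (q : ZBar) ∈ P) {σ : GQ} (hσ : IsGeomFrob q P σ) (hσF : σ ∈ F.fixingSubgroup)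
    (y : 𝓞 F) : ∃ c : ℤ, algebraMap (𝓞 F) ZBar y - (c : ZBar) ∈ P := by
  have : Fact q.Prime := ⟨hq⟩
  let _ : Field (ZBar ⧸ P) := Ideal.Quotient.field P
  have : CharP (ZBar ⧸ P) q := by
    have h0 : ((q : ℕ) : ZBar ⧸ P) = 0 := by
      rw [← map_natCast (Ideal.Quotient.mk P)]
      exact Ideal.Quotient.eq_zero_iff_mem.2 hqP
    exact (CharP.charP_iff_prime_eq_zero hq).2 h0
  have h1 := hσ (algebraMap (𝓞 F) ZBar y)
  rw [smul_F hσF] at h1
  have h2 : (Ideal.Quotient.mk P (algebraMap (𝓞 F) ZBar y)) ^ q =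
      Ideal.Quotient.mk P (algebraMap (𝓞 F) ZBar y) := by
    rw [← map_pow]
    exact (Ideal.Quotient.eq.2 h1).symm
  obtain ⟨c, hc⟩ := (_root_.mem_bot_iff_intCast q _).1
    ((Subfield.mem_bot_iff_pow_eq_self (ZBar ⧸ P) q).2 h2)
  refine ⟨c, ?_⟩
  rw [← Ideal.Quotient.eq, map_intCast]
  exact hc.symm

/-- the other conjugates of a generator of a power of a completely split place -/
theorem conj_not_mem [NumberField F] {q : ℕ} (hq : q.Prime) {P : Ideal ZBar} (hP : P.IsMaximal)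
    (hqP : (q : ZBar) ∈ P) {σ : GQ} (hσ : IsGeomFrob q P σ) (hσF : σ ∈ F.fixingSubgroup)
    (hR : ∀ τ : GQ, (∀ a : 𝓞 F, τ • algebraMap (𝓞 F) ZBar a - algebraMap (𝓞 F) ZBar a ∈ P) →
      τ ∈ F.fixingSubgroup) {x : 𝓞 F} {m : ℕ} (hx : P.under (𝓞 F) ^ m = Ideal.span {x})
    (τ : F →+* AlgebraicClosure ℚ) (hτ : τ ≠ algebraMap F (AlgebraicClosure ℚ)) :
    RingOfIntegers.mapRingHom τ x ∉ P := by
  intro hmem
  obtain ⟨q', hq'⟩ := restr_bij.2 τ
  have hq'' : restr (F := F) q'.out = τ := hq'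
  set g : GQ := q'.out with hg
  have hPm : (P.under (𝓞 F)).IsMaximal := under_max hP
  have h1 : x ∈ placeOf P τ := hmem
  have h2 : P.under (𝓞 F) ^ m ≤ placeOf P τ := by
    rw [hx, Ideal.span_singleton_le_iff_mem]
    exact h1
  have h3 : (placeOf P τ).IsPrime := (placeOf_max hP hqP τ).1.isPrime
  have h4 : P.under (𝓞 F) ≤ placeOf P τ := by
    by_cases hm : m = 0
    · rw [hm, pow_zero, Ideal.one_eq_top] at h2
      exact absurd (top_le_iff.1 h2) h3.ne_top
    · exact (Ideal.IsPrime.pow_le_iff hm).1 h2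
  apply hτ
  have h5 : g ∈ F.fixingSubgroup := by
    apply hR
    intro a
    obtain ⟨c, hc⟩ := exists_int_mod hq hP hqP hσ hσF a
    have h6 : a - (c : 𝓞 F) ∈ P.under (𝓞 F) := by
      rw [mem_under, map_sub, map_intCast]
      exact hc
    have h7 : RingOfIntegers.mapRingHom τ (a - (c : 𝓞 F)) ∈ P := h4 h6
    rw [map_sub, map_intCast] at h7
    have h8 : RingOfIntegers.mapRingHom τ a = g • algebraMap (𝓞 F) ZBar a := by
      apply RingOfIntegers.ext
      rw [← hq'']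
      rfl
    rw [h8] at h7
    have h9 := P.sub_mem h7 hc
    rwa [sub_sub_sub_cancel_right] at h9
  rw [← hq'']
  ext z
  exact (IntermediateField.mem_fixingSubgroup_iff F g).1 h5 _ z.2

theorem conj_mem {P : Ideal ZBar} {x : 𝓞 F} {m : ℕ} (hm : 0 < m)
    (hx : P.under (𝓞 F) ^ m = Ideal.span {x}) :
    RingOfIntegers.mapRingHom (algebraMap F (AlgebraicClosure ℚ)) x ∈ P := by
  have h1 : x ∈ P.under (𝓞 F) := by
    have h2 : x ∈ P.under (𝓞 F) ^ m := by
      rw [hx]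
      exact Ideal.mem_span_singleton_self x
    exact Ideal.pow_le_self hm.ne' h2
  exact h1

end split

section cm

variable {F : SubFld ℚ} [hF : FiniteDimensional ℚ F] {S : Finset ℕ} {w r ℓ : ℕ}
  {T : IntegralSystem F 2}

/-- the discriminant of the Frobenius polynomial -/
noncomputable def dsc (P : ℤ[X]) : ℤ := P.coeff 1 ^ 2 - 4 * P.coeff 0

/-- the product of the conjugates -/
theorem prod_conj_sq [NumberField F] (x : 𝓞 F) :
    (∏ τ : F →+* AlgebraicClosure ℚ, τ (x : F)) ^ 2 =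
      ((Ideal.absNorm (Ideal.span {x}) : ℕ) : AlgebraicClosure ℚ) ^ 2 := by
  have h3 : algebraMap ℚ (AlgebraicClosure ℚ) (Algebra.norm ℚ (x : F)) =
      ∏ τ : F →+* AlgebraicClosure ℚ, τ (x : F) := by
    have := Algebra.norm_eq_prod_embeddings ℚ (AlgebraicClosure ℚ) (x : F)
    rw [← Fintype.prod_equiv (RingHom.equivRatAlgHom F (AlgebraicClosure ℚ)) (fun f => f (x : F))
      (fun f => f (x : F)) fun _ => by simp [RingHom.equivRatAlgHom_apply]] at this
    exact this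
  rw [← h3, Ideal.absNorm_span_singleton, ← Algebra.coe_norm_int]
  have h4 : ((Algebra.norm ℤ x).natAbs : ℤ) ^ 2 = (Algebra.norm ℤ x) ^ 2 := Int.natAbs_sq _
  have h5 : (((Algebra.norm ℤ x).natAbs : ℕ) : AlgebraicClosure ℚ) ^ 2 =
      ((Algebra.norm ℤ x : ℤ) : AlgebraicClosure ℚ) ^ 2 := by
    have h6 := congrArg (Int.cast : ℤ → AlgebraicClosure ℚ) h4
    rw [Int.cast_pow, Int.cast_natCast, Int.cast_pow] at h6
    exact h6
  rw [h5, map_intCast]

/-- **At a completely split place the Frobenius polynomial of a system of CM type has no double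
roots.** -/
theorem dsc_ne_zero (hr : 2 * r < w) (hT : T.GoodSystem S w) (hCM : IsCMType S r w ℓ T)
    {q : ℕ} (hq : q.Prime) (hqS : q ∉ S) (hqℓ : q ≠ ℓ) {P : Ideal ZBar} (hP : P.IsMaximal)
    (hqP : (q : ZBar) ∈ P) {σ : GQ} (hσ : IsGeomFrob q P σ) (hσF : σ ∈ F.fixingSubgroup)
    (hR : ∀ τ : GQ, (∀ a : 𝓞 F, τ • algebraMap (𝓞 F) ZBar a - algebraMap (𝓞 F) ZBar a ∈ P) →
      τ ∈ F.fixingSubgroup) : dsc (T.poly (P.under (𝓞 F))) ≠ 0 := by
  classical
  have hnf : NumberField F := numberField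
  have hQalg : Algebra.IsAlgebraic ℚ (AlgebraicClosure ℚ) := AlgebraicClosure.isAlgebraic ℚ
  intro h0
  have h𝔮 : (P.under (𝓞 F)).IsMaximal := under_max hP
  have hq𝔮 : (q : 𝓞 F) ∈ P.under (𝓞 F) := by
    rw [mem_under, map_natCast]
    exact hqP
  have h𝔮0 : P.under (𝓞 F) ≠ ⊥ := by
    intro h
    rw [h, Ideal.mem_bot] at hq𝔮
    exact hq.ne_zero (by exact_mod_cast hq𝔮)
  obtain ⟨m, x, hm, hx⟩ := exists_generator h𝔮0
  obtain ⟨a, -, ha, hE⟩ := hCM
  obtain ⟨z, hz, hzm⟩ := hE q hq hqS hqℓ _ ⟨h𝔮, hq𝔮⟩ x m hx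
  have hgood := hT.good q hq hqS _ h𝔮 hq𝔮
  set Q := T.poly (P.under (𝓞 F)) with hQ
  set N := Nat.card (𝓞 F ⧸ P.under (𝓞 F)) with hN
  -- the equation for `z`
  have hz2 : z ^ 2 + (Q.coeff 1 : AlgebraicClosure ℚ) * z + (Q.coeff 0 : AlgebraicClosure ℚ) = 0 := by
    have h1 := (mem_aroots.1 hz).2
    rw [aeval_eq_sum_range, hgood.natDegree, Finset.sum_range_succ, Finset.sum_range_succ,
      Finset.sum_range_succ, Finset.sum_range_zero] at h1
    have h2 : Q.coeff 2 = 1 := by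
      have := hgood.monic.coeff_natDegree
      rwa [hgood.natDegree] at this
    rw [h2] at h1
    simp only [zsmul_eq_mul, pow_zero, pow_one, mul_one, Int.cast_one, one_mul, zero_add] at h1
    rw [← h1]
    ring
  have hd : (Q.coeff 1 : AlgebraicClosure ℚ) ^ 2 = 4 * (Q.coeff 0 : AlgebraicClosure ℚ) := by
    have h1 : Q.coeff 1 ^ 2 - 4 * Q.coeff 0 = 0 := h0
    have h2 : Q.coeff 1 ^ 2 = 4 * Q.coeff 0 := by linarith
    exact_mod_cast congrArg (Int.cast : ℤ → AlgebraicClosure ℚ) h2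
  have hz0 : 2 * z + (Q.coeff 1 : AlgebraicClosure ℚ) = 0 := by
    have h1 : (2 * z + (Q.coeff 1 : AlgebraicClosure ℚ)) ^ 2 = 0 := by
      have : (2 * z + (Q.coeff 1 : AlgebraicClosure ℚ)) ^ 2 =
          4 * (z ^ 2 + (Q.coeff 1 : AlgebraicClosure ℚ) * z + (Q.coeff 0 : AlgebraicClosure ℚ)) +
            ((Q.coeff 1 : AlgebraicClosure ℚ) ^ 2 - 4 * (Q.coeff 0 : AlgebraicClosure ℚ)) := by ring
      rw [this, hz2, hd]
      ring
    exact pow_eq_zero_iff two_ne_zero |>.1 h1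
  have hzz : z ^ 2 = (Q.coeff 0 : AlgebraicClosure ℚ) := by
    have h1 : (4 : AlgebraicClosure ℚ) * z ^ 2 = 4 * (Q.coeff 0 : AlgebraicClosure ℚ) := by
      rw [← hd]
      have : (Q.coeff 1 : AlgebraicClosure ℚ) = - (2 * z) := by
        rw [eq_neg_iff_add_eq_zero, add_comm]
        exact hz0
      rw [this]
      ring
    exact mul_left_cancel₀ (by norm_num) h1
  have hc : Q.coeff 0 = (N : ℤ) ^ w := by
    obtain ⟨ι⟩ : Nonempty (AlgebraicClosure ℚ →+* ℂ) :=
      ⟨(IsAlgClosed.lift (R := ℚ) (S := AlgebraicClosure ℚ) (M := ℂ)).toRingHom⟩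
    have h1 : ι z ∈ Q.aroots ℂ := by
      rw [mem_aroots] at hz ⊢
      refine ⟨hz.1, ?_⟩
      have h3 := congrArg ι hz.2
      rw [map_zero, aeval_def, hom_eval₂] at h3
      rw [aeval_def, ← h3]
      congr 1
      exact Subsingleton.elim _ _
    have h2 := hgood.pure (ι z) h1
    rw [← norm_pow, ← map_pow, hzz, map_intCast, Complex.norm_intCast] at h2
    have h3 : |Q.coeff 0| = (N : ℤ) ^ w := by exact_mod_cast h2
    have h4 : 0 ≤ Q.coeff 0 := by
      have h5 : Q.coeff 1 ^ 2 - 4 * Q.coeff 0 = 0 := h0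
      nlinarith [sq_nonneg (Q.coeff 1)]
    rwa [abs_of_nonneg h4] at h3
  -- the relation between the conjugates
  have hnorm : ((Ideal.absNorm (Ideal.span {x}) : ℕ) : AlgebraicClosure ℚ) =
      (N : AlgebraicClosure ℚ) ^ m := by
    rw [← hx, map_pow, Ideal.absNorm_apply, Submodule.cardQuot_apply]
    push_cast
    rfl
  have hrel : (∏ τ : F →+* AlgebraicClosure ℚ, τ (x : F)) ^ (2 * w) =
      (typePow a x : AlgebraicClosure ℚ) ^ 4 := by
    have h1 : (z ^ 2) ^ m = (typePow a x : AlgebraicClosure ℚ) ^ 2 := by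
      rw [← pow_mul]
      exact hzm
    rw [hzz, hc] at h1
    push_cast at h1
    rw [pow_mul, prod_conj_sq, hnorm]
    have h2 : (typePow a x : AlgebraicClosure ℚ) ^ 4 =
        ((typePow a x : AlgebraicClosure ℚ) ^ 2) ^ 2 := by ring
    rw [h2, ← h1]
    ring
  let τ₀ : F →+* AlgebraicClosure ℚ := algebraMap F (AlgebraicClosure ℚ)
  let Y : (F →+* AlgebraicClosure ℚ) → ZBar := fun τ => RingOfIntegers.mapRingHom τ x
  have hY : ∏ τ, Y τ ^ (2 * w) = ∏ τ, Y τ ^ (4 * a τ) := by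
    apply RingOfIntegers.ext
    have e1 := map_prod (algebraMap ZBar (AlgebraicClosure ℚ)) (fun τ => Y τ ^ (2 * w)) Finset.univ
    have e2 := map_prod (algebraMap ZBar (AlgebraicClosure ℚ)) (fun τ => Y τ ^ (4 * a τ))
      Finset.univ
    refine e1.trans (Eq.trans ?_ e2.symm)
    have e3 : ∀ τ, algebraMap ZBar (AlgebraicClosure ℚ) (Y τ) = τ (x : F) := fun τ => rfl
    simp only [map_pow, e3]
    rw [Finset.prod_pow, hrel, typePow_coe, ← Finset.prod_pow]
    refine Finset.prod_congr rfl fun τ _ => ?_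
    rw [← pow_mul, mul_comm]
  have hY0 : ∀ τ, Y τ ≠ 0 := by
    intro τ h1
    have hx0 : x ≠ 0 := by
      rintro rfl
      rw [Ideal.span_singleton_eq_bot.2 rfl] at hx
      exact h𝔮0 (pow_eq_zero_iff hm.ne' |>.1 hx)
    apply hx0
    apply RingOfIntegers.ext
    apply τ.injective
    have h2 := congrArg (algebraMap ZBar (AlgebraicClosure ℚ)) h1
    rw [map_zero] at h2
    show τ (x : F) = τ ((0 : 𝓞 F) : F)
    have h3 : ((0 : 𝓞 F) : F) = 0 := rfl
    rw [h3, map_zero]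
    exact h2
  have hin : Y τ₀ ∈ P := conj_mem hm hx
  have hout : ∀ τ, τ ≠ τ₀ → Y τ ∉ P := fun τ hτ =>
    conj_not_mem hq hP hqP hσ hσF hR hx τ hτ
  have hPp : P.IsPrime := hP.isPrime
  have hprod : ∀ f : (F →+* AlgebraicClosure ℚ) → ℕ,
      ∏ τ ∈ Finset.univ.erase τ₀, Y τ ^ f τ ∉ P := by
    intro f h1
    obtain ⟨τ, hτ, h2⟩ := Ideal.IsPrime.prod_mem_iff.1 h1
    exact hout τ (Finset.ne_of_mem_erase hτ) (hPp.mem_of_pow_mem _ h2)
  rw [← Finset.mul_prod_erase _ _ (Finset.mem_univ τ₀),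
    ← Finset.mul_prod_erase _ _ (Finset.mem_univ τ₀)] at hY
  have key : ∀ (i j : ℕ) (A B : ZBar), i < j → B ∉ P → Y τ₀ ^ j * A = Y τ₀ ^ i * B → False := by
    intro i j A B hij hB h1
    obtain ⟨k, rfl⟩ : ∃ k, j = i + k := ⟨j - i, by omega⟩
    rw [pow_add, mul_assoc] at h1
    have h2 := mul_left_cancel₀ (pow_ne_zero i (hY0 τ₀)) h1
    apply hB
    rw [← h2]
    exact P.mul_mem_right _ (P.pow_mem_of_mem hin k (by omega))
  rcases ha τ₀ with h1 | h1
  · exact key _ _ _ _ (by omega : 4 * a τ₀ < 2 * w) (hprod _) hY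
  · exact key _ _ _ _ (by omega : 2 * w < 4 * a τ₀) (hprod _) hY.symm

end cm

end Pool.Agent.D0H1.SF
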