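import Pool.Agent.D0H1.SF.RNo

/-!
# Irreducible groups of matrices of rank two whose eigenvalues are roots of unity
-/

set_option autoImplicit false
set_option linter.unusedSectionVars false

namespace Pool.Agent.D0H1.SF

open Module Matrix Pool.Agent.R390.SF

section mats

variable {ℓ : ℕ} [hℓ : Fact ℓ.Prime]

theorem isUnit_of_toZMod {x : ℤ_[ℓ]} (h : PadicInt.toZMod x ≠ 0) : IsUnit x := by
  rw [PadicInt.isUnit_iff]
  by_contra hn
  have h7 : ‖x‖ < 1 := lt_of_le_of_ne (PadicInt.norm_le_one _) hn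
  apply h
  rw [← RingHom.mem_ker, PadicInt.ker_toZMod, IsLocalRing.mem_maximalIdeal,
    PadicInt.mem_nonunits]
  exact h7

theorem unit_phi {M : Matrix (Fin 2) (Fin 2) ℤ_[ℓ]} {e : ℕ} (hℓe : ¬ ℓ ∣ e)
    (htr : PadicInt.toZMod M.trace = 2) (hdet : PadicInt.toZMod M.det = 1) :
    IsUnit (∑ i ∈ Finset.range e, M ^ i) := by
  let φ : ℤ_[ℓ] →+* ZMod ℓ := PadicInt.toZMod
  set Mb : Matrix (Fin 2) (Fin 2) (ZMod ℓ) := φ.mapMatrix M with hMb
  have h1 : Mb.trace = 2 := by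
    rw [hMb]
    have : (φ.mapMatrix M).trace = φ M.trace := (AddMonoidHom.map_trace φ.toAddMonoidHom M).symm
    rw [this]
    exact htr
  have h2 : Mb.det = 1 := by
    rw [hMb, ← RingHom.map_det]
    exact hdet
  set N := Mb - 1 with hN
  have hN2 : N * N = 0 := by
    have h3 := cayley_two Mb
    rw [h1, h2] at h3
    have h4 : N * N = Mb * Mb - (2 : ZMod ℓ) • Mb + (1 : ZMod ℓ) • (1 : Matrix _ _ _) := by
      rw [hN, sub_mul, mul_sub, mul_one, one_mul, two_smul, one_smul]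
      abel
    rw [h4, h3]
    abel
  have hpow : ∀ i : ℕ, Mb ^ i = 1 + (i : ZMod ℓ) • N := by
    intro i
    induction i with
    | zero => simp
    | succ i ih =>
      have h5 : Mb = 1 + N := by rw [hN]; abel
      rw [pow_succ, ih]
      conv_lhs => rw [h5]
      rw [mul_add, mul_one, add_mul, one_mul, Matrix.smul_mul, hN2, smul_zero, add_zero]
      push_cast
      rw [add_smul, one_smul]
      abel
  have hsum : φ.mapMatrix (∑ i ∈ Finset.range e, M ^ i) =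
      (e : ZMod ℓ) • (1 : Matrix (Fin 2) (Fin 2) (ZMod ℓ)) +
        (∑ i ∈ Finset.range e, (i : ZMod ℓ)) • N := by
    rw [map_sum]
    simp only [map_pow, ← hMb, hpow]
    rw [Finset.sum_add_distrib, ← Finset.sum_smul, Finset.sum_const, Finset.card_range]
    congr 1
    rw [← Nat.cast_smul_eq_nsmul (ZMod ℓ)]
  have he0 : (e : ZMod ℓ) ≠ 0 := by
    rw [Ne, ZMod.natCast_eq_zero_iff]
    exact hℓe
  have hu : φ (∑ i ∈ Finset.range e, M ^ i).det ≠ 0 := by
    rw [RingHom.map_det, hsum]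
    set s := ∑ i ∈ Finset.range e, (i : ZMod ℓ) with hs
    intro h0
    have h6 : ((e : ZMod ℓ) • (1 : Matrix (Fin 2) (Fin 2) (ZMod ℓ)) + s • N) *
        ((e : ZMod ℓ) • (1 : Matrix (Fin 2) (Fin 2) (ZMod ℓ)) - s • N) =
        ((e : ZMod ℓ) ^ 2) • (1 : Matrix (Fin 2) (Fin 2) (ZMod ℓ)) := by
      rw [add_mul, mul_sub, mul_sub, Matrix.smul_mul, Matrix.smul_mul, Matrix.smul_mul,
        Matrix.smul_mul, Matrix.mul_smul, Matrix.mul_smul, Matrix.mul_smul, Matrix.mul_smul, hN2,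
        one_mul, one_mul, mul_one, smul_zero, smul_zero, sub_zero, smul_smul, smul_smul, smul_smul,
        mul_comm s]
      rw [sub_add_cancel, sq]
    have h7 := congrArg Matrix.det h6
    rw [Matrix.det_mul, h0, zero_mul, Matrix.det_smul, Matrix.det_one, mul_one] at h7
    exact pow_ne_zero _ (pow_ne_zero _ he0) h7.symm
  exact (Matrix.isUnit_iff_isUnit_det _).2 (isUnit_of_toZMod hu)

theorem sq_zero {M : Matrix (Fin 2) (Fin 2) ℤ_[ℓ]} {e : ℕ} (hℓe : ¬ ℓ ∣ e)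
    (htr : PadicInt.toZMod M.trace = 2) (hdet : PadicInt.toZMod M.det = 1)
    (h : (M ^ e - 1) ^ 2 = 0) : (M - 1) ^ 2 = 0 := by
  have h1 := unit_phi hℓe htr hdet
  have h2 := geom_sum_mul M e
  have hc : Commute (∑ i ∈ Finset.range e, M ^ i) (M - 1) := by
    refine Commute.sum_left _ _ _ fun i _ => ?_
    exact ((Commute.refl M).pow_left i).sub_right (Commute.one_right _)
  rw [← h2, hc.mul_pow] at h
  exact ((h1.pow 2).mul_right_eq_zero).1 h

theorem trace_two {M : Matrix (Fin 2) (Fin 2) ℤ_[ℓ]} (h : (M - 1) ^ 2 = 0) : M.trace = 2 := by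
  have h1 : IsNilpotent (M - 1).trace := Matrix.isNilpotent_trace_of_isNilpotent ⟨2, h⟩
  have h2 : (M - 1).trace = 0 := h1.eq_zero
  rw [Matrix.trace_sub, Matrix.trace_one, sub_eq_zero] at h2
  rw [h2]
  simp

/-- an eigenvalue -/
theorem exists_eig {M : Matrix (Fin 2) (Fin 2) ℤ_[ℓ]} (hM : M ^ (ℓ - 1) = 1)
    {u : Fin 2 → ZMod ℓ} (hu : u ≠ 0) {t : ZMod ℓ} (ht : t ≠ 0)
    (hMu : (M.map (PadicInt.toZMod (p := ℓ))).mulVec u = t • u) :
    ∃ c : ℤ_[ℓ], (M - c • (1 : Matrix (Fin 2) (Fin 2) ℤ_[ℓ])).det = 0 := by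
  let φ : ℤ_[ℓ] →+* ZMod ℓ := PadicInt.toZMod
  have hℓ1 : 1 ≤ ℓ - 1 := by have := hℓ.out.two_le; omega
  have hone : ((ℓ - 1 : ℕ) : ZMod ℓ) ≠ 0 := by
    rw [Ne, ZMod.natCast_eq_zero_iff]
    intro h
    have := Nat.le_of_dvd (by omega) h
    omega
  -- the root of unity
  obtain ⟨a, ha⟩ : ∃ a : ℤ_[ℓ], φ a = t := ⟨(t.val : ℤ_[ℓ]), by
    rw [map_natCast, ZMod.natCast_zmod_val]⟩
  have hau : IsUnit a := isUnit_of_toZMod (by show φ a ≠ 0; rw [ha]; exact ht)
  have hroot : ∃ c : ℤ_[ℓ], c ^ (ℓ - 1) = 1 ∧ φ c = t := by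
    have hF1 : ‖Polynomial.aeval a (Polynomial.X ^ (ℓ - 1) - 1 : Polynomial ℤ_[ℓ])‖ < 1 := by
      have e1 : Polynomial.aeval a (Polynomial.X ^ (ℓ - 1) - 1 : Polynomial ℤ_[ℓ]) =
          a ^ (ℓ - 1) - 1 := by simp
      rw [e1]
      have h3 : a ^ (ℓ - 1) - 1 ∈ RingHom.ker φ := by
        rw [RingHom.mem_ker, map_sub, map_pow, map_one, ha, ZMod.pow_card_sub_one_eq_one ht,
          sub_self]
      have h4 : a ^ (ℓ - 1) - 1 ∈ RingHom.ker (PadicInt.toZMod (p := ℓ)) := h3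
      rw [PadicInt.ker_toZMod, IsLocalRing.mem_maximalIdeal, PadicInt.mem_nonunits] at h4
      exact h4
    have hF2 : ‖Polynomial.aeval a (Polynomial.derivative
        (Polynomial.X ^ (ℓ - 1) - 1 : Polynomial ℤ_[ℓ]))‖ = 1 := by
      have e1 : Polynomial.aeval a (Polynomial.derivative
          (Polynomial.X ^ (ℓ - 1) - 1 : Polynomial ℤ_[ℓ])) =
          ((ℓ - 1 : ℕ) : ℤ_[ℓ]) * a ^ (ℓ - 1 - 1) := by
        rw [Polynomial.derivative_sub, Polynomial.derivative_X_pow, Polynomial.derivative_one,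
          sub_zero]
        simp
      rw [e1, ← PadicInt.isUnit_iff]
      refine IsUnit.mul (isUnit_of_toZMod ?_) (hau.pow _)
      rw [map_natCast]
      exact hone
    obtain ⟨z, hz, hza, -⟩ := hensels_lemma (F := (Polynomial.X ^ (ℓ - 1) - 1 : Polynomial ℤ_[ℓ]))
      (a := a) (by rw [hF2, one_pow]; exact hF1)
    refine ⟨z, ?_, ?_⟩
    · have e1 : Polynomial.aeval z (Polynomial.X ^ (ℓ - 1) - 1 : Polynomial ℤ_[ℓ]) =
          z ^ (ℓ - 1) - 1 := by simp
      rw [e1] at hz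
      exact sub_eq_zero.1 hz
    · rw [hF2] at hza
      have h3 : z - a ∈ RingHom.ker (PadicInt.toZMod (p := ℓ)) := by
        rw [PadicInt.ker_toZMod, IsLocalRing.mem_maximalIdeal, PadicInt.mem_nonunits]
        exact hza
      rw [RingHom.mem_ker, map_sub, sub_eq_zero] at h3
      exact h3.trans ha
  obtain ⟨c, hc, hct⟩ := hroot
  refine ⟨c, ?_⟩
  by_contra hdet
  set I : Matrix (Fin 2) (Fin 2) ℤ_[ℓ] := c • (1 : Matrix (Fin 2) (Fin 2) ℤ_[ℓ]) with hI
  have hcomm : Commute M I := by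
    rw [hI]
    exact (Commute.one_right M).smul_right c
  have hIpow : ∀ k : ℕ, I ^ k = c ^ k • (1 : Matrix (Fin 2) (Fin 2) ℤ_[ℓ]) := by
    intro k
    rw [hI, smul_pow, one_pow]
  have h1 := hcomm.mul_geom_sum₂ (ℓ - 1)
  rw [hM, hIpow, hc, one_smul, sub_self] at h1
  have h2 : (∑ i ∈ Finset.range (ℓ - 1), M ^ i * I ^ (ℓ - 1 - 1 - i)) = 0 := by
    have h3 := congrArg (fun X => (M - I).adjugate * X) h1
    simp only [mul_zero, ← mul_assoc, Matrix.adjugate_mul] at h3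
    rw [Matrix.smul_mul, one_mul] at h3
    exact (smul_eq_zero.1 h3).resolve_left hdet
  have h3 := congrArg (fun X : Matrix (Fin 2) (Fin 2) ℤ_[ℓ] => (φ.mapMatrix X).mulVec u) h2
  simp only [map_zero, Matrix.zero_mulVec, map_sum, map_mul, map_pow] at h3
  have hMk : ∀ k : ℕ, (φ.mapMatrix M ^ k).mulVec u = t ^ k • u := by
    intro k
    induction k with
    | zero => simp
    | succ k ih =>
      rw [pow_succ', ← Matrix.mulVec_mulVec, ih, Matrix.mulVec_smul]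
      have : (φ.mapMatrix M).mulVec u = t • u := hMu
      rw [this, smul_smul, pow_succ]
  have hIk : ∀ k : ℕ, (φ.mapMatrix I ^ k) = t ^ k • (1 : Matrix (Fin 2) (Fin 2) (ZMod ℓ)) := by
    intro k
    have : φ.mapMatrix I = t • (1 : Matrix (Fin 2) (Fin 2) (ZMod ℓ)) := by
      ext i j
      rw [hI, RingHom.mapMatrix_apply, Matrix.map_apply, Matrix.smul_apply, Matrix.smul_apply,
        smul_eq_mul, smul_eq_mul, map_mul, hct]
      congr 1
      rw [Matrix.one_apply, Matrix.one_apply]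
      split_ifs <;> simp
    rw [this, smul_pow, one_pow]
  rw [Matrix.sum_mulVec] at h3
  have h4 : ∀ i ∈ Finset.range (ℓ - 1), (φ.mapMatrix M ^ i * φ.mapMatrix I ^ (ℓ - 1 - 1 - i)).mulVec u =
      t ^ (ℓ - 1 - 1) • u := by
    intro i hi
    rw [Finset.mem_range] at hi
    rw [hIk, Matrix.mul_smul, mul_one, Matrix.smul_mulVec, hMk, smul_smul, ← pow_add]
    congr 2
    omega
  rw [Finset.sum_congr rfl h4, Finset.sum_const, Finset.card_range,
    ← Nat.cast_smul_eq_nsmul (ZMod ℓ), smul_smul] at h3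
  rcases smul_eq_zero.1 h3 with h5 | h5
  · rcases mul_eq_zero.1 h5 with h6 | h6
    · exact hone h6
    · exact pow_ne_zero _ ht h6
  · exact hu h5

end mats

end Pool.Agent.D0H1.SF
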