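import Pool.Agent.D0H1.SF.RTor

/-!
# Irreducible groups of matrices of rank two whose eigenvalues are roots of unity, II
-/

set_option autoImplicit false
set_option linter.unusedSectionVars false

namespace Pool.Agent.D0H1.SF

open Module Matrix Pool.Agent.R390.SF

section two

variable {k : Type} [Field k]

theorem mul_mul_two (N X : Matrix (Fin 2) (Fin 2) k) :
    N * X * N = (N * X).trace • N - N.det • X.adjugate := by
  rw [Matrix.trace_fin_two, Matrix.det_fin_two, Matrix.adjugate_fin_two]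
  ext i j
  fin_cases i <;> fin_cases j <;> simp [Matrix.mul_apply, Fin.sum_univ_two] <;> ring

/-- the kernel of a matrix of rank one -/
theorem ker_line {N : Matrix (Fin 2) (Fin 2) k} (hN : N ≠ 0) {v w : Fin 2 → k} (hv : v ≠ 0)
    (h1 : N.mulVec v = 0) (h2 : N.mulVec w = 0) : ∃ c : k, w = c • v := by
  have e1 : ∀ i, N i 0 * v 0 + N i 1 * v 1 = 0 := fun i => by
    have := congrFun h1 i
    simpa [Matrix.mulVec, dotProduct, Fin.sum_univ_two] using this
  have e2 : ∀ i, N i 0 * w 0 + N i 1 * w 1 = 0 := fun i => by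
    have := congrFun h2 i
    simpa [Matrix.mulVec, dotProduct, Fin.sum_univ_two] using this
  have hd : v 0 * w 1 - v 1 * w 0 = 0 := by
    by_contra hd
    apply hN
    ext i j
    fin_cases j
    · have h3 : N i 0 * (v 0 * w 1 - v 1 * w 0) = 0 := by
        linear_combination w 1 * e1 i - v 1 * e2 i
      exact (mul_eq_zero.1 h3).resolve_right hd
    · have h3 : N i 1 * (v 0 * w 1 - v 1 * w 0) = 0 := by
        linear_combination v 0 * e2 i - w 0 * e1 i
      exact (mul_eq_zero.1 h3).resolve_right hd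
  by_cases hv0 : v 0 = 0
  · have hv1 : v 1 ≠ 0 := by
      intro h
      apply hv
      ext i
      fin_cases i
      · exact hv0
      · exact h
    refine ⟨w 1 / v 1, ?_⟩
    rw [hv0, zero_mul, zero_sub, neg_eq_zero] at hd
    have hw0 : w 0 = 0 := (mul_eq_zero.1 hd).resolve_left hv1
    ext i
    fin_cases i
    · simp [hv0, hw0]
    · simp [hv1]
  · refine ⟨w 0 / v 0, ?_⟩
    ext i
    fin_cases i
    · simp [hv0]
    · show w 1 = w 0 / v 0 * v 1
      field_simp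
      linear_combination hd

end two

variable {ℓ : ℕ} [hℓ : Fact ℓ.Prime]

/-- **The reduction of an irreducible group with eigenvalues of finite order.** -/
theorem tor_core {G : Type} [Group G] {ρ : G →* GL (Fin 2) ℤ_[ℓ]} {e : ℕ} (hℓe : ¬ ℓ ∣ e)
    (hst : ∀ g, ((ρ g : Matrix (Fin 2) (Fin 2) ℤ_[ℓ]) ^ e - 1) ^ 2 = 0)
    (hirr : ∀ U : Submodule ℚ_[ℓ] (Fin 2 → ℚ_[ℓ]),
      IsStable ((Matrix.GeneralLinearGroup.map (n := Fin 2) (algebraMap ℤ_[ℓ] ℚ_[ℓ])).comp ρ) U →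
        U = ⊥ ∨ U = ⊤)
    {u : Fin 2 → ZMod ℓ} (hu0 : u ≠ 0)
    (hres : ∀ g, ∃ t : ZMod ℓ, ((ρ g : Matrix (Fin 2) (Fin 2) ℤ_[ℓ]).map
      (PadicInt.toZMod (p := ℓ))).mulVec u = t • u) : False := by
  classical
  let φ : ℤ_[ℓ] →+* ZMod ℓ := PadicInt.toZMod
  let ι : ℤ_[ℓ] →+* ℚ_[ℓ] := algebraMap ℤ_[ℓ] ℚ_[ℓ]
  have hι : Function.Injective ι := FaithfulSMul.algebraMap_injective ℤ_[ℓ] ℚ_[ℓ]
  let R : G →* GL (Fin 2) ℚ_[ℓ] :=
    (Matrix.GeneralLinearGroup.map (n := Fin 2) (algebraMap ℤ_[ℓ] ℚ_[ℓ])).comp ρ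
  have hR : ∀ g, (R g : Matrix (Fin 2) (Fin 2) ℚ_[ℓ]) =
      ι.mapMatrix (ρ g : Matrix (Fin 2) (Fin 2) ℤ_[ℓ]) := fun g => rfl
  let ρb : G →* GL (Fin 2) (ZMod ℓ) := (Matrix.GeneralLinearGroup.map (n := Fin 2) φ).comp ρ
  have hρb : ∀ g, (ρb g : Matrix (Fin 2) (Fin 2) (ZMod ℓ)) =
      (ρ g : Matrix (Fin 2) (Fin 2) ℤ_[ℓ]).map φ := fun g => rfl
  choose t ht using hres
  have ht' : ∀ g, (ρb g : Matrix (Fin 2) (Fin 2) (ZMod ℓ)).mulVec u = t g • u := ht
  have htinj : ∀ {a b : ZMod ℓ}, a • u = b • u → a = b := by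
    intro a b hab
    rw [← sub_eq_zero, ← sub_smul] at hab
    exact sub_eq_zero.1 ((smul_eq_zero.1 hab).resolve_right hu0)
  have htmul : ∀ g h, t (g * h) = t g * t h := by
    intro g h
    apply htinj
    rw [← ht', map_mul, Units.val_mul, ← Matrix.mulVec_mulVec, ht', Matrix.mulVec_smul, ht',
      smul_smul, mul_comm]
  have ht1 : t 1 = 1 := by
    apply htinj
    rw [← ht', map_one, Units.val_one, Matrix.one_mulVec, one_smul]
  have ht0 : ∀ g, t g ≠ 0 := by
    intro g h0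
    have := htmul g g⁻¹
    rw [mul_inv_cancel, ht1, h0, zero_mul] at this
    exact one_ne_zero this
  let τ : G →* ZMod ℓ := { toFun := t, map_one' := ht1, map_mul' := htmul }
  let δ : G →* ZMod ℓ :=
    { toFun := fun g => (ρb g : Matrix (Fin 2) (Fin 2) (ZMod ℓ)).det
      map_one' := by rw [map_one, Units.val_one, Matrix.det_one]
      map_mul' := fun g h => by rw [map_mul, Units.val_mul, Matrix.det_mul] }
  let K : Set G := {g | τ g = 1 ∧ δ g = 1}
  have hδ0 : ∀ g, δ g ≠ 0 := by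
    intro g h0
    have := map_mul δ g g⁻¹
    rw [mul_inv_cancel, map_one, h0, zero_mul] at this
    exact one_ne_zero this
  -- the elements of `K` are unipotent
  have htr : ∀ g, φ (ρ g : Matrix (Fin 2) (Fin 2) ℤ_[ℓ]).trace * t g = t g * t g + δ g := by
    intro g
    have h1 := congrArg (fun X : Matrix (Fin 2) (Fin 2) (ZMod ℓ) => X.mulVec u)
      (cayley_two (ρb g : Matrix (Fin 2) (Fin 2) (ZMod ℓ)))
    rw [← Matrix.mulVec_mulVec, ht', Matrix.mulVec_smul, ht', Matrix.sub_mulVec,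
      Matrix.smul_mulVec, Matrix.smul_mulVec, Matrix.one_mulVec, ht', smul_smul, smul_smul,
      ← sub_smul] at h1
    have h2 := htinj h1
    have h3 : φ (ρ g : Matrix (Fin 2) (Fin 2) ℤ_[ℓ]).trace =
        (ρb g : Matrix (Fin 2) (Fin 2) (ZMod ℓ)).trace :=
      AddMonoidHom.map_trace φ.toAddMonoidHom (ρ g : Matrix (Fin 2) (Fin 2) ℤ_[ℓ])
    have h4 : δ g = (ρb g : Matrix (Fin 2) (Fin 2) (ZMod ℓ)).det := rfl
    rw [h3, h4]
    linear_combination (-1) * h2
  have huni : ∀ g ∈ K, ((ρ g : Matrix (Fin 2) (Fin 2) ℤ_[ℓ]) - 1) ^ 2 = 0 := by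
    rintro g ⟨h1, h2⟩
    have h1' : t g = 1 := h1
    refine sq_zero hℓe ?_ ?_ (hst g)
    · have h3 := htr g
      rw [h1', h2, mul_one, mul_one] at h3
      show φ _ = 2
      rw [h3]
      norm_num
    · have h4 : δ g = φ (ρ g : Matrix (Fin 2) (Fin 2) ℤ_[ℓ]).det := by
        rw [RingHom.map_det]
        rfl
      show φ _ = 1
      rw [← h4, h2]
  have huniR : ∀ g ∈ K, ((R g : Matrix (Fin 2) (Fin 2) ℚ_[ℓ]) - 1) ^ 2 = 0 := by
    intro g hg
    rw [hR, ← map_one ι.mapMatrix, ← map_sub, ← map_pow, huni g hg, map_zero]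
  have htrR : ∀ g ∈ K, (R g : Matrix (Fin 2) (Fin 2) ℚ_[ℓ]).trace = 2 := by
    intro g hg
    have h1 : (R g : Matrix (Fin 2) (Fin 2) ℚ_[ℓ]).trace =
        ι (ρ g : Matrix (Fin 2) (Fin 2) ℤ_[ℓ]).trace :=
      (AddMonoidHom.map_trace ι.toAddMonoidHom (ρ g : Matrix (Fin 2) (Fin 2) ℤ_[ℓ])).symm
    rw [h1, trace_two (huni g hg), map_ofNat]
  have hKmul : ∀ g ∈ K, ∀ h ∈ K, g * h ∈ K := by
    rintro g ⟨h1, h2⟩ h ⟨h3, h4⟩
    exact ⟨by rw [map_mul, h1, h3, one_mul], by rw [map_mul, h2, h4, one_mul]⟩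
  have hKconj : ∀ g ∈ K, ∀ h, h⁻¹ * g * h ∈ K := by
    rintro g ⟨h1, h2⟩ h
    constructor
    · have := map_mul τ h⁻¹ h
      rw [inv_mul_cancel, map_one] at this
      rw [map_mul, map_mul, h1, mul_one, ← this]
    · have := map_mul δ h⁻¹ h
      rw [inv_mul_cancel, map_one] at this
      rw [map_mul, map_mul, h2, mul_one, ← this]
  -- `K` acts trivially
  have htriv : ∀ g ∈ K, (R g : Matrix (Fin 2) (Fin 2) ℚ_[ℓ]) = 1 := by
    intro g hg
    by_contra hne
    set N : Matrix (Fin 2) (Fin 2) ℚ_[ℓ] := (R g : Matrix (Fin 2) (Fin 2) ℚ_[ℓ]) - 1 with hN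
    have hN0 : N ≠ 0 := sub_ne_zero.2 hne
    have hN2 : N ^ 2 = 0 := huniR g hg
    have hNdet : N.det = 0 := by
      have h1 := congrArg Matrix.det hN2
      rw [Matrix.det_pow, Matrix.det_zero] at h1
      exact pow_eq_zero_iff two_ne_zero |>.1 h1
    obtain ⟨x, hx⟩ : ∃ x, N.mulVec x ≠ 0 := by
      by_contra hcon
      push Not at hcon
      apply hN0
      apply Matrix.ext_of_mulVec_single
      intro i
      rw [hcon, Matrix.zero_mulVec]
    set v := N.mulVec x with hv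
    have hNv : N.mulVec v = 0 := by
      rw [hv, Matrix.mulVec_mulVec, ← sq, hN2, Matrix.zero_mulVec]
    have hfix : ∀ h ∈ K, (R h : Matrix (Fin 2) (Fin 2) ℚ_[ℓ]).mulVec v = v := by
      intro h hh
      have h1 : (N * (R h : Matrix (Fin 2) (Fin 2) ℚ_[ℓ])).trace = 0 := by
        rw [hN, sub_mul, one_mul, Matrix.trace_sub, ← Units.val_mul, ← map_mul,
          htrR _ (hKmul g hg h hh), htrR h hh, sub_self]
      have h2 := mul_mul_two N (R h : Matrix (Fin 2) (Fin 2) ℚ_[ℓ])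
      rw [h1, hNdet, zero_smul, zero_smul, sub_zero] at h2
      have h3 : N.mulVec ((R h : Matrix (Fin 2) (Fin 2) ℚ_[ℓ]).mulVec v) = 0 := by
        rw [hv, Matrix.mulVec_mulVec, Matrix.mulVec_mulVec, h2, Matrix.zero_mulVec]
      obtain ⟨c, hc⟩ := ker_line hN0 hx hNv h3
      have h4 : ((R h : Matrix (Fin 2) (Fin 2) ℚ_[ℓ]) - 1).mulVec v = (c - 1) • v := by
        rw [Matrix.sub_mulVec, hc, Matrix.one_mulVec, sub_smul, one_smul]
      have h5 := congrArg (fun X : Matrix (Fin 2) (Fin 2) ℚ_[ℓ] => X.mulVec v) (huniR h hh)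
      rw [sq, ← Matrix.mulVec_mulVec, h4, Matrix.mulVec_smul, h4, smul_smul,
        Matrix.zero_mulVec] at h5
      have h6 := (smul_eq_zero.1 h5).resolve_right hx
      have h7 : c = 1 := sub_eq_zero.1 (mul_self_eq_zero.1 h6)
      rw [hc, h7, one_smul]
    let W : Submodule ℚ_[ℓ] (Fin 2 → ℚ_[ℓ]) :=
      { carrier := {w | ∀ h ∈ K, (R h : Matrix (Fin 2) (Fin 2) ℚ_[ℓ]).mulVec w = w}
        add_mem' := fun {a b} ha hb h hh => by rw [Matrix.mulVec_add, ha h hh, hb h hh]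
        zero_mem' := fun h _ => by rw [Matrix.mulVec_zero]
        smul_mem' := fun c a ha h hh => by rw [Matrix.mulVec_smul, ha h hh] }
    have hW : IsStable R W := by
      intro g' w hw h hh
      have h1 : h * g' = g' * (g'⁻¹ * h * g') := by group
      rw [Matrix.mulVec_mulVec, ← Units.val_mul, ← map_mul, h1, map_mul, Units.val_mul,
        ← Matrix.mulVec_mulVec, hw _ (hKconj h hh g')]
    rcases hirr W hW with h1 | h1
    · have h2 : v ∈ W := hfix
      rw [h1, Submodule.mem_bot] at h2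
      exact hx h2
    · apply hne
      apply Matrix.ext_of_mulVec_single
      intro i
      have h2 : (Pi.single i 1 : Fin 2 → ℚ_[ℓ]) ∈ W := by
        rw [h1]
        exact Submodule.mem_top
      rw [h2 g hg, Matrix.one_mulVec]
  -- the image is commutative
  have hcomm : ∀ g h, (R g : Matrix (Fin 2) (Fin 2) ℚ_[ℓ]) * R h = R h * R g := by
    intro g h
    have hK : h⁻¹ * g⁻¹ * h * g ∈ K := by
      constructor
      · have e1 := map_mul τ h⁻¹ h
        have e2 := map_mul τ g⁻¹ g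
        rw [inv_mul_cancel, map_one] at e1 e2
        rw [map_mul, map_mul, map_mul]
        linear_combination (-1) * e1 - τ h⁻¹ * τ h * e2
      · have e1 := map_mul δ h⁻¹ h
        have e2 := map_mul δ g⁻¹ g
        rw [inv_mul_cancel, map_one] at e1 e2
        rw [map_mul, map_mul, map_mul]
        linear_combination (-1) * e1 - δ h⁻¹ * δ h * e2
    have h1 := htriv _ hK
    have h2 : R (h⁻¹ * g⁻¹ * h * g) = 1 := Units.ext h1
    have h3 : h * g = g * h * (h⁻¹ * g⁻¹ * h * g) := by group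
    have h4 : R (h * g) = R (g * h) := by
      rw [h3, map_mul, h2, mul_one]
    have h5 := congrArg Units.val h4
    rw [map_mul, map_mul, Units.val_mul, Units.val_mul] at h5
    exact h5.symm
  -- the eigenvalues
  have heig : ∀ g, ∃ c : ℚ_[ℓ],
      ((R g : Matrix (Fin 2) (Fin 2) ℚ_[ℓ]) - c • (1 : Matrix (Fin 2) (Fin 2) ℚ_[ℓ])).det = 0 := by
    intro g
    have hK : g ^ (ℓ - 1) ∈ K := by
      constructor
      · rw [map_pow]
        exact ZMod.pow_card_sub_one_eq_one (ht0 g)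
      · rw [map_pow]
        exact ZMod.pow_card_sub_one_eq_one (hδ0 g)
    have h1 := htriv _ hK
    have h2 : (ρ g : Matrix (Fin 2) (Fin 2) ℤ_[ℓ]) ^ (ℓ - 1) = 1 := by
      have h3 : ι.mapMatrix ((ρ g : Matrix (Fin 2) (Fin 2) ℤ_[ℓ]) ^ (ℓ - 1)) = ι.mapMatrix 1 := by
        rw [map_one, ← h1, hR, map_pow ρ, Units.val_pow_eq_pow_val]
      exact Matrix.map_injective hι h3
    obtain ⟨c, hc⟩ := exists_eig h2 hu0 (ht0 g) (ht g)
    refine ⟨ι c, ?_⟩
    have h3 := congrArg ι hc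
    rw [map_zero, RingHom.map_det] at h3
    rw [← h3]
    congr 1
    ext i j
    rw [hR, RingHom.mapMatrix_apply, RingHom.mapMatrix_apply, Matrix.sub_apply, Matrix.map_apply,
      Matrix.map_apply, Matrix.sub_apply, Matrix.smul_apply, Matrix.smul_apply, smul_eq_mul,
      smul_eq_mul, map_sub, map_mul, Matrix.one_apply, Matrix.one_apply]
    split_ifs <;> simp
  by_cases hsc : ∀ g, ∃ c : ℚ_[ℓ], (R g : Matrix (Fin 2) (Fin 2) ℚ_[ℓ]) =
      c • (1 : Matrix (Fin 2) (Fin 2) ℚ_[ℓ])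
  · -- all scalar
    have hv : (![1, 0] : Fin 2 → ℚ_[ℓ]) ≠ 0 := fun h0 => one_ne_zero (congrFun h0 0)
    have hst : IsStable R (Submodule.span ℚ_[ℓ] {(![1, 0] : Fin 2 → ℚ_[ℓ])}) := by
      intro g x hx
      obtain ⟨c, hc⟩ := hsc g
      rw [hc, Matrix.smul_mulVec, Matrix.one_mulVec]
      exact Submodule.smul_mem _ _ hx
    have hfr : finrank ℚ_[ℓ] (Submodule.span ℚ_[ℓ] {(![1, 0] : Fin 2 → ℚ_[ℓ])}) = 1 :=
      finrank_span_singleton hv
    rcases hirr _ hst with h3 | h3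
    · rw [h3, finrank_bot] at hfr
      exact zero_ne_one hfr
    · rw [h3, finrank_top, finrank_fin_fun] at hfr
      omega
  · push Not at hsc
    obtain ⟨g, hg⟩ := hsc
    obtain ⟨c, hc⟩ := heig g
    set N : Matrix (Fin 2) (Fin 2) ℚ_[ℓ] := (R g : Matrix (Fin 2) (Fin 2) ℚ_[ℓ]) -
      c • (1 : Matrix (Fin 2) (Fin 2) ℚ_[ℓ]) with hN
    have hN0 : N ≠ 0 := sub_ne_zero.2 (hg c)
    obtain ⟨v, hv, hNv⟩ := Matrix.exists_mulVec_eq_zero_iff.2 hc
    let W : Submodule ℚ_[ℓ] (Fin 2 → ℚ_[ℓ]) := LinearMap.ker N.mulVecLin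
    have hW : IsStable R W := by
      intro g' w hw
      have hw' : N.mulVec w = 0 := hw
      show N.mulVec ((R g' : Matrix (Fin 2) (Fin 2) ℚ_[ℓ]).mulVec w) = 0
      have h1 : N * (R g' : Matrix (Fin 2) (Fin 2) ℚ_[ℓ]) = R g' * N := by
        rw [hN, sub_mul, mul_sub, hcomm, Matrix.smul_mul, Matrix.mul_smul, one_mul, mul_one]
      rw [Matrix.mulVec_mulVec, h1, ← Matrix.mulVec_mulVec, hw', Matrix.mulVec_zero]
    rcases hirr W hW with h1 | h1
    · have h2 : v ∈ W := hNv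
      rw [h1, Submodule.mem_bot] at h2
      exact hv h2
    · apply hN0
      apply Matrix.ext_of_mulVec_single
      intro i
      have h2 : (Pi.single i 1 : Fin 2 → ℚ_[ℓ]) ∈ W := by
        rw [h1]
        exact Submodule.mem_top
      have h3 : N.mulVec (Pi.single i 1) = 0 := h2
      rw [h3, Matrix.zero_mulVec]

end Pool.Agent.D0H1.SF
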