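import Pool.Agent.D0H1.SF.HA

/-!
# Exponents of algebraic characters: the weight from the value at one ideal
-/

set_option autoImplicit false
set_option linter.unusedSectionVars false

namespace Pool.Agent.D0H1.SF

open NumberField NumberField.InfinitePlace Module Pool.Agent.D0H90.CS

variable {F : Type} [Field F] [NumberField F]

/-- A relation between the absolute values at the complex embeddings, for the units and for an element
whose norm is not `1` or `-1`. -/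
theorem embedding_rel3 (f : (F →+* ℂ) → ℤ)
    (hu : ∀ u : (𝓞 F)ˣ, ∑ φ : F →+* ℂ, (f φ : ℝ) * Real.log ‖φ ((u : 𝓞 F) : F)‖ = 0)
    {x : F} (hx : ∑ φ : F →+* ℂ, (f φ : ℝ) * Real.log ‖φ x‖ = 0)
    (hN : ∑ φ : F →+* ℂ, Real.log ‖φ x‖ ≠ 0) : ∑ φ : F →+* ℂ, f φ = 0 := by
  classical
  let g : InfinitePlace F → ℝ := fun v => ∑ φ : F →+* ℂ with InfinitePlace.mk φ = v, (f φ : ℝ)
  have hg : ∀ x : F, ∑ v, g v * Real.log (v x) =
      ∑ φ : F →+* ℂ, (f φ : ℝ) * Real.log ‖φ x‖ := by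
    intro x
    rw [← Finset.sum_fiberwise (s := Finset.univ) (g := fun φ : F →+* ℂ => InfinitePlace.mk φ)
      (f := fun φ : F →+* ℂ => (f φ : ℝ) * Real.log ‖φ x‖)]
    refine Finset.sum_congr rfl fun v _ => ?_
    rw [Finset.sum_mul]
    refine Finset.sum_congr rfl fun φ hφ => ?_
    rw [← (Finset.mem_filter.mp hφ).2, apply]
  have hm : ∑ v : InfinitePlace F, (v.mult : ℝ) * Real.log (v x) =
      ∑ φ : F →+* ℂ, Real.log ‖φ x‖ := by
    rw [← Finset.sum_fiberwise (s := Finset.univ) (g := fun φ : F →+* ℂ => InfinitePlace.mk φ)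
      (f := fun φ : F →+* ℂ => Real.log ‖φ x‖)]
    refine Finset.sum_congr rfl fun v _ => ?_
    rw [← card_filter_mk_eq v]
    rw [Finset.sum_congr rfl (g := fun _ => Real.log (v x)) fun φ hφ => ?_]
    · rw [Finset.sum_const, nsmul_eq_mul]
    · rw [← (Finset.mem_filter.mp hφ).2, apply]
  obtain ⟨t, ht⟩ := unit_relation g (fun u => by rw [hg]; exact hu u)
  have h1 : t * ∑ φ : F →+* ℂ, Real.log ‖φ x‖ = 0 := by
    rw [← hm, Finset.mul_sum, ← hx, ← hg]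
    refine Finset.sum_congr rfl fun v _ => ?_
    rw [ht v]
    ring
  have h2 : t = 0 := (mul_eq_zero.1 h1).resolve_right hN
  have h3 : ∀ v, g v = 0 := fun v => by rw [ht, h2, zero_mul]
  have h4 : (∑ φ : F →+* ℂ, (f φ : ℝ)) = 0 := by
    rw [← Finset.sum_fiberwise (s := Finset.univ) (g := fun φ : F →+* ℂ => InfinitePlace.mk φ)
      (f := fun φ : F →+* ℂ => (f φ : ℝ))]
    exact Finset.sum_eq_zero fun v _ => h3 v
  exact_mod_cast h4

variable {Ω : Type} [Field Ω] [Algebra ℚ Ω] [IsAlgClosed Ω] [Algebra.IsAlgebraic ℚ Ω] [CharZero Ω]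

/-- **The exponents of an algebraic character of weight `W`.** -/
theorem conj_weights2 (a : (F →+* Ω) → ℕ) {W : ℕ}
    (hu : ∀ u : (𝓞 F)ˣ, ∃ K : ℕ, 0 < K ∧ (∏ τ : F →+* Ω, τ ((u : 𝓞 F) : F) ^ a τ) ^ K = 1)
    {x : F} (hx0 : x ≠ 0)
    (hx : ∀ ι : Ω →+* ℂ, ‖ι (∏ τ : F →+* Ω, τ x ^ a τ)‖ ^ 2 = (∏ φ : F →+* ℂ, ‖φ x‖) ^ W)
    (hN : 1 < ∏ φ : F →+* ℂ, ‖φ x‖) (τ τ' : F →+* Ω) (hc : IsConjOf τ τ') :
    a τ + a τ' = W := by
  have key := gal_relation (Ω := Ω) (F := F) (fun τ => (a τ : ℤ)) (W : ℤ) ?_ τ τ' hc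
  · exact_mod_cast key
  intro ι t t' htt
  let e := Equiv.ofBijective _ (emb_bij (F := F) (Ω := Ω) ι)
  let f : (F →+* ℂ) → ℤ := fun φ => 2 * (a (e.symm φ) : ℤ) - W
  have hf : ∀ t : F →+* Ω, f (ι.comp t) = 2 * (a t : ℤ) - W := by
    intro t
    show 2 * (a (e.symm (e t)) : ℤ) - W = _
    rw [e.symm_apply_apply]
  have hsum : ∀ y : F, y ≠ 0 → ∑ φ : F →+* ℂ, (f φ : ℝ) * Real.log ‖φ y‖ =
      2 * Real.log ‖ι (∏ τ : F →+* Ω, τ y ^ a τ)‖ - W * ∑ φ : F →+* ℂ, Real.log ‖φ y‖ := by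
    intro y hy
    have hne : ∀ t : F →+* Ω, ‖ι (t y)‖ ≠ 0 := by
      intro t
      rw [norm_ne_zero_iff, Ne, map_eq_zero, map_eq_zero]
      exact hy
    have h2 : ∑ φ : F →+* ℂ, (f φ : ℝ) * Real.log ‖φ y‖ =
        ∑ t : F →+* Ω, (2 * (a t : ℝ) - W) * Real.log ‖ι (t y)‖ := by
      refine (Fintype.sum_equiv e _ _ fun t => ?_).symm
      show _ = (f (ι.comp t) : ℝ) * Real.log ‖ι (t y)‖
      rw [hf]
      push_cast
      rfl
    have h3 : Real.log ‖ι (∏ τ : F →+* Ω, τ y ^ a τ)‖ =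
        ∑ t : F →+* Ω, (a t : ℝ) * Real.log ‖ι (t y)‖ := by
      simp only [map_pow, map_prod, norm_pow, norm_prod]
      rw [Real.log_prod (fun t _ => pow_ne_zero _ (hne t))]
      simp_rw [Real.log_pow]
    have h4 : ∑ φ : F →+* ℂ, Real.log ‖φ y‖ = ∑ t : F →+* Ω, Real.log ‖ι (t y)‖ :=
      (Fintype.sum_equiv e _ _ fun t => rfl).symm
    rw [h2, h3, h4, Finset.mul_sum, Finset.mul_sum, ← Finset.sum_sub_distrib]
    refine Finset.sum_congr rfl fun t _ => ?_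
    ring
  have hunit : ∀ u : (𝓞 F)ˣ, ∑ φ : F →+* ℂ, (f φ : ℝ) * Real.log ‖φ ((u : 𝓞 F) : F)‖ = 0 := by
    intro u
    have hu0 : ((u : 𝓞 F) : F) ≠ 0 := by
      intro h0
      exact u.ne_zero (RingOfIntegers.ext (by rw [h0]; rfl))
    rw [hsum _ hu0, sum_log_unit u]
    obtain ⟨K, hK, h5⟩ := hu u
    have h6 := congrArg (fun z => Real.log ‖ι z‖) h5
    simp only [map_pow, norm_pow, map_one, norm_one, Real.log_one] at h6
    rw [Real.log_pow] at h6
    have h7 : Real.log ‖ι (∏ τ : F →+* Ω, τ ((u : 𝓞 F) : F) ^ a τ)‖ = 0 := by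
      rcases mul_eq_zero.1 h6 with h | h
      · exact absurd (by exact_mod_cast h) hK.ne'
      · exact h
    rw [h7]
    ring
  have hprod : Real.log (∏ φ : F →+* ℂ, ‖φ x‖) = ∑ φ : F →+* ℂ, Real.log ‖φ x‖ := by
    rw [Real.log_prod]
    intro φ _
    rw [norm_ne_zero_iff, Ne, map_eq_zero]
    exact hx0
  have hxs : ∑ φ : F →+* ℂ, (f φ : ℝ) * Real.log ‖φ x‖ = 0 := by
    rw [hsum x hx0]
    have h5 := congrArg Real.log (hx ι)
    rw [Real.log_pow, Real.log_pow, hprod] at h5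
    push_cast at h5
    linarith
  have hN' : ∑ φ : F →+* ℂ, Real.log ‖φ x‖ ≠ 0 := by
    rw [← hprod]
    exact (Real.log_pos hN).ne'
  have h1 := embedding_rel2 f hunit (embedding_rel3 f hunit hxs hN') (ι.comp t)
  have h2 : ComplexEmbedding.conjugate (ι.comp t) = ι.comp t' := by
    ext x
    exact (htt x).symm
  rw [h2, hf, hf] at h1
  show (a t : ℤ) + (a t' : ℤ) = (W : ℤ)
  linarith

/-- the norm of an element -/
theorem prod_norm_emb (x : 𝓞 F) :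
    ∏ φ : F →+* ℂ, ‖φ (x : F)‖ = (Ideal.absNorm (Ideal.span {x}) : ℝ) := by
  rw [Ideal.absNorm_span_singleton]
  have h3 : ((Algebra.norm ℚ (x : F) : ℚ) : ℂ) = ∏ φ : F →+* ℂ, φ (x : F) := by
    have := Algebra.norm_eq_prod_embeddings ℚ ℂ (x : F)
    rw [← Fintype.prod_equiv (RingHom.equivRatAlgHom F ℂ) (fun f : F →+* ℂ => f x)
      (fun f => f x) fun _ => by simp [RingHom.equivRatAlgHom_apply]] at this
    rw [← this]
    rfl
  rw [← norm_prod, ← h3, ← Algebra.coe_norm_int, Nat.cast_natAbs]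
  push_cast
  rw [← Complex.norm_intCast]

end Pool.Agent.D0H1.SF
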