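import Pool.Agent.D0H1.SF.RW
import Pool.Agent.D0H1.SF.RIrr
import Pool.Agent.D0H1.SF.HMain

/-!
# The infinity types of algebraic eigenvalues
-/

set_option autoImplicit false
set_option linter.unusedSectionVars false

namespace Pool.Agent.D0H1.SF

open Module Matrix Polynomial NumberField Pool.Agent.Y800 Pool.Agent.R390.SF
open Pool.Agent.R390.SF.IntegralSystem
open Pool.Agent.D0H90.CS (IsConjOf)

variable {F : SubFld ℚ} [hF : FiniteDimensional ℚ F] {n : ℕ} {S : Finset ℕ} {w : ℕ} {h : ℕ → ℕ}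
  {T : IntegralSystem F n}

theorem typePow_coe [NumberField F] (a : (F →+* AlgebraicClosure ℚ) → ℕ) (x : 𝓞 F) :
    (typePow a x : AlgebraicClosure ℚ) = ∏ τ : F →+* AlgebraicClosure ℚ, τ (x : F) ^ a τ := by
  rw [typePow, finprod_eq_prod_of_fintype]
  have h1 := map_prod (algebraMap ZBar (AlgebraicClosure ℚ))
    (fun τ : F →+* AlgebraicClosure ℚ => RingOfIntegers.mapRingHom τ x ^ a τ) Finset.univ
  refine Eq.trans h1 ?_
  refine Finset.prod_congr rfl fun τ _ => ?_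
  rw [map_pow]
  rfl

theorem typePow_mul [NumberField F] (a : (F →+* AlgebraicClosure ℚ) → ℕ) (x y : 𝓞 F) :
    typePow a (x * y) = typePow a x * typePow a y := by
  rw [typePow, typePow, typePow, finprod_eq_prod_of_fintype, finprod_eq_prod_of_fintype,
    finprod_eq_prod_of_fintype, ← Finset.prod_mul_distrib]
  refine Finset.prod_congr rfl fun τ _ => ?_
  rw [map_mul, mul_pow]

theorem typePow_pow [NumberField F] (a : (F →+* AlgebraicClosure ℚ) → ℕ) (x : 𝓞 F) (j : ℕ) :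
    typePow a (x ^ j) = typePow a x ^ j := by
  rw [typePow, typePow, finprod_eq_prod_of_fintype, finprod_eq_prod_of_fintype,
    ← Finset.prod_pow]
  refine Finset.prod_congr rfl fun τ _ => ?_
  rw [map_pow, ← pow_mul, ← pow_mul, mul_comm]

theorem typePow_ne_zero [NumberField F] (a : (F →+* AlgebraicClosure ℚ) → ℕ) {x : 𝓞 F}
    (hx : x ≠ 0) : typePow a x ≠ 0 := by
  rw [typePow, finprod_eq_prod_of_fintype, Finset.prod_ne_zero_iff]
  intro τ _
  refine pow_ne_zero _ fun h0 => hx ?_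
  apply RingOfIntegers.ext
  apply τ.injective
  have h1 := congrArg (algebraMap ZBar (AlgebraicClosure ℚ)) h0
  rw [map_zero] at h1
  show τ (x : F) = τ ((0 : 𝓞 F) : F)
  have h2 : ((0 : 𝓞 F) : F) = 0 := rfl
  rw [h2, map_zero]
  exact h1

/-- powers of the ideals are principal -/
theorem exists_generator {K : Type} [Field K] [NumberField K] {𝔭 : Ideal (𝓞 K)} (h : 𝔭 ≠ ⊥) :
    ∃ (m : ℕ) (x : 𝓞 K), 0 < m ∧ 𝔭 ^ m = Ideal.span {x} := by
  have h1 : 𝔭 ∈ nonZeroDivisors (Ideal (𝓞 K)) := mem_nonZeroDivisors_of_ne_zero h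
  let I : nonZeroDivisors (Ideal (𝓞 K)) := ⟨𝔭, h1⟩
  have h2 : (ClassGroup.mk0 I) ^ Fintype.card (ClassGroup (𝓞 K)) = 1 := pow_card_eq_one
  have h2' : ClassGroup.mk0 (I ^ Fintype.card (ClassGroup (𝓞 K))) = 1 := by
    rw [map_pow]; exact h2
  obtain ⟨x, hx⟩ := (((ClassGroup.mk0_eq_one_iff
    (I ^ Fintype.card (ClassGroup (𝓞 K))).2).1 h2').principal : _)
  exact ⟨_, x, Fintype.card_pos, hx⟩

/-- **The infinity type of an algebraic eigenvalue** is pure of weight `w * d`. -/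
theorem eigenvalue_weights (hT : T.GoodSystem S w) {d : ℕ} {a : (F →+* AlgebraicClosure ℚ) → ℕ}
    {E : Finset ℕ}
    (hE : ∀ p : ℕ, p.Prime → p ∉ E → ∀ 𝔭 : Idl F, Above p 𝔭 →
      ∀ (x : 𝓞 F) (m : ℕ), 𝔭 ^ m = Ideal.span {x} →
        ∃ s ≤ (T.poly 𝔭).aroots (AlgebraicClosure ℚ), Multiset.card s = d ∧
          s.prod ^ (2 * m) = (typePow a x : AlgebraicClosure ℚ) ^ 2)
    (τ τ' : F →+* AlgebraicClosure ℚ) (hc : IsConjOf τ τ') : a τ + a τ' = w * d := by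
  classical
  have hnf : NumberField F := numberField
  have hQalg : Algebra.IsAlgebraic ℚ (AlgebraicClosure ℚ) := AlgebraicClosure.isAlgebraic ℚ
  obtain ⟨p, hpE, hp⟩ := Nat.exists_infinite_primes ((E ∪ S).sup id + 1)
  have hpES : p ∉ E ∪ S := by
    intro h1
    have := Finset.le_sup (f := id) h1
    simp only [id_eq] at this
    omega
  rw [Finset.mem_union, not_or] at hpES
  obtain ⟨𝔭, h𝔭, hp𝔭⟩ := exists_above (F := F) hp
  have h𝔭0 : 𝔭 ≠ ⊥ := by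
    rintro rfl
    rw [Ideal.mem_bot] at hp𝔭
    exact hp.ne_zero (by exact_mod_cast hp𝔭)
  obtain ⟨m, x, hm, hx⟩ := exists_generator h𝔭0
  have hgood := hT.good p hp hpES.2 𝔭 h𝔭 hp𝔭
  have hx0 : x ≠ 0 := by
    rintro rfl
    rw [Ideal.span_singleton_eq_bot.2 rfl] at hx
    exact h𝔭0 (pow_eq_zero_iff hm.ne' |>.1 hx)
  -- the norm
  have hq : Ideal.absNorm 𝔭 = Nat.card (𝓞 F ⧸ 𝔭) := by
    rw [Ideal.absNorm_apply, Submodule.cardQuot_apply]
  have hq1 : 1 < Ideal.absNorm 𝔭 := by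
    have h1 : Ideal.absNorm 𝔭 ≠ 0 := by
      rw [Ne, Ideal.absNorm_eq_zero_iff]
      exact h𝔭0
    have h2 : Ideal.absNorm 𝔭 ≠ 1 := by
      rw [Ne, Ideal.absNorm_eq_one_iff]
      exact h𝔭.ne_top
    omega
  have hnorm : ∏ φ : F →+* ℂ, ‖φ (x : F)‖ = ((Nat.card (𝓞 F ⧸ 𝔭) : ℝ)) ^ m := by
    rw [prod_norm_emb, ← hx, map_pow, hq]
    push_cast
    rfl
  refine conj_weights2 a (fun u => ?_) (x := (x : F)) ?_ (fun ι => ?_) ?_ τ τ' hc
  · -- units
    have h1 : ∀ j : ℕ, ∃ s : (((T.poly 𝔭).aroots (AlgebraicClosure ℚ)).powerset.toFinset),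
        (s : Multiset (AlgebraicClosure ℚ)).prod ^ (2 * m) =
          (typePow a (x * (u : 𝓞 F) ^ j) : AlgebraicClosure ℚ) ^ 2 := by
      intro j
      obtain ⟨s, hs1, -, hs3⟩ := hE p hp hpES.1 𝔭 ⟨h𝔭, hp𝔭⟩ (x * (u : 𝓞 F) ^ j) m (by
        rw [hx, Ideal.span_singleton_eq_span_singleton]
        exact ⟨u ^ j, by push_cast; rfl⟩)
      exact ⟨⟨s, by rw [Multiset.mem_toFinset]; exact Multiset.mem_powerset.2 hs1⟩, hs3⟩
    choose s hs using h1
    obtain ⟨j, j', hjj, hss⟩ := Finite.exists_ne_map_eq_of_infinite s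
    have key : ∀ j j' : ℕ, j < j' → s j = s j' → ∃ K : ℕ, 0 < K ∧
        (∏ τ : F →+* AlgebraicClosure ℚ, τ ((u : 𝓞 F) : F) ^ a τ) ^ K = 1 := by
      intro j j' hlt hss
      have h2 := (hs j).symm.trans ((congrArg (fun s : (((T.poly 𝔭).aroots
        (AlgebraicClosure ℚ)).powerset.toFinset) =>
        (s : Multiset (AlgebraicClosure ℚ)).prod ^ (2 * m)) hss).trans (hs j'))
      refine ⟨2 * (j' - j), by omega, ?_⟩
      rw [← typePow_coe]
      have h3 : ∀ i : ℕ, (typePow a (x * (u : 𝓞 F) ^ i) : AlgebraicClosure ℚ) ^ 2 =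
          (typePow a x : AlgebraicClosure ℚ) ^ 2 *
            ((typePow a (u : 𝓞 F) : AlgebraicClosure ℚ) ^ i) ^ 2 := by
        intro i
        rw [typePow_mul, typePow_pow]
        push_cast
        rw [mul_pow]
      rw [h3, h3] at h2
      have h4 : (typePow a x : AlgebraicClosure ℚ) ≠ 0 := by
        intro h0
        exact typePow_ne_zero a hx0 (RingOfIntegers.ext (by rw [h0]; rfl))
      have h5 : (typePow a (u : 𝓞 F) : AlgebraicClosure ℚ) ≠ 0 := by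
        intro h0
        exact typePow_ne_zero a u.ne_zero (RingOfIntegers.ext (by rw [h0]; rfl))
      have h6 := mul_left_cancel₀ (pow_ne_zero 2 h4) h2
      obtain ⟨e, rfl⟩ : ∃ e, j' = j + e := ⟨j' - j, by omega⟩
      have h7 : ((typePow a (u : 𝓞 F) : AlgebraicClosure ℚ) ^ j) ^ 2 * 1 =
          ((typePow a (u : 𝓞 F) : AlgebraicClosure ℚ) ^ j) ^ 2 *
            (typePow a (u : 𝓞 F) : AlgebraicClosure ℚ) ^ (2 * (j + e - j)) := by
        rw [mul_one, Nat.add_sub_cancel_left]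
        refine h6.trans ?_
        ring
      exact (mul_left_cancel₀ (pow_ne_zero 2 (pow_ne_zero j h5)) h7).symm
    rcases lt_or_gt_of_ne hjj with h2 | h2
    · exact key j j' h2 hss
    · exact key j' j h2 hss.symm
  · intro h0
    exact hx0 (RingOfIntegers.ext (by rw [h0]; rfl))
  · -- the absolute value
    obtain ⟨s, hs1, hs2, hs3⟩ := hE p hp hpES.1 𝔭 ⟨h𝔭, hp𝔭⟩ x m hx
    rw [← typePow_coe]
    have h1 : ∀ z ∈ s, ‖ι z‖ ^ 2 = (Nat.card (𝓞 F ⧸ 𝔭) : ℝ) ^ w := by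
      intro z hz
      refine hgood.pure (ι z) ?_
      have h2 := Multiset.mem_of_le hs1 hz
      rw [mem_aroots] at h2 ⊢
      refine ⟨h2.1, ?_⟩
      have h3 := congrArg ι h2.2
      rw [map_zero, aeval_def, hom_eval₂] at h3
      rw [aeval_def, ← h3]
      congr 1
      exact Subsingleton.elim _ _
    have h2 : ‖ι s.prod‖ ^ 2 = ((Nat.card (𝓞 F ⧸ 𝔭) : ℝ) ^ w) ^ d := by
      rw [← hs2]
      clear hs1 hs2 hs3
      induction s using Multiset.induction_on with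
      | empty => simp
      | cons z s ih =>
        rw [Multiset.prod_cons, map_mul, norm_mul, mul_pow, Multiset.card_cons,
          pow_succ ((Nat.card (𝓞 F ⧸ 𝔭) : ℝ) ^ w), h1 z (Multiset.mem_cons_self z s), ih fun z hz => h1 z (Multiset.mem_cons_of_mem hz),
          mul_comm]
    have h3 := congrArg (fun z => ‖ι z‖) hs3
    simp only [map_pow, norm_pow] at h3
    rw [← h3, pow_mul, h2, hnorm]
    ring
  · rw [hnorm]
    refine one_lt_pow₀ ?_ hm.ne'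
    rw [← hq]
    exact_mod_cast hq1

/-- If a place above `ℓ` is self-conjugate on the largest CM subfield then an algebraic eigenvalue with
an infinity type from `ℓ` has the weight `w / 2`. -/
theorem half_of_selfConj {ℓ : ℕ} (hℓ : ℓ.Prime) (hFℓ : HasSelfConjugatePlace F ℓ)
    (hT : T.GoodSystem S w) {d : ℕ} (H : HasAlgebraicEigenvalue S w h ℓ T d) :
    ∃ c : ℕ, IsWeightSum w h d c ∧ 2 * c = w * d := by
  obtain ⟨a, ⟨P₀, hP₀, hℓP₀, hl⟩, ha, hE⟩ := H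
  obtain ⟨τ, τ', hττ, hpl⟩ := exists_pair hℓ hFℓ hP₀ hℓP₀
  have h1 := eigenvalue_weights (E := insert ℓ S) hT (fun p hp hpE => by
    rw [Finset.mem_insert, not_or] at hpE
    exact hE p hp hpE.2 hpE.1) τ τ' hττ
  have h2 := hl τ τ' hpl
  exact ⟨a τ, ha τ, by omega⟩

/-- The same for the isotropic families. -/
theorem half_of_selfConj_iso {ℓ : ℕ} (hℓ : ℓ.Prime) (hFℓ : HasSelfConjugatePlace F ℓ)
    (hT : T.GoodSystem S w) {d : ℕ} (H : HasIsotropicEigenvalue S w h ℓ T d) :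
    ∃ c : ℕ, IsIsotropicSum w h d c ∧ 2 * c = w * d := by
  obtain ⟨a, ⟨P₀, hP₀, hℓP₀, hl⟩, ha, hE⟩ := H
  obtain ⟨τ, τ', hττ, hpl⟩ := exists_pair hℓ hFℓ hP₀ hℓP₀
  have h1 := eigenvalue_weights (E := insert ℓ S) hT (fun p hp hpE 𝔭 h𝔭 x m hx => by
    rw [Finset.mem_insert, not_or] at hpE
    obtain ⟨s, ⟨h3, h4⟩, h5⟩ := hE p hp hpE.2 hpE.1 𝔭 h𝔭 x m hx
    exact ⟨s, (Multiset.le_add_right _ _).trans h3, h4, h5⟩) τ τ' hττ
  have h2 := hl τ τ' hpl
  exact ⟨a τ, ha τ, by omega⟩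

/-- Rigid Hodge numbers exclude the isotropic families. -/
theorem none_of_rigid {ℓ : ℕ} (hℓ : ℓ.Prime) (hFℓ : HasSelfConjugatePlace F ℓ) (hr : Rigid w h)
    (hT : T.GoodSystem S w) {d : ℕ} (hd : 0 < d) : ¬ HasIsotropicEigenvalue S w h ℓ T d := by
  intro H
  obtain ⟨c, ⟨m, h1, h2, h3⟩, h4⟩ := half_of_selfConj_iso hℓ hFℓ hT H
  have h5 := hr m h1 (by rw [h3, h2]; exact h4)
  omega

theorem rankTwo_sum {r : ℕ} (hr : 2 * r < w) {c : ℕ} (H : IsWeightSum w (rankTwo r w) 1 c) :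
    c = r ∨ c = w - r := by
  obtain ⟨m, h1, h2, rfl⟩ := H
  have hz : ∀ s ∈ Finset.range (w + 1), s ≠ r → s ≠ w - r → m s = 0 := by
    intro s _ hs1 hs2
    have := h1 s
    rw [rankTwo, if_neg (by tauto)] at this
    omega
  have hne : r ≠ w - r := by omega
  have hrm : r ∈ Finset.range (w + 1) := Finset.mem_range.2 (by omega)
  have hwm : w - r ∈ Finset.range (w + 1) := Finset.mem_range.2 (by omega)
  have key : ∀ f : ℕ → ℕ, ∑ s ∈ Finset.range (w + 1), f s * m s =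
      f r * m r + f (w - r) * m (w - r) := by
    intro f
    rw [← Finset.add_sum_erase _ _ hrm, ← Finset.add_sum_erase _ _
      (Finset.mem_erase.2 ⟨hne.symm, hwm⟩), Finset.sum_eq_zero, add_zero]
    intro s hs
    rw [Finset.mem_erase, Finset.mem_erase] at hs
    rw [hz s hs.2.2 hs.2.1 hs.1, mul_zero]
  have h8 := key (fun s => s)
  have h9 := key (fun _ => 1)
  simp only [one_mul] at h9
  rw [h2] at h9
  rw [h8]
  rcases (by omega : (m r = 1 ∧ m (w - r) = 0) ∨ (m r = 0 ∧ m (w - r) = 1)) with h | h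
  · left; rw [h.1, h.2]; omega
  · right; rw [h.1, h.2]; omega

theorem isCM_of_eigenvalue {ℓ r : ℕ} (hr : 2 * r < w) {T : IntegralSystem F 2}
    (H : HasAlgebraicEigenvalue S w (rankTwo r w) ℓ T 1) : IsCMType S r w ℓ T := by
  obtain ⟨a, hl, ha, hE⟩ := H
  refine ⟨a, hl, fun τ => rankTwo_sum hr (ha τ), ?_⟩
  intro p hp hpS hpℓ 𝔭 h𝔭 x m hx
  obtain ⟨s, h1, h2, h3⟩ := hE p hp hpS hpℓ 𝔭 h𝔭 x m hx
  obtain ⟨z, rfl⟩ := Multiset.card_eq_one.1 h2
  rw [Multiset.prod_singleton] at h3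
  exact ⟨z, Multiset.singleton_le.1 h1, h3⟩

theorem rankTwo_selfConj {ℓ : ℕ} (hℓ : ℓ.Prime) (hFℓ : HasSelfConjugatePlace F ℓ) {r : ℕ}
    (hr : 2 * r < w) {T : IntegralSystem F 2} (hT : T.GoodSystem S w) :
    ¬ IsCMType S r w ℓ T := by
  rintro ⟨a, ⟨P₀, hP₀, hℓP₀, hl⟩, ha, hE⟩
  obtain ⟨τ, τ', hττ, hpl⟩ := exists_pair hℓ hFℓ hP₀ hℓP₀
  have h1 := eigenvalue_weights (E := insert ℓ S) (d := 1) hT (fun p hp hpE 𝔭 h𝔭 x m hx => by
    rw [Finset.mem_insert, not_or] at hpE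
    obtain ⟨z, h3, h4⟩ := hE p hp hpE.2 hpE.1 𝔭 h𝔭 x m hx
    exact ⟨{z}, Multiset.singleton_le.2 h3, Multiset.card_singleton z, by
      rw [Multiset.prod_singleton]; exact h4⟩) τ τ' hττ
  have h2 := hl τ τ' hpl
  rcases ha τ with h3 | h3 <;> omega

theorem typePow_mem [NumberField F] (a : (F →+* AlgebraicClosure ℚ) → ℕ) (x : 𝓞 F) :
    (typePow a x : AlgebraicClosure ℚ) ∈
      IntermediateField.normalClosure ℚ F (AlgebraicClosure ℚ) := by
  rw [typePow_coe]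
  refine prod_mem fun τ _ => _root_.pow_mem ?_ _
  have h1 : (τ.toRatAlgHom).fieldRange ≤
      IntermediateField.normalClosure ℚ F (AlgebraicClosure ℚ) :=
    le_iSup (fun f : F →ₐ[ℚ] AlgebraicClosure ℚ => f.fieldRange) τ.toRatAlgHom
  exact h1 ⟨(x : F), rfl⟩

/-- A criterion at two places. -/
theorem none_of_two {T : IntegralSystem F n} {d : ℕ} {p₁ p₂ : ℕ} (hp₁ : p₁.Prime)
    (hp₂ : p₂.Prime) (h₁₂ : p₁ ≠ p₂) (hS₁ : p₁ ∉ S) (hS₂ : p₂ ∉ S) {𝔭₁ 𝔭₂ : Idl F}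
    (h𝔭₁ : Above p₁ 𝔭₁) (h𝔭₂ : Above p₂ 𝔭₂) (h1 : ¬ HasRationalPower T w d 𝔭₁)
    (h2 : ¬ HasRationalPower T w d 𝔭₂) (ℓ : ℕ) : ¬ HasIsotropicEigenvalue S w h ℓ T d := by
  have hnf : NumberField F := numberField
  rintro ⟨a, -, -, hE⟩
  have key : ∀ (p : ℕ) (𝔭 : Idl F), p.Prime → p ∉ S → p ≠ ℓ → Above p 𝔭 →
      HasRationalPower T w d 𝔭 := by
    intro p 𝔭 hp hpS hpℓ h𝔭
    have h𝔭0 : 𝔭 ≠ ⊥ := by
      rintro rfl
      have h3 := h𝔭.2
      rw [Ideal.mem_bot] at h3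
      exact hp.ne_zero (by exact_mod_cast h3)
    obtain ⟨m, x, hm, hx⟩ := exists_generator h𝔭0
    obtain ⟨s, hs, h3⟩ := hE p hp hpS hpℓ 𝔭 h𝔭 x m hx
    refine ⟨s, hs, 2 * m, by omega, ?_⟩
    rw [h3]
    exact _root_.pow_mem (typePow_mem a x) 2
  by_cases h3 : p₁ = ℓ
  · exact h2 (key p₂ 𝔭₂ hp₂ hS₂ (fun h4 => h₁₂ (h3.trans h4.symm)) h𝔭₂)
  · exact h1 (key p₁ 𝔭₁ hp₁ hS₁ h3 h𝔭₁)

end Pool.Agent.D0H1.SF
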