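import Pool.Agent.D0H1.SF.Abs
import Pool.Agent.D0H1.SF.Gal

/-!
# Representations with the same traces: isotropic stable subspaces
-/

set_option autoImplicit false
set_option linter.unusedSectionVars false

namespace Pool.Agent.D0H1.SF

open Module Polynomial Pool.Agent.Y800 Pool.Agent.R390.SF
open scoped MonoidAlgebra

variable {G : Type} [Group G] {n : ℕ} {k : Type} [Field k]

/-- a stable subspace as a submodule -/
def toA (ρ : G →* GL (Fin n) k) (U : Submodule k (Fin n → k)) (hU : IsStable ρ U) :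
    Submodule k[G] (rp ρ).asModule where
  carrier := {x | (rp ρ).asModuleEquiv x ∈ U}
  add_mem' := by
    intro x y hx hy
    show (rp ρ).asModuleEquiv (x + y) ∈ U
    rw [map_add]
    exact U.add_mem hx hy
  zero_mem' := by
    show (rp ρ).asModuleEquiv 0 ∈ U
    rw [map_zero]
    exact U.zero_mem
  smul_mem' := by
    intro a x hx
    show (rp ρ).asModuleEquiv (a • x) ∈ U
    induction a using MonoidAlgebra.induction_linear with
    | zero => rw [zero_smul, map_zero]; exact U.zero_mem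
    | add a b ha hb => rw [add_smul, map_add]; exact U.add_mem ha hb
    | single g t =>
      rw [Representation.single_smul]
      exact U.smul_mem t (hU g _ hx)

theorem mem_toA {ρ : G →* GL (Fin n) k} {U : Submodule k (Fin n → k)} {hU : IsStable ρ U}
    {x : (rp ρ).asModule} : x ∈ toA ρ U hU ↔ (rp ρ).asModuleEquiv x ∈ U := Iff.rfl

/-- the form on the module -/
noncomputable def bm (ρ : G →* GL (Fin n) k) (J : Matrix (Fin n) (Fin n) k) :
    (rp ρ).asModule →ₗ[k] (rp ρ).asModule →ₗ[k] k := bf J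

theorem bm_apply (ρ : G →* GL (Fin n) k) (J : Matrix (Fin n) (Fin n) k) (x y : (rp ρ).asModule) :
    bm ρ J x y = bf J ((rp ρ).asModuleEquiv x) ((rp ρ).asModuleEquiv y) := rfl

theorem bm_left {ρ : G →* GL (Fin n) k} {J : Matrix (Fin n) (Fin n) k} (hJ : J.det ≠ 0)
    (x : (rp ρ).asModule) (hx : ∀ y, bm ρ J x y = 0) : x = 0 := by
  have h1 : Matrix.vecMul ((rp ρ).asModuleEquiv x) J = 0 := by
    funext i
    have h2 := hx ((rp ρ).asModuleEquiv.symm (Pi.single i 1))
    rw [bm_apply, LinearEquiv.apply_symm_apply, bf_apply, Matrix.dotProduct_mulVec,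
      dotProduct_single, mul_one] at h2
    exact h2
  by_contra hx0
  refine hJ (Matrix.exists_vecMul_eq_zero_iff.1 ⟨(rp ρ).asModuleEquiv x, ?_, h1⟩)
  intro h
  exact hx0 ((rp ρ).asModuleEquiv.map_eq_zero_iff.1 h)

/-- the adjoint of a group element -/
theorem adj_single {ρ : G →* GL (Fin n) k} {J : Matrix (Fin n) (Fin n) k} {c : G → k}
    (hc : ∀ g, c g • ((ρ g : Matrix (Fin n) (Fin n) k).transpose * J * ρ g) = J) (g : G) (t : k)
    (x y : (rp ρ).asModule) : bm ρ J x (MonoidAlgebra.single g t • y) =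
      bm ρ J (MonoidAlgebra.single g⁻¹ (t * c g⁻¹) • x) y := by
  have h0 : ∀ (x y : Fin n → k), bf J x y =
      c g⁻¹ * bf J ((ρ g⁻¹ : Matrix (Fin n) (Fin n) k).mulVec x)
        ((ρ g⁻¹ : Matrix (Fin n) (Fin n) k).mulVec y) := by
    intro x y
    rw [bf_apply, bf_apply]
    conv_lhs => rw [← hc g⁻¹]
    rw [Matrix.smul_mulVec, dotProduct_smul, smul_eq_mul, ← Matrix.mulVec_mulVec,
      ← Matrix.mulVec_mulVec, Matrix.dotProduct_mulVec x, Matrix.vecMul_transpose]
  rw [Representation.single_smul, Representation.single_smul]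
  have h1 : bm ρ J x (t • (rp ρ g) ((rp ρ).asModuleEquiv y)) =
      t * bf J ((rp ρ).asModuleEquiv x)
        ((ρ g : Matrix (Fin n) (Fin n) k).mulVec ((rp ρ).asModuleEquiv y)) :=
    map_smul (bf J ((rp ρ).asModuleEquiv x)) t
      ((ρ g : Matrix (Fin n) (Fin n) k).mulVec ((rp ρ).asModuleEquiv y))
  have h2 : bm ρ J ((t * c g⁻¹) • (rp ρ g⁻¹) ((rp ρ).asModuleEquiv x)) y =
      (t * c g⁻¹) * bf J ((ρ g⁻¹ : Matrix (Fin n) (Fin n) k).mulVec ((rp ρ).asModuleEquiv x))
        ((rp ρ).asModuleEquiv y) := by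
    have h3 := LinearMap.congr_fun (map_smul (bf J) (t * c g⁻¹)
      ((ρ g⁻¹ : Matrix (Fin n) (Fin n) k).mulVec ((rp ρ).asModuleEquiv x))) ((rp ρ).asModuleEquiv y)
    exact h3
  rw [h1]
  refine Eq.trans ?_ h2.symm
  rw [h0, Matrix.mulVec_mulVec, ← Units.val_mul, ← map_mul, inv_mul_cancel, map_one, Units.val_one,
    Matrix.one_mulVec]
  ring

/-- **Transfer of the absence of isotropic stable subspaces.** -/
theorem noiso_transfer {ρ₀ ρ : G →* GL (Fin n) k} {J₀ J : Matrix (Fin n) (Fin n) k} {c : G → k}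
    (hn : ∀ m : ℕ, 1 ≤ m → m ≤ n → (m : k) ≠ 0)
    (hc₀ : ∀ g, c g • ((ρ₀ g : Matrix (Fin n) (Fin n) k).transpose * J₀ * ρ₀ g) = J₀)
    (hc : ∀ g, c g • ((ρ g : Matrix (Fin n) (Fin n) k).transpose * J * ρ g) = J)
    (hJ₀ : J₀.det ≠ 0) (hJ : J.det ≠ 0)
    (htr : ∀ g, (ρ g : Matrix (Fin n) (Fin n) k).trace = (ρ₀ g : Matrix (Fin n) (Fin n) k).trace)
    (hno : NoIso ρ₀ J₀) (g : G) (hnil : IsNilpotent ((ρ₀ g : Matrix (Fin n) (Fin n) k) - 1))
    (hD : Dist (Matrix.toLin' ((ρ₀ g : Matrix (Fin n) (Fin n) k) - 1))) : NoIso ρ J := by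
  intro I hI hiso
  have hE : Equi ρ₀ J₀ := ⟨c, hc₀⟩
  have hss : IsSemisimpleModule k[G] (rp ρ₀).asModule := semis_module
    (fun U hU => ⟨orth J₀ U, orth_stable hE hU, isCompl_orth hE hno hU⟩)
  have hfd : ∀ ρ : G →* GL (Fin n) k, FiniteDimensional k (rp ρ).asModule := fun ρ =>
    inferInstanceAs (FiniteDimensional k (Fin n → k))
  have hfr : ∀ ρ : G →* GL (Fin n) k, finrank k (rp ρ).asModule = n := fun ρ =>
    finrank_fin_fun k
  have := hfd ρ
  have := hfd ρ₀
  -- the element
  let ν : k[G] := MonoidAlgebra.single g 1 - 1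
  have hact : act k (rp ρ₀).asModule ν =
      Matrix.toLin' ((ρ₀ g : Matrix (Fin n) (Fin n) k) - 1) := by
    refine LinearMap.ext fun x => ?_
    rw [act_apply]
    show (MonoidAlgebra.single g 1 - 1 : k[G]) • x = _
    rw [sub_smul, one_smul, Representation.single_smul, one_smul, map_sub, Matrix.toLin'_one]
    rfl
  have hnil' : IsNilpotent (act k (rp ρ₀).asModule ν) := by
    rw [hact]
    obtain ⟨m, hm⟩ := hnil
    refine ⟨m, ?_⟩
    show (Matrix.toLin' ((ρ₀ g : Matrix (Fin n) (Fin n) k) - 1) : End k (Fin n → k)) ^ m = 0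
    rw [← Matrix.toLin'_pow, hm, map_zero]
  have hD' : Dist (act k (rp ρ₀).asModule ν) := by
    rw [hact]
    exact hD
  have key := noiso_abs (k := k) (A := k[G]) (M₀ := (rp ρ₀).asModule) (M := (rp ρ).asModule)
    ((hfr ρ).trans (hfr ρ₀).symm) (by rw [hfr]; exact hn) (fun a => trc_asModule ρ ρ₀ htr a)
    (B₀ := bm ρ₀ J₀) (B := bm ρ J) (bm_left hJ₀) (bm_left hJ) (by
      intro a
      induction a using MonoidAlgebra.induction_linear with
      | zero => exact ⟨0, fun x y => by rw [zero_smul, zero_smul, map_zero, map_zero,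
          LinearMap.zero_apply], fun x y => by rw [zero_smul, zero_smul, map_zero, map_zero,
          LinearMap.zero_apply]⟩
      | add a b ha hb =>
        obtain ⟨a', ha1, ha2⟩ := ha
        obtain ⟨b', hb1, hb2⟩ := hb
        refine ⟨a' + b', fun x y => ?_, fun x y => ?_⟩
        · rw [add_smul, add_smul, map_add, map_add, LinearMap.add_apply, ha1, hb1]
        · rw [add_smul, add_smul, map_add, map_add, LinearMap.add_apply, ha2, hb2]
      | single g t => exact ⟨_, adj_single hc g t, adj_single hc₀ g t⟩) (by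
      intro W
      let Wk : Submodule k (Fin n → k) := W.restrictScalars k
      have hWk : IsStable ρ₀ Wk := by
        intro g u hu
        have h1 : MonoidAlgebra.single g (1 : k) • ((rp ρ₀).asModuleEquiv.symm u) ∈ W :=
          W.smul_mem _ hu
        rw [Representation.single_smul, one_smul] at h1
        exact h1
      have h2 := isCompl_orth hE hno hWk
      refine ⟨toA ρ₀ (orth J₀ Wk) (orth_stable hE hWk), ?_, ?_⟩
      · constructor
        · rw [Submodule.disjoint_def]
          intro x hx hx'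
          exact (Submodule.disjoint_def.1 h2.disjoint) x hx hx'
        · rw [codisjoint_iff, Submodule.eq_top_iff']
          intro x
          have h3 : ((rp ρ₀).asModuleEquiv x) ∈ Wk ⊔ orth J₀ Wk := by
            rw [h2.sup_eq_top]
            exact Submodule.mem_top
          obtain ⟨y, hy, z, hz, h4⟩ := Submodule.mem_sup.1 h3
          exact Submodule.mem_sup.2 ⟨y, hy, z, hz, h4⟩
      · intro x hx y hy
        rw [bm_apply, bf_apply]
        exact hy x hx) hnil' hD' (toA ρ I hI) (by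
      intro x hx y hy
      rw [bm_apply, bf_apply]
      exact hiso _ hx _ hy)
  rw [Submodule.eq_bot_iff] at key ⊢
  intro x hx
  exact key ((rp ρ).asModuleEquiv.symm x) hx

end Pool.Agent.D0H1.SF
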